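import Pool.Agent.P.MP_a1177c_nt.HL.Defs

namespace Pool.Agent.P.MP_a1177c_nt.HL

open Polynomial Finset
open scoped Classical

variable {K : Type*} [Field K] [Fintype K] [CharP K 2]

/-- the Artin-Schreier map -/
private def psiHom (K : Type*) [Field K] [CharP K 2] : K →+ K where
  toFun γ := γ ^ 2 + γ
  map_zero' := by simp
  map_add' x y := by rw [CharTwo.add_sq]; ring

private theorem psiHom_index : (psiHom K).range.index = 2 := by
  have hker : ((psiHom K).ker : Set K) = {0, 1} := by
    ext γ
    simp only [SetLike.mem_coe, AddMonoidHom.mem_ker, Set.mem_insert_iff, Set.mem_singleton_iff]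
    show γ ^ 2 + γ = 0 ↔ _
    have h : γ ^ 2 + γ = γ * (γ - 1) := by rw [CharTwo.sub_eq_add]; ring
    rw [h, mul_eq_zero, sub_eq_zero]
  have h1 : Nat.card (psiHom K).ker = 2 := by
    have : Nat.card (psiHom K).ker = ((psiHom K).ker : Set K).ncard := rfl
    rw [this, hker, Set.ncard_pair zero_ne_one]
  have h2 := AddSubgroup.card_mul_index (psiHom K).ker
  have h3 := AddSubgroup.card_mul_index (psiHom K).range
  rw [AddSubgroup.index_ker, h1, ← h3, mul_comm] at h2
  exact (Nat.eq_of_mul_eq_mul_left Nat.card_pos h2).symm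

private theorem psi_eq (c : K) : psi c = if c ∈ (psiHom K).range then 1 else -1 := by
  unfold psi
  by_cases h : c ∈ (psiHom K).range
  · rw [if_pos h]
    exact if_pos h
  · rw [if_neg h]
    exact if_neg h

omit [Fintype K] [CharP K 2] in
theorem psi_zero : psi (0 : K) = 1 := by
  unfold psi
  exact if_pos ⟨0, by simp⟩

omit [Fintype K] [CharP K 2] in
theorem psi_mul_self (c : K) : psi c * psi c = 1 := by
  unfold psi
  split_ifs <;> norm_num

omit [Fintype K] [CharP K 2] in
theorem abs_psi (c : K) : |psi c| = 1 := by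
  unfold psi
  split_ifs <;> norm_num

omit [Fintype K] [CharP K 2] in
theorem psi_eq_or (c : K) : psi c = 1 ∨ psi c = -1 := by
  unfold psi
  split_ifs
  · exact Or.inl rfl
  · exact Or.inr rfl

theorem psi_add (c c' : K) : psi (c + c') = psi c * psi c' := by
  have h := AddSubgroup.add_mem_iff_of_index_two (psiHom_index (K := K)) (a := c) (b := c')
  rw [psi_eq, psi_eq, psi_eq]
  by_cases h1 : c ∈ (psiHom K).range <;> by_cases h2 : c' ∈ (psiHom K).range <;>
    simp only [h, h1, h2] <;> norm_num

theorem psi_sq (c : K) : psi (c ^ 2) = psi c := by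
  have h : c ^ 2 = (c ^ 2 + c) + c := by rw [add_assoc, CharTwo.add_self_eq_zero, add_zero]
  have h2 : psi (c ^ 2 + c) = 1 := by
    unfold psi
    exact if_pos ⟨c, rfl⟩
  rw [h, psi_add, h2, one_mul]

theorem exists_psi_eq_neg : ∃ c : K, psi c = -1 := by
  by_contra h
  have h1 : (psiHom K).range = ⊤ := by
    rw [eq_top_iff]
    intro c _
    by_contra hc
    exact h ⟨c, by rw [psi_eq, if_neg hc]⟩
  have h2 := psiHom_index (K := K)
  rw [h1, AddSubgroup.index_top] at h2
  exact absurd h2 (by norm_num)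

omit [Fintype K] [CharP K 2] in
theorem lam_mul {g h : K[X]} (hg : g ≠ 0) (hh : h ≠ 0) : lam (g * h) = lam g * lam h := by
  unfold lam
  rw [Multiset.card_eq_card_of_rel (UniqueFactorizationMonoid.factors_mul hg hh),
    Multiset.card_add, pow_add]

omit [Fintype K] [CharP K 2] in
theorem lam_of_irreducible {g : K[X]} (hg : Irreducible g) : lam g = -1 := by
  unfold lam
  rw [UniqueFactorizationMonoid.card_factors_of_irreducible hg, pow_one]

omit [Fintype K] [CharP K 2] in
theorem lam_one : lam (1 : K[X]) = 1 := by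
  unfold lam
  rw [UniqueFactorizationMonoid.factors_one, Multiset.card_zero, pow_zero]

omit [Fintype K] [CharP K 2] in
theorem lam_mul_self (g : K[X]) : lam g * lam g = 1 := by
  unfold lam
  rw [← mul_pow]
  norm_num

omit [Fintype K] [CharP K 2] in
theorem abs_lam (g : K[X]) : |lam g| = 1 := by
  unfold lam
  rw [abs_pow]
  norm_num

omit [Fintype K] [CharP K 2] in
theorem abs_mu_le (g : K[X]) : |mu g| ≤ 1 := by
  unfold mu
  split_ifs
  · exact (abs_lam g).le
  · norm_num

omit [Fintype K] [CharP K 2] in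
theorem mu_one : mu (1 : K[X]) = 1 := by
  unfold mu
  rw [if_pos squarefree_one, lam_one]

omit [Fintype K] [CharP K 2] in
theorem mu_irreducible_mul {π : K[X]} (hπ : Irreducible π) (g : K[X]) :
    mu (π * g) = if π ∣ g then 0 else -mu g := by
  unfold mu
  by_cases h : π ∣ g
  · rw [if_pos h, if_neg]
    intro h2
    exact hπ.not_isUnit (h2 π (mul_dvd_mul_left π h))
  · have hg : g ≠ 0 := fun h0 => h (h0 ▸ dvd_zero π)
    rw [if_neg h, lam_mul hπ.ne_zero hg, lam_of_irreducible hπ]
    by_cases h2 : Squarefree g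
    · rw [if_pos h2, if_pos, neg_one_mul]
      exact squarefree_mul_iff.2 ⟨hπ.isRelPrime_iff_not_dvd.2 h, hπ.squarefree, h2⟩
    · rw [if_neg h2, if_neg, neg_zero]
      exact fun h3 => h2 h3.of_mul_right

end Pool.Agent.P.MP_a1177c_nt.HL
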