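import Pool.Agent.P.MP_a1177c_nt.HL.Basic
import Pool.Agent.P.MP_a1177c_nt.HL.Psi

namespace Pool.Agent.P.MP_a1177c_nt.HL

open Polynomial Finset
open scoped Classical

variable {K : Type*} [Field K] [Fintype K] [CharP K 2]

/-- monic divisors -/
private noncomputable def mobT {K : Type*} [Field K] [Fintype K] (f : K[X]) : Finset K[X] :=
  (Pl K (f.natDegree + 1)).filter fun g => g.Monic ∧ g ∣ f

omit [CharP K 2] in
private theorem mem_mobT {f g : K[X]} (hf : f ≠ 0) : g ∈ mobT f ↔ g.Monic ∧ g ∣ f := by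
  rw [mobT, mem_filter, mem_Pl]
  refine ⟨fun h => h.2, fun h => ⟨?_, h⟩⟩
  rw [degree_eq_natDegree h.1.ne_zero]
  exact_mod_cast Nat.lt_succ_of_le (natDegree_le_of_dvd h.2 hf)

omit [CharP K 2] in
private theorem mob_fiber {f : K[X]} (hf : f ≠ 0) {n : ℕ} (hn : f.natDegree ≤ n)
    (Q : K[X] → Prop) [DecidablePred Q] [DecidablePred fun g => g ∣ f ∧ Q g]
    (H : ℕ → K[X] → ℝ) :
    ∑ N ∈ range (n + 1), ∑ g ∈ (Mn K N).filter (fun g => g ∣ f ∧ Q g), H N g =
      ∑ g ∈ (mobT f).filter Q, H g.natDegree g := by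
  rw [← sum_fiberwise_of_maps_to (s := (mobT f).filter Q) (t := range (n + 1))
    (g := fun g => g.natDegree)]
  · refine sum_congr rfl fun N _ => sum_congr ?_ fun g hg => ?_
    · ext g
      simp only [mem_filter, mem_Mn, mem_mobT hf]
      tauto
    · rw [(mem_filter.1 hg).2]
  · intro g hg
    have h := (mem_mobT hf).1 (mem_filter.1 hg).1
    exact mem_range.2 (Nat.lt_succ_of_le ((natDegree_le_of_dvd h.2 hf).trans hn))

omit [CharP K 2] in
private theorem mob_pair {f : K[X]} (hf : f ≠ 0) {π : K[X]} (hπ : π.Monic) (hi : Irreducible π)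
    (hd : π ∣ f) (Q : K[X] → Prop) [DecidablePred Q] (hQ : ∀ g, Q (π * g) ↔ Q g)
    (h : K[X] → ℝ) :
    ∑ g ∈ (mobT f).filter Q, mu g * h g =
      ∑ g ∈ ((mobT f).filter Q).filter (fun g => ¬ π ∣ g), mu g * (h g - h (π * g)) := by
  set S := (mobT f).filter Q with hS
  have hmem : ∀ g, g ∈ S ↔ (g.Monic ∧ g ∣ f) ∧ Q g := fun g => by
    rw [hS, mem_filter, mem_mobT hf]
  have h1 : ∑ g ∈ S.filter (fun g => π ∣ g), mu g * h g =
      ∑ g ∈ S.filter (fun g => ¬ π ∣ g), mu (π * g) * h (π * g) := by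
    rw [← sum_image (s := S.filter (fun g => ¬ π ∣ g)) (g := fun g => π * g)
      (f := fun g => mu g * h g) (fun x _ y _ hxy => mul_left_cancel₀ hπ.ne_zero hxy)]
    symm
    refine sum_subset (fun g hg => ?_) (fun g hg hg' => ?_)
    · obtain ⟨g', hg', rfl⟩ := mem_image.1 hg
      obtain ⟨h2, h3⟩ := mem_filter.1 hg'
      obtain ⟨⟨h4, h5⟩, h6⟩ := (hmem _).1 h2
      refine mem_filter.2 ⟨(hmem _).2 ⟨⟨hπ.mul h4, ?_⟩, (hQ _).2 h6⟩, dvd_mul_right _ _⟩
      exact ((hi.coprime_iff_not_dvd).2 h3).mul_dvd hd h5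
    · obtain ⟨h2, g', rfl⟩ := mem_filter.1 hg
      obtain ⟨⟨h4, h5⟩, h6⟩ := (hmem _).1 h2
      by_cases h3 : π ∣ g'
      · rw [mu_irreducible_mul hi, if_pos h3, zero_mul]
      · refine absurd (mem_image.2 ⟨g', mem_filter.2 ⟨(hmem _).2 ⟨⟨hπ.of_mul_monic_left h4,
          (dvd_mul_left _ _).trans h5⟩, (hQ _).1 h6⟩, h3⟩, rfl⟩) hg'
  rw [← sum_filter_add_sum_filter_not S (fun g => π ∣ g), h1, ← sum_add_distrib]
  refine sum_congr rfl fun g hg => ?_
  rw [mu_irreducible_mul hi, if_neg (mem_filter.1 hg).2]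
  ring

omit [CharP K 2] in
private theorem mob_zero {f : K[X]} (hf : f ≠ 0) {π : K[X]} (hπ : π.Monic) (hi : Irreducible π)
    (hd : π ∣ f) (Q : K[X] → Prop) [DecidablePred Q] (hQ : ∀ g, Q (π * g) ↔ Q g) :
    ∑ g ∈ (mobT f).filter Q, mu g = 0 := by
  have := mob_pair hf hπ hi hd Q hQ (fun _ => 1)
  simpa using this

omit [CharP K 2] in
/-- `f` has a prime factor `π` that does not divide `M`: the Moebius sum over the divisors of `f`
prime to `M` vanishes -/
theorem sum_mu_dvd_eq_zero {f : K[X]} (hf : f ≠ 0) {n : ℕ} (hn : f.natDegree ≤ n) {π M : K[X]}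
    (hπ : π.Monic) (hi : Irreducible π) (hd : π ∣ f) (hM : IsCoprime π M) :
    ∑ N ∈ range (n + 1), ∑ g ∈ (Mn K N).filter (fun g => g ∣ f ∧ IsCoprime g M), mu g = 0 := by
  rw [mob_fiber hf hn (fun g => IsCoprime g M) (fun _ g => mu g)]
  exact mob_zero hf hπ hi hd _ fun g => by
    rw [IsCoprime.mul_left_iff]; exact ⟨fun h => h.2, fun h => ⟨hM, h⟩⟩

omit [CharP K 2] in
private theorem vm_eq {f : K[X]} (hf : f ≠ 0) {π : K[X]} (hπ : π.Monic) (hi : Irreducible π)
    (hd : π ∣ f) :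
    vm f f.natDegree = π.natDegree * ∑ g ∈ (mobT f).filter (fun g => ¬ π ∣ g), mu g := by
  have h1 := mob_fiber hf le_rfl (fun _ => True) (fun N g => mu g * (N : ℝ))
  have h2 := mob_pair hf hπ hi hd (fun _ => True) (fun _ => Iff.rfl) (fun g => (g.natDegree : ℝ))
  simp only [and_true, filter_true] at h1 h2
  have h3 : vm f f.natDegree = -∑ N ∈ range (f.natDegree + 1),
      ∑ g ∈ (Mn K N).filter (fun g => g ∣ f), mu g * (N : ℝ) := by
    rw [vm]
    congr 1
    refine sum_congr rfl fun N _ => ?_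
    rw [mul_comm, sum_mul]
  rw [h3, h1, h2, mul_sum, ← sum_neg_distrib]
  refine sum_congr rfl fun g hg => ?_
  have h4 := (mem_mobT hf).1 (mem_filter.1 hg).1
  rw [hπ.natDegree_mul h4.1]
  push_cast
  ring

omit [CharP K 2] in
private theorem vm_pow {π : K[X]} (hπ : π.Monic) (hi : Irreducible π) {e : ℕ} (he : e ≠ 0) :
    vm (π ^ e) (π ^ e).natDegree = π.natDegree := by
  have hf : π ^ e ≠ 0 := pow_ne_zero _ hπ.ne_zero
  have h : (mobT (π ^ e)).filter (fun g => ¬ π ∣ g) = {1} := by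
    ext g
    rw [mem_filter, mem_mobT hf, mem_singleton]
    constructor
    · rintro ⟨⟨h1, h2⟩, h3⟩
      have h4 : IsCoprime g (π ^ e) := ((hi.coprime_iff_not_dvd).2 h3).symm.pow_right
      exact h1.eq_one_of_isUnit (h4.isUnit_of_dvd h2)
    · rintro rfl
      exact ⟨⟨monic_one, one_dvd _⟩, fun h => hi.not_isUnit (isUnit_of_dvd_one h)⟩
  rw [vm_eq hf hπ hi (dvd_pow_self π he), h, sum_singleton, mu_one, mul_one]

omit [CharP K 2] in
theorem vm_of_irreducible {f : K[X]} (hf : f.Monic) (hi : Irreducible f) :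
    vm f f.natDegree = f.natDegree := by
  have := vm_pow hf hi one_ne_zero
  rwa [pow_one] at this

omit [CharP K 2] in
theorem vm_of_not_irreducible {f : K[X]} (hf : f.Monic) (hi : ¬ Irreducible f) :
    vm f f.natDegree = 0 ∨ ∃ (π : K[X]) (e : ℕ), π.Monic ∧ Irreducible π ∧ 2 ≤ e ∧ f = π ^ e ∧
      vm f f.natDegree = π.natDegree := by
  by_cases hu : IsUnit f
  · left
    rw [hf.eq_one_of_isUnit hu]
    simp [vm]
  obtain ⟨π, hπ, hπi, hd⟩ := exists_monic_irreducible_factor f hu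
  obtain ⟨e, f', h1, h2⟩ := WfDvdMonoid.max_power_factor hf.ne_zero hπi
  by_cases hu' : IsUnit f'
  · right
    have hm : f'.Monic := (hπ.pow e).of_mul_monic_left (h2 ▸ hf)
    rw [hm.eq_one_of_isUnit hu', mul_one] at h2
    have he0 : e ≠ 0 := by
      rintro rfl
      exact hu (by rw [h2, pow_zero]; exact isUnit_one)
    have he1 : e ≠ 1 := by
      rintro rfl
      exact hi (by rw [h2, pow_one]; exact hπi)
    exact ⟨π, e, hπ, hπi, by omega, h2, by rw [h2]; exact vm_pow hπ hπi he0⟩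
  · left
    obtain ⟨ρ, hρ, hρi, hρd⟩ := exists_monic_irreducible_factor f' hu'
    rw [vm_eq hf.ne_zero hπ hπi hd,
      mob_zero hf.ne_zero hρ hρi (h2 ▸ hρd.mul_left _) (fun g => ¬ π ∣ g), mul_zero]
    intro g
    refine not_congr ⟨fun h => ?_, fun h => h.mul_left _⟩
    exact (hπi.prime.dvd_or_dvd h).resolve_left fun h' => h1 (h'.trans hρd)

omit [CharP K 2] in
private theorem mob_conv (N : ℕ) (hN : N ≠ 0) :
    ∑ i ∈ range (N + 1), (∑ g ∈ Mn K i, mu g) * (Fintype.card K : ℝ) ^ (N - i) = 0 := by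
  have h1 : ∑ f ∈ Mn K N, ∑ i ∈ range (N + 1),
      ∑ g ∈ (Mn K i).filter (fun g => g ∣ f ∧ IsCoprime g 1), mu g = 0 := by
    refine sum_eq_zero fun f hf => ?_
    obtain ⟨hm, hd⟩ := mem_Mn.1 hf
    have hu : ¬ IsUnit f := fun h => hN (by rw [← hd, hm.eq_one_of_isUnit h, natDegree_one])
    obtain ⟨π, hπ, hπi, hπd⟩ := exists_monic_irreducible_factor f hu
    exact sum_mu_dvd_eq_zero hm.ne_zero hd.le hπ hπi hπd isCoprime_one_right
  rw [← h1, sum_comm]
  refine sum_congr rfl fun i hi => ?_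
  simp only [sum_filter]
  rw [sum_comm, sum_mul]
  refine sum_congr rfl fun g hg => ?_
  obtain ⟨hm, hd⟩ := mem_Mn.1 hg
  have h2 := card_Mn_dvd_eq hm (n := N) (by rw [hd]; exact Nat.lt_succ_iff.1 (mem_range.1 hi)) 0
  rw [← sum_filter, sum_const, nsmul_eq_mul, mul_comm]
  congr 1
  rw [hd] at h2
  rw [← Nat.cast_pow, ← h2]
  congr 2
  ext f
  simp [isCoprime_one_right]

omit [CharP K 2] in
theorem sum_mu_Mn (N : ℕ) : ∑ g ∈ Mn K N, mu g =
    if N = 0 then 1 else if N = 1 then -(Fintype.card K : ℝ) else 0 := by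
  have h0 : ∑ g ∈ Mn K 0, mu g = 1 := by
    have : Mn K 0 = {1} := by
      ext g
      rw [mem_Mn, mem_singleton]
      exact ⟨fun h => h.1.natDegree_eq_zero.1 h.2, fun h => by
        rw [h]; exact ⟨monic_one, natDegree_one⟩⟩
    rw [this, sum_singleton, mu_one]
  cases N with
  | zero => simpa using h0
  | succ N =>
    have h1 := mob_conv (K := K) (N + 1) (by omega)
    rw [sum_range_succ, Nat.sub_self, pow_zero, mul_one] at h1
    have h2 : ∑ i ∈ range (N + 1), (∑ g ∈ Mn K i, mu g) * (Fintype.card K : ℝ) ^ (N + 1 - i) =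
        (∑ i ∈ range (N + 1), (∑ g ∈ Mn K i, mu g) * (Fintype.card K : ℝ) ^ (N - i)) *
          Fintype.card K := by
      rw [sum_mul]
      refine sum_congr rfl fun i hi => ?_
      have : N + 1 - i = N - i + 1 := by have := mem_range.1 hi; omega
      rw [this, pow_succ, mul_assoc]
    rw [h2] at h1
    by_cases hN : N = 0
    · subst hN
      simp only [zero_add, range_one, sum_singleton, h0] at h1
      simp only [zero_add, one_ne_zero, if_false, if_true]
      simp at h1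
      linarith
    · rw [mob_conv N hN] at h1
      rw [if_neg (by omega), if_neg (by omega)]
      linarith

end Pool.Agent.P.MP_a1177c_nt.HL
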