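import Pool.Agent.P.MP_a1177c_nt.HL.Defs

namespace Pool.Agent.P.MP_a1177c_nt.HL

open Polynomial Finset
open scoped Classical

variable {K : Type*} [Field K] [Fintype K] [CharP K 2]

omit [CharP K 2] in
theorem mem_Pl {n : ℕ} {g : K[X]} : g ∈ Pl K n ↔ g.degree < n := by
  simp [Pl]

omit [CharP K 2] in
theorem mem_Mn {n : ℕ} {g : K[X]} : g ∈ Mn K n ↔ g.Monic ∧ g.natDegree = n := by
  rw [Mn, mem_filter, mem_Pl]
  refine ⟨fun h => h.2, fun h => ⟨?_, h⟩⟩
  refine degree_le_natDegree.trans_lt ?_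
  rw [h.2]
  exact_mod_cast Nat.lt_succ_self n

omit [CharP K 2] in
theorem mem_pf {p π : K[X]} (hp : p ≠ 0) :
    π ∈ pf p ↔ π.Monic ∧ Irreducible π ∧ π ∣ p := by
  rw [pf, mem_filter, mem_Pl]
  refine ⟨fun h => h.2, fun h => ⟨?_, h⟩⟩
  refine degree_le_natDegree.trans_lt ?_
  exact_mod_cast Nat.lt_succ_of_le (natDegree_le_of_dvd h.2.2 hp)

omit [CharP K 2] in
theorem card_Pl (n : ℕ) : (Pl K n).card = Fintype.card K ^ n := by
  have h1 : (Pl K n).card = Nat.card (degreeLT K n) := by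
    rw [← Nat.card_eq_finsetCard]
    exact Nat.card_congr (Equiv.subtypeEquivRight fun g => by rw [mem_Pl, mem_degreeLT])
  rw [h1, Nat.card_congr (degreeLTEquiv K n).toEquiv, Nat.card_eq_fintype_card, Fintype.card_fun,
    Fintype.card_fin]

omit [CharP K 2] in
theorem Pl_mono {n n' : ℕ} (h : n ≤ n') : Pl K n ⊆ Pl K n' := by
  intro g hg
  rw [mem_Pl] at hg ⊢
  exact hg.trans_le (by exact_mod_cast h)

omit [CharP K 2] in
theorem add_mem_Pl {n : ℕ} {g h : K[X]} (hg : g ∈ Pl K n) (hh : h ∈ Pl K n) :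
    g + h ∈ Pl K n := by
  rw [mem_Pl] at hg hh ⊢
  exact (degree_add_le g h).trans_lt (max_lt hg hh)

omit [CharP K 2] in
theorem sum_Mn_eq (n : ℕ) (F : K[X] → ℝ) :
    ∑ g ∈ Mn K n, F g = ∑ w ∈ Pl K n, F (X ^ n + w) := by
  symm
  refine sum_nbij' (fun w => X ^ n + w) (fun g => g - X ^ n) (fun w hw => ?_) (fun g hg => ?_)
    (fun w _ => by ring) (fun g _ => by ring) (fun _ _ => rfl)
  · rw [mem_Pl] at hw
    rw [mem_Mn]
    refine ⟨monic_X_pow_add hw, ?_⟩
    rw [natDegree_add_eq_left_of_degree_lt (by rwa [degree_X_pow]), natDegree_X_pow]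
  · obtain ⟨h1, h2⟩ := mem_Mn.1 hg
    have h3 : g.degree = n := by rw [degree_eq_natDegree h1.ne_zero, h2]
    rw [mem_Pl, ← h3]
    exact degree_sub_lt_left (by rw [h3, degree_X_pow]) h1.ne_zero
      (by rw [h1.leadingCoeff, leadingCoeff_X_pow])

omit [CharP K 2] in
theorem card_Mn (n : ℕ) : (Mn K n).card = Fintype.card K ^ n := by
  have h := sum_Mn_eq (K := K) n fun _ => 1
  simp only [sum_const, nsmul_eq_mul, mul_one, Nat.cast_inj] at h
  rw [h, card_Pl]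

omit [CharP K 2] in
theorem sum_Pl_shift {n : ℕ} {w : K[X]} (hw : w ∈ Pl K n) (F : K[X] → ℝ) :
    ∑ v ∈ Pl K n, F (v + w) = ∑ v ∈ Pl K n, F v := by
  have hw' : -w ∈ Pl K n := by rwa [mem_Pl, degree_neg, ← mem_Pl]
  exact sum_nbij' (fun v => v + w) (fun v => v + -w) (fun v hv => add_mem_Pl hv hw)
    (fun v hv => add_mem_Pl hv hw') (fun v _ => by ring) (fun v _ => by ring) (fun _ _ => rfl)

omit [CharP K 2] in
theorem sum_Mn_shift {n : ℕ} {w : K[X]} (hw : w ∈ Pl K n) (F : K[X] → ℝ) :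
    ∑ v ∈ Mn K n, F (v + w) = ∑ v ∈ Mn K n, F v := by
  rw [sum_Mn_eq, sum_Mn_eq, ← sum_Pl_shift hw fun v => F (X ^ n + v)]
  simp only [add_assoc]

omit [CharP K 2] in
theorem sum_Pl_divmod {G : K[X]} (hG : G.Monic) (j : ℕ) (F : K[X] → ℝ) :
    ∑ g ∈ Pl K (G.natDegree + j), F g =
      ∑ b ∈ Pl K G.natDegree, ∑ u ∈ Pl K j, F (b + G * u) := by
  rw [← sum_product']
  have hd : G.degree = G.natDegree := degree_eq_natDegree hG.ne_zero
  symm
  refine sum_nbij' (fun z => z.1 + G * z.2) (fun g => (g %ₘ G, g /ₘ G)) (fun z hz => ?_)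
    (fun g hg => ?_) (fun z hz => ?_) (fun g _ => modByMonic_add_div g G) (fun _ _ => rfl)
  · obtain ⟨h1, h2⟩ := mem_product.1 hz
    refine add_mem_Pl (Pl_mono (Nat.le_add_right _ _) h1) ?_
    rw [mem_Pl] at h2 ⊢
    rw [degree_mul, hd, Nat.cast_add]
    exact WithBot.add_lt_add_left (WithBot.natCast_ne_bot _) h2
  · refine mem_product.2 ⟨?_, ?_⟩
    · rw [mem_Pl, ← hd]; exact degree_modByMonic_lt g hG
    · rw [mem_Pl] at hg ⊢
      by_cases h0 : g /ₘ G = 0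
      · rw [h0, degree_zero]; exact WithBot.bot_lt_coe _
      · have h1 : G.degree ≤ g.degree := not_lt.1 fun h => h0 ((divByMonic_eq_zero_iff hG).2 h)
        have h2 := degree_add_divByMonic hG h1
        rw [← h2, hd, Nat.cast_add] at hg
        exact (WithBot.add_lt_add_iff_left (WithBot.natCast_ne_bot _)).1 hg
  · obtain ⟨h1, _⟩ := mem_product.1 hz
    rw [mem_Pl, ← hd] at h1
    obtain ⟨a1, a2⟩ := div_modByMonic_unique z.2 z.1 hG ⟨rfl, h1⟩
    exact Prod.ext a2 a1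

omit [CharP K 2] in
theorem sum_Mn_divmod {G : K[X]} (hG : G.Monic) (j : ℕ) (F : K[X] → ℝ) :
    ∑ g ∈ Mn K (G.natDegree + j), F g =
      ∑ b ∈ Pl K G.natDegree, ∑ u ∈ Mn K j, F (b + G * u) := by
  have hd : G.degree = G.natDegree := degree_eq_natDegree hG.ne_zero
  have h1 : G * X ^ j - X ^ (G.natDegree + j) ∈ Pl K (G.natDegree + j) := by
    have h2 : (G * X ^ j).degree = ((G.natDegree + j : ℕ) : WithBot ℕ) := by
      rw [degree_mul, hd, degree_X_pow, Nat.cast_add]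
    have h3 := hG.mul (monic_X_pow j)
    rw [mem_Pl, ← h2]
    exact degree_sub_lt_left (by rw [h2, degree_X_pow]) h3.ne_zero
      (by rw [h3.leadingCoeff, leadingCoeff_X_pow])
  rw [sum_Mn_eq, ← sum_Pl_shift h1 fun v => F (X ^ (G.natDegree + j) + v), sum_Pl_divmod hG]
  refine sum_congr rfl fun b _ => ?_
  rw [sum_Mn_eq]
  refine sum_congr rfl fun u _ => ?_
  congr 1
  ring

omit [CharP K 2] in
theorem basic_ind {G : K[X]} (hG : G.Monic) (r : K[X]) (T : Finset K[X]) :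
    ∑ b ∈ Pl K G.natDegree, ∑ u ∈ T, (if G ∣ b + G * u - r then (1 : ℝ) else 0) = T.card := by
  have hd : G.degree = G.natDegree := degree_eq_natDegree hG.ne_zero
  have hiff : ∀ b u : K[X], G ∣ b + G * u - r ↔ G ∣ b - r %ₘ G := by
    intro b u
    have e : b + G * u - r = (b - r %ₘ G) + G * (u - r /ₘ G) := by
      linear_combination modByMonic_add_div r G
    rw [e]
    exact dvd_add_left (dvd_mul_right _ _)
  simp only [hiff]
  have hr : r %ₘ G ∈ Pl K G.natDegree := by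
    rw [mem_Pl, ← hd]; exact degree_modByMonic_lt r hG
  rw [sum_eq_single (r %ₘ G)]
  · simp
  · intro b hb hne
    refine sum_eq_zero fun u _ => if_neg fun h => hne ?_
    rw [← sub_eq_zero]
    refine eq_zero_of_dvd_of_degree_lt h ?_
    rw [hd]
    exact (degree_sub_le _ _).trans_lt (max_lt (mem_Pl.1 hb) (mem_Pl.1 hr))
  · intro h; exact absurd hr h

omit [CharP K 2] in
theorem card_Pl_dvd_eq {G : K[X]} (hG : G.Monic) {n : ℕ} (hn : G.natDegree ≤ n) (r : K[X]) :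
    ((Pl K n).filter fun g => G ∣ g - r).card = Fintype.card K ^ (n - G.natDegree) := by
  have h := sum_Pl_divmod hG (n - G.natDegree) fun g => if G ∣ g - r then 1 else 0
  rw [Nat.add_sub_cancel' hn, basic_ind hG, card_Pl, sum_boole] at h
  exact_mod_cast h

omit [CharP K 2] in
theorem card_Mn_dvd_eq {G : K[X]} (hG : G.Monic) {n : ℕ} (hn : G.natDegree ≤ n) (r : K[X]) :
    ((Mn K n).filter fun g => G ∣ g - r).card = Fintype.card K ^ (n - G.natDegree) := by
  have h := sum_Mn_divmod hG (n - G.natDegree) fun g => if G ∣ g - r then 1 else 0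
  rw [Nat.add_sub_cancel' hn, basic_ind hG, card_Mn, sum_boole] at h
  exact_mod_cast h

omit [CharP K 2] in
/-- a subset of `Pl K n` lying in one residue class modulo `G` -/
theorem card_le_of_Pl {G : K[X]} (hG : G ≠ 0) {n : ℕ} {S : Finset K[X]} (hS : S ⊆ Pl K n)
    (h : ∀ g ∈ S, ∀ g' ∈ S, G ∣ g - g') : S.card ≤ Fintype.card K ^ (n - G.natDegree) := by
  rcases S.eq_empty_or_nonempty with rfl | ⟨r, hr⟩
  · simp
  by_cases hn : G.natDegree ≤ n
  · have hm := monic_mul_leadingCoeff_inv hG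
    have hdeg : (G * C G.leadingCoeff⁻¹).natDegree = G.natDegree :=
      natDegree_mul_leadingCoeff_inv G hG
    rw [← hdeg, ← card_Pl_dvd_eq hm (hdeg ▸ hn) r]
    refine card_le_card fun g hg => mem_filter.2 ⟨hS hg, ?_⟩
    exact (IsUnit.mul_right_dvd (isUnit_C.2 (IsUnit.mk0 _
      (inv_ne_zero (leadingCoeff_ne_zero.2 hG))))).2 (h g hg r hr)
  · rw [Nat.sub_eq_zero_of_le (not_le.1 hn).le, pow_zero, card_le_one]
    intro g hg g' hg'
    rw [← sub_eq_zero]
    refine eq_zero_of_dvd_of_degree_lt (h g hg g' hg') ?_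
    rw [degree_eq_natDegree hG]
    refine ((degree_sub_le g g').trans_lt (max_lt (mem_Pl.1 (hS hg)) (mem_Pl.1 (hS hg')))).trans ?_
    exact_mod_cast not_le.1 hn

omit [CharP K 2] in
/-- a subset of `Mn K n` lying in one residue class modulo `G` -/
theorem card_le_of_Mn {G : K[X]} (hG : G ≠ 0) {n : ℕ} {S : Finset K[X]} (hS : S ⊆ Mn K n)
    (h : ∀ g ∈ S, ∀ g' ∈ S, G ∣ g - g') : S.card ≤ Fintype.card K ^ (n - G.natDegree) := by
  have hinj : Function.Injective fun g : K[X] => g - X ^ n := sub_left_injective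
  rw [← card_image_of_injective S hinj]
  refine card_le_of_Pl hG (fun w hw => ?_) fun w hw w' hw' => ?_
  · obtain ⟨g, hg, rfl⟩ := mem_image.1 hw
    obtain ⟨h1, h2⟩ := mem_Mn.1 (hS hg)
    have h3 : g.degree = n := by rw [degree_eq_natDegree h1.ne_zero, h2]
    rw [mem_Pl, ← h3]
    exact degree_sub_lt_left (by rw [h3, degree_X_pow]) h1.ne_zero
      (by rw [h1.leadingCoeff, leadingCoeff_X_pow])
  · obtain ⟨g, hg, rfl⟩ := mem_image.1 hw
    obtain ⟨g', hg', rfl⟩ := mem_image.1 hw'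
    rw [sub_sub_sub_cancel_right]
    exact h g hg g' hg'

omit [CharP K 2] in
theorem abs_sum_Pl_le_of_cosets {J₁ J₀ : ℕ} (h : J₁ ≤ J₀) (F : K[X] → ℝ) (b : ℝ)
    (hb : ∀ v₀ ∈ Pl K J₀, |∑ v ∈ Pl K J₁, F (v₀ + v)| ≤ b * (Fintype.card K : ℝ) ^ J₁) :
    |∑ v ∈ Pl K J₀, F v| ≤ b * (Fintype.card K : ℝ) ^ J₀ := by
  have hq : (0 : ℝ) < (Fintype.card K : ℝ) ^ J₁ := by
    have : 0 < Fintype.card K := Fintype.card_pos
    positivity
  have h1 : ∑ v₀ ∈ Pl K J₀, ∑ v ∈ Pl K J₁, F (v₀ + v) =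
      (Fintype.card K : ℝ) ^ J₁ * ∑ v ∈ Pl K J₀, F v := by
    rw [sum_comm, sum_congr rfl fun v hv => sum_Pl_shift (Pl_mono h hv) F, sum_const, card_Pl,
      nsmul_eq_mul, Nat.cast_pow]
  have h2 := (abs_sum_le_sum_abs _ _).trans (sum_le_sum hb)
  rw [h1, sum_const, card_Pl, nsmul_eq_mul, Nat.cast_pow, abs_mul, abs_of_pos hq] at h2
  refine le_of_mul_le_mul_left (h2.trans (le_of_eq ?_)) hq
  ring

omit [CharP K 2] in
/-- a function that is multiplicative and takes the value `-1` has sum zero -/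
theorem sum_Pl_eq_zero {n : ℕ} (F : K[X] → ℝ)
    (hF : ∀ v ∈ Pl K n, ∀ w ∈ Pl K n, F (v + w) = F v * F w)
    {w : K[X]} (hw : w ∈ Pl K n) (h : F w = -1) : ∑ v ∈ Pl K n, F v = 0 := by
  have h1 := sum_Pl_shift hw F
  rw [sum_congr rfl fun v hv => hF v hv w hw, ← sum_mul, h] at h1
  linarith

end Pool.Agent.P.MP_a1177c_nt.HL
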