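import Pool.Agent.P.MP_a1177c_nt.HL.Basic

namespace Pool.Agent.P.MP_a1177c_nt.HL

open Polynomial Finset
open scoped Classical

variable {K : Type*} [Field K] [Fintype K] [CharP K 2]

omit [Fintype K] [CharP K 2] in
/-- a squarefree polynomial divides `h` as soon as all its irreducible divisors do -/
private theorem dvd_of_forall_irreducible (h : K[X]) (p : K[X]) :
    Squarefree p → (∀ π : K[X], Irreducible π → π ∣ p → π ∣ h) → p ∣ h := by
  induction p using WfDvdMonoid.induction_on_irreducible with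
  | zero => intro hs; exact absurd hs not_squarefree_zero
  | unit u hu => intro _ _; exact hu.dvd
  | mul a i _ hi ih =>
    intro hs hall
    rw [squarefree_mul_iff] at hs
    obtain ⟨hrel, _, hsa⟩ := hs
    exact hrel.mul_dvd (hall i hi (dvd_mul_right i a))
      (ih hsa fun π hπ hd => hall π hπ (hd.mul_left i))

omit [CharP K 2] in
private theorem dvd_of_forall_pf {p h : K[X]} (hsq : Squarefree p)
    (hall : ∀ π ∈ pf p, π ∣ h) : p ∣ h := by
  refine dvd_of_forall_irreducible h p hsq fun π hπ hd => ?_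
  have hass : Associated (normalize π) π := normalize_associated π
  have hmem : normalize π ∈ pf p := by
    rw [mem_pf hsq.ne_zero]
    exact ⟨monic_normalize hπ.ne_zero, hass.symm.irreducible hπ, hass.dvd.trans hd⟩
  exact hass.symm.dvd.trans (hall _ hmem)

omit [CharP K 2] in
private theorem eq_of_dvd_sub_of_mem_Pl {p β β' : K[X]} (hβ : β ∈ Pl K p.natDegree)
    (hβ' : β' ∈ Pl K p.natDegree) (hp : p ≠ 0) (h : p ∣ β - β') : β = β' := by
  rw [mem_Pl, ← degree_eq_natDegree hp] at hβ hβ'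
  have hlt : (β - β').degree < p.degree := lt_of_le_of_lt (degree_sub_le _ _) (max_lt hβ hβ')
  exact sub_eq_zero.mp (eq_zero_of_dvd_of_degree_lt h hlt)

omit [CharP K 2] in
/-- roots modulo one prime -/
private theorem card_roots_prime_le {π : K[X]} (hπ : Irreducible π) (F : K[X][X]) {D : ℕ}
    (hF : F.natDegree ≤ D) (hg : ∃ i, ¬ π ∣ F.coeff i) :
    ((Pl K π.natDegree).filter fun β => π ∣ F.eval β).card ≤ D := by
  have : Fact (Irreducible π) := ⟨hπ⟩
  have hne : F.map (AdjoinRoot.mk π) ≠ 0 := by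
    obtain ⟨i, hi⟩ := hg
    intro h0
    apply hi
    have := congrArg (fun G => coeff G i) h0
    simp only [coeff_map, coeff_zero] at this
    exact AdjoinRoot.mk_eq_zero.mp this
  calc ((Pl K π.natDegree).filter fun β => π ∣ F.eval β).card
      ≤ (F.map (AdjoinRoot.mk π)).roots.toFinset.card := by
        refine Finset.card_le_card_of_injOn (fun β => AdjoinRoot.mk π β) ?_ ?_
        · intro β hβ
          rw [Finset.mem_coe, Finset.mem_filter] at hβ
          rw [Finset.mem_coe, Multiset.mem_toFinset, mem_roots hne, IsRoot.def, eval_map,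
            eval₂_at_apply]
          exact AdjoinRoot.mk_eq_zero.mpr hβ.2
        · intro β hβ β' hβ' h
          rw [Finset.mem_coe, Finset.mem_filter] at hβ hβ'
          exact eq_of_dvd_sub_of_mem_Pl hβ.1 hβ'.1 hπ.ne_zero (AdjoinRoot.mk_eq_mk.mp h)
    _ ≤ Multiset.card (F.map (AdjoinRoot.mk π)).roots := Multiset.toFinset_card_le _
    _ ≤ (F.map (AdjoinRoot.mk π)).natDegree := card_roots' _
    _ ≤ F.natDegree := natDegree_map_le
    _ ≤ D := hF

omit [CharP K 2] in
theorem card_roots_le {p : K[X]} (hp : p.Monic) (hsq : Squarefree p) (F : K[X][X]) {D : ℕ}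
    (hD : 1 ≤ D) (hF : F.natDegree ≤ D) (g : K[X])
    (hg : ∀ π ∈ pf p, ¬ π ∣ g → ∃ i, ¬ π ∣ F.coeff i) :
    (((Pl K p.natDegree).filter fun β => p ∣ F.eval β).card : ℝ) ≤
      (D : ℝ) ^ (pf p).card *
        ∏ π ∈ (pf p).filter (fun π => π ∣ g), (Fintype.card K : ℝ) ^ π.natDegree := by
  have hp0 : p ≠ 0 := hp.ne_zero
  set R : K[X] → Finset K[X] := fun π => (Pl K π.natDegree).filter fun β => π ∣ F.eval β
    with hR
  have h1 : ((Pl K p.natDegree).filter fun β => p ∣ F.eval β).card ≤ ((pf p).pi R).card := by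
    refine Finset.card_le_card_of_injOn (fun β => fun π _ => β %ₘ π) ?_ ?_
    · intro β hβ
      rw [Finset.mem_coe, Finset.mem_filter] at hβ
      rw [Finset.mem_coe, Finset.mem_pi]
      intro π hπ
      obtain ⟨hm, hirr, hd⟩ := (mem_pf hp0).mp hπ
      rw [hR]
      simp only [Finset.mem_filter]
      refine ⟨?_, ?_⟩
      · rw [mem_Pl, ← degree_eq_natDegree hm.ne_zero]
        exact degree_modByMonic_lt β hm
      · have h2 : π ∣ β - β %ₘ π := ⟨β /ₘ π, by
          have := modByMonic_add_div β π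
          linear_combination -this⟩
        have h3 : π ∣ F.eval β - F.eval (β %ₘ π) := h2.trans (sub_dvd_eval_sub _ _ F)
        have h4 : π ∣ F.eval β := hd.trans hβ.2
        have h5 := dvd_sub h4 h3
        simpa using h5
    · intro β hβ β' hβ' h
      rw [Finset.mem_coe, Finset.mem_filter] at hβ hβ'
      refine eq_of_dvd_sub_of_mem_Pl hβ.1 hβ'.1 hp0 (dvd_of_forall_pf hsq fun π hπ => ?_)
      have h2 : β %ₘ π = β' %ₘ π := congrFun (congrFun h π) hπ
      have h3 := modByMonic_add_div β π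
      have h4 := modByMonic_add_div β' π
      exact ⟨β /ₘ π - β' /ₘ π, by linear_combination -h3 + h4 + h2⟩
  rw [Finset.card_pi] at h1
  have h2 : ∀ π ∈ pf p, ((R π).card : ℝ) ≤
      (D : ℝ) * (if π ∣ g then (Fintype.card K : ℝ) ^ π.natDegree else 1) := by
    intro π hπ
    obtain ⟨_, hirr, _⟩ := (mem_pf hp0).mp hπ
    have hD' : (1 : ℝ) ≤ D := by exact_mod_cast hD
    by_cases hd : π ∣ g
    · rw [if_pos hd]
      have h3 : (R π).card ≤ Fintype.card K ^ π.natDegree := by
        rw [← card_Pl]; exact Finset.card_filter_le _ _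
      have h4 : ((R π).card : ℝ) ≤ (Fintype.card K : ℝ) ^ π.natDegree := by exact_mod_cast h3
      exact h4.trans (le_mul_of_one_le_left (by positivity) hD')
    · rw [if_neg hd, mul_one]
      exact_mod_cast card_roots_prime_le hirr F hF (hg π hπ hd)
  calc (((Pl K p.natDegree).filter fun β => p ∣ F.eval β).card : ℝ)
      ≤ ∏ π ∈ pf p, ((R π).card : ℝ) := by exact_mod_cast h1
    _ ≤ ∏ π ∈ pf p, (D : ℝ) * (if π ∣ g then (Fintype.card K : ℝ) ^ π.natDegree else 1) :=
        Finset.prod_le_prod (fun _ _ => Nat.cast_nonneg _) h2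
    _ = _ := by
        rw [Finset.prod_mul_distrib, Finset.prod_const, Finset.prod_filter]

omit [CharP K 2] in
private theorem prod_dvd_of_subset_pf {p h : K[X]} (hp : p ≠ 0) {S : Finset K[X]}
    (hS : S ⊆ pf p) (hd : ∀ π ∈ S, π ∣ h) : ∏ π ∈ S, π ∣ h := by
  refine Finset.prod_dvd_of_coprime ?_ hd
  intro π hπ π' hπ' hne
  obtain ⟨hm, hirr, _⟩ := (mem_pf hp).mp (hS hπ)
  obtain ⟨hm', hirr', _⟩ := (mem_pf hp).mp (hS hπ')
  refine hirr.coprime_iff_not_dvd.mpr fun hdd => hne ?_
  exact eq_of_monic_of_associated hm hm' (hirr.associated_of_dvd hirr' hdd)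

omit [CharP K 2] in
private theorem weight_mul_card_le {p : K[X]} (hp : p ≠ 0) (l : ℕ) {S : Finset K[X]}
    (hS : S ⊆ pf p) :
    ((((Pl K l).erase 0).filter fun h => ∀ π ∈ S, π ∣ h).card : ℝ) *
      ∏ π ∈ S, (Fintype.card K : ℝ) ^ π.natDegree ≤ (Fintype.card K : ℝ) ^ l := by
  have hmon : ∀ π ∈ S, π.Monic := fun π hπ => ((mem_pf hp).mp (hS hπ)).1
  have hM : (∏ π ∈ S, π).Monic := monic_prod_of_monic _ _ hmon
  have hdeg : (∏ π ∈ S, π).natDegree = ∑ π ∈ S, π.natDegree := natDegree_prod_of_monic _ _ hmon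
  rw [Finset.prod_pow_eq_pow_sum, ← hdeg]
  set T := ((Pl K l).erase 0).filter fun h => ∀ π ∈ S, π ∣ h with hT
  rcases T.eq_empty_or_nonempty with h0 | ⟨h, hh⟩
  · rw [h0]; simp
  · have hle : (∏ π ∈ S, π).natDegree ≤ l := by
      rw [hT, Finset.mem_filter, Finset.mem_erase, mem_Pl] at hh
      obtain ⟨⟨h0, hl⟩, hd⟩ := hh
      have h1 := natDegree_le_of_dvd (prod_dvd_of_subset_pf hp hS hd) h0
      have h2 : h.natDegree < l := (natDegree_lt_iff_degree_lt h0).mpr hl
      omega
    have hc : T.card ≤ Fintype.card K ^ (l - (∏ π ∈ S, π).natDegree) := by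
      refine card_le_of_Pl hM.ne_zero ?_ ?_
      · exact (Finset.filter_subset _ _).trans (Finset.erase_subset _ _)
      · intro g hg g' hg'
        rw [hT, Finset.mem_filter] at hg hg'
        exact dvd_sub (prod_dvd_of_subset_pf hp hS hg.2) (prod_dvd_of_subset_pf hp hS hg'.2)
    have hc' : (T.card : ℝ) ≤ (Fintype.card K : ℝ) ^ (l - (∏ π ∈ S, π).natDegree) := by
      exact_mod_cast hc
    calc (T.card : ℝ) * (Fintype.card K : ℝ) ^ (∏ π ∈ S, π).natDegree
        ≤ (Fintype.card K : ℝ) ^ (l - (∏ π ∈ S, π).natDegree) *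
            (Fintype.card K : ℝ) ^ (∏ π ∈ S, π).natDegree :=
          mul_le_mul_of_nonneg_right hc' (by positivity)
      _ = (Fintype.card K : ℝ) ^ l := by rw [← pow_add, Nat.sub_add_cancel hle]

omit [CharP K 2] in
theorem sum_gcd_weight_le {p : K[X]} (hp : p ≠ 0) (l : ℕ) :
    ∑ h ∈ (Pl K l).erase 0,
        ∏ π ∈ (pf p).filter (fun π => π ∣ h), (Fintype.card K : ℝ) ^ π.natDegree ≤
      2 ^ (pf p).card * (Fintype.card K : ℝ) ^ l := by
  have h1 : ∀ h ∈ (Pl K l).erase 0,
      ∏ π ∈ (pf p).filter (fun π => π ∣ h), (Fintype.card K : ℝ) ^ π.natDegree ≤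
        ∑ S ∈ (pf p).powerset, if ∀ π ∈ S, π ∣ h then
          ∏ π ∈ S, (Fintype.card K : ℝ) ^ π.natDegree else 0 := by
    intro h _
    have hmem : (pf p).filter (fun π => π ∣ h) ∈ (pf p).powerset :=
      Finset.mem_powerset.mpr (Finset.filter_subset _ _)
    refine le_trans ?_ (Finset.single_le_sum (f := fun S : Finset K[X] => if ∀ π ∈ S, π ∣ h then
          ∏ π ∈ S, (Fintype.card K : ℝ) ^ π.natDegree else 0) ?_ hmem)
    · rw [if_pos fun π hπ => (Finset.mem_filter.mp hπ).2]
    · intro S _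
      split_ifs
      · positivity
      · exact le_rfl
  refine (Finset.sum_le_sum h1).trans ?_
  rw [Finset.sum_comm]
  calc ∑ S ∈ (pf p).powerset, ∑ h ∈ (Pl K l).erase 0, (if ∀ π ∈ S, π ∣ h then
          ∏ π ∈ S, (Fintype.card K : ℝ) ^ π.natDegree else 0)
      ≤ ∑ _S ∈ (pf p).powerset, (Fintype.card K : ℝ) ^ l := by
        refine Finset.sum_le_sum fun S hS => ?_
        rw [← Finset.sum_filter, Finset.sum_const, nsmul_eq_mul]
        exact weight_mul_card_le hp l (Finset.mem_powerset.mp hS)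
    _ = 2 ^ (pf p).card * (Fintype.card K : ℝ) ^ l := by
        rw [Finset.sum_const, Finset.card_powerset, nsmul_eq_mul]
        push_cast
        rfl

end Pool.Agent.P.MP_a1177c_nt.HL
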