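import Pool.Agent.P.MP_a1177c_nt.HL.Sq
import Pool.Agent.P.MP_a1177c_nt.HL.Roots

namespace Pool.Agent.P.MP_a1177c_nt.HL

open Polynomial Finset
open scoped Classical

variable {K : Type*} [Field K] [Fintype K] [CharP K 2]

omit [CharP K 2] in
/-- at most `12 ^ ω` roots of the first congruence -/
theorem energy_roots {p : K[X]} (hp : p.Monic) (hsq : Squarefree p) {n : ℕ}
    (hn : n ≤ p.natDegree) {s u : K[X]} (hs : IsCoprime s p) (hu : IsCoprime u p)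
    (c₀ η r : K[X]) :
    (((Pl K n).filter fun Y => p ∣ r - (s * ((Y ^ 2) ^ 2 + c₀) ^ 3 + η) * u ^ 4).card : ℝ) ≤
      12 ^ (pf p).card := by
  set F : K[X][X] := C r - (C s * (X ^ 4 + C c₀) ^ 3 + C η) * C (u ^ 4) with hF
  have hdeg : F.natDegree ≤ 12 := by
    rw [hF]
    compute_degree
  have hco : F.coeff 12 = -(s * u ^ 4) := by
    have h1 : (X ^ 4 + C c₀ : K[X][X]) ^ 3 =
        X ^ 12 + C (3 * c₀) * X ^ 8 + C (3 * c₀ ^ 2) * X ^ 4 + C (c₀ ^ 3) := by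
      simp only [map_mul, map_pow, map_ofNat]
      ring
    rw [hF, h1]
    simp only [coeff_sub, coeff_mul_C, coeff_add, coeff_C_mul, coeff_X_pow, coeff_C]
    simp
  have key := card_roots_le hp hsq F (D := 12) (by norm_num) hdeg 1 (by
    intro π hπ _
    refine ⟨12, ?_⟩
    rw [mem_pf hp.ne_zero] at hπ
    rw [hco, dvd_neg]
    intro hd
    have hc : IsCoprime (s * u ^ 4) p := hs.mul_left hu.pow_left
    exact hπ.2.1.not_isUnit (hc.isUnit_of_dvd' hd hπ.2.2))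
  have hempty : (pf p).filter (fun π => π ∣ (1 : K[X])) = ∅ := by
    refine filter_eq_empty_iff.2 fun π hπ hd => ?_
    rw [mem_pf hp.ne_zero] at hπ
    exact hπ.2.1.not_isUnit (isUnit_of_dvd_one hd)
  rw [hempty, prod_empty, mul_one] at key
  refine le_trans ?_ (by simpa using key)
  norm_cast
  refine card_le_card fun Y hY => ?_
  rw [mem_filter] at hY ⊢
  refine ⟨Pl_mono hn hY.1, ?_⟩
  have : F.eval Y = r - (s * ((Y ^ 2) ^ 2 + c₀) ^ 3 + η) * u ^ 4 := by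
    rw [hF]
    simp only [eval_sub, eval_mul, eval_add, eval_pow, eval_C, eval_X]
    ring
  rw [this]
  exact hY.2

/-- two solutions of the second congruence with the same odd parts -/
theorem energy_pair {p : K[X]} (hsq : Squarefree p) {n h : ℕ}
    (hk : n + h ≤ p.natDegree) {u u₂ : K[X]} (hu : u.natDegree ≤ h) (hu₂ : u₂.natDegree ≤ h)
    {B B₂ B' B₂' D D₂ : K[X]} (hB : B ∈ Pl K n) (hB₂ : B₂ ∈ Pl K n) (hB' : B' ∈ Pl K n)
    (hB₂' : B₂' ∈ Pl K n)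
    (h1 : p ∣ (B ^ 2 + X * D ^ 2) ^ 2 * u₂ ^ 4 - (B₂ ^ 2 + X * D₂ ^ 2) ^ 2 * u ^ 4)
    (h2 : p ∣ (B' ^ 2 + X * D ^ 2) ^ 2 * u₂ ^ 4 - (B₂' ^ 2 + X * D₂ ^ 2) ^ 2 * u ^ 4) :
    (B - B') * u₂ = (B₂ - B₂') * u := by
  have h3 := dvd_sub h1 h2
  have h4 : (B ^ 2 + X * D ^ 2) ^ 2 * u₂ ^ 4 - (B₂ ^ 2 + X * D₂ ^ 2) ^ 2 * u ^ 4 -
      ((B' ^ 2 + X * D ^ 2) ^ 2 * u₂ ^ 4 - (B₂' ^ 2 + X * D₂ ^ 2) ^ 2 * u ^ 4) =
      ((B - B') * u₂ - (B₂ - B₂') * u) ^ 4 := by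
    have e1 : ∀ a b : K[X], (a - b) ^ 4 = a ^ 4 - b ^ 4 := by
      intro a b
      have : (a - b) ^ 2 ^ 2 = a ^ 2 ^ 2 - b ^ 2 ^ 2 := sub_pow_char_pow a b 2
      simpa using this
    have e2 : ∀ a b : K[X], (a + b) ^ 2 = a ^ 2 + b ^ 2 := fun a b => add_pow_char a b 2
    rw [e1, mul_pow, mul_pow, e1, e1, e2, e2, e2, e2]
    ring
  rw [h4] at h3
  have h5 : p ∣ (B - B') * u₂ - (B₂ - B₂') * u := hsq.isRadical 4 _ h3
  have hlt : ∀ {a b v : K[X]}, a ∈ Pl K n → b ∈ Pl K n → v.natDegree ≤ h →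
      ((a - b) * v).degree < p.degree := by
    intro a b v ha hb hv
    rw [mem_Pl] at ha hb
    have hab : (a - b).degree < n := lt_of_le_of_lt (degree_sub_le a b) (max_lt ha hb)
    by_cases h0 : a - b = 0
    · rw [h0, zero_mul, degree_zero]
      exact bot_lt_iff_ne_bot.2 (by rw [Ne, degree_eq_bot]; exact hsq.ne_zero)
    by_cases hv0 : v = 0
    · rw [hv0, mul_zero, degree_zero]
      exact bot_lt_iff_ne_bot.2 (by rw [Ne, degree_eq_bot]; exact hsq.ne_zero)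
    rw [degree_eq_natDegree (mul_ne_zero h0 hv0), degree_eq_natDegree hsq.ne_zero,
      natDegree_mul h0 hv0]
    rw [degree_eq_natDegree h0] at hab
    norm_cast at hab ⊢
    omega
  have h6 : ((B - B') * u₂ - (B₂ - B₂') * u).degree < p.degree :=
    lt_of_le_of_lt (degree_sub_le _ _) (max_lt (hlt hB hB' hu₂) (hlt hB₂ hB₂' hu))
  exact sub_eq_zero.1 (eq_zero_of_dvd_of_degree_lt h5 h6)

/-- number of solutions of the second congruence with given odd parts -/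
theorem energy_even {p : K[X]} (hsq : Squarefree p) {n h : ℕ}
    (hk : n + h ≤ p.natDegree) {u u₂ : K[X]} (hu : u ∈ Mn K h) (hu₂ : u₂ ∈ Mn K h)
    (hi : Irreducible u) (hi₂ : Irreducible u₂) (D D₂ : K[X]) :
    ∑ B ∈ Pl K n, ∑ B₂ ∈ Pl K n,
      (if p ∣ (B ^ 2 + X * D ^ 2) ^ 2 * u₂ ^ 4 - (B₂ ^ 2 + X * D₂ ^ 2) ^ 2 * u ^ 4
        then (1 : ℝ) else 0) ≤
      if u = u₂ then (Fintype.card K : ℝ) ^ n else (Fintype.card K : ℝ) ^ (n - h) := by
  rw [mem_Mn] at hu hu₂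
  rw [← sum_product', sum_boole]
  set S := (Pl K n ×ˢ Pl K n).filter fun t : K[X] × K[X] =>
    p ∣ (t.1 ^ 2 + X * D ^ 2) ^ 2 * u₂ ^ 4 - (t.2 ^ 2 + X * D₂ ^ 2) ^ 2 * u ^ 4 with hS
  have hpair : ∀ t ∈ S, ∀ t' ∈ S, (t.1 - t'.1) * u₂ = (t.2 - t'.2) * u := by
    intro t ht t' ht'
    rw [hS, mem_filter, mem_product] at ht ht'
    exact energy_pair hsq hk hu.2.le hu₂.2.le ht.1.1 ht.1.2 ht'.1.1 ht'.1.2 ht.2 ht'.2
  have hinj : Set.InjOn Prod.fst (S : Set (K[X] × K[X])) := by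
    intro t ht t' ht' he
    have h1 := hpair t ht t' ht'
    rw [he, sub_self, zero_mul] at h1
    have h2 : t.2 - t'.2 = 0 := (mul_eq_zero.1 h1.symm).resolve_right hi.ne_zero
    exact Prod.ext he (sub_eq_zero.1 h2)
  have hcard : S.card = (S.image Prod.fst).card := (card_image_of_injOn hinj).symm
  have hsub : S.image Prod.fst ⊆ Pl K n := by
    intro b hb
    obtain ⟨t, ht, rfl⟩ := mem_image.1 hb
    rw [hS, mem_filter, mem_product] at ht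
    exact ht.1.1
  rw [hcard]
  split_ifs with huu
  · have := card_le_card hsub
    rw [card_Pl] at this
    exact_mod_cast this
  · have hnd : ¬ u ∣ u₂ := fun hd =>
      huu (eq_of_monic_of_associated hu.1 hu₂.1 (hi.associated_of_dvd hi₂ hd))
    have := card_le_of_Pl hi.ne_zero hsub (by
      intro b hb b' hb'
      obtain ⟨t, ht, rfl⟩ := mem_image.1 hb
      obtain ⟨t', ht', rfl⟩ := mem_image.1 hb'
      have h1 : u ∣ (t.1 - t'.1) * u₂ := by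
        rw [hpair t ht t' ht']
        exact dvd_mul_left _ _
      exact (hi.prime.dvd_or_dvd h1).resolve_right hnd)
    rw [hu.2] at this
    exact_mod_cast this

/-- the count for a fixed pair of primes -/
theorem energy_fixed {p : K[X]} (hp : p.Monic) (hsq : Squarefree p) {k h : ℕ} (hh : 1 ≤ h)
    (hk : k / 2 + h < p.natDegree) {u u₂ : K[X]} (hu : u ∈ Mn K h) (hu₂ : u₂ ∈ Mn K h)
    (hi : Irreducible u) (hi₂ : Irreducible u₂) (hc : IsCoprime u p) {s : K[X]}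
    (hs : IsCoprime s p) (c₀ η : K[X]) :
    ∑ x ∈ Pl K (k + 1), ∑ x₂ ∈ Pl K (k + 1),
      (if p ∣ (s * (derivative x ^ 2 + c₀) ^ 3 + η) * u₂ ^ 4 -
            (s * (derivative x₂ ^ 2 + c₀) ^ 3 + η) * u ^ 4 ∧
          p ∣ x ^ 2 * u₂ ^ 4 - x₂ ^ 2 * u ^ 4 then (1 : ℝ) else 0) ≤
      (Fintype.card K : ℝ) ^ ((k + 1) / 2) * 12 ^ (pf p).card *
        (if u = u₂ then (Fintype.card K : ℝ) ^ (k / 2 + 1)
          else (Fintype.card K : ℝ) ^ (k / 2 + 1 - h)) := by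
  set N : ℝ := if u = u₂ then (Fintype.card K : ℝ) ^ (k / 2 + 1)
          else (Fintype.card K : ℝ) ^ (k / 2 + 1 - h) with hN
  have hN0 : 0 ≤ N := by
    rw [hN]
    split_ifs <;> positivity
  rw [sum_Pl_sq, sum_comm]
  have hcard : ((Pl K ((k + 1) / 2)).card : ℝ) = (Fintype.card K : ℝ) ^ ((k + 1) / 2) := by
    rw [card_Pl]; push_cast; rfl
  rw [← hcard, mul_assoc, ← nsmul_eq_mul]
  refine sum_le_card_nsmul _ _ _ fun D _ => ?_
  simp only [sum_Pl_sq k, derivative_sq_add]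
  have step : ∑ B ∈ Pl K (k / 2 + 1), ∑ B₂ ∈ Pl K (k / 2 + 1), ∑ D₂ ∈ Pl K ((k + 1) / 2),
      (if p ∣ (s * ((D ^ 2) ^ 2 + c₀) ^ 3 + η) * u₂ ^ 4 -
            (s * ((D₂ ^ 2) ^ 2 + c₀) ^ 3 + η) * u ^ 4 ∧
          p ∣ (B ^ 2 + X * D ^ 2) ^ 2 * u₂ ^ 4 - (B₂ ^ 2 + X * D₂ ^ 2) ^ 2 * u ^ 4
        then (1 : ℝ) else 0) =
      ∑ D₂ ∈ Pl K ((k + 1) / 2),
        (if p ∣ (s * ((D ^ 2) ^ 2 + c₀) ^ 3 + η) * u₂ ^ 4 -
            (s * ((D₂ ^ 2) ^ 2 + c₀) ^ 3 + η) * u ^ 4 then (1 : ℝ) else 0) *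
        ∑ B ∈ Pl K (k / 2 + 1), ∑ B₂ ∈ Pl K (k / 2 + 1),
          (if p ∣ (B ^ 2 + X * D ^ 2) ^ 2 * u₂ ^ 4 - (B₂ ^ 2 + X * D₂ ^ 2) ^ 2 * u ^ 4
            then (1 : ℝ) else 0) := by
    simp only [mul_sum]
    rw [sum_comm (s := Pl K ((k + 1) / 2))]
    refine sum_congr rfl fun B _ => ?_
    rw [sum_comm]
    refine sum_congr rfl fun D₂ _ => sum_congr rfl fun B₂ _ => ?_
    rw [ite_and]
    split_ifs <;> simp
  rw [step]
  calc _ ≤ ∑ D₂ ∈ Pl K ((k + 1) / 2),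
        (if p ∣ (s * ((D ^ 2) ^ 2 + c₀) ^ 3 + η) * u₂ ^ 4 -
            (s * ((D₂ ^ 2) ^ 2 + c₀) ^ 3 + η) * u ^ 4 then (1 : ℝ) else 0) * N := by
        refine sum_le_sum fun D₂ _ => mul_le_mul_of_nonneg_left ?_ (by split_ifs <;> norm_num)
        exact energy_even hsq (by omega) hu hu₂ hi hi₂ D D₂
    _ ≤ 12 ^ (pf p).card * N := by
        rw [← sum_mul, sum_boole]
        exact mul_le_mul_of_nonneg_right (energy_roots hp hsq (by omega) hs hc c₀ η _) hN0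

theorem energy {p : K[X]} (hp : p.Monic) (hsq : Squarefree p) {k h : ℕ} (hh : 1 ≤ h)
    (hhk : h ≤ k / 2) (hk : k / 2 + h < p.natDegree) (U : Finset K[X])
    (hU : ∀ u ∈ U, u ∈ Mn K h ∧ Irreducible u ∧ IsCoprime u p) {s : K[X]} (hs : IsCoprime s p)
    (c₀ η : K[X]) :
    ((((Pl K (k + 1) ×ˢ U) ×ˢ (Pl K (k + 1) ×ˢ U)).filter fun t =>
        p ∣ (s * (derivative t.1.1 ^ 2 + c₀) ^ 3 + η) * t.2.2 ^ 4 -
            (s * (derivative t.2.1 ^ 2 + c₀) ^ 3 + η) * t.1.2 ^ 4 ∧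
          p ∣ t.1.1 ^ 2 * t.2.2 ^ 4 - t.2.1 ^ 2 * t.1.2 ^ 4).card : ℝ) ≤
      2 * 12 ^ (pf p).card * (Fintype.card K : ℝ) ^ (k + 1) * U.card := by
  rw [← sum_boole, sum_product, sum_product, sum_comm]
  simp only [sum_product]
  have hUq : (U.card : ℝ) ≤ (Fintype.card K : ℝ) ^ h := by
    have := card_le_card (fun u hu => (hU u hu).1 : U ⊆ Mn K h)
    rw [card_Mn] at this
    exact_mod_cast this
  rw [mul_comm _ (U.card : ℝ), ← nsmul_eq_mul]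
  refine sum_le_card_nsmul _ _ _ fun u hu => ?_
  have hswap : ∀ G : K[X] → K[X] → K[X] → ℝ,
      ∑ x ∈ Pl K (k + 1), ∑ x₂ ∈ Pl K (k + 1), ∑ u₂ ∈ U, G x x₂ u₂ =
        ∑ u₂ ∈ U, ∑ x ∈ Pl K (k + 1), ∑ x₂ ∈ Pl K (k + 1), G x x₂ u₂ := by
    intro G
    rw [sum_comm (s := U)]
    exact sum_congr rfl fun x _ => sum_comm
  rw [hswap]
  set q : ℝ := (Fintype.card K : ℝ) with hq
  have hq0 : 0 ≤ q := by positivity
  calc _ ≤ ∑ u₂ ∈ U, q ^ ((k + 1) / 2) * 12 ^ (pf p).card *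
        (if u = u₂ then q ^ (k / 2 + 1) else q ^ (k / 2 + 1 - h)) :=
        sum_le_sum fun u₂ hu₂ => energy_fixed hp hsq hh hk (hU u hu).1 (hU u₂ hu₂).1
          (hU u hu).2.1 (hU u₂ hu₂).2.1 (hU u hu).2.2 hs c₀ η
    _ ≤ q ^ ((k + 1) / 2) * 12 ^ (pf p).card * (2 * q ^ (k / 2 + 1)) := by
        rw [← mul_sum]
        refine mul_le_mul_of_nonneg_left ?_ (by positivity)
        calc _ ≤ ∑ u₂ ∈ U, ((if u = u₂ then q ^ (k / 2 + 1) else 0) + q ^ (k / 2 + 1 - h)) := by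
              refine sum_le_sum fun u₂ _ => ?_
              split_ifs
              · exact le_add_of_nonneg_right (by positivity)
              · rw [zero_add]
          _ = q ^ (k / 2 + 1) + U.card * q ^ (k / 2 + 1 - h) := by
              rw [sum_add_distrib, sum_ite_eq, if_pos hu, sum_const, nsmul_eq_mul]
          _ ≤ q ^ (k / 2 + 1) + q ^ h * q ^ (k / 2 + 1 - h) := by gcongr
          _ = 2 * q ^ (k / 2 + 1) := by
              rw [← pow_add, show h + (k / 2 + 1 - h) = k / 2 + 1 by omega]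
              ring
    _ = 2 * 12 ^ (pf p).card * q ^ (k + 1) := by
        have : q ^ (k + 1) = q ^ ((k + 1) / 2) * q ^ (k / 2 + 1) := by
          rw [← pow_add]
          congr 1
          omega
        rw [this]
        ring

end Pool.Agent.P.MP_a1177c_nt.HL
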