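import Pool.Agent.P.MP_a1177c_nt.HL.Basic

namespace Pool.Agent.P.MP_a1177c_nt.HL

open Polynomial Finset
open scoped Classical

variable {K : Type*} [Field K] [Fintype K] [CharP K 2]

omit [CharP K 2] in
theorem primes_sum_deg_le {p : K[X]} (hp : p ≠ 0) {S : Finset K[X]} (hS : S ⊆ pf p) :
    ∑ π ∈ S, π.natDegree ≤ p.natDegree := by
  have h1 : ∀ π ∈ S, π.Monic ∧ Irreducible π ∧ π ∣ p := fun π hπ => (mem_pf hp).1 (hS hπ)
  have h2 : ∏ π ∈ S, π ∣ p := by
    refine Finset.prod_dvd_of_coprime (fun a ha b hb hab => ?_) fun π hπ => (h1 π hπ).2.2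
    obtain ⟨a1, a2, -⟩ := h1 a ha
    obtain ⟨b1, b2, -⟩ := h1 b hb
    refine (a2.coprime_iff_not_dvd).2 fun h => hab ?_
    exact eq_of_monic_of_associated a1 b1 (a2.associated_of_dvd b2 h)
  rw [← natDegree_prod_of_monic _ _ fun π hπ => (h1 π hπ).1]
  exact natDegree_le_of_dvd h2 hp

omit [CharP K 2] in
theorem primes_deg_le_sum {p : K[X]} (hp : p ≠ 0) (hsq : Squarefree p) :
    p.natDegree ≤ ∑ π ∈ pf p, π.natDegree := by
  have h1 := (UniqueFactorizationMonoid.squarefree_iff_nodup_normalizedFactors hp).1 hsq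
  have h2 := UniqueFactorizationMonoid.prod_normalizedFactors hp
  have h3 : (UniqueFactorizationMonoid.normalizedFactors p).toFinset = pf p := by
    ext π
    rw [Multiset.mem_toFinset, Polynomial.mem_normalizedFactors_iff hp, mem_pf hp]
    tauto
  have h4 : (UniqueFactorizationMonoid.normalizedFactors p).prod = ∏ π ∈ pf p, π := by
    rw [← h3, Finset.prod_eq_multiset_prod, Multiset.map_id', Multiset.toFinset_val,
      h1.dedup]
  rw [← natDegree_prod_of_monic _ _ fun π hπ => ((mem_pf hp).1 hπ).1, ← h4]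
  exact (natDegree_eq_of_degree_eq (degree_eq_degree_of_associated h2)).ge

omit [CharP K 2] in
theorem card_irreducible_ge {h : ℕ} (hh : 1 ≤ h) :
    (Fintype.card K : ℝ) ^ h ≤ h * (((Mn K h).filter fun π => Irreducible π).card : ℝ) +
      (h : ℝ) ^ 2 * (Fintype.card K : ℝ) ^ (h / 2) := by
  set q := Fintype.card K with hq
  set p : K[X] := X ^ q ^ h - X with hp
  have hq1 : 1 < q := Fintype.one_lt_card
  have hdeg : p.natDegree = q ^ h :=
    FiniteField.X_pow_card_pow_sub_X_natDegree_eq _ (by omega) hq1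
  have hp0 : p ≠ 0 := FiniteField.X_pow_card_pow_sub_X_ne_zero _ (by omega) hq1
  have hsq : Squarefree p := by
    refine Separable.squarefree ?_
    have h1 : derivative p = -1 := by
      have h2 : ((q ^ h : ℕ) : K) = 0 := by
        rw [Nat.cast_pow, hq, FiniteField.cast_card_eq_zero, zero_pow (by omega)]
      rw [hp, derivative_sub, derivative_X_pow, derivative_X, h2]
      simp
    rw [Separable, h1]
    exact isCoprime_one_right.neg_right
  have h1 := primes_deg_le_sum hp0 hsq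
  rw [hdeg, ← Finset.sum_filter_add_sum_filter_not (pf p) fun π => π.natDegree = h] at h1
  have h2 : ∑ π ∈ (pf p).filter (fun π => π.natDegree = h), π.natDegree ≤
      h * ((Mn K h).filter fun π => Irreducible π).card := by
    rw [Finset.sum_congr rfl (fun π hπ => (Finset.mem_filter.1 hπ).2), Finset.sum_const,
      smul_eq_mul, mul_comm]
    refine Nat.mul_le_mul_left _ (Finset.card_le_card fun π hπ => ?_)
    obtain ⟨h3, h4⟩ := Finset.mem_filter.1 hπ
    obtain ⟨h5, h6, -⟩ := (mem_pf hp0).1 h3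
    exact Finset.mem_filter.2 ⟨mem_Mn.2 ⟨h5, h4⟩, h6⟩
  have h3 : ∀ π ∈ (pf p).filter (fun π => ¬ π.natDegree = h),
      π.Monic ∧ 1 ≤ π.natDegree ∧ π.natDegree ≤ h / 2 := by
    intro π hπ
    obtain ⟨h3, h4⟩ := Finset.mem_filter.1 hπ
    obtain ⟨h5, h6, h7⟩ := (mem_pf hp0).1 h3
    have h8 : π.natDegree ∣ h := by
      rw [h6.natDegree_dvd_iff_dvd_X_pow_card_pow_sub_X, Nat.card_eq_fintype_card]
      exact h7
    refine ⟨h5, h6.natDegree_pos, ?_⟩
    obtain ⟨c, hc⟩ := h8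
    have h9 : 2 ≤ c := by
      rcases c with _ | _ | c
      · omega
      · omega
      · omega
    have h10 : π.natDegree * 2 ≤ h := hc ▸ Nat.mul_le_mul_left _ h9
    omega
  have h4 : ((pf p).filter (fun π => ¬ π.natDegree = h)).card ≤ h * q ^ (h / 2) := by
    have h5 : (pf p).filter (fun π => ¬ π.natDegree = h) ⊆
        (Finset.Icc 1 (h / 2)).biUnion fun d => Mn K d := by
      intro π hπ
      obtain ⟨h6, h7, h8⟩ := h3 π hπ
      exact Finset.mem_biUnion.2 ⟨_, Finset.mem_Icc.2 ⟨h7, h8⟩, mem_Mn.2 ⟨h6, rfl⟩⟩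
    refine (Finset.card_le_card h5).trans (Finset.card_biUnion_le.trans ?_)
    refine (Finset.sum_le_card_nsmul _ _ (q ^ (h / 2)) fun d hd => ?_).trans ?_
    · rw [card_Mn]
      exact Nat.pow_le_pow_right (by omega) (Finset.mem_Icc.1 hd).2
    · rw [Nat.card_Icc, smul_eq_mul]
      exact Nat.mul_le_mul_right _ (by omega)
  have h5 : ∑ π ∈ (pf p).filter (fun π => ¬ π.natDegree = h), π.natDegree ≤
      h ^ 2 * q ^ (h / 2) := by
    refine (Finset.sum_le_card_nsmul _ _ h fun π hπ => ?_).trans ?_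
    · have := (h3 π hπ).2.2
      omega
    · rw [smul_eq_mul, mul_comm, pow_two, mul_assoc]
      exact Nat.mul_le_mul_left _ h4
  have h6 : q ^ h ≤ h * ((Mn K h).filter fun π => Irreducible π).card + h ^ 2 * q ^ (h / 2) :=
    h1.trans (add_le_add h2 h5)
  exact_mod_cast h6

omit [CharP K 2] in
theorem card_pf_le {ε : ℝ} (hε : 0 < ε) : ∃ k₀ : ℕ, ∀ k ≥ k₀, ∀ p : K[X], p ≠ 0 →
    p.natDegree ≤ k → ((pf p).card : ℝ) ≤ ε * k := by
  obtain ⟨t, ht⟩ := exists_nat_ge (2 / ε)
  obtain ⟨k₀, hk₀⟩ := exists_nat_ge (2 / ε * (Fintype.card K : ℝ) ^ (t + 1))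
  refine ⟨k₀, fun k hk p hp hpk => ?_⟩
  have h1 : ((pf p).filter fun π => π.natDegree ≤ t).card ≤ Fintype.card K ^ (t + 1) := by
    rw [← card_Pl]
    refine Finset.card_le_card fun π hπ => mem_Pl.2 ?_
    refine lt_of_le_of_lt degree_le_natDegree ?_
    exact_mod_cast Nat.lt_succ_of_le (Finset.mem_filter.1 hπ).2
  have h2 : ((pf p).filter fun π => ¬ π.natDegree ≤ t).card * (t + 1) ≤ k := by
    refine le_trans ?_ ((primes_sum_deg_le hp
      (Finset.filter_subset (fun π => ¬ π.natDegree ≤ t) _)).trans hpk)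
    rw [← smul_eq_mul]
    exact Finset.card_nsmul_le_sum _ _ _ fun π hπ => by
      have := (Finset.mem_filter.1 hπ).2
      omega
  rw [← Finset.card_filter_add_card_filter_not fun π : K[X] => π.natDegree ≤ t, Nat.cast_add]
  have h3 : (((pf p).filter fun π => π.natDegree ≤ t).card : ℝ) ≤
      (Fintype.card K : ℝ) ^ (t + 1) := by exact_mod_cast h1
  have h4 : (((pf p).filter fun π => ¬ π.natDegree ≤ t).card : ℝ) * (t + 1) ≤ k := by
    exact_mod_cast h2
  have h5 : (k₀ : ℝ) ≤ k := by exact_mod_cast hk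
  have h6 : 2 ≤ ε * t := by
    rw [div_le_iff₀ hε] at ht
    linarith
  have h7 : 2 * (Fintype.card K : ℝ) ^ (t + 1) ≤ ε * k := by
    have h8 := hk₀.trans h5
    rw [div_mul_eq_mul_div, div_le_iff₀ hε] at h8
    linarith
  have h8 : (0 : ℝ) ≤ ((pf p).filter fun π => ¬ π.natDegree ≤ t).card := Nat.cast_nonneg _
  have h9 := mul_le_mul_of_nonneg_left h4 hε.le
  nlinarith

theorem primes_num (r : ℕ) (hr : 20 ≤ r) : 17 * (9 * r + 16) ^ 2 ≤ 2 ^ r := by
  induction r, hr using Nat.le_induction with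
  | base => norm_num
  | succ r hr ih => rw [pow_succ 2]; nlinarith

omit [CharP K 2] in
/-- many primes of degree `k / 8` avoid a given `p` of degree at most `k` -/
theorem exists_many_primes : ∃ k₀ : ℕ, ∀ k ≥ k₀, ∀ p : K[X], p ≠ 0 → p.natDegree ≤ k →
    ∃ U : Finset K[X], (∀ u ∈ U, u ∈ Mn K (k / 8) ∧ Irreducible u ∧ IsCoprime u p) ∧
      (Fintype.card K : ℝ) ^ ((k : ℝ) / 9) ≤ U.card := by
  refine ⟨1600, fun k hk p hp hpk => ?_⟩
  set h := k / 8 with hh
  set q := Fintype.card K with hq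
  have hq1 : 1 < q := Fintype.one_lt_card
  set I := (Mn K h).filter fun π => Irreducible π with hI
  refine ⟨I \ pf p, fun u hu => ?_, ?_⟩
  · obtain ⟨h1, h2⟩ := Finset.mem_sdiff.1 hu
    obtain ⟨h3, h4⟩ := Finset.mem_filter.1 h1
    exact ⟨h3, h4, h4.coprime_iff_not_dvd.2 fun h5 =>
      h2 ((mem_pf hp).2 ⟨(mem_Mn.1 h3).1, h4, h5⟩)⟩
  have h1 : (pf p).card ≤ k := by
    refine le_trans ?_ ((primes_sum_deg_le hp (Finset.Subset.refl _)).trans hpk)
    rw [Finset.card_eq_sum_ones]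
    exact Finset.sum_le_sum fun π hπ => ((mem_pf hp).1 hπ).2.1.natDegree_pos
  have h2 : I.card ≤ (I \ pf p).card + k :=
    (Finset.card_le_card_sdiff_add_card (t := pf p)).trans (by omega)
  have h3 : q ^ h ≤ h * I.card + h ^ 2 * q ^ (h / 2) := by
    exact_mod_cast card_irreducible_ge (K := K) (h := h) (by omega)
  set n := (8 * h + 7) / 9 + 1 with hn
  have h4 : (q : ℝ) ^ ((k : ℝ) / 9) ≤ ((q ^ n : ℕ) : ℝ) := by
    rw [Nat.cast_pow, ← Real.rpow_natCast]
    refine Real.rpow_le_rpow_of_exponent_le (by exact_mod_cast hq1.le) ?_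
    rw [div_le_iff₀ (by norm_num)]
    exact_mod_cast (by omega : k ≤ n * 9)
  refine h4.trans ?_
  have h5 : 17 * h ^ 2 * q ^ n ≤ q ^ h := by
    have h6 : 17 * h ^ 2 ≤ q ^ (h - n) := by
      refine le_trans ?_ ((primes_num (h - n) (by omega)).trans
        (Nat.pow_le_pow_left hq1 _))
      exact Nat.mul_le_mul_left _ (Nat.pow_le_pow_left (by omega) _)
    calc 17 * h ^ 2 * q ^ n ≤ q ^ (h - n) * q ^ n := Nat.mul_le_mul_right _ h6
      _ = q ^ h := by rw [← pow_add]; congr 1; omega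
  have h6 : q ^ (h / 2) ≤ q ^ n := Nat.pow_le_pow_right (by omega) (by omega)
  have h7 : 1 ≤ q ^ n := Nat.one_le_pow _ _ (by omega)
  have h8 : h * q ^ n ≤ h * (I \ pf p).card := by
    have h9 : h * I.card ≤ h * (I \ pf p).card + h * k := by
      rw [← mul_add]
      exact Nat.mul_le_mul_left _ h2
    have h10 : h * k ≤ 15 * h ^ 2 * q ^ n := by
      have : h * k ≤ 15 * h ^ 2 := by
        have : k ≤ 15 * h := by omega
        nlinarith
      exact this.trans (Nat.le_mul_of_pos_right _ h7)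
    have h11 : h ^ 2 * q ^ (h / 2) ≤ h ^ 2 * q ^ n := Nat.mul_le_mul_left _ h6
    have h12 : h * q ^ n ≤ h ^ 2 * q ^ n :=
      Nat.mul_le_mul_right _ (Nat.le_self_pow (by norm_num) _)
    have h13 : h * q ^ n + h * q ^ n ≤ h * (I \ pf p).card + h * q ^ n := by
      nlinarith
    omega
  exact_mod_cast Nat.le_of_mul_le_mul_left h8 (by omega)

end Pool.Agent.P.MP_a1177c_nt.HL
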