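import Pool.Agent.P.MP_a1177c_nt.HL.Moment
import Pool.Agent.P.MP_a1177c_nt.HL.Primes
import Pool.Agent.P.MP_a1177c_nt.HL.Energy

namespace Pool.Agent.P.MP_a1177c_nt.HL

open Polynomial Finset
open scoped Classical

variable {K : Type*} [Field K] [Fintype K] [CharP K 2]

theorem holder_six {T Z : Type*} (S : Finset T) (R : Finset Z) (π : T → Z)
    (hπ : ∀ t ∈ S, π t ∈ R) (W : Z → ℝ) :
    (∑ t ∈ S, |W (π t)|) ^ 6 ≤
      (S.card : ℝ) ^ 4 * (((S ×ˢ S).filter fun t => π t.1 = π t.2).card : ℝ) *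
        ∑ z ∈ R, W z ^ 6 := by
  have h1 : (∑ t ∈ S, |W (π t)|) ^ 3 ≤ (S.card : ℝ) ^ 2 * ∑ t ∈ S, |W (π t)| ^ 3 :=
    pow_sum_le_card_mul_sum_pow (fun t _ => abs_nonneg _) 2
  set ν : Z → ℝ := fun z => ((S.filter fun t => π t = z).card : ℝ) with hν
  have h2 : ∑ t ∈ S, |W (π t)| ^ 3 = ∑ z ∈ R, ν z * |W z| ^ 3 := by
    rw [← Finset.sum_fiberwise_of_maps_to hπ]
    refine Finset.sum_congr rfl fun z _ => ?_
    rw [Finset.sum_congr rfl (g := fun _ => |W z| ^ 3)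
      (fun t ht => by rw [(Finset.mem_filter.1 ht).2])]
    rw [Finset.sum_const, nsmul_eq_mul]
  have h3 : (∑ z ∈ R, ν z * |W z| ^ 3) ^ 2 ≤ (∑ z ∈ R, ν z ^ 2) * ∑ z ∈ R, (|W z| ^ 3) ^ 2 :=
    Finset.sum_mul_sq_le_sq_mul_sq _ _ _
  have h4 : (((S ×ˢ S).filter fun t => π t.1 = π t.2).card : ℝ) = ∑ z ∈ R, ν z ^ 2 := by
    rw [Finset.card_eq_sum_card_fiberwise (f := fun t : T × T => π t.1) (t := R)
      (fun t ht => hπ _ (Finset.mem_product.1 (Finset.mem_filter.1 ht).1).1)]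
    push_cast
    refine Finset.sum_congr rfl fun z _ => ?_
    have : (((S ×ˢ S).filter fun t => π t.1 = π t.2).filter fun t => π t.1 = z) =
        (S.filter fun t => π t = z) ×ˢ (S.filter fun t => π t = z) := by
      ext t
      simp only [Finset.mem_filter, Finset.mem_product]
      constructor
      · rintro ⟨⟨⟨a, b⟩, c⟩, d⟩
        exact ⟨⟨a, d⟩, b, c ▸ d⟩
      · rintro ⟨⟨a, d⟩, b, c⟩
        exact ⟨⟨⟨a, b⟩, d.trans c.symm⟩, d⟩
    rw [this, Finset.card_product]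
    simp only [hν]
    push_cast
    ring
  have h5 : ∑ z ∈ R, (|W z| ^ 3) ^ 2 = ∑ z ∈ R, W z ^ 6 := by
    refine Finset.sum_congr rfl fun z _ => ?_
    rw [← pow_mul, show 3 * 2 = 6 from rfl]
    exact Even.pow_abs (by decide) _
  have h0 : 0 ≤ (∑ t ∈ S, |W (π t)|) ^ 3 :=
    pow_nonneg (Finset.sum_nonneg fun t _ => abs_nonneg _) _
  calc (∑ t ∈ S, |W (π t)|) ^ 6 = ((∑ t ∈ S, |W (π t)|) ^ 3) ^ 2 := by ring
    _ ≤ ((S.card : ℝ) ^ 2 * ∑ t ∈ S, |W (π t)| ^ 3) ^ 2 := pow_le_pow_left₀ h0 h1 2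
    _ = (S.card : ℝ) ^ 4 * (∑ z ∈ R, ν z * |W z| ^ 3) ^ 2 := by rw [h2]; ring
    _ ≤ (S.card : ℝ) ^ 4 * ((∑ z ∈ R, ν z ^ 2) * ∑ z ∈ R, (|W z| ^ 3) ^ 2) :=
        mul_le_mul_of_nonneg_left h3 (by positivity)
    _ = _ := by rw [h4, h5]; ring

omit [Fintype K] [CharP K 2] in
theorem burgess_dvd_mod (p a : K[X]) : p ∣ a - a %ₘ p := by
  refine ⟨a /ₘ p, ?_⟩
  have := modByMonic_add_div a p
  linear_combination -this

omit [Fintype K] [CharP K 2] in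
theorem burgess_cross {p G a a' w w' u u' : K[X]} (hG : IsCoprime G p)
    (h : (a * w) %ₘ p = (a' * w') %ₘ p) (hw : p ∣ (G * u) ^ 4 * w - 1)
    (hw' : p ∣ (G * u') ^ 4 * w' - 1) : p ∣ a * u' ^ 4 - a' * u ^ 4 := by
  have h1 : p ∣ a * w - a' * w' := by
    have := dvd_sub (burgess_dvd_mod p (a * w)) (burgess_dvd_mod p (a' * w'))
    rwa [h, sub_sub_sub_cancel_right] at this
  have h2 : p ∣ G ^ 4 * (a * u' ^ 4 - a' * u ^ 4) := by
    have e : G ^ 4 * (a * u' ^ 4 - a' * u ^ 4) =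
        (a * w - a' * w') * ((G * u) ^ 4 * (G * u') ^ 4) -
          a * (G * u') ^ 4 * ((G * u) ^ 4 * w - 1) +
          a' * (G * u) ^ 4 * ((G * u') ^ 4 * w' - 1) := by ring
    rw [e]
    exact dvd_add (dvd_sub (h1.mul_right _) (hw.mul_left _)) (hw'.mul_left _)
  exact (hG.symm.pow_right (n := 4)).dvd_of_dvd_mul_left h2

omit [Fintype K] [CharP K 2] in
theorem burgess_unit {p U0 w a : K[X]} (hw : p ∣ U0 * w - 1) : p ∣ a - U0 * ((a * w) %ₘ p) := by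
  have e : a - U0 * ((a * w) %ₘ p) = U0 * (a * w - (a * w) %ₘ p) - a * (U0 * w - 1) := by ring
  rw [e]
  exact dvd_sub ((burgess_dvd_mod p _).mul_left _) (hw.mul_left _)

theorem burgess_num {Q N : ℝ} {k ω : ℕ} (hQ : 2 ≤ Q) (hN : Q ^ ((k : ℝ) / 9) ≤ N)
    (hω : (ω : ℝ) ≤ 1 / 2200 * k) (hk : 2200 ≤ k) :
    1470 * 1920 ^ ω ≤ N * (Q ^ (-(k : ℝ) / 60)) ^ 6 := by
  have hQ0 : 0 < Q := by linarith
  have hQ1 : 1 ≤ Q := by linarith
  have h11 : (2048 : ℝ) ≤ Q ^ 11 := by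
    calc (2048 : ℝ) = 2 ^ 11 := by norm_num
      _ ≤ Q ^ 11 := pow_le_pow_left₀ (by norm_num) hQ 11
  have hk' : (2200 : ℝ) ≤ k := by exact_mod_cast hk
  have e6 : (Q ^ (-(k : ℝ) / 60)) ^ 6 = Q ^ (-(k : ℝ) / 10) := by
    rw [← Real.rpow_natCast, ← Real.rpow_mul hQ0.le]
    congr 1
    push_cast
    ring
  calc (1470 : ℝ) * 1920 ^ ω ≤ Q ^ 11 * (Q ^ 11) ^ ω :=
        mul_le_mul (by linarith) (pow_le_pow_left₀ (by norm_num) (by linarith) ω)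
          (by positivity) (by positivity)
    _ = Q ^ ((11 + 11 * ω : ℕ) : ℝ) := by rw [Real.rpow_natCast]; ring
    _ ≤ Q ^ ((k : ℝ) / 9 + -(k : ℝ) / 10) := by
        apply Real.rpow_le_rpow_of_exponent_le hQ1
        push_cast
        linarith
    _ = Q ^ ((k : ℝ) / 9) * Q ^ (-(k : ℝ) / 10) := Real.rpow_add hQ0 _ _
    _ ≤ N * (Q ^ (-(k : ℝ) / 60)) ^ 6 := by
        rw [e6]
        exact mul_le_mul_of_nonneg_right hN (Real.rpow_nonneg hQ0.le _)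

theorem burgess_fin {Q N s E M c r : ℝ} {n l d ω : ℕ} (hQ : 1 ≤ Q) (hN : 0 < N) (hs : 0 ≤ s)
    (hr : 0 ≤ r) (hd : d ≤ n) (hl : d ≤ 3 * l) (hM0 : 0 ≤ M)
    (h1 : N * Q ^ l * s ≤ c) (h2 : c ^ 6 ≤ (Q ^ n * N) ^ 4 * E * M)
    (hE : E ≤ 2 * 12 ^ ω * Q ^ n * N)
    (hM : M ≤ Q ^ d * (729 * Q ^ (d + 3 * l) + 6 * 160 ^ ω * Q ^ (6 * l)))
    (h3 : 1470 * 1920 ^ ω ≤ N * r ^ 6) : s ≤ Q ^ n * r := by
  have hQ0 : 0 < Q := by linarith
  have a1 : Q ^ (d + 3 * l) ≤ Q ^ (6 * l) := pow_le_pow_right₀ hQ (by omega)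
  have a2 : Q ^ d ≤ Q ^ n := pow_le_pow_right₀ hQ hd
  have a3 : (1 : ℝ) ≤ 160 ^ ω := one_le_pow₀ (by norm_num)
  have a4 : M ≤ Q ^ n * (735 * 160 ^ ω * Q ^ (6 * l)) := by
    refine hM.trans (mul_le_mul a2 ?_ (by positivity) (by positivity))
    have : (0 : ℝ) < Q ^ (6 * l) := by positivity
    nlinarith
  have a5 : (N * Q ^ l * s) ^ 6 ≤ (Q ^ n * N) ^ 4 * (2 * 12 ^ ω * Q ^ n * N) *
      (Q ^ n * (735 * 160 ^ ω * Q ^ (6 * l))) := by
    refine (pow_le_pow_left₀ (by positivity) h1 6).trans (h2.trans ?_)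
    exact mul_le_mul (mul_le_mul_of_nonneg_left hE (by positivity)) a4 hM0 (by positivity)
  have e1 : (1920 : ℝ) ^ ω = 12 ^ ω * 160 ^ ω := by rw [← mul_pow]; norm_num
  have a6 : (N * Q ^ l) ^ 6 * s ^ 6 ≤ (N * Q ^ l) ^ 6 * (Q ^ n * r) ^ 6 := by
    calc (N * Q ^ l) ^ 6 * s ^ 6 = (N * Q ^ l * s) ^ 6 := by ring
      _ ≤ _ := a5
      _ = (Q ^ n) ^ 6 * N ^ 5 * (Q ^ l) ^ 6 * (1470 * 1920 ^ ω) := by rw [e1]; ring
      _ ≤ (Q ^ n) ^ 6 * N ^ 5 * (Q ^ l) ^ 6 * (N * r ^ 6) :=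
          mul_le_mul_of_nonneg_left h3 (by positivity)
      _ = _ := by ring
  have a7 : s ^ 6 ≤ (Q ^ n * r) ^ 6 := le_of_mul_le_mul_left a6 (by positivity)
  exact (pow_le_pow_iff_left₀ hs (by positivity) (by norm_num)).1 a7

omit [CharP K 2] in
theorem burgess_shift_mem {k : ℕ} {G u v : K[X]} (hG : 50 * G.natDegree ≤ k)
    (hu : u ∈ Mn K (k / 8)) (hv : v ∈ Pl K (k / 3 + 1)) : (G * (u * v)) ^ 2 ∈ Pl K (k + 1) := by
  rw [mem_Pl] at hv ⊢
  have h1 : v.natDegree ≤ k / 3 := by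
    rcases eq_or_ne v 0 with rfl | h0
    · simp
    · have := (natDegree_lt_iff_degree_lt h0).2 hv
      omega
  have h2 : u.natDegree = k / 8 := (mem_Mn.1 hu).2
  have h3 : ((G * (u * v)) ^ 2).natDegree ≤ k := by
    have b1 := natDegree_pow_le (p := G * (u * v)) (n := 2)
    have b2 := natDegree_mul_le (p := G) (q := u * v)
    have b3 := natDegree_mul_le (p := u) (q := v)
    omega
  refine lt_of_le_of_lt degree_le_natDegree ?_
  exact_mod_cast Nat.lt_succ_of_le h3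

theorem burgess : ∃ k₀ : ℕ, ∀ k ≥ k₀, ∀ (p G s c₀ η : K[X]) (κ : K[X] → ℝ), p.Monic →
    Squarefree p → p.natDegree ≤ k → 49 * k ≤ 50 * p.natDegree → 50 * G.natDegree ≤ k →
    IsCoprime G p → IsCoprime s p → (∀ x, |κ x| ≤ 1) → (∀ x v, κ (x + (G * v) ^ 2) = κ x) →
    |∑ x ∈ Pl K (k + 1), κ x * kl p (s * (derivative x ^ 2 + c₀) ^ 3 + η) (x ^ 2)| ≤
      (Fintype.card K : ℝ) ^ (k + 1) * (Fintype.card K : ℝ) ^ (-(k : ℝ) / 60) := by
  obtain ⟨k₁, hk₁⟩ := card_pf_le (K := K) (ε := 1 / 2200) (by norm_num)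
  obtain ⟨k₂, hk₂⟩ := exists_many_primes (K := K)
  refine ⟨max 2200 (max k₁ k₂), ?_⟩
  intro k hk p G s c₀ η κ hp hsq hdk hkd hGk hG hs hκ hκs
  have hk0 : 2200 ≤ k := le_trans (le_max_left _ _) hk
  have hk1 : k₁ ≤ k := le_trans ((le_max_left _ _).trans (le_max_right _ _)) hk
  have hk2 : k₂ ≤ k := le_trans ((le_max_right _ _).trans (le_max_right _ _)) hk
  obtain ⟨U, hU, hUc⟩ := hk₂ k hk2 p hp.ne_zero hdk
  have hω := hk₁ k hk1 p hp.ne_zero hdk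
  set Q : ℝ := (Fintype.card K : ℝ) with hQdef
  have hQ : 2 ≤ Q := by
    have : 2 ≤ Fintype.card K := Fintype.one_lt_card
    rw [hQdef]; exact_mod_cast this
  have hN : (0 : ℝ) < U.card := lt_of_lt_of_le (Real.rpow_pos_of_pos (by linarith) _) hUc
  have hw : ∀ u : K[X], ∃ w : K[X], u ∈ U → p ∣ (G * u) ^ 4 * w - 1 := by
    intro u
    by_cases hu : u ∈ U
    · obtain ⟨a, b, hab⟩ := (hG.mul_left (hU u hu).2.2).pow_left (m := 4)
      exact ⟨a, fun _ => ⟨-b, by linear_combination hab⟩⟩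
    · exact ⟨0, fun h => absurd h hu⟩
  choose w hw using hw
  set l := k / 3 + 1 with hl
  set A : K[X] → K[X] := fun x => s * (derivative x ^ 2 + c₀) ^ 3 + η with hA
  set π : K[X] × K[X] → K[X] × K[X] :=
    fun t => ((A t.1 * w t.2) %ₘ p, (t.1 ^ 2 * w t.2) %ₘ p) with hπ
  set W : K[X] × K[X] → ℝ := fun z => ∑ v ∈ Pl K l, kl p z.1 (z.2 + v ^ 4) with hW
  set S₀ : ℝ := ∑ x ∈ Pl K (k + 1), κ x * kl p (A x) (x ^ 2) with hS₀
  have h2 : (2 : K[X]) = 0 := by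
    have := CharP.cast_eq_zero K[X] 2
    exact_mod_cast this
  have hshift : ∀ u ∈ U, ∀ v ∈ Pl K l,
      S₀ = ∑ x ∈ Pl K (k + 1), κ x * kl p (π (x, u)).1 ((π (x, u)).2 + v ^ 4) := by
    intro u hu v hv
    rw [hS₀, ← sum_Pl_shift (burgess_shift_mem hGk (hU u hu).1 hv)
      (fun x => κ x * kl p (A x) (x ^ 2))]
    refine Finset.sum_congr rfl fun x _ => ?_
    have hd : derivative (x + (G * (u * v)) ^ 2) = derivative x := by
      rw [derivative_add, derivative_sq]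
      have : (C 2 : K[X]) = 0 := by
        rw [← h2]; rfl
      rw [this]; ring
    have hAx : A (x + (G * (u * v)) ^ 2) = A x := by simp only [hA, hd]
    rw [hκs, hAx]
    congr 1
    refine kl_scale (u := (G * u) ^ 4) ((hG.mul_left (hU u hu).2.2).pow_left)
      (burgess_unit (hw u hu)) ?_
    have e : (x + (G * (u * v)) ^ 2) ^ 2 - (G * u) ^ 4 * ((π (x, u)).2 + v ^ 4) =
        x ^ 2 - (G * u) ^ 4 * ((x ^ 2 * w u) %ₘ p) := by
      simp only [hπ]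
      linear_combination (x * (G * (u * v)) ^ 2) * h2
    rw [e]
    exact burgess_unit (hw u hu)
  have hsum : (U.card : ℝ) * Q ^ l * S₀ = ∑ t ∈ Pl K (k + 1) ×ˢ U, κ t.1 * W (π t) := by
    rw [Finset.sum_product_right]
    have : ∀ u ∈ U, ∑ x ∈ Pl K (k + 1), κ (x, u).1 * W (π (x, u)) = Q ^ l * S₀ := by
      intro u hu
      simp only [hW, Finset.mul_sum]
      rw [Finset.sum_comm]
      rw [Finset.sum_congr rfl (fun v hv => (hshift u hu v hv).symm), Finset.sum_const,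
        card_Pl, nsmul_eq_mul]
      push_cast
      rfl
    rw [Finset.sum_congr rfl this, Finset.sum_const, nsmul_eq_mul]
    ring
  have h1 : (U.card : ℝ) * Q ^ l * |S₀| ≤ ∑ t ∈ Pl K (k + 1) ×ˢ U, |W (π t)| := by
    have : (U.card : ℝ) * Q ^ l * |S₀| = |(U.card : ℝ) * Q ^ l * S₀| := by
      rw [abs_mul ((U.card : ℝ) * Q ^ l), abs_of_nonneg (a := (U.card : ℝ) * Q ^ l)
        (by positivity)]
    rw [this, hsum]
    refine (Finset.abs_sum_le_sum_abs _ _).trans (Finset.sum_le_sum fun t _ => ?_)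
    rw [abs_mul]
    exact mul_le_of_le_one_left (abs_nonneg _) (hκ _)
  have hmod : ∀ a : K[X], a %ₘ p ∈ Pl K p.natDegree := by
    intro a
    rw [mem_Pl, ← degree_eq_natDegree hp.ne_zero]
    exact degree_modByMonic_lt a hp
  have h3 := holder_six (Pl K (k + 1) ×ˢ U) (Pl K p.natDegree ×ˢ Pl K p.natDegree) π
    (fun t _ => Finset.mem_product.2 ⟨hmod _, hmod _⟩) W
  have hc : ((Pl K (k + 1) ×ˢ U).card : ℝ) = Q ^ (k + 1) * U.card := by
    rw [Finset.card_product, card_Pl]; push_cast; rfl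
  rw [hc] at h3
  have hM := moment hp hsq l
  rw [← Finset.sum_product' (f := fun α β => (∑ v ∈ Pl K l, kl p α (β + v ^ 4)) ^ 6)] at hM
  have hE := energy hp hsq (k := k) (h := k / 8) (by omega) (by omega) (by omega) U hU hs c₀ η
  refine burgess_fin (l := l) (d := p.natDegree) (ω := (pf p).card) (by linarith) hN
    (abs_nonneg _) (Real.rpow_nonneg (by linarith) _) (by omega) (by omega)
    (Finset.sum_nonneg fun z _ => Even.pow_nonneg (by decide) _) h1 h3 (le_trans ?_ hE) hM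
    (burgess_num hQ hUc hω hk0)
  refine Nat.cast_le.2 (Finset.card_le_card fun t ht => ?_)
  obtain ⟨ht1, ht2⟩ := (@Finset.mem_filter _ _ (_) _ _).1 ht
  rw [Finset.mem_filter]
  have hu1 : t.1.2 ∈ U := (Finset.mem_product.1 (Finset.mem_product.1 ht1).1).2
  have hu2 : t.2.2 ∈ U := (Finset.mem_product.1 (Finset.mem_product.1 ht1).2).2
  exact ⟨ht1, burgess_cross hG (congrArg Prod.fst ht2) (hw _ hu1) (hw _ hu2),
    burgess_cross hG (congrArg Prod.snd ht2) (hw _ hu1) (hw _ hu2)⟩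

end Pool.Agent.P.MP_a1177c_nt.HL
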