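import Pool.Agent.P.MP_a1177c_nt.HL.Defs

namespace Pool.Agent.P.MP_a1177c_nt.HL

open Polynomial Finset
open scoped Classical LaurentSeries

variable {K : Type*} [Field K] [Fintype K] [CharP K 2]

open WithZero

omit [Fintype K] [CharP K 2] in
private theorem io_C (a : K) : io (C a) = (HahnSeries.single (0 : ℤ) a : K⸨X⸩) := by
  simp [io, HahnSeries.C_apply]

omit [Fintype K] [CharP K 2] in
private theorem io_X : io (X : K[X]) = (HahnSeries.single (-1 : ℤ) (1 : K) : K⸨X⸩) := by
  simp [io]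

omit [Fintype K] [CharP K 2] in
private theorem io_monomial (n : ℕ) (a : K) :
    io (monomial n a) = (HahnSeries.single (-(n : ℤ)) a : K⸨X⸩) := by
  rw [← C_mul_X_pow_eq_monomial, map_mul, map_pow, io_C, io_X, HahnSeries.single_pow,
    HahnSeries.single_mul_single]
  simp

omit [Fintype K] [CharP K 2] in
private theorem io_coeff_neg (g : K[X]) (n : ℕ) : (io g).coeff (-(n : ℤ)) = g.coeff n := by
  induction g using Polynomial.induction_on' with
  | add p q hp hq => rw [map_add, HahnSeries.coeff_add, hp, hq, coeff_add]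
  | monomial m a =>
    rw [io_monomial, HahnSeries.coeff_single, coeff_monomial]
    by_cases h : m = n
    · subst h; simp
    · have h' : ¬ (-(n : ℤ) = -(m : ℤ)) := by omega
      rw [if_neg h', if_neg h]

omit [Fintype K] [CharP K 2] in
private theorem io_coeff_pos (g : K[X]) {k : ℤ} (hk : 0 < k) : (io g).coeff k = 0 := by
  induction g using Polynomial.induction_on' with
  | add p q hp hq => rw [map_add, HahnSeries.coeff_add, hp, hq, add_zero]
  | monomial m a =>
    rw [io_monomial, HahnSeries.coeff_single]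
    have h' : ¬ (k = -(m : ℤ)) := by omega
    rw [if_neg h']

omit [Fintype K] [CharP K 2] in
private theorem val_le_iff {D : ℤ} {φ : K⸨X⸩} :
    val φ ≤ exp (-D) ↔ ∀ n : ℤ, n < D → φ.coeff n = 0 :=
  LaurentSeries.valuation_le_iff_coeff_lt_eq_zero K

omit [Fintype K] in
theorem two_eq_zero_laurent : (2 : K⸨X⸩) = 0 := by
  have h : (2 : K) = 0 := by
    have := CharP.cast_eq_zero K 2
    exact_mod_cast this
  have h2 : (2 : K⸨X⸩) = io (C (2 : K)) := by
    rw [show (C (2 : K) : K[X]) = 2 from map_ofNat C 2, map_ofNat]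
  rw [h2, h, map_zero, map_zero]

omit [Fintype K] [CharP K 2] in
theorem io_ne_zero {g : K[X]} (hg : g ≠ 0) : io g ≠ 0 := by
  intro h
  have h1 := io_coeff_neg g g.natDegree
  rw [h] at h1
  exact leadingCoeff_ne_zero.mpr hg (by rw [leadingCoeff, ← h1]; simp)

omit [Fintype K] [CharP K 2] in
private theorem val_io_le_aux {g : K[X]} {D : ℤ} (hg : ∀ n : ℕ, D < n → g.coeff n = 0) (hD : -1 ≤ D) :
    val (io g) ≤ exp D := by
  have : D = -(-D) := by ring
  rw [this, val_le_iff]
  intro n hn
  obtain ⟨m, rfl⟩ : ∃ m : ℕ, n = -(m : ℤ) := ⟨(-n).toNat, by omega⟩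
  rw [io_coeff_neg]
  exact hg m (by omega)

omit [Fintype K] [CharP K 2] in
private theorem val_eq_of_coeff {φ : K⸨X⸩} {D : ℤ} (h1 : val φ ≤ exp D)
    (h2 : φ.coeff (-D) ≠ 0) : val φ = exp D := by
  have hφ : φ ≠ 0 := by
    rintro rfl
    exact h2 (by simp)
  have hv : val φ ≠ 0 := (Valuation.ne_zero_iff _).mpr hφ
  have h3 : ¬ val φ ≤ exp (-(1 - D)) := by
    intro h
    exact h2 (val_le_iff.mp h _ (by omega))
  rw [← exp_log hv] at h1 h3 ⊢
  rw [exp_le_exp] at h1 h3
  congr 1
  omega

omit [Fintype K] [CharP K 2] in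
theorem val_io {g : K[X]} (hg : g ≠ 0) : val (io g) = exp (g.natDegree : ℤ) := by
  apply val_eq_of_coeff
  · apply val_io_le_aux _ (by omega)
    intro n hn
    exact coeff_eq_zero_of_natDegree_lt (by omega)
  · rw [io_coeff_neg]
    exact leadingCoeff_ne_zero.mpr hg

omit [Fintype K] [CharP K 2] in
theorem val_io_le {g : K[X]} {n : ℕ} (hg : g.natDegree ≤ n) : val (io g) ≤ exp (n : ℤ) := by
  apply val_io_le_aux _ (by omega)
  intro m hm
  exact coeff_eq_zero_of_natDegree_lt (by omega)

omit [Fintype K] [CharP K 2] in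
theorem val_io_le_of_degree_lt {g : K[X]} {n : ℕ} (hg : g.degree < n) :
    val (io g) ≤ exp ((n : ℤ) - 1) := by
  apply val_io_le_aux _ (by omega)
  intro m hm
  apply coeff_eq_zero_of_degree_lt
  refine lt_of_lt_of_le hg ?_
  exact_mod_cast (by omega : n ≤ m)

omit [Fintype K] [CharP K 2] in
theorem res_add (φ φ' : K⸨X⸩) : res (φ + φ') = res φ + res φ' := by
  simp [res]

omit [Fintype K] [CharP K 2] in
theorem res_C_mul (a : K) (φ : K⸨X⸩) : res (io (C a) * φ) = a * res φ := by
  rw [io_C, res, res, HahnSeries.coeff_single_zero_mul]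

omit [Fintype K] [CharP K 2] in
theorem res_io (g : K[X]) : res (io g) = 0 :=
  io_coeff_pos g one_pos

omit [Fintype K] [CharP K 2] in
theorem res_eq_zero {φ : K⸨X⸩} (h : val φ ≤ exp (-2 : ℤ)) : res φ = 0 :=
  val_le_iff.mp h 1 (by norm_num)

omit [Fintype K] [CharP K 2] in
theorem res_ne_zero {φ : K⸨X⸩} (h : val φ = exp (-1 : ℤ)) : res φ ≠ 0 := by
  intro h0
  have h1 : val φ ≤ exp (-(2 : ℤ)) := by
    rw [val_le_iff]
    intro n hn
    by_cases hn1 : n = 1
    · subst hn1; exact h0
    · exact val_le_iff.mp h.le n (by omega)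
  rw [h, exp_le_exp] at h1
  omega

omit [Fintype K] [CharP K 2] in
theorem rs_add (g g' M : K[X]) : rs (g + g') M = rs g M + rs g' M := by
  rw [rs, rs, rs, map_add, add_div, res_add]

omit [Fintype K] [CharP K 2] in
theorem rs_C_mul (a : K) (g M : K[X]) : rs (C a * g) M = a * rs g M := by
  rw [rs, rs, map_mul, mul_div_assoc, res_C_mul]

omit [Fintype K] [CharP K 2] in
theorem rs_congr {g g' M : K[X]} (h : M ∣ g - g') : rs g M = rs g' M := by
  obtain ⟨Q, hQ⟩ := h
  by_cases hM : M = 0
  · subst hM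
    simp [rs]
  · have hg : g = g' + M * Q := by rw [← hQ]; ring
    rw [hg, rs_add]
    have : rs (M * Q) M = 0 := by
      rw [rs, map_mul, mul_div_cancel_left₀ _ (io_ne_zero hM), res_io]
    rw [this, add_zero]

omit [Fintype K] [CharP K 2] in
theorem rs_mul_cancel (g M : K[X]) {h : K[X]} (hh : h ≠ 0) : rs (g * h) (M * h) = rs g M := by
  rw [rs, rs, map_mul, map_mul, mul_div_mul_right _ _ (io_ne_zero hh)]

omit [Fintype K] [CharP K 2] in
private theorem res_single_one (c : K) : res (HahnSeries.single (1 : ℤ) c : K⸨X⸩) = c := by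
  simp [res]

omit [Fintype K] [CharP K 2] in
theorem rs_eq_coeff (g : K[X]) {M : K[X]} (hM : M.Monic) :
    rs g M = (g %ₘ M).coeff (M.natDegree - 1) := by
  by_cases hN : M.natDegree = 0
  · have h1 : M = 1 := hM.natDegree_eq_zero.mp hN
    subst h1
    simp [rs, res_io]
  set r := g %ₘ M with hr
  set c := r.coeff (M.natDegree - 1) with hc
  have hM0 : M ≠ 0 := hM.ne_zero
  have hdeg : r.degree < M.degree := degree_modByMonic_lt g hM
  have h1 : rs g M = rs r M := by
    apply rs_congr
    refine ⟨g /ₘ M, ?_⟩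
    have := modByMonic_add_div g M
    rw [hr]
    linear_combination -this
  have hX : io (X : K[X]) ≠ 0 := io_ne_zero X_ne_zero
  have h2 : (HahnSeries.single (1 : ℤ) c : K⸨X⸩) * io (X : K[X]) = io (C c) := by
    rw [io_X, io_C, HahnSeries.single_mul_single]
    simp
  have h3 : io r / io M = HahnSeries.single (1 : ℤ) c + io (X * r - C c * M) / io (X * M) := by
    rw [map_sub, map_mul, map_mul, map_mul, ← h2]
    have := io_ne_zero hM0
    field_simp
    ring
  have h4 : (X * r - C c * M).degree < ((M.natDegree : ℕ) : WithBot ℕ) := by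
    rw [degree_lt_iff_coeff_zero]
    intro m hm
    obtain ⟨k, rfl⟩ : ∃ k, m = k + 1 := ⟨m - 1, by omega⟩
    rw [coeff_sub, coeff_X_mul, coeff_C_mul]
    rcases eq_or_lt_of_le hm with h | h
    · have h5 : M.coeff (k + 1) = 1 := by rw [← h]; exact hM.coeff_natDegree
      rw [h5, hc, show M.natDegree - 1 = k by omega]
      ring
    · have h5 : M.coeff (k + 1) = 0 := coeff_eq_zero_of_natDegree_lt h
      have h6 : r.coeff k = 0 := by
        apply coeff_eq_zero_of_degree_lt
        refine lt_of_lt_of_le hdeg ?_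
        rw [degree_eq_natDegree hM0]
        exact_mod_cast (by omega : M.natDegree ≤ k)
      rw [h5, h6]
      ring
  have h5 : val (io (X * r - C c * M) / io (X * M)) ≤ exp (-2 : ℤ) := by
    have hXM : X * M ≠ 0 := mul_ne_zero X_ne_zero hM0
    rw [map_div₀, val_io hXM, natDegree_X_mul hM0, div_le_iff₀ (exp_pos), ← exp_add]
    refine (val_io_le_of_degree_lt h4).trans ?_
    rw [exp_le_exp]
    push_cast
    omega
  rw [h1, rs, h3, res_add, res_eq_zero h5, res_single_one, add_zero]

omit [Fintype K] [CharP K 2] in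
private theorem decomp (g : K[X]) {M : K[X]} (hM : M ≠ 0) :
    ∃ (Q : K[X]) (φ : K⸨X⸩), val φ ≤ exp (-2 : ℤ) ∧
      io g / io M = io Q + HahnSeries.single (1 : ℤ) (rs g M) + φ := by
  have hio := io_ne_zero hM
  have h1 : io g / io M = io (g / M) + io (g % M) / io M := by
    have h := EuclideanDomain.div_add_mod g M
    have h' : io g = io M * io (g / M) + io (g % M) := by
      rw [← map_mul, ← map_add, h]
    rw [h']
    field_simp
  have h2 : val (io (g % M) / io M) ≤ exp (-1 : ℤ) := by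
    rw [map_div₀, val_io hM, div_le_iff₀ (exp_pos), ← exp_add]
    have h3 : (g % M).degree < ((M.natDegree : ℕ) : WithBot ℕ) := by
      rw [← degree_eq_natDegree hM]
      exact degree_mod_lt g hM
    refine (val_io_le_of_degree_lt h3).trans ?_
    rw [exp_le_exp]
    omega
  have h3 : rs g M = res (io (g % M) / io M) := by
    rw [rs, h1, res_add, res_io, zero_add]
  refine ⟨g / M, io (g % M) / io M - HahnSeries.single (1 : ℤ) (rs g M), ?_, ?_⟩
  · rw [val_le_iff]
    intro n hn
    rw [HahnSeries.coeff_sub, HahnSeries.coeff_single]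
    by_cases hn1 : n = 1
    · subst hn1
      rw [if_pos rfl, h3, res, sub_self]
    · rw [if_neg hn1, sub_zero]
      exact val_le_iff.mp h2 n (by omega)
  · rw [h1]; ring

omit [Fintype K] in
private theorem sq_decomp (g : K[X]) {M : K[X]} (hM : M ≠ 0) :
    ∃ (Q : K[X]) (φ : K⸨X⸩), val φ ≤ exp (-4 : ℤ) ∧
      io (g ^ 2) / io (M ^ 2) = io (Q ^ 2) + HahnSeries.single (2 : ℤ) (rs g M ^ 2) + φ := by
  obtain ⟨Q, φ, h1, h2⟩ := decomp g hM
  refine ⟨Q, φ ^ 2, ?_, ?_⟩
  · rw [map_pow, sq, show (-4 : ℤ) = -2 + -2 by norm_num, exp_add]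
    exact mul_le_mul' h1 h1
  · have h3 : (HahnSeries.single (2 : ℤ) (rs g M ^ 2) : K⸨X⸩) =
        HahnSeries.single (1 : ℤ) (rs g M) ^ 2 := by
      rw [HahnSeries.single_pow]
      simp
    rw [map_pow, map_pow, map_pow, ← div_pow, h2, h3]
    have h4 := two_eq_zero_laurent (K := K)
    linear_combination (io Q * HahnSeries.single (1 : ℤ) (rs g M) + io Q * φ +
      HahnSeries.single (1 : ℤ) (rs g M) * φ) * h4

omit [Fintype K] in
theorem rs_sq (g M : K[X]) : rs (g ^ 2) (M ^ 2) = 0 := by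
  by_cases hM : M = 0
  · subst hM
    simp [rs, res]
  obtain ⟨Q, φ, h1, h2⟩ := sq_decomp g hM
  have h3 : res φ = 0 := res_eq_zero (h1.trans (by rw [exp_le_exp]; norm_num))
  rw [rs, h2, res_add, res_add, res_io, h3]
  simp [res]

omit [Fintype K] in
theorem rs_X_mul_sq (g M : K[X]) : rs (X * g ^ 2) (M ^ 2) = rs g M ^ 2 := by
  by_cases hM : M = 0
  · subst hM
    simp [rs, res]
  obtain ⟨Q, φ, h1, h2⟩ := sq_decomp g hM
  have h3 : res (io (X : K[X]) * φ) = 0 := by
    apply res_eq_zero
    rw [map_mul, val_io X_ne_zero, natDegree_X]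
    refine (mul_le_mul_right h1 _).trans ?_
    rw [← exp_add, exp_le_exp]
    norm_num
  have h4 : io (X : K[X]) * (HahnSeries.single (2 : ℤ) (rs g M ^ 2) : K⸨X⸩) =
      HahnSeries.single (1 : ℤ) (rs g M ^ 2) := by
    rw [io_X, HahnSeries.single_mul_single]
    simp
  rw [rs, map_mul, mul_div_assoc, h2, mul_add, mul_add, ← map_mul, res_add, res_add, res_io, h3, h4,
    res_single_one]
  ring

end Pool.Agent.P.MP_a1177c_nt.HL
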