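import Pool.Agent.P.MP_a1177c_nt.HL.Sq
import Pool.Agent.P.MP_a1177c_nt.HL.Psi
import Pool.Agent.P.MP_a1177c_nt.HL.Res

namespace Pool.Agent.P.MP_a1177c_nt.HL

open Polynomial Finset
open scoped Classical

variable {K : Type*} [Field K] [Fintype K] [CharP K 2]

theorem chi_add (p g g' : K[X]) : chi p (g + g') = chi p g * chi p g' := by
  unfold chi
  rw [add_mul, rs_add, psi_add]

omit [Fintype K] [CharP K 2] in
theorem chi_congr {p g g' : K[X]} (h : p ∣ g - g') : chi p g = chi p g' := by
  unfold chi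
  rw [rs_congr (g' := g' * derivative p)]
  rw [← sub_mul]
  exact h.mul_right _

omit [Fintype K] [CharP K 2] in
theorem abs_chi (p g : K[X]) : |chi p g| = 1 := abs_psi _

omit [Fintype K] [CharP K 2] in
private theorem chi_zero' (p : K[X]) : chi p 0 = 1 := by
  have h : rs (0 : K[X]) p = 0 := by
    have := rs_C_mul (0 : K) (0 : K[X]) p
    simpa using this
  unfold chi
  rw [zero_mul, h, psi_zero]

omit [Fintype K] [CharP K 2] in
private theorem chi_of_dvd {p g : K[X]} (h : p ∣ g) : chi p g = 1 := by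
  rw [chi_congr (g' := 0) (by simpa using h), chi_zero']

theorem chi_sq (p g : K[X]) : chi p (g ^ 2) = chi p g := by
  rcases eq_or_ne p 0 with rfl | hp
  · simp [chi]
  obtain ⟨B, D, hBD⟩ := exists_sq_add p
  have hd : derivative p = D ^ 2 := by rw [hBD, derivative_sq_add]
  unfold chi
  rw [hd, ← rs_mul_cancel (g ^ 2 * D ^ 2) p hp]
  have h1 : g ^ 2 * D ^ 2 * p = (g * D * B) ^ 2 + X * (g * D ^ 2) ^ 2 := by
    rw [hBD]; ring
  rw [h1, ← sq p, rs_add, rs_sq, rs_X_mul_sq, zero_add, psi_sq]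

private theorem exists_chi_eq_neg {p : K[X]} (hp : p.Monic) (hsq : Squarefree p) {r : K[X]}
    (hr : ¬ p ∣ r) : ∃ α ∈ Pl K p.natDegree, chi p (α * r) = -1 := by
  have hsep : IsCoprime p (derivative p) :=
    (PerfectField.separable_iff_squarefree.mpr hsq : p.Separable)
  set R := (r * derivative p) %ₘ p with hR
  have hR0 : R ≠ 0 := by
    intro h0
    exact hr (hsep.dvd_of_dvd_mul_right ((modByMonic_eq_zero_iff_dvd hp).mp h0))
  have hdeg : R.degree < p.degree := degree_modByMonic_lt _ hp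
  have hnd : R.natDegree < p.natDegree := natDegree_lt_natDegree hR0 hdeg
  obtain ⟨γ, hγ⟩ := exists_psi_eq_neg (K := K)
  have hl : R.leadingCoeff ≠ 0 := leadingCoeff_ne_zero.mpr hR0
  set e := p.natDegree - 1 - R.natDegree with he
  refine ⟨C (γ / R.leadingCoeff) * X ^ e, ?_, ?_⟩
  · rw [mem_Pl]
    refine (degree_C_mul_X_pow_le _ _).trans_lt ?_
    exact_mod_cast (by omega : e < p.natDegree)
  · unfold chi
    have hcongr : p ∣ C (γ / R.leadingCoeff) * X ^ e * r * derivative p -
        C (γ / R.leadingCoeff) * (X ^ e * R) := by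
      have h1 : r * derivative p - R = p * ((r * derivative p) /ₘ p) := by
        have := modByMonic_add_div (r * derivative p) p
        rw [← hR] at this
        linear_combination -this
      refine ⟨C (γ / R.leadingCoeff) * X ^ e * ((r * derivative p) /ₘ p), ?_⟩
      linear_combination (C (γ / R.leadingCoeff) * X ^ e) * h1
    rw [rs_congr hcongr, rs_C_mul, rs_eq_coeff _ hp]
    have hlt : (X ^ e * R).degree < p.degree := by
      apply degree_lt_degree
      rw [natDegree_X_pow_mul _ hR0]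
      omega
    rw [(modByMonic_eq_self_iff hp).mpr hlt]
    have h2 : p.natDegree - 1 = R.natDegree + e := by omega
    rw [h2, coeff_X_pow_mul, coeff_natDegree, div_mul_cancel₀ _ hl, hγ]

theorem sum_chi {p : K[X]} (hp : p.Monic) (hsq : Squarefree p) (r : K[X]) :
    ∑ α ∈ Pl K p.natDegree, chi p (α * r) =
      if p ∣ r then (Fintype.card K : ℝ) ^ p.natDegree else 0 := by
  split_ifs with hr
  · rw [Finset.sum_congr rfl fun α _ => chi_of_dvd (hr.mul_left α)]
    simp [card_Pl]
  · obtain ⟨α, hα, h⟩ := exists_chi_eq_neg hp hsq hr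
    exact sum_Pl_eq_zero (fun α => chi p (α * r))
      (fun v _ w _ => by simp only [add_mul, chi_add]) hα h

omit [Fintype K] [CharP K 2] in
theorem kl_eq {p z w : K[X]} (h : p ∣ z * w - 1) (α : K[X]) : kl p α z = chi p (α * w) := by
  have hex : ∃ w : K[X], p ∣ z * w - 1 := ⟨w, h⟩
  unfold kl
  rw [dif_pos hex]
  apply chi_congr
  have h0 := hex.choose_spec
  have : α * hex.choose - α * w =
      α * w * (z * hex.choose - 1) - α * hex.choose * (z * w - 1) := by ring
  rw [this]
  exact dvd_sub (h0.mul_left _) (h.mul_left _)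

omit [Fintype K] [CharP K 2] in
theorem kl_eq_zero {p z : K[X]} (h : ¬ IsCoprime z p) (α : K[X]) : kl p α z = 0 := by
  unfold kl
  rw [dif_neg]
  rintro ⟨w, k, hk⟩
  exact h ⟨w, -k, by linear_combination hk⟩

omit [Fintype K] [CharP K 2] in
theorem abs_kl_le (p α z : K[X]) : |kl p α z| ≤ 1 := by
  unfold kl
  split_ifs
  · exact (abs_chi _ _).le
  · simp

omit [Fintype K] [CharP K 2] in
private theorem exists_inv {p z : K[X]} (h : IsCoprime z p) : ∃ w : K[X], p ∣ z * w - 1 := by
  obtain ⟨a, b, hab⟩ := h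
  exact ⟨a, -b, by linear_combination hab⟩

omit [Fintype K] [CharP K 2] in
/-- `α / z = α' / z'` when `α = u α'`, `z = u z'` modulo `p` with `u` a unit -/
theorem kl_scale {p u α α' z z' : K[X]} (hu : IsCoprime u p) (hα : p ∣ α - u * α')
    (hz : p ∣ z - u * z') : kl p α z = kl p α' z' := by
  obtain ⟨a, ha⟩ := exists_inv hu
  by_cases h' : IsCoprime z' p
  · obtain ⟨w, hw⟩ := exists_inv h'
    have h1 : p ∣ z * (a * w) - 1 := by
      have : z * (a * w) - 1 =
          (z - u * z') * (a * w) + (u * a - 1) * (z' * w) + (z' * w - 1) := by ring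
      rw [this]
      exact dvd_add (dvd_add (hz.mul_right _) (ha.mul_right _)) hw
    rw [kl_eq h1, kl_eq hw]
    apply chi_congr
    have : α * (a * w) - α' * w = (α - u * α') * (a * w) + (u * a - 1) * (α' * w) := by ring
    rw [this]
    exact dvd_add (hα.mul_right _) (ha.mul_right _)
  · rw [kl_eq_zero h', kl_eq_zero]
    rintro ⟨x, y, hxy⟩
    obtain ⟨k, hk⟩ := hz
    exact h' ⟨x * u, y + x * k, by linear_combination hxy - x * hk⟩

private theorem chi_sum (p : K[X]) {ι : Type*} (s : Finset ι) (g : ι → K[X]) :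
    chi p (∑ i ∈ s, g i) = ∏ i ∈ s, chi p (g i) := by
  induction s using Finset.induction_on with
  | empty => simp [chi_zero']
  | insert i s hi ih => rw [Finset.sum_insert hi, Finset.prod_insert hi, chi_add, ih]

theorem sum_prod_kl {p : K[X]} (hp : p.Monic) (hsq : Squarefree p) {ι : Type*} [Fintype ι]
    (z : ι → K[X]) :
    ∑ α ∈ Pl K p.natDegree, ∏ i, kl p α (z i) =
      if (∀ i, IsCoprime (z i) p) ∧ p ∣ ∑ i, ∏ j ∈ univ.erase i, z j then
        (Fintype.card K : ℝ) ^ p.natDegree else 0 := by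
  by_cases hc : ∀ i, IsCoprime (z i) p
  · choose w hw using fun i => exists_inv (hc i)
    have h1 : ∀ α, ∏ i, kl p α (z i) = chi p (α * ∑ i, w i) := by
      intro α
      rw [Finset.mul_sum, chi_sum]
      exact Finset.prod_congr rfl fun i _ => kl_eq (hw i) α
    have h2 : p ∣ (∏ i, z i) * ∑ i, w i - ∑ i, ∏ j ∈ univ.erase i, z j := by
      rw [Finset.mul_sum, ← Finset.sum_sub_distrib]
      refine Finset.dvd_sum fun i _ => ?_
      rw [← Finset.mul_prod_erase univ z (mem_univ i)]
      have : z i * (∏ j ∈ univ.erase i, z j) * w i - ∏ j ∈ univ.erase i, z j =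
          (z i * w i - 1) * ∏ j ∈ univ.erase i, z j := by ring
      rw [this]
      exact (hw i).mul_right _
    have h3 : IsCoprime (∏ i, z i) p := IsCoprime.prod_left fun i _ => hc i
    have h4 : p ∣ ∑ i, w i ↔ p ∣ ∑ i, ∏ j ∈ univ.erase i, z j := by
      constructor
      · intro h
        have := dvd_sub (h.mul_left (∏ i, z i)) h2
        simpa using this
      · intro h
        have := dvd_add h2 h
        rw [sub_add_cancel] at this
        exact h3.symm.dvd_of_dvd_mul_left this
    simp only [h1, sum_chi hp hsq, h4, hc, implies_true, true_and]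
  · rw [if_neg fun h => hc h.1]
    obtain ⟨i, hi⟩ := not_forall.mp hc
    exact Finset.sum_eq_zero fun α _ => Finset.prod_eq_zero (mem_univ i) (kl_eq_zero hi α)

private theorem sum_chi_nonneg (p g : K[X]) (j : ℕ) : 0 ≤ ∑ w ∈ Pl K j, chi p (g * w) := by
  by_cases h : ∃ w ∈ Pl K j, chi p (g * w) = -1
  · obtain ⟨w, hw, h⟩ := h
    exact (sum_Pl_eq_zero (fun w => chi p (g * w))
      (fun v _ w _ => by simp only [mul_add, chi_add]) hw h).ge
  · refine Finset.sum_nonneg fun w hw => ?_
    rcases psi_eq_or (rs (g * w * derivative p) p) with h1 | h1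
    · unfold chi; rw [h1]; exact zero_le_one
    · exact absurd ⟨w, hw, h1⟩ h

theorem fourier {p G : K[X]} (hp : p.Monic) (hsq : Squarefree p) (hG : IsCoprime G p) {j : ℕ}
    (hj : j ≤ p.natDegree) :
    ∃ c : K[X] → ℝ, ∑ η ∈ Pl K p.natDegree, |c η| ≤ 1 ∧ ∀ r : K[X],
      (((Mn K j).filter fun u => p ∣ G * u + r).card : ℝ) =
        ∑ η ∈ Pl K p.natDegree, c η * chi p (η * r) := by
  set Q : ℝ := (Fintype.card K : ℝ) ^ p.natDegree with hQ
  have hQ0 : 0 < Q := pow_pos (by exact_mod_cast Fintype.card_pos) _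
  refine ⟨fun η => Q⁻¹ * (chi p (η * G * X ^ j) * ∑ w ∈ Pl K j, chi p (η * G * w)), ?_, ?_⟩
  · have h1 : ∀ η : K[X], |Q⁻¹ * (chi p (η * G * X ^ j) * ∑ w ∈ Pl K j, chi p (η * G * w))| =
        Q⁻¹ * ∑ w ∈ Pl K j, chi p (η * (G * w)) := by
      intro η
      rw [abs_mul, abs_mul, abs_chi, one_mul, abs_of_pos (inv_pos.mpr hQ0),
        abs_of_nonneg (sum_chi_nonneg p (η * G) j)]
      simp only [mul_assoc]
    simp only [h1]
    rw [← Finset.mul_sum, Finset.sum_comm]
    simp only [sum_chi hp hsq]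
    have h2 : ∑ w ∈ Pl K j, (if p ∣ G * w then Q else 0) = Q := by
      rw [Finset.sum_eq_single 0]
      · simp
      · intro w hw hw0
        rw [if_neg]
        intro hd
        refine hw0 (eq_zero_of_dvd_of_degree_lt (hG.symm.dvd_of_dvd_mul_left hd) ?_)
        rw [degree_eq_natDegree hp.ne_zero]
        exact (mem_Pl.mp hw).trans_le (by exact_mod_cast hj)
      · intro h0
        exact absurd (mem_Pl.mpr (by simp)) h0
    rw [← hQ, h2, inv_mul_cancel₀ hQ0.ne']
  · intro r
    have h1 : (((Mn K j).filter fun u => p ∣ G * u + r).card : ℝ) =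
        ∑ u ∈ Mn K j, Q⁻¹ * ∑ η ∈ Pl K p.natDegree, chi p (η * (G * u + r)) := by
      rw [Finset.card_filter]
      push_cast
      refine Finset.sum_congr rfl fun u _ => ?_
      rw [sum_chi hp hsq, ← hQ]
      split_ifs
      · rw [inv_mul_cancel₀ hQ0.ne']
      · simp
    rw [h1, sum_Mn_eq j fun u => Q⁻¹ * ∑ η ∈ Pl K p.natDegree, chi p (η * (G * u + r)),
      ← Finset.mul_sum, Finset.sum_comm, Finset.mul_sum]
    refine Finset.sum_congr rfl fun η _ => ?_
    rw [mul_assoc, Finset.mul_sum, Finset.mul_sum, Finset.sum_mul, Finset.mul_sum]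
    refine Finset.sum_congr rfl fun w _ => ?_
    rw [← chi_add, ← chi_add]
    congr 2
    ring

end Pool.Agent.P.MP_a1177c_nt.HL
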