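import Pool.Agent.P.MP_a1177c_nt.HL.Sq

namespace Pool.Agent.P.MP_a1177c_nt.HL

open Polynomial Finset
open scoped Classical

variable {K : Type*} [Field K] [Fintype K] [CharP K 2]

omit [Fintype K] [CharP K 2] in
theorem ct_coprime {a c g A : K[X]} (hac : IsCoprime a c) (h : g ∣ a * A ^ 2 + c) :
    IsCoprime g a := by
  have h1 : IsCoprime (a * A ^ 2 + c) a := by
    rw [add_comm]; exact hac.symm.add_mul_left_left _
  exact h1.of_isCoprime_of_dvd_left h

omit [Fintype K] [CharP K 2] in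
theorem ct_monic_add {P R : K[X]} (hP : P.Monic) (h : R.natDegree < P.natDegree) :
    (P + R).Monic ∧ (P + R).natDegree = P.natDegree :=
  ⟨hP.add_of_left (degree_lt_degree h), natDegree_add_eq_left_of_natDegree_lt h⟩

omit [Fintype K] [CharP K 2] in
theorem ct_sq_mul_squarefree (n : ℕ) : ∀ y : K[X], y.Monic → y.natDegree = n →
    ∃ g y₀ : K[X], g.Monic ∧ y₀.Monic ∧ Squarefree y₀ ∧ y = g ^ 2 * y₀ := by
  induction n using Nat.strong_induction_on with
  | _ n ih =>
    intro y hy hn
    by_cases hs : Squarefree y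
    · exact ⟨1, y, monic_one, hy, hs, by ring⟩
    · rw [squarefree_iff_no_irreducibles hy.ne_zero] at hs
      push Not at hs
      obtain ⟨p, hp, hpp⟩ := hs
      have ha := normalize_associated p
      have hm : (normalize p).Monic := Polynomial.monic_normalize hp.ne_zero
      have hirr : Irreducible (normalize p) := ha.symm.irreducible hp
      obtain ⟨z, hz⟩ := (mul_dvd_mul ha.dvd ha.dvd).trans hpp
      have hzm : z.Monic := (hm.mul hm).of_mul_monic_left (hz ▸ hy)
      have hdeg : y.natDegree = (normalize p).natDegree + (normalize p).natDegree + z.natDegree := by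
        rw [hz, (hm.mul hm).natDegree_mul hzm, hm.natDegree_mul hm]
      have hpos := hirr.natDegree_pos
      obtain ⟨g, y₀, h1, h2, h3, h4⟩ := ih z.natDegree (by omega) z hzm rfl
      exact ⟨normalize p * g, y₀, hm.mul h1, h2, h3, by rw [hz, h4]; ring⟩

theorem ct_dvd_iff {a c D Δ g e₀ x y : K[X]} (hD : a * c = D ^ 2 + X * Δ ^ 2)
    (hgs : Squarefree g) (hge : g * e₀ = x ^ 2 + X * y ^ 2) (hxy : IsCoprime x y)
    (hga : IsCoprime g a) (A : K[X]) :
    g ∣ a * A ^ 2 + c ↔ g ∣ (a * A + D) * y + Δ * x := by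
  have h2 : (2 : K[X]) = 0 := two_eq_zero_poly
  have hgy : IsCoprime g y := by
    have h1 : IsCoprime (x ^ 2 + y * (X * y)) y := (hxy.pow_left (m := 2)).add_mul_left_left _
    exact h1.of_isCoprime_of_dvd_left ⟨e₀, by rw [hge]; ring⟩
  have e : ((a * A + D) * y + Δ * x) ^ 2 = y ^ 2 * a * (a * A ^ 2 + c) + g * (e₀ * Δ ^ 2) := by
    linear_combination (-y ^ 2) * hD - Δ ^ 2 * hge +
      (a * A * D * y ^ 2 + (a * A + D) * y * Δ * x - X * Δ ^ 2 * y ^ 2) * h2
  rw [← hgs.dvd_pow_iff_dvd (y := (a * A + D) * y + Δ * x) (n := 2) (by norm_num), e,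
    dvd_add_left (Dvd.intro _ rfl)]
  exact ⟨fun h => h.mul_left _,
    fun h => ((hgy.pow_right (n := 2)).mul_right hga).dvd_of_dvd_mul_left h⟩

theorem count_eq {a c D Δ e A₁ g e₀ x y : K[X]} {m k'' : ℕ} (ha : a.Monic) (hac : IsCoprime a c)
    (hD : a * c = D ^ 2 + X * Δ ^ 2) (hg : g.Monic) (hgs : Squarefree g)
    (hge : g * e₀ = x ^ 2 + X * y ^ 2) (hxy : IsCoprime x y) (hy : y.Monic)
    (hk : k'' + g.natDegree = a.natDegree + m + y.natDegree)
    (h1 : D.natDegree < a.natDegree + m)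
    (h2 : Δ.natDegree + x.natDegree < a.natDegree + m + y.natDegree) :
    ((Mn K m).filter fun A => g ∣ a * A ^ 2 + c ∧ e ∣ A - A₁).card =
      if IsCoprime g a then
        ((Mn K k'').filter fun u => a * e * y ∣ g * u + Δ * x + (D + A₁ * a) * y).card
      else 0 := by
  have two : (2 : K[X]) = 0 := two_eq_zero_poly
  split_ifs with hga
  · have hiff := ct_dvd_iff hD hgs hge hxy hga
    have hΔ : (Δ * x).natDegree < a.natDegree + m + y.natDegree :=
      lt_of_le_of_lt natDegree_mul_le h2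
    have hdiv : ∀ A, g ∣ a * A ^ 2 + c →
        g * (((a * A + D) * y + Δ * x) /ₘ g) = (a * A + D) * y + Δ * x := by
      intro A hA
      obtain ⟨u, hu⟩ := (hiff A).1 hA
      rw [hu, mul_divByMonic_cancel_left _ hg]
    refine card_bij (fun A _ => ((a * A + D) * y + Δ * x) /ₘ g) ?_ ?_ ?_
    · intro A hA
      obtain ⟨hA1, hA2, w, hw⟩ := mem_filter.1 hA
      obtain ⟨hA3, hA4⟩ := mem_Mn.1 hA1
      have d1 : (a * A).natDegree = a.natDegree + m := by rw [ha.natDegree_mul hA3, hA4]
      obtain ⟨m1, d2⟩ := ct_monic_add (R := D) (ha.mul hA3) (by omega)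
      have d3 : ((a * A + D) * y).natDegree = a.natDegree + m + y.natDegree := by
        rw [m1.natDegree_mul hy, d2, d1]
      obtain ⟨m2, d4⟩ := ct_monic_add (R := Δ * x) (m1.mul hy) (by omega)
      have hu := hdiv A hA2
      generalize ((a * A + D) * y + Δ * x) /ₘ g = u at hu ⊢
      have m3 : u.Monic := hg.of_mul_monic_left (hu ▸ m2)
      have d5 : g.natDegree + u.natDegree = a.natDegree + m + y.natDegree := by
        rw [← hg.natDegree_mul m3, hu, d4, d3]
      refine mem_filter.2 ⟨mem_Mn.2 ⟨m3, by omega⟩, w, ?_⟩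
      linear_combination hu + (a * y) * hw + (Δ * x + D * y + A₁ * a * y) * two
    · intro A hA A' hA' h
      have e1 := hdiv A (mem_filter.1 hA).2.1
      have e2 := hdiv A' (mem_filter.1 hA').2.1
      rw [h, e2] at e1
      have e3 : (a * y) * A = (a * y) * A' := by linear_combination -e1
      exact mul_left_cancel₀ (ha.mul hy).ne_zero e3
    · intro u hu
      obtain ⟨hu1, w, hw⟩ := mem_filter.1 hu
      obtain ⟨hu2, hu3⟩ := mem_Mn.1 hu1
      have e1 : (a * (A₁ + e * w) + D) * y + Δ * x = g * u := by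
        linear_combination -hw + (Δ * x + D * y + A₁ * a * y) * two
      have e2 : (a * y) * (A₁ + e * w) = g * u + Δ * x + D * y := by
        linear_combination e1 - (Δ * x + D * y) * two
      have d1 : (g * u).natDegree = a.natDegree + m + y.natDegree := by
        rw [hg.natDegree_mul hu2, hu3]; omega
      obtain ⟨m1, d2⟩ := ct_monic_add (R := Δ * x) (hg.mul hu2) (by omega)
      have d3 : (D * y).natDegree ≤ D.natDegree + y.natDegree := natDegree_mul_le
      obtain ⟨m2, d4⟩ := ct_monic_add (R := D * y) m1 (by omega)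
      have m3 : (A₁ + e * w).Monic := (ha.mul hy).of_mul_monic_left (e2 ▸ m2)
      have d5 : a.natDegree + y.natDegree + (A₁ + e * w).natDegree =
          a.natDegree + m + y.natDegree := by
        rw [← ha.natDegree_mul hy, ← (ha.mul hy).natDegree_mul m3, e2, d4, d2, d1]
      refine ⟨A₁ + e * w, mem_filter.2 ⟨mem_Mn.2 ⟨m3, by omega⟩, (hiff _).2 ⟨u, e1⟩,
        w, by ring⟩, ?_⟩
      rw [e1, mul_divByMonic_cancel_left _ hg]
  · rw [card_eq_zero, filter_eq_empty_iff]
    exact fun A _ h => hga (ct_coprime hac h.1)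

theorem ct_dvd_sq {a c d b b' : K[X]} (hda : IsCoprime d a) (h : d ∣ a * b ^ 2 + c)
    (h' : d ∣ a * b' ^ 2 + c) : d ∣ (b - b') ^ 2 := by
  have two : (2 : K[X]) = 0 := two_eq_zero_poly
  have e : a * (b - b') ^ 2 = a * b ^ 2 + c - (a * b' ^ 2 + c) := by
    linear_combination (a * b' ^ 2 - a * b * b') * two
  exact hda.dvd_of_dvd_mul_left (e ▸ dvd_sub h h')

/-- number of roots of `a b ^ 2 + c` modulo an arbitrary monic `d` -/
theorem card_root_classes {a c D Δ d : K[X]} (hac : IsCoprime a c)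
    (hD : a * c = D ^ 2 + X * Δ ^ 2) (hΔ : Δ ≠ 0) (hd : d.Monic) :
    ((Pl K d.natDegree).filter fun b => d ∣ a * b ^ 2 + c).card ≤
      Fintype.card K ^ Δ.natDegree := by
  have two : (2 : K[X]) = 0 := two_eq_zero_poly
  rcases ((Pl K d.natDegree).filter fun b => d ∣ a * b ^ 2 + c).eq_empty_or_nonempty with
    h | ⟨b₀, hb₀⟩
  · rw [h, card_empty]; exact Nat.zero_le _
  obtain ⟨δ, d₀, hδ, hd₀, hs, e⟩ := ct_sq_mul_squarefree _ d hd rfl
  have hb := (mem_filter.1 hb₀).2
  have hda := ct_coprime hac hb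
  have h1 : δ ∣ Δ := by
    refine dvd_of_sq_dvd_sq_add (P := a * b₀ + D) ?_
    have e1 : (a * b₀ + D) ^ 2 + X * Δ ^ 2 = a * (a * b₀ ^ 2 + c) := by
      linear_combination -hD + (a * b₀ * D) * two
    rw [e1]
    exact ((Dvd.intro _ e.symm).trans hb).mul_left _
  have h2 := natDegree_le_of_dvd h1 hΔ
  have h3 := card_le_of_Pl (G := δ * d₀) (hδ.mul hd₀).ne_zero (n := d.natDegree)
    (S := (Pl K d.natDegree).filter fun b => d ∣ a * b ^ 2 + c) (filter_subset _ _)
    (fun b hb b' hb' => by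
      have h4 := ct_dvd_sq hda (mem_filter.1 hb).2 (mem_filter.1 hb').2
      obtain ⟨w, hw⟩ : δ ∣ b - b' := by
        refine dvd_of_sq_dvd_sq_add (P := 0) ?_
        rw [zero_pow (by norm_num), zero_add]
        exact ((Dvd.intro _ e.symm).trans h4).mul_left _
      rw [hw, e, mul_pow, mul_dvd_mul_iff_left (hδ.pow 2).ne_zero,
        hs.dvd_pow_iff_dvd (by norm_num)] at h4
      rw [hw]
      exact mul_dvd_mul_left _ h4)
  refine h3.trans (Nat.pow_le_pow_right Fintype.card_pos ?_)
  have d1 : d.natDegree = 2 * δ.natDegree + d₀.natDegree := by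
    rw [e, (hδ.pow 2).natDegree_mul hd₀, hδ.natDegree_pow]
  rw [hδ.natDegree_mul hd₀]
  omega

/-- for squarefree `g` of degree at most `m` there is one root class or none -/
theorem count_small {a c g : K[X]} (hac : IsCoprime a c) (hg : g.Monic) (hgs : Squarefree g)
    {m : ℕ} (hm : g.natDegree ≤ m) :
    ((Mn K m).filter fun A => g ∣ a * A ^ 2 + c).card =
      if IsCoprime g a then Fintype.card K ^ (m - g.natDegree) else 0 := by
  have two : (2 : K[X]) = 0 := two_eq_zero_poly
  split_ifs with hga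
  · have hdeg : g.degree = g.natDegree := degree_eq_natDegree hg.ne_zero
    obtain ⟨b₀, hb₀⟩ : ∃ b₀, g ∣ a * b₀ ^ 2 + c := by
      have hmap : ∀ b ∈ Pl K g.natDegree, (a * b ^ 2 + c) %ₘ g ∈ Pl K g.natDegree :=
        fun b _ => mem_Pl.2 (hdeg ▸ degree_modByMonic_lt _ hg)
      obtain ⟨b, -, hb⟩ := surj_on_of_inj_on_of_card_le (s := Pl K g.natDegree)
        (t := Pl K g.natDegree) (fun b _ => (a * b ^ 2 + c) %ₘ g) hmap (fun b b' hb hb' h => by
          have e1 := modByMonic_add_div (a * b ^ 2 + c) g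
          have e2 := modByMonic_add_div (a * b' ^ 2 + c) g
          have h1 : g ∣ a * (b - b') ^ 2 :=
            ⟨(a * b ^ 2 + c) /ₘ g - (a * b' ^ 2 + c) /ₘ g, by
              linear_combination -e1 + e2 + h + (a * b' ^ 2 - a * b * b') * two⟩
          have h2 := (hgs.dvd_pow_iff_dvd (by norm_num)).1 (hga.dvd_of_dvd_mul_left h1)
          have h3 : (b - b').degree < g.degree := by
            rw [hdeg]
            exact lt_of_le_of_lt (degree_sub_le _ _) (max_lt (mem_Pl.1 hb) (mem_Pl.1 hb'))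
          exact sub_eq_zero.1 (eq_zero_of_dvd_of_degree_lt h2 h3)) le_rfl 0
        (mem_Pl.2 (by rw [degree_zero]; exact WithBot.bot_lt_coe _))
      exact ⟨b, (modByMonic_eq_zero_iff_dvd hg).1 hb.symm⟩
    rw [← card_Mn_dvd_eq hg hm b₀]
    refine congrArg card (filter_congr fun A _ => ⟨fun h => ?_, fun h => ?_⟩)
    · exact (hgs.dvd_pow_iff_dvd (by norm_num)).1 (ct_dvd_sq hga h hb₀)
    · have e : a * A ^ 2 + c = a * b₀ ^ 2 + c + (A - b₀) * (a * (A + b₀)) := by ring
      rw [e]
      exact dvd_add hb₀ (h.mul_right _)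
  · rw [card_eq_zero, filter_eq_empty_iff]
    exact fun A _ h => hga (ct_coprime hac h)

end Pool.Agent.P.MP_a1177c_nt.HL
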