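import Mathlib

/-! Definitions for the count of irreducible values of `a A ^ 2 + c` in `K[X]`, `K` a finite field
of characteristic two. -/

namespace Pool.Agent.P.MP_a1177c_nt.HL

open Polynomial
open scoped Classical LaurentSeries

variable {K : Type*} [Field K]

/-- In characteristic two this is the additive character `(-1) ^ trace`. -/
noncomputable def psi (c : K) : ℝ := if ∃ γ : K, γ ^ 2 + γ = c then 1 else -1

/-- Liouville function -/
noncomputable def lam (g : K[X]) : ℝ := (-1) ^ (UniqueFactorizationMonoid.factors g).card

/-- Moebius function -/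
noncomputable def mu (g : K[X]) : ℝ := if Squarefree g then lam g else 0

theorem finite_degree_lt (K : Type*) [Field K] [Fintype K] (n : ℕ) :
    {g : K[X] | g.degree < n}.Finite := by
  have h : Finite (degreeLT K n) := Finite.of_equiv _ (degreeLTEquiv K n).toEquiv.symm
  have h2 : {g : K[X] | g.degree < n} = (degreeLT K n : Set K[X]) := by
    ext g; simp [mem_degreeLT]
  rw [h2]
  exact Set.toFinite _

/-- polynomials of degree less than `n` -/
noncomputable def Pl (K : Type*) [Field K] [Fintype K] (n : ℕ) : Finset K[X] :=
  (finite_degree_lt K n).toFinset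

/-- monic polynomials of degree `n` -/
noncomputable def Mn (K : Type*) [Field K] [Fintype K] (n : ℕ) : Finset K[X] :=
  (Pl K (n + 1)).filter fun g => g.Monic ∧ g.natDegree = n

/-- monic irreducible divisors -/
noncomputable def pf [Fintype K] (p : K[X]) : Finset K[X] :=
  (Pl K (p.natDegree + 1)).filter fun π => π.Monic ∧ Irreducible π ∧ π ∣ p

/-- expansion at infinity: `X` goes to the inverse of the uniformiser -/
noncomputable def io : K[X] →+* K⸨X⸩ :=
  eval₂RingHom HahnSeries.C (HahnSeries.single (-1 : ℤ) (1 : K))

/-- the absolute value at infinity, `val (io g) = exp (natDegree g)` -/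
noncomputable def val : Valuation K⸨X⸩ (WithZero (Multiplicative ℤ)) := Valued.v

/-- coefficient of `1 / X` -/
noncomputable def res (φ : K⸨X⸩) : K := φ.coeff 1

/-- coefficient of `1 / X` in the expansion of `g / M` at infinity -/
noncomputable def rs (g M : K[X]) : K := res (io g / io M)

/-- the numerator in the formula for the Liouville function of `x ^ 2 + X * y ^ 2` -/
noncomputable def Om (x y xb : K[X]) : K[X] :=
  (X * (x * derivative x + X * y * derivative y) * xb ^ 2 +
      (X * (x * derivative x + X * y * derivative y) * xb ^ 2) ^ 2) *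
    (derivative x ^ 2 + X * derivative y ^ 2)

/-- the trace character modulo `p` -/
noncomputable def chi (p g : K[X]) : ℝ := psi (rs (g * derivative p) p)

/-- the Kloosterman fraction `chi p (α / z)`, zero if `z` is not a unit modulo `p` -/
noncomputable def kl (p α z : K[X]) : ℝ :=
  if h : ∃ w : K[X], p ∣ z * w - 1 then chi p (α * h.choose) else 0

/-- Moebius-weighted number of pairs `(g, A)` with `g ∣ a A ^ 2 + c` -/
noncomputable def UU [Fintype K] (a c : K[X]) (m N : ℕ) : ℝ :=
  ∑ g ∈ Mn K N, mu g * (((Mn K m).filter fun A => g ∣ a * A ^ 2 + c).card : ℝ)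

/-- von Mangoldt function of a monic polynomial of degree at most `n` -/
noncomputable def vm [Fintype K] (f : K[X]) (n : ℕ) : ℝ :=
  -∑ N ∈ Finset.range (n + 1), (N : ℝ) * ∑ g ∈ (Mn K N).filter (fun g => g ∣ f), mu g

end Pool.Agent.P.MP_a1177c_nt.HL
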