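import Pool.Agent.P.MP_a1177c_nt.HL.Mob

namespace Pool.Agent.P.MP_a1177c_nt.HL

open Polynomial Finset
open scoped Classical

variable {K : Type*} [Field K] [Fintype K] [CharP K 2]

private lemma nat_mul_le (N : ℕ) : (N : ℝ) * (3 / 4) ^ N ≤ 15 * (4 / 5) ^ N := by
  have h1 : (1 : ℝ) + N * (1 / 15) ≤ (1 + 1 / 15) ^ N := one_add_mul_le_pow (by norm_num) N
  have h2 : ((4 : ℝ) / 5) ^ N = (1 + 1 / 15) ^ N * (3 / 4) ^ N := by
    rw [← mul_pow]; norm_num
  have h3 : (0 : ℝ) ≤ (3 / 4) ^ N := by positivity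
  rw [h2]
  nlinarith [mul_le_mul_of_nonneg_right h1 h3]

private lemma abs_nat_mul_le {x : ℕ → ℝ} {C : ℝ} (h : ∀ N, |x N| ≤ C * (3 / 4) ^ N) (N : ℕ) :
    ‖(N : ℝ) * x N‖ ≤ 15 * C * (4 / 5) ^ N := by
  have hC : 0 ≤ C := by
    have := (abs_nonneg _).trans (h 0)
    simpa using this
  rw [Real.norm_eq_abs, abs_mul, Nat.abs_cast]
  have h1 := mul_le_mul_of_nonneg_left (h N) (Nat.cast_nonneg (α := ℝ) N)
  have h2 := mul_le_mul_of_nonneg_left (nat_mul_le N) hC
  nlinarith

private lemma step {x y : ℕ → ℝ} {e : ℕ} (he : 1 ≤ e) {θ C P : ℝ} (h0 : 0 ≤ θ)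
    (h1 : θ ≤ (1 / 2) ^ e) (hrec : ∀ N, y N = x N + if e ≤ N then θ * y (N - e) else 0)
    (hb : ∀ N, |x N| ≤ C * (3 / 4) ^ N) (hs : HasSum x 0)
    (hw : HasSum (fun N : ℕ => (N : ℝ) * x N) (-P)) :
    (∀ N, |y N| ≤ 3 * C * (3 / 4) ^ N) ∧ HasSum y 0 ∧
      HasSum (fun N : ℕ => (N : ℝ) * y N) (-(P / (1 - θ))) := by
  have hC : 0 ≤ C := by
    have := (abs_nonneg _).trans (hb 0)
    simpa using this
  have h23 : ((2 : ℝ) / 3) ^ e ≤ 2 / 3 := pow_le_of_le_one (by norm_num) (by norm_num) (by omega)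
  have h12 : ((1 : ℝ) / 2) ^ e ≤ 1 / 2 := pow_le_of_le_one (by norm_num) (by norm_num) (by omega)
  have hθ : θ ≤ 2 / 3 * (3 / 4) ^ e := by
    have h2 : ((1 : ℝ) / 2) ^ e = (2 / 3) ^ e * (3 / 4) ^ e := by
      rw [← mul_pow]; norm_num
    have h3 : (0 : ℝ) ≤ (3 / 4) ^ e := by positivity
    nlinarith [mul_le_mul_of_nonneg_right h23 h3]
  have hθ1 : 1 - θ ≠ 0 := by
    have : θ < 1 := by linarith
    linarith [sub_pos.2 this] |> fun h : (0 : ℝ) < 1 - θ => h.ne'
  have hyb : ∀ N, |y N| ≤ 3 * C * (3 / 4) ^ N := by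
    intro N
    induction N using Nat.strong_induction_on with
    | _ N ih =>
      rw [hrec N]
      have h3 : (0 : ℝ) ≤ (3 / 4) ^ N := by positivity
      split_ifs with h
      · have h4 := ih (N - e) (by omega)
        have h5 : ((3 : ℝ) / 4) ^ N = (3 / 4) ^ e * (3 / 4) ^ (N - e) := by
          rw [← pow_add]; congr 1; omega
        have h6 : |θ * y (N - e)| ≤ 2 * C * (3 / 4) ^ N := by
          rw [abs_mul, abs_of_nonneg h0, h5]
          calc θ * |y (N - e)| ≤ (2 / 3 * (3 / 4) ^ e) * (3 * C * (3 / 4) ^ (N - e)) :=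
                mul_le_mul hθ h4 (abs_nonneg _) (by positivity)
            _ = _ := by ring
        linarith [abs_add_le (x N) (θ * y (N - e)), hb N]
      · rw [add_zero]
        nlinarith [hb N, mul_nonneg hC h3]
  have hsy : Summable y := by
    refine Summable.of_norm_bounded (g := fun N => 3 * C * (3 / 4) ^ N) ?_ fun N => hyb N
    exact (summable_geometric_of_lt_one (by norm_num) (by norm_num)).mul_left _
  have hswy : Summable fun N : ℕ => (N : ℝ) * y N := by
    refine Summable.of_norm_bounded (g := fun N => 15 * (3 * C) * (4 / 5) ^ N) ?_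
      (abs_nat_mul_le hyb)
    exact (summable_geometric_of_lt_one (by norm_num) (by norm_num)).mul_left _
  obtain ⟨Y, hY⟩ := hsy
  obtain ⟨W, hW⟩ := hswy
  have hz : HasSum (fun N => if e ≤ N then θ * y (N - e) else 0) (θ * Y) := by
    rw [← hasSum_nat_add_iff' e, Finset.sum_eq_zero (fun i hi => by
      rw [if_neg (by have := Finset.mem_range.1 hi; omega)]), sub_zero]
    simpa using hY.mul_left θ
  have hY0 : Y = 0 := by
    have h2 := hs.add hz
    have h3 : (fun N => x N + if e ≤ N then θ * y (N - e) else 0) = y := by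
      funext N; exact (hrec N).symm
    rw [h3] at h2
    have h4 := hY.unique h2
    have h5 : (1 - θ) * Y = 0 := by linarith
    exact (mul_eq_zero.1 h5).resolve_left hθ1
  have hzw : HasSum (fun N : ℕ => (N : ℝ) * if e ≤ N then θ * y (N - e) else 0) (θ * W) := by
    rw [← hasSum_nat_add_iff' e, Finset.sum_eq_zero (fun i hi => by
      rw [if_neg (by have := Finset.mem_range.1 hi; omega), mul_zero]), sub_zero]
    have h2 := (hW.mul_left θ).add (hY.mul_left (θ * e))
    rw [hY0, mul_zero, add_zero] at h2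
    have h3 : (fun n : ℕ => ((n + e : ℕ) : ℝ) * if e ≤ n + e then θ * y (n + e - e) else 0) =
        fun b : ℕ => θ * (b * y b) + θ * e * y b := by
      funext n
      rw [if_pos (by omega), Nat.add_sub_cancel]
      push_cast
      ring
    rw [h3]
    exact h2
  refine ⟨hyb, hY0 ▸ hY, ?_⟩
  have h2 := hw.add hzw
  have h3 : (fun N : ℕ => (N : ℝ) * x N + (N : ℝ) * if e ≤ N then θ * y (N - e) else 0) =
      fun N : ℕ => (N : ℝ) * y N := by
    funext N
    rw [← mul_add, ← hrec N]
  rw [h3] at h2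
  have h4 := hW.unique h2
  have h5 : W = -(P / (1 - θ)) := by
    field_simp
    linarith
  exact h5 ▸ hW

/-- Moebius sum over monic polynomials of degree `N` with no divisor in `S` -/
private noncomputable def ms (S : Finset K[X]) (N : ℕ) : ℝ :=
  ∑ g ∈ (Mn K N).filter (fun g => ∀ π ∈ S, ¬ π ∣ g), mu g

omit [CharP K 2] in
private lemma ms_rec {S : Finset K[X]} (hS : ∀ π ∈ S, π.Monic ∧ Irreducible π) {π : K[X]}
    (hm : π.Monic) (hi : Irreducible π) (hπ : π ∉ S) (N : ℕ) :
    ms (insert π S) N =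
      ms S N + if π.natDegree ≤ N then ms (insert π S) (N - π.natDegree) else 0 := by
  have h1 : ms S N = ms (insert π S) N +
      ∑ g ∈ (Mn K N).filter (fun g => (∀ π ∈ S, ¬ π ∣ g) ∧ π ∣ g), mu g := by
    unfold ms
    rw [← Finset.sum_filter_add_sum_filter_not _ (fun g => π ∣ g), Finset.filter_filter,
      Finset.filter_filter, add_comm]
    congr 2
    ext g
    simp only [Finset.mem_filter, Finset.forall_mem_insert]
    tauto
  rw [h1]
  split_ifs with h
  · have h2 : ∑ g ∈ (Mn K N).filter (fun g => (∀ π ∈ S, ¬ π ∣ g) ∧ π ∣ g), mu g =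
        ∑ g ∈ (Mn K (N - π.natDegree)).filter (fun g => ∀ π ∈ S, ¬ π ∣ g), mu (π * g) := by
      symm
      refine Finset.sum_bij (fun g _ => π * g) ?_ ?_ ?_ fun _ _ => rfl
      · intro g hg
        rw [Finset.mem_filter, mem_Mn] at hg ⊢
        refine ⟨⟨hm.mul hg.1.1, ?_⟩, fun ρ hρ hd => ?_, dvd_mul_right _ _⟩
        · rw [hm.natDegree_mul hg.1.1, hg.1.2]; omega
        · rcases (hS ρ hρ).2.prime.dvd_or_dvd hd with h3 | h3
          · have h4 := eq_of_monic_of_associated (hS ρ hρ).1 hm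
              ((hS ρ hρ).2.associated_of_dvd hi h3)
            exact hπ (h4 ▸ hρ)
          · exact hg.2 ρ hρ h3
      · intro g _ g' _ h3
        exact mul_left_cancel₀ hm.ne_zero h3
      · intro g hg
        rw [Finset.mem_filter, mem_Mn] at hg
        obtain ⟨⟨h3, h4⟩, h5, g', rfl⟩ := hg
        have h6 : g'.Monic := hm.of_mul_monic_left h3
        refine ⟨g', ?_, rfl⟩
        rw [Finset.mem_filter, mem_Mn]
        refine ⟨⟨h6, ?_⟩, fun ρ hρ hd => h5 ρ hρ (hd.mul_left _)⟩
        rw [hm.natDegree_mul h6] at h4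
        omega
    have h3 : ∑ g ∈ (Mn K (N - π.natDegree)).filter (fun g => ∀ π ∈ S, ¬ π ∣ g), mu (π * g) =
        -ms (insert π S) (N - π.natDegree) := by
      unfold ms
      rw [← Finset.sum_neg_distrib, Finset.sum_filter, Finset.sum_filter]
      refine Finset.sum_congr rfl fun g _ => ?_
      rw [mu_irreducible_mul hi]
      by_cases h4 : π ∣ g
      · rw [if_pos h4, ite_self, if_neg fun h => h π (Finset.mem_insert_self _ _) h4]
      · rw [if_neg h4]
        by_cases h5 : ∀ π ∈ S, ¬ π ∣ g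
        · rw [if_pos h5, if_pos ((Finset.forall_mem_insert π S fun ρ => ¬ ρ ∣ g).2 ⟨h4, h5⟩)]
        · rw [if_neg h5, if_neg fun h => h5 ((Finset.forall_mem_insert _ _ _).1 h).2]
    rw [h2, h3]
    ring
  · rw [Finset.sum_eq_zero, add_zero, add_zero]
    intro g hg
    rw [Finset.mem_filter, mem_Mn] at hg
    exact absurd (hg.1.2 ▸ natDegree_le_of_dvd hg.2.2 hg.1.1.ne_zero) h

omit [CharP K 2] in
private lemma ms_all (S : Finset K[X]) (hS : ∀ π ∈ S, π.Monic ∧ Irreducible π) :
    ∃ C : ℝ, (∀ N, |ms S N / (Fintype.card K : ℝ) ^ N| ≤ C * (3 / 4) ^ N) ∧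
      HasSum (fun N => ms S N / (Fintype.card K : ℝ) ^ N) 0 ∧
      HasSum (fun N : ℕ => (N : ℝ) * (ms S N / (Fintype.card K : ℝ) ^ N))
        (-∏ π ∈ S, (Fintype.card K : ℝ) ^ π.natDegree /
          ((Fintype.card K : ℝ) ^ π.natDegree - 1)) := by
  have hq : (2 : ℝ) ≤ Fintype.card K := by exact_mod_cast Fintype.one_lt_card
  induction S using Finset.induction_on with
  | empty =>
    have h1 : ∀ N, ms (∅ : Finset K[X]) N / (Fintype.card K : ℝ) ^ N =
        if N = 0 then 1 else if N = 1 then -1 else 0 := by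
      intro N
      unfold ms
      rw [Finset.filter_true_of_mem (by simp), sum_mu_Mn]
      split_ifs with h h'
      · simp [h]
      · rw [h', pow_one, neg_div, div_self (by linarith)]
      · simp
    simp only [h1, Finset.prod_empty]
    refine ⟨2, fun N => ?_, ?_, ?_⟩
    · split_ifs with h h'
      · simp [h]
      · rw [h']; norm_num
      · rw [abs_zero]; positivity
    · have := hasSum_sum_of_ne_finset_zero (L := SummationFilter.unconditional ℕ)
        (f := fun N : ℕ => if N = 0 then (1 : ℝ) else if N = 1 then -1 else 0) (s := {0, 1})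
        (fun b hb => by
          simp only [Finset.mem_insert, Finset.mem_singleton, not_or] at hb
          simp [hb.1, hb.2])
      simpa using this
    · have := hasSum_single (L := SummationFilter.unconditional ℕ)
        (f := fun N : ℕ => (N : ℝ) * if N = 0 then (1 : ℝ) else if N = 1 then -1 else 0) 1
        (fun b hb => by
          by_cases h : b = 0 <;> simp [h, hb])
      simpa using this
  | insert π S hπ ih =>
    obtain ⟨C, h1, h2, h3⟩ := ih fun ρ hρ => hS ρ (Finset.mem_insert_of_mem hρ)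
    obtain ⟨hm, hi⟩ := hS π (Finset.mem_insert_self _ _)
    have he : 1 ≤ π.natDegree := hi.natDegree_pos
    have hq0 : (0 : ℝ) < Fintype.card K := by linarith
    have hqe : (2 : ℝ) ^ π.natDegree ≤ (Fintype.card K : ℝ) ^ π.natDegree :=
      pow_le_pow_left₀ (by norm_num) hq _
    have h2e : (2 : ℝ) ≤ 2 ^ π.natDegree := le_self_pow₀ (by norm_num) (by omega)
    have := step (y := fun N => ms (insert π S) N / (Fintype.card K : ℝ) ^ N) he
      (θ := 1 / (Fintype.card K : ℝ) ^ π.natDegree) (by positivity)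
      (by
        rw [one_div_pow]
        exact one_div_le_one_div_of_le (by positivity) hqe)
      (fun N => by
        rw [ms_rec (fun ρ hρ => hS ρ (Finset.mem_insert_of_mem hρ)) hm hi hπ N, add_div]
        congr 1
        split_ifs with h
        · have h4 : (Fintype.card K : ℝ) ^ N =
              (Fintype.card K : ℝ) ^ π.natDegree * (Fintype.card K : ℝ) ^ (N - π.natDegree) := by
            rw [← pow_add]; congr 1; omega
          rw [h4]
          field_simp
        · simp) h1 h2 h3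
    refine ⟨3 * C, this.1, this.2.1, ?_⟩
    convert this.2.2 using 2
    rw [Finset.prod_insert hπ]
    have h5 : (Fintype.card K : ℝ) ^ π.natDegree - 1 ≠ 0 := by
      have : (0 : ℝ) < (Fintype.card K : ℝ) ^ π.natDegree - 1 := by linarith
      exact this.ne'
    field_simp

omit [CharP K 2] in
theorem main_term {a : K[X]} (ha : a ≠ 0) : ∃ C : ℝ, ∀ m : ℕ,
    |-(∑ N ∈ range (m + 1), (N : ℝ) *
          (∑ g ∈ (Mn K N).filter (fun g => IsCoprime g a), mu g) / (Fintype.card K : ℝ) ^ N) -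
        ∏ π ∈ pf a, (Fintype.card K : ℝ) ^ π.natDegree /
          ((Fintype.card K : ℝ) ^ π.natDegree - 1)| ≤ C * (4 / 5) ^ m := by
  obtain ⟨C, h1, _, h3⟩ := ms_all (pf a) fun π hπ =>
    ⟨((mem_pf ha).1 hπ).1, ((mem_pf ha).1 hπ).2.1⟩
  have hco : ∀ g : K[X], IsCoprime g a ↔ ∀ π ∈ pf a, ¬ π ∣ g := by
    intro g
    constructor
    · intro h π hπ hd
      obtain ⟨_, hi, hd'⟩ := (mem_pf ha).1 hπ
      exact hi.not_isUnit (h.isUnit_of_dvd' hd hd')
    · intro h
      refine isCoprime_of_irreducible_dvd (fun h' => ha h'.2) fun z hz hd hd' => ?_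
      refine h (normalize z) ((mem_pf ha).2 ⟨monic_normalize hz.ne_zero,
        (associated_normalize z).irreducible hz, normalize_dvd_iff.2 hd'⟩) (normalize_dvd_iff.2 hd)
  have hms : ∀ N, ∑ g ∈ (Mn K N).filter (fun g => IsCoprime g a), mu g = ms (pf a) N := by
    intro N
    unfold ms
    congr 1
    ext g
    simp only [Finset.mem_filter, hco]
  refine ⟨60 * C, fun m => ?_⟩
  simp only [hms, mul_div_assoc]
  have h4 := (hasSum_nat_add_iff' (m + 1)).2 h3
  have h5 : HasSum (fun n : ℕ => 15 * C * (4 / 5) ^ (n + (m + 1))) (60 * C * (4 / 5) ^ m) := by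
    have h6 := (hasSum_geometric_of_lt_one (r := 4 / 5) (by norm_num) (by norm_num)).mul_left
      (15 * C * (4 / 5) ^ (m + 1))
    have h7 : (fun n : ℕ => 15 * C * (4 / 5 : ℝ) ^ (n + (m + 1))) =
        fun i : ℕ => 15 * C * (4 / 5) ^ (m + 1) * (4 / 5) ^ i := by
      funext n; ring
    have h8 : 60 * C * (4 / 5 : ℝ) ^ m = 15 * C * (4 / 5) ^ (m + 1) * (1 - 4 / 5)⁻¹ := by ring
    rw [h7, h8]
    exact h6
  have h7 := h4.norm_le_of_bounded h5 fun n => abs_nat_mul_le h1 (n + (m + 1))
  rw [Real.norm_eq_abs] at h7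
  convert h7 using 2
  ring

end Pool.Agent.P.MP_a1177c_nt.HL
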