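import Pool.Agent.P.MP_a1177c_nt.HL.TwoCore
import Pool.Agent.P.MP_a1177c_nt.HL.Count

namespace Pool.Agent.P.MP_a1177c_nt.HL

open Polynomial Finset
open scoped Classical

variable {K : Type*} [Field K] [Fintype K] [CharP K 2]

omit [CharP K 2] in
private theorem codivisor {f d : K[X]} (hf : f.Monic) {N e : ℕ} (h : f.natDegree = N + e)
    (hd : d ∈ (Mn K e).filter (fun d => d ∣ f)) :
    f /ₘ d ∈ (Mn K N).filter (fun g => g ∣ f) ∧ f /ₘ (f /ₘ d) = d := by
  rw [mem_filter, mem_Mn] at hd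
  obtain ⟨⟨hdm, hde⟩, u, rfl⟩ := hd
  have hu : u.Monic := hdm.of_mul_monic_left hf
  rw [mul_divByMonic_cancel_left u hdm, mem_filter, mem_Mn]
  rw [hdm.natDegree_mul hu] at h
  refine ⟨⟨⟨hu, by omega⟩, Dvd.intro_left d rfl⟩, ?_⟩
  rw [mul_comm, mul_divByMonic_cancel_left d hu]

omit [CharP K 2] in
private theorem sum_codivisor {f : K[X]} (hf : f.Monic) {N e : ℕ} (h : f.natDegree = N + e)
    (F : K[X] → ℝ) :
    ∑ g ∈ (Mn K N).filter (fun g => g ∣ f), F g =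
      ∑ d ∈ (Mn K e).filter (fun d => d ∣ f), F (f /ₘ d) := by
  symm
  refine Finset.sum_nbij' (fun d => f /ₘ d) (fun g => f /ₘ g) ?_ ?_ ?_ ?_ ?_
  · intro d hd
    exact (codivisor hf h hd).1
  · intro g hg
    exact (codivisor hf (h.trans (add_comm N e)) hg).1
  · intro d hd
    exact (codivisor hf h hd).2
  · intro g hg
    exact (codivisor hf (h.trans (add_comm N e)) hg).2
  · intro d _
    rfl

omit [CharP K 2] in
private theorem UU_eq {a c : K[X]} (ha : a.Monic) {m N e : ℕ}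
    (hc : c.natDegree < a.natDegree + 2 * m) (he : a.natDegree + 2 * m = N + e) :
    UU a c m N = ∑ d ∈ Mn K e, ∑ A ∈ Mn K m,
      if d ∣ a * A ^ 2 + c then mu ((a * A ^ 2 + c) /ₘ d) else 0 := by
  unfold UU
  have h1 : ∀ g ∈ Mn K N, mu g * (((Mn K m).filter fun A => g ∣ a * A ^ 2 + c).card : ℝ) =
      ∑ A ∈ Mn K m, if g ∣ a * A ^ 2 + c then mu g else 0 := by
    intro g _
    rw [← Finset.sum_filter, Finset.sum_const, nsmul_eq_mul, mul_comm]
  rw [Finset.sum_congr rfl h1, Finset.sum_comm, Finset.sum_comm (s := Mn K e)]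
  refine Finset.sum_congr rfl fun A hA => ?_
  rw [mem_Mn] at hA
  have hm : (a * A ^ 2).Monic := ha.mul (hA.1.pow 2)
  have hdeg : (a * A ^ 2).natDegree = a.natDegree + 2 * m := by
    rw [ha.natDegree_mul (hA.1.pow 2), hA.1.natDegree_pow, hA.2]
  have hlt : c.natDegree < (a * A ^ 2).natDegree := by omega
  have hf : (a * A ^ 2 + c).Monic := hm.add_of_left (degree_lt_degree hlt)
  have hfd : (a * A ^ 2 + c).natDegree = N + e := by
    rw [natDegree_add_eq_left_of_natDegree_lt hlt, hdeg, he]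
  rw [← Finset.sum_filter, ← Finset.sum_filter, sum_codivisor hf hfd]

theorem U_two {a c D Δ : K[X]} (ha : a.Monic) (hac : IsCoprime a c)
    (hD : a * c = D ^ 2 + X * Δ ^ 2) (hΔ : Δ ≠ 0) :
    ∃ δ : ℝ, 0 < δ ∧ ∃ m₀ : ℕ, ∀ m ≥ m₀, ∀ N : ℕ, 5001 * m < 5000 * N →
      N ≤ a.natDegree + 2 * m →
      |UU a c m N| ≤ (Fintype.card K : ℝ) ^ m * (Fintype.card K : ℝ) ^ (-δ * m) := by
  obtain ⟨δ, hδ, m₁, hcore⟩ := two_core ha hac hD hΔ
  obtain ⟨m₂, hm₂⟩ := exists_nat_ge (2 * (Δ.natDegree : ℝ) / δ)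
  refine ⟨δ / 2, by positivity, m₁ + m₂ + 55000 * a.natDegree + c.natDegree + 1, ?_⟩
  intro m hm N hN1 hN2
  obtain ⟨e, he⟩ := Nat.exists_eq_add_of_le hN2
  have hem : e ≤ m := by omega
  obtain ⟨j, hj⟩ := Nat.exists_eq_add_of_le hem
  have hq1 : (1 : ℝ) ≤ (Fintype.card K : ℝ) := by
    exact_mod_cast Fintype.card_pos
  have hq0 : (0 : ℝ) < (Fintype.card K : ℝ) := lt_of_lt_of_le one_pos hq1
  set q : ℝ := (Fintype.card K : ℝ) with hq
  have hB : 0 ≤ q ^ j * q ^ (-δ * m) := by positivity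
  have hd : ∀ d ∈ Mn K e, |∑ A ∈ Mn K m,
      if d ∣ a * A ^ 2 + c then mu ((a * A ^ 2 + c) /ₘ d) else 0| ≤
        q ^ Δ.natDegree * (q ^ j * q ^ (-δ * m)) := by
    intro d hd
    rw [mem_Mn] at hd
    have hmj : m = d.natDegree + j := by omega
    have h2 := sum_Mn_divmod hd.1 j
      (fun A => if d ∣ a * A ^ 2 + c then mu ((a * A ^ 2 + c) /ₘ d) else 0)
    rw [← hmj] at h2
    rw [h2]
    have h3 : ∀ b ∈ Pl K d.natDegree, (∑ k ∈ Mn K j,
        if d ∣ a * (b + d * k) ^ 2 + c then mu ((a * (b + d * k) ^ 2 + c) /ₘ d) else 0) =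
        if d ∣ a * b ^ 2 + c then ∑ k ∈ Mn K j, mu ((a * (b + d * k) ^ 2 + c) /ₘ d) else 0 := by
      intro b _
      have h4 : ∀ k : K[X], d ∣ a * (b + d * k) ^ 2 + c ↔ d ∣ a * b ^ 2 + c := by
        intro k
        have h5 : a * (b + d * k) ^ 2 + c =
            (a * b ^ 2 + c) + d * (a * (2 * b * k + d * k ^ 2)) := by ring
        rw [h5]
        exact dvd_add_left (Dvd.intro _ rfl)
      simp only [h4]
      split_ifs
      · rfl
      · simp
    rw [Finset.sum_congr rfl h3, ← Finset.sum_filter]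
    refine (Finset.abs_sum_le_sum_abs _ _).trans ?_
    refine (Finset.sum_le_card_nsmul _ _ (q ^ j * q ^ (-δ * m)) ?_).trans ?_
    · intro b hb
      rw [mem_filter] at hb
      exact hcore m (by omega) d b j hd.1 hb.1 hb.2 hmj.symm (by omega)
    · rw [nsmul_eq_mul]
      refine mul_le_mul_of_nonneg_right ?_ hB
      rw [hq]
      exact_mod_cast card_root_classes hac hD hΔ hd.1
  rw [UU_eq ha (by omega) he]
  refine (Finset.abs_sum_le_sum_abs _ _).trans ?_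
  refine (Finset.sum_le_card_nsmul _ _ _ hd).trans ?_
  rw [nsmul_eq_mul, card_Mn]
  push_cast
  rw [← hq]
  have h6 : q ^ e * (q ^ Δ.natDegree * (q ^ j * q ^ (-δ * m))) =
      q ^ m * q ^ ((Δ.natDegree : ℝ) + -δ * m) := by
    rw [Real.rpow_add hq0, Real.rpow_natCast, hj, pow_add]
    ring
  rw [h6]
  refine mul_le_mul_of_nonneg_left (Real.rpow_le_rpow_of_exponent_le hq1 ?_) (by positivity)
  have h7 : (m₂ : ℝ) ≤ m := by exact_mod_cast (by omega : m₂ ≤ m)
  have h8 : 2 * (Δ.natDegree : ℝ) ≤ m * δ := by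
    have := hm₂.trans h7
    rwa [div_le_iff₀ hδ] at this
  nlinarith

end Pool.Agent.P.MP_a1177c_nt.HL
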