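import Pool.Agent.P.MP_a1177c_nt.HL.UOne
import Pool.Agent.P.MP_a1177c_nt.HL.UTwo
import Pool.Agent.P.MP_a1177c_nt.HL.MainTerm

namespace Pool.Agent.P.MP_a1177c_nt.HL

open Polynomial Finset
open scoped Classical

variable {K : Type*} [Field K] [Fintype K] [CharP K 2]

private theorem absorb {E : ℕ → ℝ} {q δ C : ℝ} (hq : 1 ≤ q) (hδ : δ ≤ 1) {m₀ : ℕ}
    (h : ∀ m ≥ m₀, |E m| ≤ C * q ^ ((1 - δ) * m)) :
    ∃ C' : ℝ, ∀ m : ℕ, |E m| ≤ C' * q ^ ((1 - δ) * m) := by
  refine ⟨|C| + ∑ i ∈ range m₀, |E i|, fun m => ?_⟩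
  have h1 : 1 ≤ q ^ ((1 - δ) * m) :=
    Real.one_le_rpow hq (mul_nonneg (by linarith) (Nat.cast_nonneg m))
  have h2 : 0 ≤ ∑ i ∈ range m₀, |E i| := sum_nonneg fun _ _ => abs_nonneg _
  rcases le_or_gt m₀ m with hm | hm
  · refine (h m hm).trans (mul_le_mul_of_nonneg_right ?_ (by linarith))
    linarith [le_abs_self C]
  · have h3 : |E m| ≤ ∑ i ∈ range m₀, |E i| :=
      single_le_sum (f := fun i => |E i|) (fun _ _ => abs_nonneg _) (mem_range.2 hm)
    nlinarith [abs_nonneg C]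

private theorem sq_le_rpow {q ε : ℝ} (hq : 1 < q) (hε : 0 < ε) :
    ∃ C : ℝ, ∀ m : ℕ, ((m : ℝ) + 1) ^ 2 ≤ C * q ^ (ε * m) := by
  have hl : 0 < Real.log q := Real.log_pos hq
  set t := ε * Real.log q / 2 with ht
  have ht0 : 0 < t := by positivity
  refine ⟨(1 + 1 / t) ^ 2, fun m => ?_⟩
  have h1 : q ^ (ε * m) = Real.exp (t * m) ^ 2 := by
    rw [Real.rpow_def_of_pos (by linarith), ← Real.exp_nat_mul]
    congr 1
    rw [ht]; push_cast; ring
  rw [h1, ← mul_pow]
  refine pow_le_pow_left₀ (by positivity) ?_ 2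
  have h2 := Real.add_one_le_exp (t * m)
  have h3 : (0 : ℝ) ≤ m := Nat.cast_nonneg m
  have h4 : (1 + 1 / t) * (t * m + 1) = t * m + 1 + m + 1 / t := by field_simp; ring
  have h5 : (1 + 1 / t) * (t * m + 1) ≤ (1 + 1 / t) * Real.exp (t * m) :=
    mul_le_mul_of_nonneg_left h2 (by positivity)
  have h6 : 0 ≤ t * m := by positivity
  have h7 : 0 < 1 / t := by positivity
  linarith

omit [Fintype K] [CharP K 2] in
theorem monic_value {a c A : K[X]} {m : ℕ} (ha : a.Monic) (hA : A.Monic) (hm : A.natDegree = m)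
    (hc : c.natDegree < a.natDegree + 2 * m) :
    (a * A ^ 2 + c).Monic ∧ (a * A ^ 2 + c).natDegree = a.natDegree + 2 * m := by
  have h1 : (a * A ^ 2).Monic := ha.mul (hA.pow 2)
  have h2 : (a * A ^ 2).natDegree = a.natDegree + 2 * m := by
    rw [ha.natDegree_mul (hA.pow 2), hA.natDegree_pow, hm]
  exact ⟨h1.add_of_left (degree_lt_degree (by omega)),
    by rw [natDegree_add_eq_left_of_natDegree_lt (by omega), h2]⟩

private theorem count_eq_sum {a c D Δ : K[X]} (ha : a.Monic) (hD : a * c = D ^ 2 + X * Δ ^ 2)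
    (hΔ : Δ ≠ 0) {m : ℕ} (hc : c.natDegree < a.natDegree + 2 * m) (hm : 3 * Δ.natDegree < m) :
    ((a.natDegree + 2 * m : ℕ) : ℝ) *
        (((Mn K m).filter fun A => Irreducible (a * A ^ 2 + c)).card : ℝ) =
      -∑ N ∈ range (a.natDegree + 2 * m + 1), (N : ℝ) * UU a c m N := by
  set n := a.natDegree + 2 * m with hn
  have h1 : ∀ A ∈ Mn K m, vm (a * A ^ 2 + c) n =
      if Irreducible (a * A ^ 2 + c) then (n : ℝ) else 0 := by
    intro A hA
    obtain ⟨hAm, hAd⟩ := mem_Mn.1 hA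
    obtain ⟨hf, hfd⟩ := monic_value (c := c) ha hAm hAd hc
    rw [← hn] at hfd
    split_ifs with hi
    · rw [← hfd]; exact vm_of_irreducible hf hi
    · rcases vm_of_not_irreducible hf hi with h | ⟨π, e, hπ, -, he, hfe, -⟩
      · rw [← hfd]; exact h
      · exfalso
        have h2 : (π ^ (e / 2)) ^ 2 ∣ (a * A + D) ^ 2 + X * Δ ^ 2 := by
          have h3 : (a * A + D) ^ 2 + X * Δ ^ 2 = a * (a * A ^ 2 + c) := by
            linear_combination -hD + (a * A * D) * two_eq_zero_poly (K := K)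
          rw [h3, hfe, ← pow_mul]
          exact (pow_dvd_pow π (by omega)).mul_left _
        have h4 := natDegree_le_of_dvd (dvd_of_sq_dvd_sq_add h2) hΔ
        rw [hπ.natDegree_pow] at h4
        rw [hfe, hπ.natDegree_pow] at hfd
        have h5 : e * π.natDegree ≤ 3 * (e / 2) * π.natDegree :=
          Nat.mul_le_mul_right _ (by omega)
        have h6 : 3 * (e / 2) * π.natDegree = 3 * (e / 2 * π.natDegree) := by ring
        omega
  have h2 : ∑ A ∈ Mn K m, vm (a * A ^ 2 + c) n =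
      (n : ℝ) * (((Mn K m).filter fun A => Irreducible (a * A ^ 2 + c)).card : ℝ) := by
    rw [sum_congr rfl h1, ← sum_filter, sum_const, nsmul_eq_mul, mul_comm]
  rw [← h2]
  simp only [vm, UU]
  rw [sum_neg_distrib, sum_comm]
  congr 1
  refine sum_congr rfl fun N _ => ?_
  rw [← mul_sum]
  congr 1
  simp only [sum_filter, card_filter, Nat.cast_sum, mul_sum]
  rw [sum_comm]
  refine sum_congr rfl fun g _ => sum_congr rfl fun A _ => ?_
  split_ifs <;> simp

private theorem UU_small {a c : K[X]} (hac : IsCoprime a c) {m N : ℕ} (hN : N ≤ m) :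
    UU a c m N = (Fintype.card K : ℝ) ^ m *
      ((∑ g ∈ (Mn K N).filter (fun g => IsCoprime g a), mu g) / (Fintype.card K : ℝ) ^ N) := by
  have hq : (0 : ℝ) < Fintype.card K := by exact_mod_cast Fintype.card_pos
  rw [UU, sum_filter, sum_div, mul_sum]
  refine sum_congr rfl fun g hg => ?_
  obtain ⟨hgm, hgd⟩ := mem_Mn.1 hg
  by_cases hs : Squarefree g
  · rw [count_small hac hgm hs (by omega), hgd]
    split_ifs
    · push_cast
      rw [pow_sub₀ _ hq.ne' hN]
      ring
    · simp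
  · simp [mu, hs]

theorem final_monic {a c : K[X]} (ha : a.Monic) (hac : IsCoprime a c) (hsq : ¬ IsSquare (a * c)) :
    ∃ δ C : ℝ, 0 < δ ∧ ∀ m : ℕ,
      |((a.natDegree + 2 * m : ℕ) : ℝ) *
          (((Mn K m).filter fun A => Irreducible (a * A ^ 2 + c)).card : ℝ) -
        (∏ π ∈ pf a, (Fintype.card K : ℝ) ^ π.natDegree /
          ((Fintype.card K : ℝ) ^ π.natDegree - 1)) * (Fintype.card K : ℝ) ^ m| ≤
        C * (Fintype.card K : ℝ) ^ ((1 - δ) * m) := by
  obtain ⟨D, Δ, hD⟩ := exists_sq_add (a * c)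
  have hΔ : Δ ≠ 0 := by
    rintro rfl
    exact hsq ⟨D, by rw [hD]; ring⟩
  obtain ⟨m₁, h₁⟩ := U_one ha hac
  obtain ⟨δ₂, hδ₂, m₂, h₂⟩ := U_two ha hac hD hΔ
  obtain ⟨C₀, h₀⟩ := main_term ha.ne_zero
  set q : ℝ := (Fintype.card K : ℝ) with hq
  have hq1 : 1 < q := by rw [hq]; exact_mod_cast Fintype.one_lt_card
  have hq0 : 0 < q := by linarith
  have hl : 0 < Real.log q := Real.log_pos hq1
  have hl5 : 0 < Real.log (5 / 4) := Real.log_pos (by norm_num)
  set δ := min (min (1 / 2000) (δ₂ / 2)) (Real.log (5 / 4) / Real.log q) with hδ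
  have hδ0 : 0 < δ := lt_min (lt_min (by norm_num) (by linarith)) (by positivity)
  have hδ1 : δ ≤ 1 / 2000 := (min_le_left _ _).trans (min_le_left _ _)
  have hδ2 : δ ≤ δ₂ / 2 := (min_le_left _ _).trans (min_le_right _ _)
  have hδ3 : δ ≤ Real.log (5 / 4) / Real.log q := min_le_right _ _
  obtain ⟨C₁, hC₁⟩ := sq_le_rpow hq1 hδ0
  set S := ∏ π ∈ pf a, q ^ π.natDegree / (q ^ π.natDegree - 1) with hS
  obtain ⟨C', hC'⟩ := absorb (E := fun m => ((a.natDegree + 2 * m : ℕ) : ℝ) *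
      (((Mn K m).filter fun A => Irreducible (a * A ^ 2 + c)).card : ℝ) - S * q ^ m)
    (C := |C₀| + ((a.natDegree : ℝ) + 2) ^ 2 * C₁) (δ := δ) hq1.le (by linarith)
    (m₀ := m₁ + m₂ + c.natDegree + 3 * Δ.natDegree + 1) (by
      intro m hm
      have hm0 : (0 : ℝ) ≤ m := Nat.cast_nonneg m
      set n := a.natDegree + 2 * m with hn
      have hpow : q ^ ((1 - δ) * m) = q ^ m * q ^ (-δ * m) := by
        rw [← Real.rpow_natCast, ← Real.rpow_add hq0]; congr 1; ring
      rw [count_eq_sum ha hD hΔ (by omega) (by omega), ← hn,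
        ← sum_range_add_sum_Ico _ (show m + 1 ≤ n + 1 by omega)]
      have e1 : ∑ N ∈ range (m + 1), (N : ℝ) * UU a c m N = q ^ m * ∑ N ∈ range (m + 1),
          (N : ℝ) * (∑ g ∈ (Mn K N).filter (fun g => IsCoprime g a), mu g) / q ^ N := by
        rw [mul_sum]
        refine sum_congr rfl fun N hN => ?_
        rw [UU_small hac (Nat.lt_succ_iff.1 (mem_range.1 hN))]
        ring
      have e2 : |∑ N ∈ Ico (m + 1) (n + 1), (N : ℝ) * UU a c m N| ≤
          (n : ℝ) ^ 2 * (q ^ m * q ^ (-(2 * δ) * m)) := by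
        refine (abs_sum_le_sum_abs _ _).trans ?_
        have h3 : ∀ N ∈ Ico (m + 1) (n + 1), |(N : ℝ) * UU a c m N| ≤
            (n : ℝ) * (q ^ m * q ^ (-(2 * δ) * m)) := by
          intro N hN
          obtain ⟨hN1, hN2⟩ := mem_Ico.1 hN
          rw [abs_mul, Nat.abs_cast]
          refine mul_le_mul (by exact_mod_cast (by omega : N ≤ n)) ?_ (abs_nonneg _)
            (Nat.cast_nonneg _)
          rcases le_or_gt (5000 * N) (5001 * m) with h | h
          · refine (h₁ m (by omega) N (by omega) h).trans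
              (mul_le_mul_of_nonneg_left ?_ (by positivity))
            exact Real.rpow_le_rpow_of_exponent_le hq1.le (by nlinarith)
          · refine (h₂ m (by omega) N h (by omega)).trans
              (mul_le_mul_of_nonneg_left ?_ (by positivity))
            exact Real.rpow_le_rpow_of_exponent_le hq1.le (by nlinarith)
        refine (sum_le_card_nsmul _ _ _ h3).trans ?_
        rw [Nat.card_Ico, nsmul_eq_mul, sq, mul_assoc]
        refine mul_le_mul_of_nonneg_right ?_ (by positivity)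
        exact_mod_cast (by omega : n + 1 - (m + 1) ≤ n)
      have e3 : (4 / 5 : ℝ) ^ m ≤ q ^ (-δ * m) := by
        rw [← Real.rpow_natCast, Real.rpow_def_of_pos (by norm_num), Real.rpow_def_of_pos hq0]
        refine Real.exp_le_exp.2 ?_
        have h3 : Real.log (4 / 5) = -Real.log (5 / 4) := by
          rw [← Real.log_inv]; norm_num
        have h4 : δ * Real.log q ≤ Real.log (5 / 4) := (le_div_iff₀ hl).1 hδ3
        rw [h3]
        nlinarith
      have e4 : (n : ℝ) ^ 2 * q ^ (-(2 * δ) * m) ≤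
          ((a.natDegree : ℝ) + 2) ^ 2 * C₁ * q ^ (-δ * m) := by
        have h3 : (n : ℝ) ≤ ((a.natDegree : ℝ) + 2) * (m + 1) := by
          rw [hn]; push_cast
          have : (0 : ℝ) ≤ a.natDegree := Nat.cast_nonneg _
          nlinarith
        have h4 : q ^ (-δ * m) = q ^ (δ * m) * q ^ (-(2 * δ) * m) := by
          rw [← Real.rpow_add hq0]; congr 1; ring
        calc (n : ℝ) ^ 2 * q ^ (-(2 * δ) * m)
            ≤ (((a.natDegree : ℝ) + 2) * (m + 1)) ^ 2 * q ^ (-(2 * δ) * m) := by gcongr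
          _ = ((a.natDegree : ℝ) + 2) ^ 2 * ((m : ℝ) + 1) ^ 2 * q ^ (-(2 * δ) * m) := by ring
          _ ≤ ((a.natDegree : ℝ) + 2) ^ 2 * (C₁ * q ^ (δ * m)) * q ^ (-(2 * δ) * m) := by
            gcongr; exact hC₁ m
          _ = _ := by rw [h4]; ring
      have e5 := h₀ m
      set T := ∑ N ∈ range (m + 1),
          (N : ℝ) * (∑ g ∈ (Mn K N).filter (fun g => IsCoprime g a), mu g) / q ^ N
      set R := ∑ N ∈ Ico (m + 1) (n + 1), (N : ℝ) * UU a c m N
      have e6 : |-T - S| ≤ |C₀| * q ^ (-δ * m) :=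
        e5.trans ((mul_le_mul_of_nonneg_right (le_abs_self _) (by positivity)).trans
          (mul_le_mul_of_nonneg_left e3 (abs_nonneg _)))
      have hqm : 0 < q ^ m := by positivity
      rw [e1, hpow, show -(q ^ m * T + R) - S * q ^ m = q ^ m * (-T - S) - R by ring]
      refine (abs_sub _ _).trans ?_
      rw [abs_mul, abs_of_pos hqm]
      have e7 := mul_le_mul_of_nonneg_left e6 hqm.le
      have e8 := mul_le_mul_of_nonneg_left e4 hqm.le
      nlinarith)
  exact ⟨δ, C', hδ0, hC'⟩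

end Pool.Agent.P.MP_a1177c_nt.HL
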