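import Pool.Agent.P.MP_a1177c_nt.HL.Defs
import Pool.Agent.P.MP_3bc45c_nt.FF.Basic

namespace Pool.Agent.P.MP_a1177c_nt.HL

open Polynomial Finset
open scoped Classical

universe u

/-- a splitting ring with a linear retraction -/
theorem exists_split (N : ℕ) : ∀ (A : Type u) [CommRing A] [Nontrivial A] (F : A[X]), F.Monic →
    F.natDegree = N → ∃ (B : Type u) (_ : CommRing B) (_ : Nontrivial B) (ι : A →+* B)
      (ρ : B →+ A) (η : Fin N → B), (∀ a b, ρ (ι a * b) = a * ρ b) ∧ ρ 1 = 1 ∧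
        F.map ι = Lagrange.nodal univ η := by
  induction N with
  | zero =>
    intro A _ _ F hF hN
    refine ⟨A, inferInstance, inferInstance, RingHom.id A, AddMonoidHom.id A, Fin.elim0,
      fun _ _ => rfl, rfl, ?_⟩
    rw [hF.natDegree_eq_zero.1 hN]
    simp [Lagrange.nodal]
  | succ N ih =>
    intro A _ _ F hF hN
    have hdeg : F.degree ≠ 0 := by
      rw [degree_eq_natDegree hF.ne_zero, hN]; exact_mod_cast Nat.succ_ne_zero N
    have hone : (1 : A[X]) %ₘ F = 1 := by
      rw [modByMonic_eq_self_iff hF, degree_one, degree_eq_natDegree hF.ne_zero, hN]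
      exact_mod_cast Nat.succ_pos N
    let ρ₁ : AdjoinRoot F →ₗ[A] A := (lcoeff A 0).comp (AdjoinRoot.modByMonicHom hF)
    have hρ₁ : ρ₁ 1 = 1 := by
      have : (1 : AdjoinRoot F) = AdjoinRoot.mk F 1 := by simp
      simp only [ρ₁, LinearMap.comp_apply]
      rw [this, AdjoinRoot.modByMonicHom_mk, hone]
      simp
    have : Nontrivial (AdjoinRoot F) := by
      refine ⟨⟨1, 0, fun h => ?_⟩⟩
      rw [h, map_zero] at hρ₁
      exact zero_ne_one hρ₁
    set F₁ := F.map (AdjoinRoot.of F) with hF₁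
    have hF₁m : F₁.Monic := hF.map _
    have hroot : F₁.IsRoot (AdjoinRoot.root F) := AdjoinRoot.isRoot_root F
    have hfac := mul_divByMonic_eq_iff_isRoot.2 hroot
    set F₂ := F₁ /ₘ (X - C (AdjoinRoot.root F)) with hF₂
    have hF₂m : F₂.Monic := (monic_X_sub_C _).of_mul_monic_left (hfac ▸ hF₁m)
    have hF₂d : F₂.natDegree = N := by
      have h1 := congrArg natDegree hfac
      rw [(monic_X_sub_C _).natDegree_mul hF₂m, natDegree_X_sub_C, hF.natDegree_map, hN] at h1
      omega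
    obtain ⟨B, _, _, ι, ρ, η, h1, h2, h3⟩ := ih (AdjoinRoot F) F₂ hF₂m hF₂d
    refine ⟨B, inferInstance, inferInstance, ι.comp (AdjoinRoot.of F),
      ρ₁.toAddMonoidHom.comp ρ, Fin.cons (ι (AdjoinRoot.root F)) η, fun a b => ?_, ?_, ?_⟩
    · simp only [RingHom.comp_apply, AddMonoidHom.comp_apply, LinearMap.toAddMonoidHom_coe, h1]
      rw [← AdjoinRoot.algebraMap_eq, ← Algebra.smul_def, map_smul, smul_eq_mul]
    · simp only [AddMonoidHom.comp_apply, LinearMap.toAddMonoidHom_coe, h2, hρ₁]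
    · rw [← Polynomial.map_map, ← hF₁, ← hfac, Polynomial.map_mul, h3, Lagrange.nodal,
        Lagrange.nodal, Fin.prod_univ_succ]
      simp

theorem sum_eval_eq_coeff {B : Type*} [CommRing B] [Nontrivial B] {N : ℕ} (η : Fin N → B)
    (g : B[X]) : ∑ l, g.eval (η l) =
      ((g * derivative (Lagrange.nodal univ η)) %ₘ Lagrange.nodal univ η).coeff (N - 1) := by
  have hm : (Lagrange.nodal univ η).Monic := Lagrange.nodal_monic
  have hd : (Lagrange.nodal univ η).degree = N := by rw [Lagrange.degree_nodal]; simp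
  have hde : ∀ l : Fin N, (Lagrange.nodal (univ.erase l) η).natDegree = N - 1 := by
    intro l
    rw [Lagrange.natDegree_nodal, card_erase_of_mem (mem_univ l)]; simp
  have key : (g * derivative (Lagrange.nodal univ η)) %ₘ Lagrange.nodal univ η =
      ∑ l, C (g.eval (η l)) * Lagrange.nodal (univ.erase l) η := by
    have h1 : Lagrange.nodal univ η ∣ g * derivative (Lagrange.nodal univ η) -
        ∑ l, C (g.eval (η l)) * Lagrange.nodal (univ.erase l) η := by
      rw [Lagrange.derivative_nodal, mul_sum, ← sum_sub_distrib]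
      refine dvd_sum fun l _ => ?_
      rw [← sub_mul, Lagrange.nodal_eq_mul_nodal_erase (mem_univ l)]
      exact mul_dvd_mul_right (X_sub_C_dvd_sub_C_eval) _
    rw [modByMonic_eq_of_dvd_sub hm h1, modByMonic_eq_self_iff hm, hd]
    refine (degree_sum_le _ _).trans_lt ?_
    rw [Finset.sup_lt_iff (WithBot.bot_lt_coe _)]
    intro l _
    refine (degree_le_of_natDegree_le ((natDegree_C_mul_le _ _).trans (hde l).le)).trans_lt ?_
    have := l.2
    exact_mod_cast (by omega : N - 1 < N)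
  rw [key, finsetSum_coeff]
  refine sum_congr rfl fun l _ => ?_
  rw [coeff_C_mul, ← hde l, (Lagrange.nodal_monic (s := univ.erase l) (v := η)).coeff_natDegree,
    mul_one]

theorem prod_one_add_two {B ι : Type*} [CommRing B] (s : Finset ι) (u : ι → B) :
    ∃ r : B, ∏ l ∈ s, (1 + 2 * u l) =
      1 + 2 * ∑ l ∈ s, u l + 2 * ((∑ l ∈ s, u l) ^ 2 - ∑ l ∈ s, u l ^ 2) + 8 * r := by
  have key : ∃ e r : B, (∑ l ∈ s, u l) ^ 2 - ∑ l ∈ s, u l ^ 2 = 2 * e ∧
      ∏ l ∈ s, (1 + 2 * u l) = 1 + 2 * ∑ l ∈ s, u l + 4 * e + 8 * r := by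
    induction s using Finset.induction with
    | empty => exact ⟨0, 0, by simp, by simp⟩
    | insert a s ha ih =>
      obtain ⟨e, r, h1, h2⟩ := ih
      refine ⟨e + u a * ∑ l ∈ s, u l, r + u a * e + 2 * u a * r, ?_, ?_⟩
      · rw [sum_insert ha, sum_insert ha]
        linear_combination h1
      · rw [prod_insert ha, sum_insert ha, h2]
        ring
  obtain ⟨e, r, h1, h2⟩ := key
  exact ⟨r, by rw [h2, h1]; ring⟩

/-- the norm modulo eight when the derivative of the modulus is even -/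
theorem resultant_mod_eight {A : Type u} [CommRing A] [Nontrivial A] {F H e z a s : A[X]} {N : ℕ}
    (hF : F.Monic) (hN : F.natDegree = N) (hH : derivative F = 2 * H)
    (h : F ∣ e * z ^ 2 - (1 - 2 * a + 8 * s)) {n k : ℕ} (hn : e.natDegree ≤ n)
    (hk : z.natDegree ≤ k) :
    ∃ r : A, F.resultant e N n * F.resultant z N k ^ 2 =
      1 + 4 * (((a + a ^ 2) * H) %ₘ F).coeff (N - 1) + 8 * r := by
  obtain ⟨B, _, _, ι, ρ, η, h1, h2, h3⟩ := exists_split N A F hF hN
  have hρ : ∀ x, ρ (ι x) = x := fun x => by rw [← mul_one (ι x), h1, h2, mul_one]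
  have hres : ∀ (g : A[X]) (j : ℕ), g.natDegree ≤ j →
      ι (F.resultant g N j) = ∏ l, (g.map ι).eval (η l) := by
    intro g j hj
    rw [← resultant_map_map, h3, MP_3bc45c_nt.FF.res_nodal η (natDegree_map_le.trans hj)]
  have htr : ∀ g : A[X], ∑ l, (g.map ι).eval (η l) = 2 * ι (((g * H) %ₘ F).coeff (N - 1)) := by
    intro g
    rw [sum_eval_eq_coeff, ← h3, derivative_map, ← Polynomial.map_mul, ← map_modByMonic _ hF,
      coeff_map, hH]
    have : g * (2 * H) = (2 : A) • (g * H) := by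
      rw [two_smul]; ring
    rw [this, smul_modByMonic, coeff_smul, smul_eq_mul, map_mul, map_ofNat]
  have hev : ∀ l, (e.map ι).eval (η l) * (z.map ι).eval (η l) ^ 2 =
      1 + 2 * (-(a.map ι).eval (η l) + 4 * (s.map ι).eval (η l)) := by
    intro l
    obtain ⟨t, ht⟩ := h
    have h4 := congrArg (fun g : A[X] => (g.map ι).eval (η l)) ht
    simp only [Polynomial.map_sub, Polynomial.map_mul, Polynomial.map_pow, Polynomial.map_add,
      Polynomial.map_one, Polynomial.map_ofNat, eval_sub, eval_mul, eval_pow, eval_add, eval_one,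
      eval_ofNat, h3, Lagrange.eval_nodal_at_node (mem_univ l)] at h4
    linear_combination h4
  obtain ⟨r, hr⟩ := prod_one_add_two univ
    fun l => -(a.map ι).eval (η l) + 4 * (s.map ι).eval (η l)
  have h5 : ι (F.resultant e N n * F.resultant z N k ^ 2) =
      ∏ l, (1 + 2 * (-(a.map ι).eval (η l) + 4 * (s.map ι).eval (η l))) := by
    rw [map_mul, map_pow, hres e n hn, hres z k hk, ← prod_pow, ← prod_mul_distrib]
    exact prod_congr rfl fun l _ => hev l
  set τ₁ := ((a * H) %ₘ F).coeff (N - 1) with hτ₁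
  set τ₂ := ((a ^ 2 * H) %ₘ F).coeff (N - 1) with hτ₂
  have hs1 : ∑ l, (-(a.map ι).eval (η l) + 4 * (s.map ι).eval (η l)) =
      -(2 * ι τ₁) + 4 * ∑ l, (s.map ι).eval (η l) := by
    rw [sum_add_distrib, sum_neg_distrib, ← mul_sum, htr a]
  have hs2 : ∑ l, (-(a.map ι).eval (η l) + 4 * (s.map ι).eval (η l)) ^ 2 =
      2 * ι τ₂ + 8 * ∑ l, (2 * (s.map ι).eval (η l) ^ 2 -
        (a.map ι).eval (η l) * (s.map ι).eval (η l)) := by
    rw [← htr (a ^ 2), mul_sum, ← sum_add_distrib]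
    refine sum_congr rfl fun l _ => ?_
    rw [Polynomial.map_pow, eval_pow]
    ring
  rw [hr, hs1, hs2] at h5
  have h6 : (((a + a ^ 2) * H) %ₘ F).coeff (N - 1) = τ₁ + τ₂ := by
    rw [add_mul, add_modByMonic, coeff_add]
  obtain ⟨r', hr'⟩ : ∃ r' : B, ι (F.resultant e N n * F.resultant z N k ^ 2) =
      ι (1 + 4 * (τ₁ + τ₂)) + ι 8 * r' := by
    refine ⟨r - ι τ₁ - ι τ₂ + ∑ l, (s.map ι).eval (η l) +
      (-ι τ₁ + 2 * ∑ l, (s.map ι).eval (η l)) ^ 2 -
      2 * ∑ l, (2 * (s.map ι).eval (η l) ^ 2 - (a.map ι).eval (η l) * (s.map ι).eval (η l)), ?_⟩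
    rw [h5]
    simp only [map_add, map_mul, map_one, map_ofNat]
    ring
  refine ⟨ρ r', ?_⟩
  have h7 := congrArg ρ hr'
  rwa [map_add, hρ, hρ, h1, ← h6] at h7

end Pool.Agent.P.MP_a1177c_nt.HL
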