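import Pool.Agent.P.MP_a1177c_nt.HL.Psi
import Pool.Agent.P.MP_3bc45c_nt.FF.CharTwo

namespace Pool.Agent.P.MP_a1177c_nt.HL

open Polynomial Finset
open scoped Classical

variable {K : Type*} [Field K] [Fintype K] [CharP K 2]

omit [CharP K 2] in
/-- Pellet-Stickelberger: the sign of Frobenius on the roots. -/
theorem frob_sign {L : Type*} [Field L] [Algebra K L] [IsAlgClosed L] {f : K[X]} (hf : f.Monic)
    (hsq : Squarefree f) {n : ℕ} (hn : f.natDegree = n) :
    ∃ (α : Fin n → L) (σ : Equiv.Perm (Fin n)), Function.Injective α ∧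
      f.map (algebraMap K L) = Lagrange.nodal univ α ∧
      (∀ i, FiniteField.frobeniusAlgHom K L (α i) = α (σ i)) ∧
      (((Equiv.Perm.sign σ : ℤˣ) : ℤ) : ℝ) = (-1) ^ n * lam f := by
  induction n using Nat.strong_induction_on generalizing f with
  | _ n ih =>
  rcases Nat.eq_zero_or_pos n with rfl | hpos
  · refine ⟨Fin.elim0, 1, fun i => i.elim0, ?_, fun i => i.elim0, ?_⟩
    · rw [hf.natDegree_eq_zero.1 hn]; simp [Lagrange.nodal]
    · rw [hf.natDegree_eq_zero.1 hn, lam_one]; simp
  have hnu : ¬ IsUnit f := not_isUnit_of_natDegree_pos f (hn ▸ hpos)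
  obtain ⟨π, hπm, hπ, g, hg⟩ := exists_monic_irreducible_factor f hnu
  have hgm : g.Monic := hπm.of_mul_monic_left (hg ▸ hf)
  obtain ⟨d, hd⟩ : ∃ d, π.natDegree = d + 1 := ⟨π.natDegree - 1, by have := hπ.natDegree_pos; omega⟩
  have hdeg : d + 1 + g.natDegree = n := by rw [← hn, hg, hπm.natDegree_mul hgm, hd]
  rw [hg] at hsq
  obtain ⟨β, τ, hβ, hβn, hβτ, hτ⟩ := ih g.natDegree (by omega) hgm hsq.of_mul_right rfl
  obtain ⟨α, hα, hαr, hαrot⟩ := MP_3bc45c_nt.FF.frob_cycle (L := L) hπ hd
  have hαn : π.map (algebraMap K L) = Lagrange.nodal univ α :=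
    MP_3bc45c_nt.FF.eq_nodal (hπm.map _) (by rw [hπm.natDegree_map, hd]) hα fun i => by
      rw [eval_map_algebraMap, hαr]
  have hcop : IsCoprime π g := (squarefree_mul_iff.1 hsq).1.isCoprime
  have hne : ∀ i j, α i ≠ β j := by
    intro i j hij
    obtain ⟨u, v, huv⟩ := hcop
    have h1 : aeval (α i) g = 0 := by
      rw [← eval_map_algebraMap, hβn, hij, Lagrange.eval_nodal_at_node (mem_univ j)]
    have h2 := congrArg (aeval (α i)) huv
    simp [hαr, h1] at h2
  subst hdeg
  let e : Fin (d + 1) ⊕ Fin g.natDegree ≃ Fin (d + 1 + g.natDegree) := finSumFinEquiv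
  refine ⟨fun i => Sum.elim α β (e.symm i),
    e.permCongr (Equiv.sumCongr (finRotate (d + 1)) τ), ?_, ?_, ?_, ?_⟩
  · exact (hα.sumElim hβ hne).comp e.symm.injective
  · rw [hg, Polynomial.map_mul, hαn, hβn, Lagrange.nodal, Lagrange.nodal, Lagrange.nodal,
      ← e.prod_comp, Fintype.prod_sum_type]
    simp
  · intro i
    obtain ⟨j, rfl⟩ := e.surjective i
    rcases j with j | j
    · simp [hαrot]
    · simp [hβτ]
  · rw [Equiv.Perm.sign_permCongr, Equiv.Perm.sign_sumCongr, sign_finRotate, hg,
      lam_mul hπ.ne_zero hgm.ne_zero, lam_of_irreducible hπ]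
    push_cast
    rw [hτ]
    ring

local instance : Fact (Nat.Prime 2) := Nat.fact_prime_two

omit [CharP K 2] in
/-- Hensel lift of the previous statement to Witt vectors. -/
theorem witt_sign {L : Type*} [Field L] [Algebra K L] [IsAlgClosed L] [CharP L 2]
    {P : (WittVector 2 K)[X]} (hP : P.Monic) {n : ℕ} (hn : P.natDegree = n)
    (hsq : Squarefree (P.map WittVector.constantCoeff)) :
    ∃ (a : Fin n → WittVector 2 L) (s : ℤ),
      P.map (WittVector.map (algebraMap K L)) = Lagrange.nodal univ a ∧
      WittVector.map (FiniteField.frobeniusAlgHom K L).toRingHom (Matrix.vandermonde a).det =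
        s * (Matrix.vandermonde a).det ∧
      (s : ℝ) = (-1) ^ n * lam (P.map WittVector.constantCoeff) := by
  have hd0 : (P.map (WittVector.constantCoeff : WittVector 2 K →+* K)).natDegree = n := by
    rw [hP.natDegree_map, hn]
  obtain ⟨α, σ, hinj, hnod0, hrot, hsign⟩ := frob_sign (L := L) (hP.map _) hsq hd0
  set Q := P.map (WittVector.map (algebraMap K L)) with hQ
  have hQm : Q.Monic := hP.map _
  have hQd : Q.natDegree = n := by rw [hP.natDegree_map, hn]
  have hnod : Q.map WittVector.constantCoeff = Lagrange.nodal univ α := by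
    rw [← hnod0, hQ, Polynomial.map_map, Polynomial.map_map]
    exact congrArg (fun ψ => P.map ψ) (RingHom.ext MP_3bc45c_nt.FF.cc_map)
  have hev : ∀ (R : (WittVector 2 L)[X]) (x : WittVector 2 L),
      WittVector.constantCoeff (R.eval x) =
        (R.map WittVector.constantCoeff).eval (WittVector.constantCoeff x) := by
    intro R x
    rw [eval_map, eval₂_at_apply]
  have hex : ∀ i, ∃ a : WittVector 2 L, Q.eval a = 0 ∧ WittVector.constantCoeff a = α i := by
    intro i
    obtain ⟨a₀, ha₀⟩ := WittVector.constantCoeff_surjective (p := 2) (α i)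
    have h1 : Q.eval a₀ ∈ Ideal.span {((2 : ℕ) : WittVector 2 L)} := by
      rw [← WittVector.ker_constantCoeff, RingHom.mem_ker, hev, ha₀, hnod,
        Lagrange.eval_nodal_at_node (mem_univ i)]
    have h2 : IsUnit (Q.derivative.eval a₀) := by
      refine WittVector.isUnit_of_coeff_zero_ne_zero _ ?_
      rw [← WittVector.constantCoeff_apply, hev, ha₀, ← derivative_map, hnod,
        Lagrange.eval_nodal_derivative_eval_node_eq (mem_univ i)]
      exact Lagrange.eval_nodal_not_at_node fun j hj h => (mem_erase.1 hj).1 (hinj h).symm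
    obtain ⟨a, ha, ha'⟩ := HenselianRing.is_henselian Q hQm a₀ h1 (h2.map _)
    refine ⟨a, ha, ?_⟩
    rw [← WittVector.ker_constantCoeff, RingHom.mem_ker, map_sub, ha₀, sub_eq_zero] at ha'
    exact ha'
  choose a ha ha' using hex
  have hainj : Function.Injective a := fun i j h => hinj (by rw [← ha', ← ha', h])
  have hQn : Q = Lagrange.nodal univ a := MP_3bc45c_nt.FF.eq_nodal hQm hQd hainj ha
  set φ := WittVector.map (p := 2) (FiniteField.frobeniusAlgHom K L).toRingHom with hφ
  have hfix : Q.map φ = Q := by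
    rw [hQ, Polynomial.map_map]
    congr 1
    ext x n
    simp [hφ, WittVector.map_coeff]
  have hperm : ∀ i, φ (a i) = a (σ i) := by
    intro i
    have h1 : Q.eval (φ (a i)) = 0 := by
      rw [← hfix, eval_map, eval₂_at_apply, ha, map_zero]
    rw [hQn, Lagrange.eval_nodal, prod_eq_zero_iff] at h1
    obtain ⟨j, -, hj⟩ := h1
    rw [sub_eq_zero] at hj
    have h2 : α j = α (σ i) := by
      rw [← hrot, ← ha' j, ← hj, ← ha' i]
      simp [hφ, WittVector.constantCoeff_apply, WittVector.map_coeff]
    rw [hj, hinj h2]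
  refine ⟨a, (Equiv.Perm.sign σ : ℤˣ), hQn, ?_, hsign⟩
  rw [RingHom.map_det]
  have : φ.mapMatrix (Matrix.vandermonde a) = (Matrix.vandermonde a).submatrix σ id := by
    ext i j
    simp only [RingHom.mapMatrix_apply, Matrix.map_apply, Matrix.vandermonde_apply, map_pow,
      hperm, Matrix.submatrix_apply, id]
  rw [this, Matrix.det_permute]

omit [CharP K 2] in
private theorem mem_range_of_fixed {L : Type*} [Field L] [Algebra K L] {γ : L}
    (h : FiniteField.frobeniusAlgHom K L γ = γ) : ∃ c : K, algebraMap K L c = γ := by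
  have hq : 1 < Fintype.card K := Fintype.one_lt_card
  have h1 : (X ^ Fintype.card K - X : K[X]) = ∏ c : K, (X - C c) := by
    have hm : (X ^ Fintype.card K - X : K[X]).Monic := by
      refine Monic.sub_of_left (monic_X_pow _) ?_
      rw [degree_X, degree_X_pow]
      exact_mod_cast hq
    have h2 := prod_multiset_X_sub_C_of_monic_of_roots_card_eq hm (by
      rw [FiniteField.roots_X_pow_card_sub_X, FiniteField.X_pow_card_sub_X_natDegree_eq K hq]
      rfl)
    rw [← h2, FiniteField.roots_X_pow_card_sub_X]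
    rfl
  have h2 := congrArg (aeval γ) h1
  rw [FiniteField.coe_frobeniusAlgHom] at h
  simp only [map_sub, map_pow, aeval_X, map_prod, aeval_C] at h h2
  rw [h, sub_self, eq_comm, prod_eq_zero_iff] at h2
  obtain ⟨c, -, hc⟩ := h2
  exact ⟨c, (sub_eq_zero.1 hc).symm⟩

/-- reading off the sign from the class modulo eight of the square -/
theorem sign_extract {L : Type*} [Field L] [Algebra K L] [IsAlgClosed L] [CharP L 2]
    (w r : WittVector 2 L) (t : WittVector 2 K) (s : ℤ) (hs : s = 1 ∨ s = -1)
    (hw : w ^ 2 = 1 + 4 * WittVector.map (algebraMap K L) t + 8 * r)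
    (hφ : WittVector.map (FiniteField.frobeniusAlgHom K L).toRingHom w = s * w) :
    (s : ℝ) = psi (WittVector.constantCoeff t) := by
  have h2L : (2 : L) = 0 := CharP.cast_eq_zero L 2
  have hne : (2 : WittVector 2 L) ≠ 0 := by
    intro h0
    exact (WittVector.irreducible (k := L) 2).ne_zero (by exact_mod_cast h0)
  set π : WittVector 2 L →+* L := WittVector.constantCoeff with hπ
  set φ := WittVector.map (p := 2) (FiniteField.frobeniusAlgHom K L).toRingHom with hφ'
  have hπφ : ∀ x, π (φ x) = FiniteField.frobeniusAlgHom K L (π x) := by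
    intro x
    simp [hπ, hφ', WittVector.constantCoeff_apply, WittVector.map_coeff]
  have h3 : π (w - 1) = 0 := by
    have h4 := congrArg π hw
    simp only [map_pow, map_mul, map_add, map_one, map_ofNat] at h4
    refine pow_eq_zero_iff (n := 2) (by norm_num) |>.1 ?_
    rw [map_sub, map_one]
    linear_combination h4 + (1 - π w + 2 * π (WittVector.map (algebraMap K L) t) + 4 * π r) * h2L
  obtain ⟨γ, hγ⟩ := MP_3bc45c_nt.FF.cc_eq_zero h3
  have hwγ : w = 1 + 2 * γ := by linear_combination hγ
  have h5 : γ ^ 2 + γ = WittVector.map (algebraMap K L) t + 2 * r := by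
    apply mul_left_cancel₀ hne
    apply mul_left_cancel₀ hne
    rw [hwγ] at hw
    linear_combination hw
  have h6 : π γ ^ 2 + π γ = algebraMap K L (WittVector.constantCoeff t) := by
    have h7 := congrArg π h5
    simp only [map_pow, map_mul, map_add, map_ofNat] at h7
    rw [h7, h2L, zero_mul, add_zero, hπ, MP_3bc45c_nt.FF.cc_map]
  rw [hwγ] at hφ
  simp only [map_add, map_mul, map_one, map_ofNat] at hφ
  rcases hs with rfl | rfl
  · have h7 : φ γ = γ := by
      apply mul_left_cancel₀ hne
      push_cast at hφ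
      linear_combination hφ
    have h8 : FiniteField.frobeniusAlgHom K L (π γ) = π γ := by rw [← hπφ, h7]
    obtain ⟨c, hc⟩ := mem_range_of_fixed h8
    rw [psi, if_pos ⟨c, (algebraMap K L).injective (by rw [map_add, map_pow, hc, h6])⟩]
    simp
  · have h7 : φ γ = -1 - γ := by
      apply mul_left_cancel₀ hne
      push_cast at hφ
      linear_combination hφ
    have h8 : FiniteField.frobeniusAlgHom K L (π γ) = -1 - π γ := by
      rw [← hπφ, h7, map_sub, map_neg, map_one]
    rw [psi, if_neg]
    · simp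
    rintro ⟨c, hc⟩
    have h9 : (π γ - algebraMap K L c) * (π γ - algebraMap K L (c + 1)) = 0 := by
      rw [← hc, map_add, map_pow] at h6
      rw [map_add, map_one]
      linear_combination h6 + (algebraMap K L c ^ 2 + algebraMap K L c - π γ -
        π γ * algebraMap K L c) * h2L
    have h10 : ∀ c' : K, π γ ≠ algebraMap K L c' := by
      intro c' hc'
      rw [hc', AlgHom.commutes] at h8
      have : (1 : L) = 0 := by linear_combination h8 - algebraMap K L c' * h2L
      exact one_ne_zero this
    rcases mul_eq_zero.1 h9 with h | h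
    · exact h10 _ (sub_eq_zero.1 h)
    · exact h10 _ (sub_eq_zero.1 h)

end Pool.Agent.P.MP_a1177c_nt.HL
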