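import Pool.Agent.P.MP_a1177c_nt.HL.Sq
import Pool.Agent.P.MP_a1177c_nt.HL.Res
import Pool.Agent.P.MP_a1177c_nt.HL.Sign
import Pool.Agent.P.MP_a1177c_nt.HL.Norm

namespace Pool.Agent.P.MP_a1177c_nt.HL

open Polynomial Finset
open scoped Classical

variable {K : Type*} [Field K] [Fintype K] [CharP K 2]

local instance : Fact (Nat.Prime 2) := Nat.fact_prime_two

private theorem int_mod_four (k : ℕ) :
    ∃ c : ℤ, (-1) ^ (2 * k + 1).choose 2 * (2 * k + 1 : ℤ) ^ (2 * k + 1) = 1 + 4 * c := by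
  have h1 : (2 * k + 1).choose 2 = k * (2 * k + 1) := by
    rw [Nat.choose_two_right, Nat.add_sub_cancel,
      show (2 * k + 1) * (2 * k) = 2 * (k * (2 * k + 1)) by ring, Nat.mul_div_cancel_left _ two_pos]
  have h2 : ∃ u : ℤ, ((2 * k + 1 : ℤ) ^ 2) ^ k = 1 + 4 * u := by
    generalize hk : (k : ℤ) = k'
    clear h1 hk
    induction k with
    | zero => exact ⟨0, by simp⟩
    | succ j ih =>
      obtain ⟨u, hu⟩ := ih
      exact ⟨u + (k' ^ 2 + k') * (1 + 4 * u), by rw [pow_succ, hu]; ring⟩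
  obtain ⟨u, hu⟩ := h2
  have h3 : ∃ s : ℤ, (-1) ^ (k * (2 * k + 1)) * (2 * k + 1 : ℤ) = 1 + 4 * s := by
    rcases Nat.even_or_odd' k with ⟨c, rfl | rfl⟩
    · refine ⟨c, ?_⟩
      rw [Even.neg_one_pow ⟨c * (2 * (2 * c) + 1), by ring⟩]
      push_cast; ring
    · refine ⟨-c - 1, ?_⟩
      rw [Odd.neg_one_pow ⟨c * (2 * (2 * c + 1) + 1) + (2 * c + 1), by ring⟩]
      push_cast; ring
  obtain ⟨s, hs⟩ := h3
  refine ⟨u + s + 4 * u * s, ?_⟩
  rw [h1, pow_succ (2 * k + 1 : ℤ), pow_mul (2 * k + 1 : ℤ), hu]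
  linear_combination (1 + 4 * u) * hs

private theorem cast_mod_four {A : Type*} [CommRing A] {k : ℕ} {c : ℤ}
    (h : (-1) ^ (2 * k + 1).choose 2 * (2 * k + 1 : ℤ) ^ (2 * k + 1) = 1 + 4 * c) :
    (-1) ^ (2 * k + 1).choose 2 * ((2 * k + 1 : ℕ) : A) ^ (2 * k + 1) = 1 + 4 * (c : A) := by
  have := congrArg (Int.cast : ℤ → A) h
  push_cast at this ⊢
  exact this

private theorem two_dvd_of_map_eq_zero {P : (WittVector 2 K)[X]}
    (h : P.map WittVector.constantCoeff = 0) : ∃ Q, P = 2 * Q := by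
  have h1 : C (2 : WittVector 2 K) ∣ P := by
    rw [C_dvd_iff_dvd_coeff]
    intro i
    have h2 : P.coeff i ∈ RingHom.ker (WittVector.constantCoeff : WittVector 2 K →+* K) := by
      rw [RingHom.mem_ker, ← coeff_map, h, coeff_zero]
    rw [WittVector.ker_constantCoeff, Ideal.mem_span_singleton] at h2
    exact_mod_cast h2
  obtain ⟨Q, hQ⟩ := h1
  exact ⟨Q, by rw [hQ, map_ofNat]⟩

/-- Stickelberger-Swan formula for the Liouville function of a squarefree polynomial of odd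
degree. -/
theorem lam_formula : ∃ ε : ℕ → ℝ, (∀ k, |ε k| = 1) ∧ ∀ (x y xb : K[X]), y.Monic →
    x.natDegree ≤ y.natDegree → y ^ 2 ∣ x * xb - 1 →
    lam (x ^ 2 + X * y ^ 2) = ε y.natDegree * psi (rs (Om x y xb) (y ^ 2)) := by
  choose ck hck using int_mod_four
  refine ⟨fun k => -psi ((ck k : ℤ) : K), fun k => by rw [abs_neg, abs_psi], ?_⟩
  intro x y xb hy hxy hxb
  set k := y.natDegree with hk
  set L := AlgebraicClosure K
  set cc : WittVector 2 K →+* K := WittVector.constantCoeff with hcc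
  have hsurj : Function.Surjective cc := WittVector.constantCoeff_surjective 2
  obtain ⟨t, ht⟩ := hxb
  obtain ⟨y₀, hy₀, hy₀d, hy₀m⟩ :=
    lifts_and_natDegree_eq_and_monic (mem_lifts_of_surjective hsurj y) hy
  obtain ⟨x₀, hx₀, hx₀d⟩ := exists_degree_eq_of_mem_lifts (mem_lifts_of_surjective hsurj x)
  obtain ⟨xb₀, hxb₀⟩ := map_surjective cc hsurj xb
  obtain ⟨t₀, ht₀⟩ := map_surjective cc hsurj t
  have hx₀n : x₀.natDegree ≤ k := by rw [natDegree_eq_of_degree_eq hx₀d]; exact hxy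
  rw [← hk] at hy₀d
  have h2K : (2 : K) = 0 := CharP.cast_eq_zero K 2
  have h2P : (2 : K[X]) = 0 := two_eq_zero_poly
  -- the lift `e₀`
  set e₀ := x₀ ^ 2 + X * y₀ ^ 2 with he₀
  have hXy : (X * y₀ ^ 2).Monic := monic_X.mul (hy₀m.pow 2)
  have hXyd : (X * y₀ ^ 2).natDegree = 2 * k + 1 := by
    rw [monic_X.natDegree_mul (hy₀m.pow 2), natDegree_X, hy₀m.natDegree_pow, hy₀d]; ring
  have hlt : (x₀ ^ 2).natDegree < (X * y₀ ^ 2).natDegree := by
    rw [hXyd]
    exact natDegree_pow_le.trans_lt (by omega)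
  have he₀m : e₀.Monic := hXy.add_of_right (degree_lt_degree hlt)
  have he₀d : e₀.natDegree = 2 * k + 1 := by
    rw [he₀, natDegree_add_eq_right_of_natDegree_lt hlt, hXyd]
  have he₀map : e₀.map cc = x ^ 2 + X * y ^ 2 := by
    simp only [he₀, Polynomial.map_add, Polynomial.map_mul, Polynomial.map_pow, map_X, hx₀, hy₀]
  have hcop : IsCoprime x y := ⟨xb, -(y * t), by linear_combination ht⟩
  have hsq : Squarefree (e₀.map cc) := by
    rw [he₀map]; exact (squarefree_sq_add_iff x y).2 hcop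
  -- the monic multiple `F` of the derivative
  have hmK : cc (((2 * k + 1 : ℕ) : WittVector 2 K)) = 1 := by
    rw [map_natCast]; push_cast; rw [h2K]; ring
  have hu : IsUnit (((2 * k + 1 : ℕ) : WittVector 2 K)) := by
    refine WittVector.isUnit_of_coeff_zero_ne_zero _ ?_
    rw [← WittVector.constantCoeff_apply, ← hcc, hmK]; exact one_ne_zero
  obtain ⟨w₀, hw₀⟩ := hu.exists_left_inv
  have hw₀K : cc w₀ = 1 := by
    have := congrArg cc hw₀
    rwa [map_mul, hmK, mul_one, map_one] at this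
  have hBc : (derivative e₀).coeff (2 * k) = ((2 * k + 1 : ℕ) : WittVector 2 K) := by
    rw [coeff_derivative, ← he₀d, he₀m.coeff_natDegree, one_mul, he₀d]; push_cast; ring
  have hBd : (derivative e₀).natDegree ≤ 2 * k := by
    have := natDegree_derivative_le e₀
    omega
  set F := C w₀ * derivative e₀ with hF
  have hFc : F.coeff (2 * k) = 1 := by rw [hF, coeff_C_mul, hBc, hw₀]
  have hFle : F.natDegree ≤ 2 * k := (natDegree_C_mul_le _ _).trans hBd
  have hFm : F.Monic := monic_of_natDegree_le_of_coeff_eq_one _ hFle hFc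
  have hFd : F.natDegree = 2 * k :=
    natDegree_eq_of_le_of_coeff_ne_zero hFle (by rw [hFc]; exact one_ne_zero)
  set ν : (WittVector 2 K)[X] := C ((2 * k + 1 : ℕ) : WittVector 2 K) with hν
  have hνF : derivative e₀ = ν * F := by
    rw [hν, hF, ← mul_assoc, ← C_mul, mul_comm _ w₀, hw₀, C_1, one_mul]
  set b₀ := x₀ * derivative x₀ + X * y₀ * derivative y₀ with hb₀
  have hder : derivative e₀ = y₀ ^ 2 + 2 * b₀ := by
    simp only [he₀, hb₀, derivative_add, derivative_mul, derivative_X, sq]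
    ring
  set H₀ := derivative x₀ ^ 2 + x₀ * derivative (derivative x₀) + 2 * y₀ * derivative y₀ +
    X * derivative y₀ ^ 2 + X * y₀ * derivative (derivative y₀) with hH₀
  have hF' : derivative F = 2 * (C w₀ * H₀) := by
    rw [hF, derivative_C_mul, hder]
    simp only [hb₀, hH₀, derivative_add, derivative_mul, derivative_X, sq, derivative_ofNat]
    ring
  obtain ⟨r₁, hr₁⟩ : ∃ r₁, x₀ * xb₀ - 1 - y₀ ^ 2 * t₀ = 2 * r₁ := by
    apply two_dvd_of_map_eq_zero
    simp only [Polynomial.map_sub, Polynomial.map_mul, Polynomial.map_pow, Polynomial.map_one,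
      ← hcc, hx₀, hy₀, hxb₀, ht₀, ht, sub_self]
  set r₂ := r₁ - b₀ * t₀ with hr₂
  set z := x₀ ^ 3 * xb₀ ^ 4 with hz
  set a₀ := X * b₀ * z ^ 2 with ha₀
  have hy2 : y₀ ^ 2 = ν * F - 2 * b₀ := by rw [← hνF, hder]; ring
  have hdvd1 : F ∣ x₀ * xb₀ - (1 + 2 * r₂) :=
    ⟨ν * t₀, by rw [hr₂]; linear_combination hr₁ + t₀ * hy2⟩
  obtain ⟨s₀, hs₀⟩ : ∃ s₀, (1 + 2 * r₂) ^ 8 = 1 + 8 * s₀ :=
    ⟨2 * (r₂ + r₂ ^ 2 + 2 * (r₂ + r₂ ^ 2) ^ 2) + 8 * (r₂ + r₂ ^ 2 + 2 * (r₂ + r₂ ^ 2) ^ 2) ^ 2,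
      by ring⟩
  have hdvd : F ∣ e₀ * z ^ 2 - (1 - 2 * a₀ + 8 * s₀) := by
    have h1 := hdvd1.trans (sub_dvd_pow_sub_pow (x₀ * xb₀) (1 + 2 * r₂) 8)
    have h2 : e₀ * z ^ 2 - (1 - 2 * a₀ + 8 * s₀) =
        ((x₀ * xb₀) ^ 8 - (1 + 2 * r₂) ^ 8) + F * (X * ν * z ^ 2) := by
      rw [hs₀, he₀, hy2, ha₀, hz]; ring
    rw [h2]
    exact dvd_add h1 (dvd_mul_right _ _)
  obtain ⟨r, hr⟩ := resultant_mod_eight hFm hFd hF' hdvd he₀d.le (le_refl z.natDegree)
  set τ := (((a₀ + a₀ ^ 2) * (C w₀ * H₀)) %ₘ F).coeff (2 * k - 1) with hτ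
  -- passage to the roots
  obtain ⟨a, s, ha, hφ, hs⟩ := witt_sign (L := L) he₀m he₀d hsq
  set ι := WittVector.map (p := 2) (algebraMap K L) with hι
  set φ := WittVector.map (p := 2) (FiniteField.frobeniusAlgHom K L).toRingHom with hφ'
  have hφι : ∀ v, φ (ι v) = ι v := by
    intro v
    ext n
    simp [hφ', hι, WittVector.map_coeff]
  have hprod : ∏ i, (derivative (Lagrange.nodal univ a)).eval (a i) =
      ((2 * k + 1 : ℕ) : WittVector 2 L) ^ (2 * k + 1) *
        ι (F.resultant e₀ (2 * k) (2 * k + 1)) := by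
    have h1 : (derivative (Lagrange.nodal univ a)).natDegree ≤ 2 * k := by
      rw [← ha, derivative_map]; exact natDegree_map_le.trans hBd
    rw [← MP_3bc45c_nt.FF.res_nodal a h1, ← ha, derivative_map, resultant_map_map,
      resultant_comm, hνF, hν, resultant_C_mul_left,
      Even.neg_one_pow ⟨(2 * k + 1) * k, by ring⟩, one_mul, map_mul, map_pow, map_natCast]
  have hvs := MP_3bc45c_nt.FF.vand_sq a
  have hck' := cast_mod_four (A := WittVector 2 L) (hck k)
  have hr' := congrArg ι hr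
  simp only [map_mul, map_pow, map_add, map_one, map_ofNat] at hr'
  have hs1 : s = 1 ∨ s = -1 := by
    have h1 : |(s : ℝ)| = 1 := by rw [hs, abs_mul, abs_pow, abs_neg, abs_one, one_pow, abs_lam]; ring
    have h2 : |s| = 1 := by exact_mod_cast h1
    rcases abs_eq (zero_le_one) |>.1 h2 with h | h
    · exact Or.inl h
    · exact Or.inr h
  have key := sign_extract (L := L)
    ((Matrix.vandermonde a).det * ι (F.resultant z (2 * k) z.natDegree))
    (ι r + 2 * ((ck k : ℤ) : WittVector 2 L) * ι τ + 4 * ((ck k : ℤ) : WittVector 2 L) * ι r)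
    (τ + ((ck k : ℤ) : WittVector 2 K)) s hs1
    (by
      rw [mul_pow, hvs, hprod, map_add, map_intCast, ← hι]
      linear_combination (ι (F.resultant e₀ (2 * k) (2 * k + 1)) *
        ι (F.resultant z (2 * k) z.natDegree) ^ 2) * hck' +
        (1 + 4 * ((ck k : ℤ) : WittVector 2 L)) * hr')
    (by rw [map_mul, hφ, hφι, mul_assoc])
  rw [map_add, map_intCast, psi_add, hs, ← hcc, he₀map,
    Odd.neg_one_pow ⟨k, rfl⟩] at key
  have hτK : cc τ = rs (Om x y xb) (y ^ 2) := by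
    have hFmap : F.map cc = y ^ 2 := by
      rw [hF, hder]
      simp only [Polynomial.map_add, Polynomial.map_mul, Polynomial.map_pow, map_C, hw₀K, hy₀,
        Polynomial.map_ofNat, h2P, C_1]
      ring
    have hy2d : (y ^ 2).natDegree = 2 * k := by rw [hy.natDegree_pow]
    rw [hτ, ← coeff_map, map_modByMonic _ hFm, hFmap, ← hy2d, ← rs_eq_coeff _ (hy.pow 2)]
    apply rs_congr
    have hH : (C w₀ * H₀).map cc = derivative x ^ 2 + X * derivative y ^ 2 := by
      simp only [hH₀, Polynomial.map_add, Polynomial.map_mul, Polynomial.map_pow, map_C, hw₀K,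
        map_X, Polynomial.map_ofNat, h2P, C_1, ← derivative_map, hx₀, hy₀,
        derivative_derivative_eq_zero]
      ring
    have ha : a₀.map cc =
        X * (x * derivative x + X * y * derivative y) * xb ^ 2 * (x * xb) ^ 6 := by
      simp only [ha₀, hb₀, hz, Polynomial.map_add, Polynomial.map_mul, Polynomial.map_pow,
        map_X, ← derivative_map, hx₀, hy₀, hxb₀]
      ring
    rw [Polynomial.map_mul, hH, Polynomial.map_add, Polynomial.map_pow, ha, Om, ← sub_mul]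
    refine Dvd.dvd.mul_right ?_ _
    set A := X * (x * derivative x + X * y * derivative y) * xb ^ 2
    have h1 : y ^ 2 ∣ (x * xb) ^ 6 - 1 := by
      have := (Dvd.intro t ht.symm).trans (sub_dvd_pow_sub_pow (x * xb) 1 6)
      rwa [one_pow] at this
    have h2 : A * (x * xb) ^ 6 + (A * (x * xb) ^ 6) ^ 2 - (A + A ^ 2) =
        ((x * xb) ^ 6 - 1) * (A + A ^ 2 * ((x * xb) ^ 6 + 1)) := by ring
    rw [h2]
    exact h1.mul_right _
  rw [hτK] at key
  linear_combination -key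

end Pool.Agent.P.MP_a1177c_nt.HL
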