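import Pool.Agent.P.MP_a1177c_nt.HL.Local
import Pool.Agent.P.MP_a1177c_nt.HL.Burgess

namespace Pool.Agent.P.MP_a1177c_nt.HL

open Polynomial Finset
open scoped Classical

variable {K : Type*} [Field K] [Fintype K] [CharP K 2]

omit [CharP K 2] in
/-- splitting the count into residue classes modulo `G` -/
private theorem goodY_count_split {a Δ D y₁ p G x : K[X]} (hG : G.Monic) (hay : a * y₁ ∣ G)
    (hGp : IsCoprime G p) (j : ℕ) :
    (((Mn K (G.natDegree + j)).filter fun u => a * (y₁ * p) ∣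
        (x ^ 2 + X * (y₁ * p) ^ 2) * u + Δ * x + D * (y₁ * p)).card : ℝ) =
      ∑ b ∈ Pl K G.natDegree,
        (if a * y₁ ∣ (x ^ 2 + X * (y₁ * p) ^ 2) * b + Δ * x + D * (y₁ * p) then (1 : ℝ) else 0) *
          (((Mn K j).filter fun u => p ∣ x ^ 2 * (b + G * u) + Δ * x).card : ℝ) := by
  have hc : IsCoprime (a * y₁) p := hGp.of_isCoprime_of_dvd_left hay
  rw [Finset.card_filter, Nat.cast_sum]
  rw [sum_Mn_divmod hG j]
  refine Finset.sum_congr rfl fun b _ => ?_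
  rw [Finset.card_filter, Nat.cast_sum, Finset.mul_sum]
  refine Finset.sum_congr rfl fun u _ => ?_
  have key : (a * (y₁ * p) ∣
      (x ^ 2 + X * (y₁ * p) ^ 2) * (b + G * u) + Δ * x + D * (y₁ * p)) ↔
      ((a * y₁ ∣ (x ^ 2 + X * (y₁ * p) ^ 2) * b + Δ * x + D * (y₁ * p)) ∧
        p ∣ x ^ 2 * (b + G * u) + Δ * x) := by
    have e1 : (x ^ 2 + X * (y₁ * p) ^ 2) * (b + G * u) + Δ * x + D * (y₁ * p) =
        ((x ^ 2 + X * (y₁ * p) ^ 2) * b + Δ * x + D * (y₁ * p)) +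
          G * ((x ^ 2 + X * (y₁ * p) ^ 2) * u) := by ring
    have e2 : (x ^ 2 + X * (y₁ * p) ^ 2) * (b + G * u) + Δ * x + D * (y₁ * p) =
        (x ^ 2 * (b + G * u) + Δ * x) + p * (X * y₁ ^ 2 * p * (b + G * u) + D * y₁) := by ring
    have h1 : (a * y₁ ∣ (x ^ 2 + X * (y₁ * p) ^ 2) * (b + G * u) + Δ * x + D * (y₁ * p)) ↔
        (a * y₁ ∣ (x ^ 2 + X * (y₁ * p) ^ 2) * b + Δ * x + D * (y₁ * p)) := by
      rw [e1]
      exact dvd_add_left (hay.mul_right _)
    have h2 : (p ∣ (x ^ 2 + X * (y₁ * p) ^ 2) * (b + G * u) + Δ * x + D * (y₁ * p)) ↔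
        p ∣ x ^ 2 * (b + G * u) + Δ * x := by
      rw [e2]
      exact dvd_add_left (dvd_mul_right _ _)
    rw [← h1, ← h2, ← mul_assoc]
    exact ⟨fun h => ⟨(dvd_mul_right _ _).trans h, (dvd_mul_left _ _).trans h⟩,
      fun h => hc.mul_dvd h.1 h.2⟩
  by_cases hA : a * y₁ ∣ (x ^ 2 + X * (y₁ * p) ^ 2) * b + Δ * x + D * (y₁ * p)
  · by_cases hB : p ∣ x ^ 2 * (b + G * u) + Δ * x
    · rw [if_pos (key.2 ⟨hA, hB⟩), if_pos hA, if_pos hB]; simp
    · rw [if_neg (fun h => hB (key.1 h).2), if_pos hA, if_neg hB]; simp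
  · rw [if_neg (fun h => hA (key.1 h).1), if_neg hA]; simp

/-- Fourier expansion of the count, absorbed into the Kloosterman fraction -/
private theorem goodY_fourier {p G Δ : K[X]} {j : ℕ} {c : K[X] → ℝ}
    (hc : ∀ r : K[X], (((Mn K j).filter fun u => p ∣ G * u + r).card : ℝ) =
        ∑ η ∈ Pl K p.natDegree, c η * chi p (η * r)) (α x b : K[X]) :
    kl p α (x ^ 2) * (((Mn K j).filter fun u => p ∣ x ^ 2 * (b + G * u) + Δ * x).card : ℝ) =
      ∑ η ∈ Pl K p.natDegree, c η * chi p (η * b) * kl p (α + (η * Δ) ^ 2) (x ^ 2) := by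
  by_cases hx : IsCoprime (x ^ 2) p
  · have hx1 : IsCoprime x p := hx.of_isCoprime_of_dvd_left (dvd_pow_self x two_ne_zero)
    obtain ⟨xb, t, hxt⟩ := id hx1
    have h1 : p ∣ x * xb - 1 := ⟨-t, by linear_combination hxt⟩
    have h2 : p ∣ x ^ 2 * xb ^ 2 - 1 := by
      have : x ^ 2 * xb ^ 2 - 1 = (x * xb - 1) * (x * xb + 1) := by ring
      rw [this]
      exact h1.mul_right _
    have hf : ((Mn K j).filter fun u => p ∣ x ^ 2 * (b + G * u) + Δ * x) =
        (Mn K j).filter fun u => p ∣ G * u + (b + Δ * xb) := by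
      refine Finset.filter_congr fun u _ => ?_
      have e : x ^ 2 * (b + G * u) + Δ * x =
          x ^ 2 * (G * u + (b + Δ * xb)) + (x * xb - 1) * (-(Δ * x)) := by ring
      rw [e, dvd_add_left (h1.mul_right _)]
      exact ⟨fun h => hx.symm.dvd_of_dvd_mul_left h, fun h => h.mul_left _⟩
    rw [hf, hc, Finset.mul_sum]
    refine Finset.sum_congr rfl fun η _ => ?_
    rw [kl_eq h2, kl_eq h2, mul_add η, chi_add, ← chi_sq p (η * (Δ * xb)), add_mul α, chi_add]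
    have : (η * (Δ * xb)) ^ 2 = (η * Δ) ^ 2 * xb ^ 2 := by ring
    rw [this]
    ring
  · simp [kl_eq_zero hx]

theorem good_y : ∃ k₀ : ℕ, ∀ k ≥ k₀, ∀ (a Δ D y₁ p G : K[X]) (k'' : ℕ) (κ : K[X] → ℝ),
    y₁.Monic → p.Monic → G.Monic → Squarefree p → (y₁ * p).natDegree = k → a * y₁ ∣ G →
    IsCoprime G p → 50 * G.natDegree ≤ k → G.natDegree ≤ k'' →
    k'' ≤ G.natDegree + p.natDegree → (∀ x, |κ x| ≤ 1) → (∀ x v, κ (x + G * v) = κ x) →
    |∑ x ∈ Pl K (k + 1), κ x * mu (x ^ 2 + X * (y₁ * p) ^ 2) *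
        (((Mn K k'').filter fun u => a * (y₁ * p) ∣
          (x ^ 2 + X * (y₁ * p) ^ 2) * u + Δ * x + D * (y₁ * p)).card : ℝ)| ≤
      (Fintype.card K : ℝ) ^ (G.natDegree + k + 1) * (Fintype.card K : ℝ) ^ (-(k : ℝ) / 60) := by
  obtain ⟨k₀, hk₀⟩ := burgess (K := K)
  refine ⟨k₀, fun k hk a Δ D y₁ p G k'' κ hy₁ hp hG hsq hdeg hay hGp h50 hk1 hk2 hκ hκG => ?_⟩
  have hyG : y₁ ∣ G := (dvd_mul_left y₁ a).trans hay
  have hyp : IsCoprime y₁ p := hGp.of_isCoprime_of_dvd_left hyG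
  obtain ⟨κ₁, s, hκ₁, hκ₁y, hsp, hmu⟩ := mu_factor hy₁ hp hsq hyp
  obtain ⟨j, rfl⟩ : ∃ j, k'' = G.natDegree + j := ⟨k'' - G.natDegree, by omega⟩
  have hj : j ≤ p.natDegree := by omega
  obtain ⟨c, hc1, hc⟩ := fourier hp hsq hGp hj
  have hdeg' : y₁.natDegree + p.natDegree = k := by rw [← hy₁.natDegree_mul hp, hdeg]
  have hyle : y₁.natDegree ≤ G.natDegree := natDegree_le_of_dvd hyG hG.ne_zero
  set c₀ : K[X] := X * derivative (y₁ * p) ^ 2 with hc₀
  set I : K[X] → K[X] → ℝ := fun x b =>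
    if a * y₁ ∣ (x ^ 2 + X * (y₁ * p) ^ 2) * b + Δ * x + D * (y₁ * p) then (1 : ℝ) else 0 with hI
  set B : ℝ := (Fintype.card K : ℝ) ^ (k + 1) * (Fintype.card K : ℝ) ^ (-(k : ℝ) / 60) with hB
  have hB0 : 0 ≤ B := by positivity
  have hterm : ∀ x ∈ Pl K (k + 1), κ x * mu (x ^ 2 + X * (y₁ * p) ^ 2) *
        (((Mn K (G.natDegree + j)).filter fun u => a * (y₁ * p) ∣
          (x ^ 2 + X * (y₁ * p) ^ 2) * u + Δ * x + D * (y₁ * p)).card : ℝ) =
      ∑ b ∈ Pl K G.natDegree, ∑ η ∈ Pl K p.natDegree, c η * chi p (η * b) *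
        ((κ x * κ₁ x * I x b) * kl p (s * (derivative x ^ 2 + c₀) ^ 3 + (η * Δ) ^ 2) (x ^ 2)) := by
    intro x hx
    have hxd : x.natDegree ≤ (y₁ * p).natDegree := by
      rw [hdeg]
      have h := mem_Pl.1 hx
      exact natDegree_le_iff_degree_le.2 (by
        by_cases h0 : x = 0
        · simp [h0]
        · rw [degree_eq_natDegree h0] at h ⊢
          exact_mod_cast Nat.lt_succ_iff.1 (by exact_mod_cast h))
    rw [goodY_count_split hG hay hGp j, hmu x hxd, Finset.mul_sum]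
    refine Finset.sum_congr rfl fun b _ => ?_
    have h := goodY_fourier (Δ := Δ) hc (s * (derivative x ^ 2 + c₀) ^ 3) x b
    calc _ = (κ x * κ₁ x * I x b) * (kl p (s * (derivative x ^ 2 + c₀) ^ 3) (x ^ 2) *
          (((Mn K j).filter fun u => p ∣ x ^ 2 * (b + G * u) + Δ * x).card : ℝ)) := by
          simp only [hI]; ring
      _ = _ := by
          rw [h, Finset.mul_sum]
          refine Finset.sum_congr rfl fun η _ => ?_
          ring
  rw [Finset.sum_congr rfl hterm, Finset.sum_comm]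
  have hinner : ∀ b ∈ Pl K G.natDegree,
      |∑ x ∈ Pl K (k + 1), ∑ η ∈ Pl K p.natDegree, c η * chi p (η * b) *
        ((κ x * κ₁ x * I x b) * kl p (s * (derivative x ^ 2 + c₀) ^ 3 + (η * Δ) ^ 2) (x ^ 2))|
        ≤ B := by
    intro b _
    rw [Finset.sum_comm]
    have hb : ∀ η ∈ Pl K p.natDegree,
        |∑ x ∈ Pl K (k + 1), c η * chi p (η * b) *
          ((κ x * κ₁ x * I x b) * kl p (s * (derivative x ^ 2 + c₀) ^ 3 + (η * Δ) ^ 2) (x ^ 2))|
          ≤ |c η| * B := by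
      intro η _
      rw [← Finset.mul_sum, abs_mul, abs_mul, abs_chi, mul_one]
      refine mul_le_mul_of_nonneg_left ?_ (abs_nonneg _)
      refine hk₀ k hk p G s c₀ ((η * Δ) ^ 2) (fun x => κ x * κ₁ x * I x b) hp hsq (by omega)
        (by omega) h50 hGp hsp (fun x => ?_) (fun x v => ?_)
      · have hI1 : |I x b| ≤ 1 := by
          simp only [hI]
          split_ifs <;> simp
        rw [abs_mul, abs_mul]
        calc |κ x| * |κ₁ x| * |I x b| ≤ 1 * 1 * 1 := by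
              gcongr
              · exact hκ x
              · exact hκ₁ x
          _ = 1 := by norm_num
      · obtain ⟨g, hg⟩ := id hyG
        have e1 : κ (x + (G * v) ^ 2) = κ x := by
          have : (G * v) ^ 2 = G * (G * v ^ 2) := by ring
          rw [this, hκG]
        have e2 : κ₁ (x + (G * v) ^ 2) = κ₁ x := by
          have : G * v = y₁ * (g * v) := by rw [hg]; ring
          rw [this, hκ₁y]
        have e3 : I (x + (G * v) ^ 2) b = I x b := by
          simp only [hI]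
          have e : ((x + (G * v) ^ 2) ^ 2 + X * (y₁ * p) ^ 2) * b + Δ * (x + (G * v) ^ 2) +
              D * (y₁ * p) = ((x ^ 2 + X * (y₁ * p) ^ 2) * b + Δ * x + D * (y₁ * p)) +
                G * ((2 * x * G * v ^ 2 + G ^ 3 * v ^ 4) * b + Δ * G * v ^ 2) := by ring
          rw [e]
          exact if_congr (dvd_add_left (hay.mul_right _)) rfl rfl
        simp only [e1, e2, e3]
    calc _ ≤ ∑ η ∈ Pl K p.natDegree, |c η| * B :=
          (Finset.abs_sum_le_sum_abs _ _).trans (Finset.sum_le_sum hb)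
      _ = (∑ η ∈ Pl K p.natDegree, |c η|) * B := by rw [Finset.sum_mul]
      _ ≤ 1 * B := mul_le_mul_of_nonneg_right hc1 hB0
      _ = B := one_mul B
  calc _ ≤ ∑ b ∈ Pl K G.natDegree, B :=
        (Finset.abs_sum_le_sum_abs _ _).trans (Finset.sum_le_sum hinner)
    _ = (Fintype.card K : ℝ) ^ G.natDegree * B := by
        rw [Finset.sum_const, card_Pl, nsmul_eq_mul]; push_cast; rfl
    _ = _ := by rw [hB]; ring

end Pool.Agent.P.MP_a1177c_nt.HL
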