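import Pool.Agent.P.MP_a1177c_nt.HL.Chi
import Pool.Agent.P.MP_a1177c_nt.HL.Formula

namespace Pool.Agent.P.MP_a1177c_nt.HL

open Polynomial Finset
open scoped Classical

variable {K : Type*} [Field K] [Fintype K] [CharP K 2]

omit [Fintype K] [CharP K 2] in
theorem Om_congr {M x y xb x' y' xb' : K[X]} (h1 : M ∣ x - x')
    (h2 : M ∣ derivative x - derivative x') (h3 : M ∣ y - y')
    (h4 : M ∣ derivative y - derivative y') (h5 : M ∣ xb - xb') :
    M ∣ Om x y xb - Om x' y' xb' := by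
  rw [← AdjoinRoot.mk_eq_mk] at h1 h2 h3 h4 h5 ⊢
  simp only [Om, map_add, map_mul, map_pow, h1, h2, h3, h4, h5]

/-- residue at simple roots: `t` is an inverse of `p' ^ 2` -/
theorem psi_rs_sq {p t : K[X]} (ht : p ∣ t * derivative p ^ 2 - 1) (g : K[X]) :
    psi (rs g (p ^ 2)) = chi p (derivative g * t) := by
  obtain ⟨B, C, rfl⟩ := exists_sq_add g
  rw [rs_add, rs_sq, rs_X_mul_sq, zero_add, psi_sq, derivative_sq_add]
  have h1 : rs C p = rs (C * (t * derivative p) * derivative p) p := by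
    apply rs_congr
    have : C - C * (t * derivative p) * derivative p = -C * (t * derivative p ^ 2 - 1) := by ring
    rw [this]
    exact Dvd.dvd.mul_left ht _
  have h2 : psi (rs C p) = chi p (C * (t * derivative p)) := by
    rw [h1]; rfl
  rw [h2, ← chi_sq]
  apply chi_congr
  have : (C * (t * derivative p)) ^ 2 - C ^ 2 * t = C ^ 2 * t * (t * derivative p ^ 2 - 1) := by
    ring
  rw [this]
  exact Dvd.dvd.mul_left ht _

private theorem derivative_sq_zero (g : K[X]) : derivative (g ^ 2) = 0 := by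
  have h := derivative_sq_add g (0 : K[X])
  simpa using h

private theorem derivative_Om (x y xb : K[X]) :
    derivative (Om x y xb) =
      (x * derivative x + X * (derivative x ^ 2 + X * derivative y ^ 2)) * xb ^ 2 *
        (derivative x ^ 2 + X * derivative y ^ 2) +
      (X * (x * derivative x + X * y * derivative y) * xb ^ 2 +
        (X * (x * derivative x + X * y * derivative y) * xb ^ 2) ^ 2) * derivative y ^ 2 := by
  have h2 : (2 : K[X]) = 0 := two_eq_zero_poly
  unfold Om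
  rw [derivative_mul, derivative_sq_add, derivative_add, derivative_sq_zero, add_zero,
    derivative_mul, derivative_sq_zero, mul_zero, add_zero]
  simp only [derivative_mul, derivative_add, derivative_X, derivative_derivative_eq_zero]
  linear_combination (X * y * derivative y * xb ^ 2 *
    (derivative x ^ 2 + X * derivative y ^ 2)) * h2

theorem local_phase {y₁ p x xb s₁ s₂ s : K[X]} (hp : p.Monic) (hsq : Squarefree p)
    (hs : s₁ * p ^ 2 + s₂ * y₁ ^ 2 = 1) (hx : p ^ 2 ∣ x * xb - 1)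
    (hs' : p ∣ s * derivative (y₁ * p) ^ 4 - 1) :
    psi (rs (Om x (y₁ * p) xb * s₂) (p ^ 2)) =
      kl p (s * (derivative x ^ 2 + X * derivative (y₁ * p) ^ 2) ^ 3) (x ^ 2) := by
  have hx1 : p ∣ x * xb - 1 := (dvd_pow_self p two_ne_zero).trans hx
  have hder : derivative s₁ * p ^ 2 + derivative s₂ * y₁ ^ 2 = 0 := by
    have h := congrArg derivative hs
    rw [derivative_add, derivative_mul, derivative_mul, derivative_sq_zero, derivative_sq_zero]
      at h
    simpa using h
  set φ := AdjoinRoot.mk p with hφ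
  have e0 : φ p = 0 := AdjoinRoot.mk_self
  have e1 : φ x * φ xb = 1 := by
    have := AdjoinRoot.mk_eq_mk.mpr hx1
    simpa using this
  have e2 : φ s₂ * φ y₁ ^ 2 = 1 := by
    have := congrArg φ hs
    simpa [e0] using this
  have e3 : φ s * φ (derivative (y₁ * p)) ^ 4 = 1 := by
    have := AdjoinRoot.mk_eq_mk.mpr hs'
    simpa only [map_mul, map_pow, map_one] using this
  have e4 : φ (derivative (y₁ * p)) = φ y₁ * φ (derivative p) := by
    rw [derivative_mul, map_add, map_mul, map_mul, e0, mul_zero, zero_add]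
  have e5 : φ (derivative s₂) = 0 := by
    have h := congrArg φ hder
    simp only [map_add, map_mul, map_pow, e0, map_zero] at h
    linear_combination φ s₂ * h - φ (derivative s₂) * e2
  have ht : p ∣ (s * y₁ ^ 4 * derivative p ^ 2) * derivative p ^ 2 - 1 := by
    rw [← AdjoinRoot.mk_eq_mk, ← hφ]
    simp only [map_mul, map_pow, map_one]
    rw [e4] at e3
    linear_combination e3
  have hw : p ∣ x ^ 2 * xb ^ 2 - 1 := by
    rw [← AdjoinRoot.mk_eq_mk, ← hφ]
    simp only [map_mul, map_pow, map_one]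
    linear_combination (φ x * φ xb + 1) * e1
  rw [psi_rs_sq ht, kl_eq hw]
  set y := y₁ * p with hy
  set H := derivative x ^ 2 + X * derivative y ^ 2 with hH
  set a := X * (x * derivative x + X * y * derivative y) * xb ^ 2 with ha
  have e6 : φ s₂ * (φ s * φ y₁ ^ 4 * φ (derivative p) ^ 2) = φ s * φ (derivative y) ^ 2 := by
    rw [e4]
    linear_combination (φ s * φ y₁ ^ 2 * φ (derivative p) ^ 2) * e2
  have hph : chi p (derivative (Om x y xb * s₂) * (s * y₁ ^ 4 * derivative p ^ 2)) =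
      chi p (derivative x * xb * H * s * derivative y ^ 2 +
        (X * H ^ 2 * xb ^ 2 * s * derivative y ^ 2 + (a + a ^ 2))) := by
    apply chi_congr
    rw [← AdjoinRoot.mk_eq_mk, ← hφ, derivative_mul, derivative_Om, ← hH, ← ha]
    simp only [map_mul, map_pow, map_add, e5]
    linear_combination
      (((φ x * φ (derivative x) + φ X * φ H) * φ xb ^ 2 * φ H +
        (φ a + φ a ^ 2) * φ (derivative y) ^ 2)) * e6 +
      (φ (derivative x) * φ xb * φ H * φ s * φ (derivative y) ^ 2) * e1 +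
      (φ a + φ a ^ 2) * e3
  have haa : chi p (a + a ^ 2) = 1 := by
    rw [chi_add, chi_sq]
    have h := abs_chi p a
    have : chi p a * chi p a = |chi p a| * |chi p a| := (abs_mul_abs_self _).symm
    rw [this, h, one_mul]
  have hsq1 : chi p (derivative x * xb * H * s * derivative y ^ 2) =
      chi p (derivative x ^ 2 * xb ^ 2 * H ^ 2 * s) := by
    rw [← chi_sq]
    apply chi_congr
    rw [← AdjoinRoot.mk_eq_mk, ← hφ]
    simp only [map_mul, map_pow]
    linear_combination (φ (derivative x) ^ 2 * φ xb ^ 2 * φ H ^ 2 * φ s) * e3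
  rw [hph, chi_add, chi_add, haa, mul_one, hsq1, ← chi_add]
  congr 1
  rw [hH]
  ring

theorem mu_factor {y₁ p : K[X]} (hy₁ : y₁.Monic) (hp : p.Monic) (hsq : Squarefree p)
    (hc : IsCoprime y₁ p) :
    ∃ (κ : K[X] → ℝ) (s : K[X]), (∀ x, |κ x| ≤ 1) ∧ (∀ x v, κ (x + (y₁ * v) ^ 2) = κ x) ∧
      IsCoprime s p ∧ ∀ x : K[X], x.natDegree ≤ (y₁ * p).natDegree →
        mu (x ^ 2 + X * (y₁ * p) ^ 2) =
          κ x * kl p (s * (derivative x ^ 2 + X * derivative (y₁ * p) ^ 2) ^ 3) (x ^ 2) := by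
  obtain ⟨ε, hε, hlam⟩ := lam_formula (K := K)
  obtain ⟨s₁, s₂, hs⟩ : IsCoprime (p ^ 2) (y₁ ^ 2) := hc.symm.pow
  have hsep : IsCoprime p (derivative p) := PerfectField.separable_iff_squarefree.mpr hsq
  have hyp : IsCoprime (derivative (y₁ * p)) p := by
    rw [derivative_mul, add_comm]
    exact (IsCoprime.mul_left hc hsep.symm).add_mul_right_left _
  obtain ⟨s, r, hsr⟩ : IsCoprime (derivative (y₁ * p) ^ 4) p := hyp.pow_left
  have hs' : p ∣ s * derivative (y₁ * p) ^ 4 - 1 := ⟨-r, by linear_combination hsr⟩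
  let κ : K[X] → ℝ := fun x => if h : ∃ w : K[X], y₁ ^ 2 ∣ x * w - 1 then
    ε (y₁ * p).natDegree * psi (rs (Om x (y₁ * p) h.choose * s₁) (y₁ ^ 2)) else 0
  have hκ : ∀ x w : K[X], y₁ ^ 2 ∣ x * w - 1 →
      κ x = ε (y₁ * p).natDegree * psi (rs (Om x (y₁ * p) w * s₁) (y₁ ^ 2)) := by
    intro x w hw
    have h : ∃ w : K[X], y₁ ^ 2 ∣ x * w - 1 := ⟨w, hw⟩
    have hrs : rs (Om x (y₁ * p) h.choose * s₁) (y₁ ^ 2) =
        rs (Om x (y₁ * p) w * s₁) (y₁ ^ 2) := by
      apply rs_congr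
      rw [← sub_mul]
      apply Dvd.dvd.mul_right
      have h0 : ∀ z : K[X], y₁ ^ 2 ∣ z - z := fun z => by
        rw [sub_self]
        exact dvd_zero _
      apply Om_congr (h0 _) (h0 _) (h0 _) (h0 _)
      have : h.choose - w = w * (x * h.choose - 1) - h.choose * (x * w - 1) := by ring
      rw [this]
      exact dvd_sub (Dvd.dvd.mul_left h.choose_spec _) (Dvd.dvd.mul_left hw _)
    rw [← hrs]
    exact dif_pos h
  have hκ0 : ∀ x : K[X], (¬ ∃ w : K[X], y₁ ^ 2 ∣ x * w - 1) → κ x = 0 := by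
    intro x h
    exact dif_neg h
  clear_value κ
  refine ⟨κ, s, ?_, ?_, ⟨derivative (y₁ * p) ^ 4, r, by linear_combination hsr⟩, ?_⟩
  · intro x
    by_cases h : ∃ w : K[X], y₁ ^ 2 ∣ x * w - 1
    · obtain ⟨w, hw⟩ := h
      rw [hκ x w hw, abs_mul, hε, abs_psi, one_mul]
    · rw [hκ0 x h]
      simp
  · intro x v
    by_cases h : ∃ w : K[X], y₁ ^ 2 ∣ x * w - 1
    · obtain ⟨w, hw⟩ := h
      have hd : y₁ ^ 2 ∣ (y₁ * v) ^ 2 := pow_dvd_pow_of_dvd (dvd_mul_right _ _) 2
      have hw' : y₁ ^ 2 ∣ (x + (y₁ * v) ^ 2) * w - 1 := by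
        have : (x + (y₁ * v) ^ 2) * w - 1 = (x * w - 1) + (y₁ * v) ^ 2 * w := by ring
        rw [this]
        exact dvd_add hw (Dvd.dvd.mul_right hd _)
      have hrs : rs (Om (x + (y₁ * v) ^ 2) (y₁ * p) w * s₁) (y₁ ^ 2) =
          rs (Om x (y₁ * p) w * s₁) (y₁ ^ 2) := by
        apply rs_congr
        rw [← sub_mul]
        apply Dvd.dvd.mul_right
        refine Om_congr ?_ ?_ ?_ ?_ ?_
        · rw [add_sub_cancel_left]
          exact hd
        · rw [derivative_add, derivative_sq_zero, add_zero, sub_self]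
          exact dvd_zero _
        all_goals
          rw [sub_self]
          exact dvd_zero _
      rw [hκ x w hw, hκ _ w hw', hrs]
    · rw [hκ0 x h]
      apply hκ0
      rintro ⟨w, hw⟩
      apply h
      refine ⟨w, ?_⟩
      have hd : y₁ ^ 2 ∣ (y₁ * v) ^ 2 := pow_dvd_pow_of_dvd (dvd_mul_right _ _) 2
      have : x * w - 1 = ((x + (y₁ * v) ^ 2) * w - 1) - (y₁ * v) ^ 2 * w := by ring
      rw [this]
      exact dvd_sub hw (Dvd.dvd.mul_right hd _)
  · intro x hx
    by_cases hxy : IsCoprime x (y₁ * p)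
    · obtain ⟨xb, r', hxb⟩ : IsCoprime x ((y₁ * p) ^ 2) := hxy.pow_right
      have hinv : (y₁ * p) ^ 2 ∣ x * xb - 1 := ⟨-r', by linear_combination hxb⟩
      have h1 : y₁ ^ 2 ∣ x * xb - 1 := (pow_dvd_pow_of_dvd (dvd_mul_right _ _) 2).trans hinv
      have h2 : p ^ 2 ∣ x * xb - 1 := (pow_dvd_pow_of_dvd (dvd_mul_left _ _) 2).trans hinv
      have hsf : Squarefree (x ^ 2 + X * (y₁ * p) ^ 2) := (squarefree_sq_add_iff _ _).mpr hxy
      have hsplit : rs (Om x (y₁ * p) xb) ((y₁ * p) ^ 2) =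
          rs (Om x (y₁ * p) xb * s₁) (y₁ ^ 2) + rs (Om x (y₁ * p) xb * s₂) (p ^ 2) := by
        rw [← rs_mul_cancel (Om x (y₁ * p) xb * s₁) (y₁ ^ 2) (pow_ne_zero 2 hp.ne_zero),
          ← rs_mul_cancel (Om x (y₁ * p) xb * s₂) (p ^ 2) (pow_ne_zero 2 hy₁.ne_zero),
          mul_comm (p ^ 2) (y₁ ^ 2), ← rs_add, mul_pow]
        congr 1
        linear_combination (-Om x (y₁ * p) xb) * hs
      rw [mu, if_pos hsf, hlam x (y₁ * p) xb (hy₁.mul hp) hx hinv, hsplit, psi_add,
        local_phase hp hsq hs h2 hs', hκ x xb h1, mul_assoc]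
    · have hsf : ¬ Squarefree (x ^ 2 + X * (y₁ * p) ^ 2) := fun h =>
        hxy ((squarefree_sq_add_iff _ _).mp h)
      rw [mu, if_neg hsf]
      by_cases hxp : IsCoprime x p
      · rw [hκ0 x, zero_mul]
        rintro ⟨w, r', hw⟩
        apply hxy
        refine IsCoprime.mul_right ⟨w, -(y₁ * r'), ?_⟩ hxp
        linear_combination hw
      · rw [kl_eq_zero, mul_zero]
        intro h
        exact hxp ((IsCoprime.pow_left_iff two_pos).mp h)

end Pool.Agent.P.MP_a1177c_nt.HL
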