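import Pool.Agent.P.MP_a1177c_nt.HL.Chi
import Pool.Agent.P.MP_a1177c_nt.HL.Roots

namespace Pool.Agent.P.MP_a1177c_nt.HL

open Polynomial Finset
open scoped Classical

variable {K : Type*} [Field K] [Fintype K] [CharP K 2]

/-- the weight attached to the primes of `p` dividing `h` -/
noncomputable def momWt (p h : K[X]) : ℝ :=
  ∏ π ∈ (pf p).filter (fun π => π ∣ h), (Fintype.card K : ℝ) ^ π.natDegree

/-- the polynomial whose roots modulo `p` are counted -/
noncomputable def momF (v : Fin 6 → K[X]) : K[X][X] :=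
  ∑ i, ∏ j ∈ univ.erase i, (X + C (v j ^ 4))

omit [CharP K 2] in
theorem mom_one_le_card : (1 : ℝ) ≤ Fintype.card K := by
  exact_mod_cast Fintype.card_pos

omit [CharP K 2] in
theorem momWt_nonneg (p h : K[X]) : 0 ≤ momWt p h :=
  Finset.prod_nonneg fun _ _ => by positivity

omit [CharP K 2] in
theorem momWt_mul_le {p : K[X]} (hp : p ≠ 0) (g h : K[X]) :
    momWt p (g * h) ≤ momWt p g * momWt p h := by
  unfold momWt
  rw [Finset.prod_filter, Finset.prod_filter, Finset.prod_filter, ← Finset.prod_mul_distrib]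
  refine Finset.prod_le_prod (fun π _ => by split_ifs <;> positivity) (fun π hπ => ?_)
  have hirr := ((mem_pf hp).1 hπ).2.1
  have h1 : (1 : ℝ) ≤ (Fintype.card K : ℝ) ^ π.natDegree := one_le_pow₀ mom_one_le_card
  by_cases hg : π ∣ g <;> by_cases hh : π ∣ h
  · rw [if_pos hg, if_pos hh, if_pos (hg.mul_right h)]
    nlinarith
  · rw [if_pos hg, if_neg hh, if_pos (hg.mul_right h), mul_one]
  · rw [if_neg hg, if_pos hh, if_pos (hh.mul_left g), one_mul]
  · rw [if_neg hg, if_neg hh, if_neg, mul_one]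
    intro hd
    rcases hirr.prime.dvd_or_dvd hd with h' | h'
    · exact hg h'
    · exact hh h'

omit [CharP K 2] in
theorem momWt_prod_le {p : K[X]} (hp : p ≠ 0) {ι : Type*} (s : Finset ι) (h : ι → K[X]) :
    momWt p (∏ j ∈ s, h j) ≤ ∏ j ∈ s, momWt p (h j) := by
  induction s using Finset.induction_on with
  | empty =>
    rw [Finset.prod_empty, Finset.prod_empty, momWt, Finset.filter_eq_empty_iff.2,
      Finset.prod_empty]
    intro π hπ
    exact ((mem_pf hp).1 hπ).2.1.not_dvd_one
  | insert a s ha ih =>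
    rw [Finset.prod_insert ha, Finset.prod_insert ha]
    exact (momWt_mul_le hp _ _).trans (mul_le_mul_of_nonneg_left ih (momWt_nonneg _ _))

omit [Fintype K] [CharP K 2] in
theorem momF_natDegree (v : Fin 6 → K[X]) : (momF v).natDegree ≤ 5 := by
  refine natDegree_sum_le_of_forall_le _ _ (fun i _ => ?_)
  refine (natDegree_prod_le _ _).trans ?_
  calc ∑ j ∈ univ.erase i, (X + C (v j ^ 4) : K[X][X]).natDegree
      = ∑ _j ∈ univ.erase i, 1 := Finset.sum_congr rfl (fun j _ => natDegree_X_add_C _)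
    _ ≤ 5 := by simp

omit [Fintype K] [CharP K 2] in
theorem momF_eval (v : Fin 6 → K[X]) (β : K[X]) :
    (momF v).eval β = ∑ i, ∏ j ∈ univ.erase i, (β + v j ^ 4) := by
  simp [momF, eval_finsetSum, eval_prod]

theorem momF_eval_self (v : Fin 6 → K[X]) (i : Fin 6) :
    (momF v).eval (v i ^ 4) = (∏ j ∈ univ.erase i, (v j + v i)) ^ 4 := by
  have h2 : (2 : K[X]) = 0 := two_eq_zero_poly
  rw [momF_eval, Finset.sum_eq_single i]
  · rw [← Finset.prod_pow]
    refine Finset.prod_congr rfl (fun j _ => ?_)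
    linear_combination (-(2 * v j ^ 3 * v i + 3 * v j ^ 2 * v i ^ 2 + 2 * v j * v i ^ 3)) * h2
  · intro i' _ hi'
    refine Finset.prod_eq_zero (i := i) (Finset.mem_erase.2 ⟨hi'.symm, Finset.mem_univ _⟩) ?_
    linear_combination (v i ^ 4) * h2
  · intro h; exact absurd (Finset.mem_univ i) h

theorem mom_count_B {p : K[X]} (hp : p.Monic) (hsq : Squarefree p) (v : Fin 6 → K[X])
    (i : Fin 6) :
    (((Pl K p.natDegree).filter fun β => p ∣ (momF v).eval β).card : ℝ) ≤
      5 ^ (pf p).card * ∏ j ∈ univ.erase i, momWt p (v j + v i) := by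
  have h := card_roots_le hp hsq (momF v) (D := 5) (by norm_num) (momF_natDegree v)
    (∏ j ∈ univ.erase i, (v j + v i)) (by
      intro π hπ hnd
      by_contra hc
      push Not at hc
      have h1 : C π ∣ momF v := (C_dvd_iff_dvd_coeff π _).2 hc
      have h2 := eval_dvd (x := v i ^ 4) h1
      rw [eval_C, momF_eval_self] at h2
      exact hnd (((mem_pf hp.ne_zero).1 hπ).2.1.prime.dvd_of_dvd_pow h2))
  refine h.trans ?_
  push_cast
  exact mul_le_mul_of_nonneg_left (momWt_prod_le hp.ne_zero _ _) (by positivity)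

omit [CharP K 2] in
theorem mom_card_A (l : ℕ) :
    ((Fintype.piFinset fun _ : Fin 6 => Pl K l).filter
      fun v => ∀ i, ∃ j, j ≠ i ∧ v j = v i).card ≤ 729 * Fintype.card K ^ (3 * l) := by
  have hsub : ((Fintype.piFinset fun _ : Fin 6 => Pl K l).filter
      fun v => ∀ i, ∃ j, j ≠ i ∧ v j = v i) ⊆
      ((univ : Finset (Fin 6 → Fin 3)) ×ˢ (Fintype.piFinset fun _ : Fin 3 => Pl K l)).image
        (fun z => z.2 ∘ z.1) := by
    intro v hv
    obtain ⟨hv1, hv2⟩ := Finset.mem_filter.1 hv
    have hc : 2 * ((univ : Finset (Fin 6)).image v).card ≤ (univ : Finset (Fin 6)).card := by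
      refine Finset.mul_card_image_le_card _ 2 (fun b hb => ?_)
      obtain ⟨i, -, rfl⟩ := Finset.mem_image.1 hb
      obtain ⟨j, hj, hji⟩ := hv2 i
      rw [← Finset.card_pair hj]
      refine Finset.card_le_card (fun x hx => ?_)
      rcases Finset.mem_insert.1 hx with rfl | hx
      · simp [hji]
      · rw [Finset.mem_singleton.1 hx]; simp
    have hc' : Fintype.card ((univ : Finset (Fin 6)).image v) ≤ Fintype.card (Fin 3) := by
      rw [Fintype.card_coe, Fintype.card_fin]
      rw [Finset.card_univ, Fintype.card_fin] at hc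
      omega
    obtain ⟨e⟩ := Function.Embedding.nonempty_of_card_le hc'
    have hne : Nonempty ((univ : Finset (Fin 6)).image v) :=
      ⟨⟨v 0, Finset.mem_image_of_mem _ (Finset.mem_univ _)⟩⟩
    refine Finset.mem_image.2 ⟨(fun i => e ⟨v i, Finset.mem_image_of_mem _ (Finset.mem_univ _)⟩,
      fun k => (Function.invFun e k).1), ?_, ?_⟩
    · refine Finset.mem_product.2 ⟨Finset.mem_univ _, Fintype.mem_piFinset.2 (fun k => ?_)⟩
      obtain ⟨i, -, hi⟩ := Finset.mem_image.1 (Function.invFun e k).2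
      show (Function.invFun e k).1 ∈ Pl K l
      rw [← hi]
      exact Fintype.mem_piFinset.1 hv1 i
    · funext i
      show (Function.invFun e (e _)).1 = v i
      rw [Function.leftInverse_invFun e.injective]
  refine (Finset.card_le_card hsub).trans (Finset.card_image_le.trans ?_)
  rw [Finset.card_product, Fintype.card_piFinset, Finset.prod_const, card_Pl, Finset.card_univ,
    Finset.card_univ, Fintype.card_fun, Fintype.card_fin, Fintype.card_fin, ← pow_mul,
    mul_comm l 3]
  norm_num

omit [CharP K 2] in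
theorem mom_sum_B {p : K[X]} (hp : p ≠ 0) (l : ℕ) (i : Fin 6) :
    ∑ v ∈ Fintype.piFinset fun _ : Fin 6 => Pl K l,
      ∏ j ∈ univ.erase i, (if v j + v i = 0 then 0 else momWt p (v j + v i)) ≤
      (Fintype.card K : ℝ) ^ l * (2 ^ (pf p).card * (Fintype.card K : ℝ) ^ l) ^ 5 := by
  set W : K[X] → ℝ := fun h => if h = 0 then 0 else momWt p h with hW
  have hW0 : ∀ h, 0 ≤ W h := fun h => by
    simp only [hW]; split_ifs
    · exact le_rfl
    · exact momWt_nonneg _ _
  set T : K[X] → Fin 6 → K[X] → ℝ :=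
    fun w j x => if j = i then (if x = w then 1 else 0) else W (x + w) with hT
  have h1 : ∀ v ∈ Fintype.piFinset fun _ : Fin 6 => Pl K l,
      ∏ j ∈ univ.erase i, W (v j + v i) = ∑ w ∈ Pl K l, ∏ j, T w j (v j) := by
    intro v hv
    rw [Finset.sum_eq_single (v i)]
    · rw [← Finset.mul_prod_erase univ _ (Finset.mem_univ i)]
      simp only [hT, if_true, one_mul]
      refine Finset.prod_congr rfl (fun j hj => ?_)
      rw [if_neg (Finset.mem_erase.1 hj).1]
    · intro w _ hw
      refine Finset.prod_eq_zero (Finset.mem_univ i) ?_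
      simp only [hT, if_true]
      rw [if_neg hw.symm]
    · intro h; exact absurd (Fintype.mem_piFinset.1 hv i) h
  have h2 : ∀ w ∈ Pl K l, ∑ x ∈ Pl K l, W (x + w) ≤
      2 ^ (pf p).card * (Fintype.card K : ℝ) ^ l := by
    intro w hw
    rw [sum_Pl_shift hw W]
    refine le_trans (le_of_eq ?_) (sum_gcd_weight_le hp l)
    rw [← Finset.sum_erase (Pl K l) (a := 0) (f := W) (by simp [hW])]
    refine Finset.sum_congr rfl (fun h hh => ?_)
    simp only [hW]
    rw [if_neg (Finset.mem_erase.1 hh).1, momWt]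
  show ∑ v ∈ Fintype.piFinset fun _ : Fin 6 => Pl K l, ∏ j ∈ univ.erase i, W (v j + v i) ≤ _
  rw [Finset.sum_congr rfl h1, Finset.sum_comm]
  calc ∑ w ∈ Pl K l, ∑ v ∈ Fintype.piFinset fun _ : Fin 6 => Pl K l, ∏ j, T w j (v j)
      ≤ ∑ _w ∈ Pl K l, (2 ^ (pf p).card * (Fintype.card K : ℝ) ^ l) ^ 5 := by
        refine Finset.sum_le_sum (fun w hw => ?_)
        rw [← Finset.prod_univ_sum, ← Finset.mul_prod_erase univ _ (Finset.mem_univ i)]
        have e1 : ∑ x ∈ Pl K l, T w i x = 1 := by
          simp only [hT, if_true]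
          rw [Finset.sum_ite_eq' (Pl K l) w (fun _ => (1 : ℝ)), if_pos hw]
        rw [e1, one_mul]
        calc ∏ j ∈ univ.erase i, ∑ x ∈ Pl K l, T w j x
            ≤ ∏ _j ∈ univ.erase i, (2 ^ (pf p).card * (Fintype.card K : ℝ) ^ l) := by
              refine Finset.prod_le_prod (fun j hj => Finset.sum_nonneg (fun x _ => ?_))
                (fun j hj => ?_)
              · simp only [hT]
                rw [if_neg (Finset.mem_erase.1 hj).1]
                exact hW0 _
              · simp only [hT, if_neg (Finset.mem_erase.1 hj).1]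
                exact h2 w hw
          _ = _ := by simp
    _ = _ := by rw [Finset.sum_const, card_Pl, nsmul_eq_mul]; push_cast; rfl

theorem moment {p : K[X]} (hp : p.Monic) (hsq : Squarefree p) (l : ℕ) :
    ∑ α ∈ Pl K p.natDegree, ∑ β ∈ Pl K p.natDegree, (∑ v ∈ Pl K l, kl p α (β + v ^ 4)) ^ 6 ≤
      (Fintype.card K : ℝ) ^ p.natDegree *
        (729 * (Fintype.card K : ℝ) ^ (p.natDegree + 3 * l) +
          6 * 160 ^ (pf p).card * (Fintype.card K : ℝ) ^ (6 * l)) := by
  have h2 : (2 : K[X]) = 0 := two_eq_zero_poly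
  set q : ℝ := (Fintype.card K : ℝ) with hq
  have hq0 : 0 ≤ q := Nat.cast_nonneg _
  set P := Fintype.piFinset fun _ : Fin 6 => Pl K l with hP
  have e1 : ∀ α β : K[X], (∑ v ∈ Pl K l, kl p α (β + v ^ 4)) ^ 6 =
      ∑ v ∈ P, ∏ i, kl p α (β + v i ^ 4) := by
    intro α β
    rw [hP, ← Finset.prod_univ_sum (fun _ : Fin 6 => Pl K l) (fun _ x => kl p α (β + x ^ 4))]
    simp
  simp only [e1]
  rw [Finset.sum_comm]
  simp only [fun β => Finset.sum_comm (s := Pl K p.natDegree) (t := P)
    (f := fun α v => ∏ i, kl p α (β + v i ^ 4))]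
  rw [Finset.sum_comm]
  have e2 : ∀ v ∈ P, ∑ β ∈ Pl K p.natDegree, ∑ α ∈ Pl K p.natDegree,
      ∏ i, kl p α (β + v i ^ 4) ≤ q ^ p.natDegree *
        ((if ∀ i, ∃ j, j ≠ i ∧ v j = v i then q ^ p.natDegree else 0) +
          5 ^ (pf p).card * ∑ i, ∏ j ∈ univ.erase i,
            (if v j + v i = 0 then 0 else momWt p (v j + v i))) := by
    intro v _
    have hnn : ∀ i : Fin 6, 0 ≤ ∏ j ∈ univ.erase i,
        (if v j + v i = 0 then 0 else momWt p (v j + v i)) := fun i =>
      Finset.prod_nonneg fun j _ => by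
        split_ifs
        · exact le_rfl
        · exact momWt_nonneg _ _
    have a1 : ∑ β ∈ Pl K p.natDegree, ∑ α ∈ Pl K p.natDegree, ∏ i, kl p α (β + v i ^ 4) ≤
        q ^ p.natDegree *
          (((Pl K p.natDegree).filter fun β => p ∣ (momF v).eval β).card : ℝ) := by
      rw [Finset.card_filter]
      push_cast
      rw [Finset.mul_sum]
      refine Finset.sum_le_sum (fun β _ => ?_)
      rw [sum_prod_kl hp hsq (fun i => β + v i ^ 4), momF_eval]
      by_cases hd : p ∣ ∑ i, ∏ j ∈ univ.erase i, (β + v j ^ 4)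
      · rw [if_pos hd, mul_one]
        split_ifs
        · exact le_rfl
        · positivity
      · rw [if_neg hd, mul_zero, if_neg]
        intro h
        refine hd (h.2.trans (dvd_of_eq (Finset.sum_congr rfl fun i _ =>
          Finset.prod_congr (Finset.ext fun j => ?_) fun _ _ => rfl)))
        simp only [Finset.mem_erase]
    refine a1.trans (mul_le_mul_of_nonneg_left ?_ (by positivity))
    by_cases hA : ∀ i, ∃ j, j ≠ i ∧ v j = v i
    · rw [if_pos hA]
      have a2 : (((Pl K p.natDegree).filter fun β => p ∣ (momF v).eval β).card : ℝ)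
          ≤ q ^ p.natDegree := by
        rw [hq, ← Nat.cast_pow, ← card_Pl]
        exact_mod_cast Finset.card_filter_le _ _
      have a3 : (0 : ℝ) ≤ 5 ^ (pf p).card * ∑ i, ∏ j ∈ univ.erase i,
          (if v j + v i = 0 then 0 else momWt p (v j + v i)) :=
        mul_nonneg (by positivity) (Finset.sum_nonneg fun i _ => hnn i)
      linarith
    · rw [if_neg hA, zero_add]
      push Not at hA
      obtain ⟨i, hi⟩ := hA
      refine (mom_count_B hp hsq v i).trans (mul_le_mul_of_nonneg_left ?_ (by positivity))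
      refine le_trans (le_of_eq ?_)
        (Finset.single_le_sum (fun i _ => hnn i) (Finset.mem_univ i))
      refine Finset.prod_congr rfl (fun j hj => ?_)
      rw [if_neg]
      intro h0
      refine hi j (Finset.mem_erase.1 hj).1 ?_
      linear_combination h0 - v i * h2
  refine (Finset.sum_le_sum e2).trans ?_
  rw [← Finset.mul_sum, Finset.sum_add_distrib]
  refine mul_le_mul_of_nonneg_left (add_le_add ?_ ?_) (by positivity)
  · rw [← Finset.sum_filter, Finset.sum_const, nsmul_eq_mul, pow_add, mul_comm (q ^ _),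
      ← mul_assoc]
    refine mul_le_mul_of_nonneg_right ?_ (by positivity)
    have := mom_card_A (K := K) l
    rw [hq]
    exact_mod_cast this
  · rw [← Finset.mul_sum, Finset.sum_comm]
    calc (5 : ℝ) ^ (pf p).card * ∑ i : Fin 6, ∑ v ∈ P, ∏ j ∈ univ.erase i,
          (if v j + v i = 0 then 0 else momWt p (v j + v i))
        ≤ 5 ^ (pf p).card * ∑ _i : Fin 6, q ^ l * (2 ^ (pf p).card * q ^ l) ^ 5 :=
          mul_le_mul_of_nonneg_left
            (Finset.sum_le_sum fun i _ => mom_sum_B hp.ne_zero l i) (by positivity)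
      _ = 6 * 160 ^ (pf p).card * q ^ (6 * l) := by
          have e3 : (160 : ℝ) ^ (pf p).card = 5 ^ (pf p).card * (2 ^ (pf p).card) ^ 5 := by
            rw [← pow_mul, mul_comm (pf p).card 5, pow_mul, ← mul_pow]
            norm_num
          rw [e3, mul_comm 6 l, pow_mul]
          simp only [Finset.sum_const, Finset.card_univ, Fintype.card_fin, nsmul_eq_mul]
          generalize (2 : ℝ) ^ (pf p).card = A
          generalize (5 : ℝ) ^ (pf p).card = B
          generalize q ^ l = Q
          push_cast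
          ring

end Pool.Agent.P.MP_a1177c_nt.HL
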