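import Pool.Agent.P.MP_a1177c_nt.HL.Local

namespace Pool.Agent.P.MP_a1177c_nt.HL

open Polynomial Finset
open scoped Classical LaurentSeries

variable {K : Type*} [Field K] [Fintype K] [CharP K 2]

open WithZero

omit [Fintype K] [CharP K 2] in
theorem phase_val_derivative {w : K[X]} {n : ℤ} (h : val (io w) ≤ exp n) :
    val (io (derivative w)) ≤ exp (n - 1) := by
  by_cases h0 : derivative w = 0
  · rw [h0]; simp
  have hw : w ≠ 0 := by
    rintro rfl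
    exact h0 derivative_zero
  have hd : w.natDegree ≠ 0 := by
    intro hd
    apply h0
    rw [eq_C_of_natDegree_eq_zero hd, derivative_C]
  have hlt := natDegree_derivative_lt hd
  rw [val_io hw, exp_le_exp] at h
  rw [val_io h0, exp_le_exp]
  omega

omit [Fintype K] [CharP K 2] in
theorem phase_val_mul {φ ψ : K⸨X⸩} {a b : ℤ} (h : val φ ≤ exp a) (h' : val ψ ≤ exp b) :
    val (φ * ψ) ≤ exp (a + b) := by
  rw [map_mul, exp_add]
  exact mul_le_mul' h h'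

omit [Fintype K] [CharP K 2] in
theorem phase_val_div {φ ψ : K⸨X⸩} {a b : ℤ} (h : val φ ≤ exp a) (h' : val ψ = exp b) :
    val (φ / ψ) ≤ exp (a - b) := by
  rw [div_eq_mul_inv, sub_eq_add_neg]
  apply phase_val_mul h
  rw [map_inv₀, h', exp_neg]

omit [Fintype K] [CharP K 2] in
theorem phase_val_mono {φ : K⸨X⸩} {a b : ℤ} (h : val φ ≤ exp a) (hab : a ≤ b) :
    val φ ≤ exp b :=
  h.trans (exp_le_exp.2 hab)

theorem phase_alg {F : Type*} [Field F] (h2 : (2 : F) = 0)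
    (T x x1 y0 y01 w w1 m m1 d : F) (hx : x ≠ 0) (hy0 : y0 ≠ 0) (hy : y0 + w ≠ 0) (hm : m ≠ 0)
    (hd : (y01 + w1) * m = d + m1 * (y0 + w)) :
    (T * (x * x1 + T * (y0 + w) * (y01 + w1)) + T ^ 2 * x1 ^ 2) *
        (x1 ^ 2 + T * (y01 + w1) ^ 2) / (x ^ 2 * (y0 + w) ^ 2) =
      ((T * x1 / x + T * x1 / x * (T * x1 / x)) * (x1 / (y0 + w) * (x1 / (y0 + w))) +
        (T * x1 / x + T * x1 / x * (T * x1 / x)) * T *
          ((w1 / (y0 + w) - y01 / y0 * (w / (y0 + w))) *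
            (w1 / (y0 + w) - y01 / y0 * (w / (y0 + w)))) +
        T * x1 / x * (T * x1 / x) * (w1 / (y0 + w) - y01 / y0 * (w / (y0 + w)))) +
      ((T * x1 / x + T * x1 / x * (T * x1 / x)) * T * (y01 / y0) ^ 2 +
        T * x1 / x * (T * x1 / x) * (y01 / y0) +
        T ^ 3 / (x ^ 2 * m ^ 3) * (d ^ 2 * m1 + d * m1 ^ 2 * y0 + m1 ^ 3 * y0 ^ 2)) +
      T ^ 3 / (x ^ 2 * m ^ 3) * (d * m1 ^ 2 * w + m1 ^ 3 * w ^ 2) +
      T ^ 3 * d ^ 3 / (x ^ 2 * m ^ 3 * y0) / (1 + w / y0) := by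
  obtain ⟨y, hyd⟩ : ∃ y, y = y0 + w := ⟨_, rfl⟩
  obtain ⟨y1, hy1⟩ : ∃ y1, y1 = y01 + w1 := ⟨_, rfl⟩
  have e1 : w1 / (y0 + w) - y01 / y0 * (w / (y0 + w)) = y1 / y - y01 / y0 := by
    rw [hyd, hy1]; field_simp; ring
  have e2 : T ^ 3 * d ^ 3 / (x ^ 2 * m ^ 3 * y0) / (1 + w / y0) =
      T ^ 3 / (x ^ 2 * m ^ 3) * (d ^ 3 / y) := by
    have : 1 + w / y0 = y / y0 := by rw [hyd]; field_simp
    rw [this]
    have hy' : y ≠ 0 := hyd ▸ hy
    field_simp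
  rw [e1, e2, ← hyd, ← hy1]
  rw [← hyd, ← hy1] at hd
  have hy' : y ≠ 0 := hyd ▸ hy
  have e3 : (T * (x * x1 + T * y * y1) + T ^ 2 * x1 ^ 2) * (x1 ^ 2 + T * y1 ^ 2) /
      (x ^ 2 * y ^ 2) = (T * x1 / x + T * x1 / x * (T * x1 / x)) * (x1 / y * (x1 / y)) +
        (T * x1 / x + T * x1 / x * (T * x1 / x)) * T * (y1 / y) ^ 2 +
        T * x1 / x * (T * x1 / x) * (y1 / y) +
        T ^ 3 / (x ^ 2 * m ^ 3) * ((y1 * m) ^ 3 / y) := by
    field_simp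
    ring
  have e4 : (d + m1 * y) ^ 3 / y = d ^ 3 / y + 3 * d ^ 2 * m1 + 3 * d * m1 ^ 2 * y +
      m1 ^ 3 * y ^ 2 := by
    field_simp
    ring
  rw [e3, hd, e4]
  obtain ⟨τ, hτ⟩ : ∃ τ, τ = T * x1 / x := ⟨_, rfl⟩
  obtain ⟨c, hc⟩ : ∃ c, c = T ^ 3 / (x ^ 2 * m ^ 3) := ⟨_, rfl⟩
  obtain ⟨l, hl⟩ : ∃ l, l = y1 / y := ⟨_, rfl⟩
  obtain ⟨l0, hl0⟩ : ∃ l0, l0 = y01 / y0 := ⟨_, rfl⟩
  obtain ⟨u, hu⟩ : ∃ u, u = x1 / y := ⟨_, rfl⟩
  obtain ⟨r, hr⟩ : ∃ r, r = d ^ 3 / y := ⟨_, rfl⟩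
  rw [← hτ, ← hc, ← hl, ← hl0, ← hu, ← hr, hyd]
  linear_combination ((τ + τ * τ) * T * (l * l0 - l0 ^ 2) +
    c * (d ^ 2 * m1 + d * m1 ^ 2 * (y0 + w) + m1 ^ 3 * y0 * w)) * h2

/-- the numerator after reduction -/
noncomputable def phase_G (ξ Y : K[X]) : K[X] :=
  (X * (ξ * derivative ξ + X * Y * derivative Y) + X ^ 2 * derivative ξ ^ 2) *
    (derivative ξ ^ 2 + X * derivative Y ^ 2)

theorem phase_Om {ξ Y s t : K[X]} (h : s * ξ ^ 2 + t * Y ^ 2 = 1) :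
    Y ^ 2 ∣ Om ξ Y (ξ * s) - phase_G ξ Y * s := by
  have h2 : (2 : K[X]) = 0 := two_eq_zero_poly
  obtain ⟨a, ha⟩ : ∃ a, a = derivative ξ := ⟨_, rfl⟩
  obtain ⟨b, hb⟩ : ∃ b, b = derivative Y := ⟨_, rfl⟩
  unfold Om phase_G
  rw [← ha, ← hb]
  have e : s * ξ ^ 2 = 1 - t * Y ^ 2 := by linear_combination h
  refine ⟨(a ^ 2 + X * b ^ 2) * (-(X * (ξ * a + X * Y * b) * s * t) +
    X ^ 2 * a ^ 2 * s * (-3 * t + 3 * t ^ 2 * Y ^ 2 - t ^ 3 * Y ^ 4) +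
    X ^ 4 * b ^ 2 * (ξ * s) ^ 4), ?_⟩
  have e1 : (ξ * s) ^ 2 = s * (1 - t * Y ^ 2) := by rw [← e]; ring
  have e2 : ξ ^ 2 * (ξ * s) ^ 4 = s * (1 - t * Y ^ 2) ^ 3 := by rw [← e]; ring
  linear_combination (a ^ 2 + X * b ^ 2) * (X * (ξ * a + X * Y * b)) * e1 +
    (a ^ 2 + X * b ^ 2) * X ^ 2 * a ^ 2 * e2 +
    (a ^ 2 + X * b ^ 2) * X ^ 3 * ξ * a * Y * b * (ξ * s) ^ 4 * h2

omit [Fintype K] in
theorem phase_split {ξ Y s t : K[X]} (hξ : ξ ≠ 0) (hY : Y ≠ 0) (h : s * ξ ^ 2 + t * Y ^ 2 = 1)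
    (G : K[X]) :
    rs (G * s) (Y ^ 2) = res (io G / (io ξ ^ 2 * io Y ^ 2)) + rs (G * t) (ξ ^ 2) := by
  unfold rs
  rw [← res_add]
  congr 1
  have hx := io_ne_zero hξ
  have hy := io_ne_zero hY
  have h' : io s * io ξ ^ 2 + io t * io Y ^ 2 = 1 := by
    have := congrArg io h
    simpa using this
  have h2 : (2 : K⸨X⸩) = 0 := two_eq_zero_laurent
  simp only [map_mul, map_pow]
  field_simp
  linear_combination io G * h' - io G * io t * io Y ^ 2 * h2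

omit [Fintype K] [CharP K 2] in
theorem phase_G_congr {ξ N Y Y₀ : K[X]} (h1 : N ∣ Y - Y₀)
    (h2 : N ∣ derivative Y - derivative Y₀) : N ∣ phase_G ξ Y - phase_G ξ Y₀ := by
  obtain ⟨u, hu⟩ := h1
  obtain ⟨u', hu'⟩ := h2
  have e1 : Y = Y₀ + N * u := by linear_combination hu
  have e2 : derivative Y = derivative Y₀ + N * u' := by linear_combination hu'
  unfold phase_G
  rw [e2]
  obtain ⟨a, ha⟩ : ∃ a, a = derivative ξ := ⟨_, rfl⟩
  obtain ⟨b, hb⟩ : ∃ b, b = derivative Y₀ := ⟨_, rfl⟩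
  rw [← ha, ← hb, e1]
  refine ⟨(X * (ξ * a + X * Y₀ * b) + X ^ 2 * a ^ 2) * (X * (2 * b * u' + N * u' ^ 2)) +
    X ^ 2 * (Y₀ * u' + u * b + N * u * u') * (a ^ 2 + X * (b + N * u') ^ 2), ?_⟩
  ring

theorem phase {ξ M₀ Y₀ : K[X]} (hξ : ξ ≠ 0) (hM₀ : M₀ ≠ 0) (hY₀ : Y₀.Monic)
    (hc : IsCoprime ξ Y₀) (hd : ξ.natDegree ≤ Y₀.natDegree) :
    ∃ (σ : ℝ) (χ : K[X] → ℝ), |σ| = 1 ∧ (∀ v w, χ (v + w) = χ v * χ w) ∧ (∀ v, |χ v| = 1) ∧
      ∀ v : K[X], (ξ ^ 2 * M₀ * v ^ 2).degree < Y₀.degree →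
        lam (ξ ^ 2 + X * (Y₀ + ξ ^ 2 * M₀ * v ^ 2) ^ 2) = σ * (χ v * psi (res
          (io (X ^ 3 * derivative (Y₀ * (ξ ^ 2 * M₀)) ^ 3) / io (ξ ^ 2 * (ξ ^ 2 * M₀) ^ 3 * Y₀) /
            (1 + io (ξ ^ 2 * M₀ * v ^ 2) / io Y₀)))) := by
  obtain ⟨ε, hε, hform⟩ := lam_formula (K := K)
  have h2 : (2 : K[X]) = 0 := two_eq_zero_poly
  have h2L : (2 : K⸨X⸩) = 0 := two_eq_zero_laurent
  obtain ⟨s₀, t₀, hst₀⟩ : IsCoprime (ξ ^ 2) (Y₀ ^ 2) := hc.pow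
  obtain ⟨M, hM⟩ : ∃ M, M = ξ ^ 2 * M₀ := ⟨_, rfl⟩
  have hM0 : M ≠ 0 := by rw [hM]; exact mul_ne_zero (pow_ne_zero _ hξ) hM₀
  obtain ⟨D, hD⟩ : ∃ D, D = derivative (Y₀ * M) := ⟨_, rfl⟩
  rw [← hM, ← hD]
  refine ⟨ε Y₀.natDegree * psi (res ((io X * io (derivative ξ) / io ξ +
      io X * io (derivative ξ) / io ξ * (io X * io (derivative ξ) / io ξ)) * io X *
        (io (derivative Y₀) / io Y₀) ^ 2 +
      io X * io (derivative ξ) / io ξ * (io X * io (derivative ξ) / io ξ) *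
        (io (derivative Y₀) / io Y₀) +
      io X ^ 3 / (io ξ ^ 2 * io M ^ 3) * (io D ^ 2 * io (derivative M) +
        io D * io (derivative M) ^ 2 * io Y₀ + io (derivative M) ^ 3 * io Y₀ ^ 2)) +
      rs (phase_G ξ Y₀ * t₀) (ξ ^ 2)),
    fun v => psi (res (io X ^ 3 / (io ξ ^ 2 * io M ^ 3) *
      (io D * io (derivative M) ^ 2 * io (M * v ^ 2) +
        io (derivative M) ^ 3 * io (M * v ^ 2) ^ 2))), ?_, ?_, ?_, ?_⟩
  · rw [abs_mul, hε, abs_psi, one_mul]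
  · intro v w
    beta_reduce
    rw [← psi_add, ← res_add]
    congr 2
    have e : M * (v + w) ^ 2 = M * v ^ 2 + M * w ^ 2 := by linear_combination M * v * w * h2
    rw [e, map_add]
    linear_combination io X ^ 3 / (io ξ ^ 2 * io M ^ 3) * io (derivative M) ^ 3 *
      io (M * v ^ 2) * io (M * w ^ 2) * h2L
  · intro v
    exact abs_psi _
  intro v hv
  obtain ⟨w, hw⟩ : ∃ w, w = M * v ^ 2 := ⟨_, rfl⟩
  simp only
  rw [← hw] at hv ⊢
  have hY : (Y₀ + w).Monic := hY₀.add_of_left hv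
  have hYd : (Y₀ + w).natDegree = Y₀.natDegree :=
    natDegree_eq_of_degree_eq (degree_add_eq_left_of_degree_lt hv)
  have hwξ : ξ ^ 2 ∣ w := ⟨M₀ * v ^ 2, by rw [hw, hM]; ring⟩
  have hw'ξ : ξ ^ 2 ∣ derivative w := by
    refine ⟨derivative M₀ * v ^ 2, ?_⟩
    rw [hw, hM]
    simp only [derivative_mul, derivative_pow_succ, pow_one, Nat.cast_one, map_add, map_one]
    linear_combination (ξ * derivative ξ * M₀ * v ^ 2 + ξ ^ 2 * M₀ * v * derivative v) * h2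
  have hcY : IsCoprime ξ (Y₀ + w) := by
    obtain ⟨u, hu⟩ := hwξ
    have : Y₀ + w = Y₀ + ξ * (ξ * u) := by rw [hu]; ring
    rw [this]
    exact hc.add_mul_left_right _
  obtain ⟨s, t, hst⟩ : IsCoprime (ξ ^ 2) ((Y₀ + w) ^ 2) := hcY.pow
  have hxb : (Y₀ + w) ^ 2 ∣ ξ * (ξ * s) - 1 := ⟨-t, by linear_combination hst⟩
  have htt : ξ ^ 2 ∣ t - t₀ := by
    obtain ⟨u, hu⟩ := hwξ
    refine ⟨t * s₀ - t₀ * s - t * t₀ * (2 * Y₀ * u + ξ ^ 2 * u ^ 2), ?_⟩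
    rw [hu] at hst
    linear_combination -t * hst₀ + t₀ * hst
  have hGt : rs (phase_G ξ (Y₀ + w) * t) (ξ ^ 2) = rs (phase_G ξ Y₀ * t₀) (ξ ^ 2) := by
    apply rs_congr
    have h3 : ξ ^ 2 ∣ phase_G ξ (Y₀ + w) - phase_G ξ Y₀ := by
      apply phase_G_congr
      · simpa using hwξ
      · simpa using hw'ξ
    have e : phase_G ξ (Y₀ + w) * t - phase_G ξ Y₀ * t₀ =
        (phase_G ξ (Y₀ + w) - phase_G ξ Y₀) * t + phase_G ξ Y₀ * (t - t₀) := by ring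
    rw [e]
    exact dvd_add (h3.mul_right _) (htt.mul_left _)
  rw [hform ξ (Y₀ + w) (ξ * s) hY (hYd ▸ hd) hxb, hYd, rs_congr (phase_Om hst),
    phase_split hξ hY.ne_zero hst, hGt, mul_assoc, ← psi_add, ← psi_add]
  congr 2
  have hDM : (derivative Y₀ + derivative w) * M = D + derivative M * (Y₀ + w) := by
    rw [hD, hw]
    simp only [derivative_mul, derivative_pow_succ, pow_one, Nat.cast_one, map_add, map_one]
    linear_combination (M ^ 2 * v * derivative v - derivative M * Y₀) * h2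
  have hDM' : (io (derivative Y₀) + io (derivative w)) * io M =
      io D + io (derivative M) * (io Y₀ + io w) := by
    have := congrArg io hDM
    simpa using this
  have hy0 : io Y₀ ≠ 0 := io_ne_zero hY₀.ne_zero
  have hy : io Y₀ + io w ≠ 0 := by
    rw [← map_add]; exact io_ne_zero hY.ne_zero
  have key := phase_alg h2L (io X) (io ξ) (io (derivative ξ)) (io Y₀) (io (derivative Y₀)) (io w)
    (io (derivative w)) (io M) (io (derivative M)) (io D) (io_ne_zero hξ) hy0 hy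
    (io_ne_zero hM0) hDM'
  have hG : io (phase_G ξ (Y₀ + w)) = (io X * (io ξ * io (derivative ξ) +
      io X * (io Y₀ + io w) * (io (derivative Y₀) + io (derivative w))) +
      io X ^ 2 * io (derivative ξ) ^ 2) *
      (io (derivative ξ) ^ 2 + io X * (io (derivative Y₀) + io (derivative w)) ^ 2) := by
    unfold phase_G
    simp only [map_mul, map_add, map_pow]
  have vT : val (io (X : K[X])) ≤ exp (1 : ℤ) := by
    have := val_io_le (g := (X : K[X])) (n := 1) natDegree_X_le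
    simpa using this
  have vx : val (io ξ) = exp (ξ.natDegree : ℤ) := val_io hξ
  have vx1 := phase_val_derivative vx.le
  have vy0 : val (io Y₀) = exp (Y₀.natDegree : ℤ) := val_io hY₀.ne_zero
  have vy01 := phase_val_derivative vy0.le
  have vy : val (io Y₀ + io w) = exp (Y₀.natDegree : ℤ) := by
    rw [← map_add, val_io hY.ne_zero, hYd]
  have vw : val (io w) ≤ exp ((Y₀.natDegree : ℤ) - 1) := by
    apply val_io_le_of_degree_lt
    rwa [degree_eq_natDegree hY₀.ne_zero] at hv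
  have vw1 := phase_val_derivative vw
  have vτ : val (io X * io (derivative ξ) / io ξ) ≤ exp (0 : ℤ) :=
    phase_val_mono (phase_val_div (phase_val_mul vT vx1) vx) (by omega)
  have vττ := phase_val_mono (phase_val_mul vτ vτ) (show (0 : ℤ) + 0 ≤ 0 by omega)
  have vρ := Valuation.map_add_le _ vτ vττ
  have vu : val (io (derivative ξ) / (io Y₀ + io w)) ≤ exp (-1 : ℤ) :=
    phase_val_mono (phase_val_div vx1 vy) (by omega)
  have vl : val (io (derivative w) / (io Y₀ + io w) -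
      io (derivative Y₀) / io Y₀ * (io w / (io Y₀ + io w))) ≤ exp (-2 : ℤ) :=
    Valuation.map_sub_le _ (phase_val_mono (phase_val_div vw1 vy) (by omega))
      (phase_val_mono (phase_val_mul (phase_val_div vy01 vy0) (phase_val_div vw vy)) (by omega))
  have vA := Valuation.map_add_le _ (Valuation.map_add_le _
    (phase_val_mono (phase_val_mul vρ (phase_val_mul vu vu)) (show _ ≤ (-2 : ℤ) by omega))
    (phase_val_mono (phase_val_mul (phase_val_mul vρ vT) (phase_val_mul vl vl))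
      (show _ ≤ (-2 : ℤ) by omega)))
    (phase_val_mono (phase_val_mul vττ vl) (show _ ≤ (-2 : ℤ) by omega))
  rw [hG, map_add io Y₀ w, key, res_add, res_add, res_add, res_eq_zero vA]
  simp only [map_mul, map_pow]
  ring

end Pool.Agent.P.MP_a1177c_nt.HL
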