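import Pool.Agent.P.MP_a1177c_nt.HL.GoodY

namespace Pool.Agent.P.MP_a1177c_nt.HL

open Polynomial Finset
open scoped Classical

variable {K : Type*} [Field K] [Fintype K] [CharP K 2]

omit [Fintype K] [CharP K 2] in
theorem ro_sq_mul_squarefree (n : ℕ) : ∀ y : K[X], y.Monic → y.natDegree = n →
    ∃ g y₀ : K[X], g.Monic ∧ y₀.Monic ∧ Squarefree y₀ ∧ y = g ^ 2 * y₀ := by
  induction n using Nat.strong_induction_on with
  | _ n ih =>
    intro y hy hn
    by_cases hs : Squarefree y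
    · exact ⟨1, y, monic_one, hy, hs, by ring⟩
    · rw [squarefree_iff_no_irreducibles hy.ne_zero] at hs
      push Not at hs
      obtain ⟨p, hp, hpp⟩ := hs
      have ha := normalize_associated p
      have hm : (normalize p).Monic := Polynomial.monic_normalize hp.ne_zero
      have hirr : Irreducible (normalize p) := ha.symm.irreducible hp
      obtain ⟨z, hz⟩ := (mul_dvd_mul ha.dvd ha.dvd).trans hpp
      have hzm : z.Monic := (hm.mul hm).of_mul_monic_left (hz ▸ hy)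
      have hdeg : y.natDegree = (normalize p).natDegree + (normalize p).natDegree + z.natDegree := by
        rw [hz, (hm.mul hm).natDegree_mul hzm, hm.natDegree_mul hm]
      have hpos := hirr.natDegree_pos
      obtain ⟨g, y₀, h1, h2, h3, h4⟩ := ih z.natDegree (by omega) z hzm rfl
      exact ⟨normalize p * g, y₀, hm.mul h1, h2, h3, by rw [hz, h4]; ring⟩

omit [Fintype K] [CharP K 2] in
theorem split_y {y E : K[X]} (hy : y.Monic) (hE : E.Monic) :
    ∃ g y₁ p : K[X], g.Monic ∧ y₁.Monic ∧ p.Monic ∧ g ^ 2 ∣ y ∧ y = y₁ * p ∧ Squarefree p ∧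
      IsCoprime (E * y₁) p ∧ y₁.natDegree ≤ 3 * g.natDegree + E.natDegree := by
  obtain ⟨g, y₀, hg, hy₀, hs, e⟩ := ro_sq_mul_squarefree _ y hy rfl
  have hr0 : gcd y₀ (g * E) ≠ 0 := fun h => hy₀.ne_zero ((gcd_eq_zero_iff _ _).1 h).1
  have hr : (gcd y₀ (g * E)).Monic := by
    rw [← _root_.normalize_gcd]; exact Polynomial.monic_normalize hr0
  obtain ⟨p, hp⟩ := gcd_dvd_left y₀ (g * E)
  have hd := gcd_dvd_right y₀ (g * E)
  have hun : ∀ z : K[X], z ∣ y₀ → z ∣ g * E → z ∣ gcd y₀ (g * E) := fun z => dvd_gcd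
  generalize gcd y₀ (g * E) = r at hr0 hr hp hd hun
  have hpm : p.Monic := hr.of_mul_monic_left (hp ▸ hy₀)
  have hrp : IsRelPrime r p := IsRelPrime.of_squarefree_mul (hp ▸ hs)
  have hc : IsCoprime (g * E) p := by
    refine IsRelPrime.isCoprime fun z h1 h2 => hrp (hun z ?_ h1) h2
    rw [hp]; exact h2.mul_left _
  refine ⟨g, g ^ 2 * r, p, hg, (hg.pow 2).mul hr, hpm, ⟨y₀, e⟩, by rw [e, hp]; ring,
    (hp ▸ hs : Squarefree (r * p)).of_mul_right, ?_, ?_⟩
  · exact hc.of_mul_left_right.mul_left (hc.of_mul_left_left.pow_left.mul_left hrp.isCoprime)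
  · have h1 := natDegree_le_of_dvd hd (hg.mul hE).ne_zero
    rw [hg.natDegree_mul hE] at h1
    rw [(hg.pow 2).natDegree_mul hr, hg.natDegree_pow]
    omega

omit [CharP K 2] in
theorem ro_two_le : (2 : ℝ) ≤ Fintype.card K := by
  exact_mod_cast (Fintype.one_lt_card : 1 < Fintype.card K)

omit [CharP K 2] in
theorem card_bad_y (k t : ℕ) :
    (((Mn K k).filter fun y => ∃ g : K[X], g.Monic ∧ t ≤ g.natDegree ∧ g ^ 2 ∣ y).card : ℝ) *
        (Fintype.card K : ℝ) ^ t ≤ 2 * (Fintype.card K : ℝ) ^ k := by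
  have hq := ro_two_le (K := K)
  have hsub : ((Mn K k).filter fun y => ∃ g : K[X], g.Monic ∧ t ≤ g.natDegree ∧ g ^ 2 ∣ y) ⊆
      (Ico t (k / 2 + 1)).biUnion fun i => (Mn K i).biUnion fun g =>
        (Mn K k).filter fun y => g ^ 2 ∣ y := by
    intro y hy
    obtain ⟨hy1, g, h1, h2, h3⟩ := mem_filter.1 hy
    have h4 := natDegree_le_of_dvd h3 (mem_Mn.1 hy1).1.ne_zero
    rw [h1.natDegree_pow, (mem_Mn.1 hy1).2] at h4
    exact mem_biUnion.2 ⟨g.natDegree, mem_Ico.2 ⟨h2, by omega⟩,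
      mem_biUnion.2 ⟨g, mem_Mn.2 ⟨h1, rfl⟩, mem_filter.2 ⟨hy1, h3⟩⟩⟩
  have h1 : ((Mn K k).filter fun y => ∃ g : K[X], g.Monic ∧ t ≤ g.natDegree ∧ g ^ 2 ∣ y).card ≤
      ∑ i ∈ Ico t (k / 2 + 1), Fintype.card K ^ (k - i) := by
    refine (card_le_card hsub).trans (card_biUnion_le.trans (sum_le_sum fun i hi => ?_))
    refine card_biUnion_le.trans ?_
    have hi' := (mem_Ico.1 hi).2
    have h2 : ∀ g ∈ Mn K i, ((Mn K k).filter fun y => g ^ 2 ∣ y).card ≤
        Fintype.card K ^ (k - 2 * i) := by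
      intro g hg
      obtain ⟨hg1, hg2⟩ := mem_Mn.1 hg
      have := card_le_of_Mn (G := g ^ 2) (hg1.pow 2).ne_zero (n := k)
        (S := (Mn K k).filter fun y => g ^ 2 ∣ y) (filter_subset _ _)
        (fun a ha b hb => dvd_sub (mem_filter.1 ha).2 (mem_filter.1 hb).2)
      rwa [hg1.natDegree_pow, hg2] at this
    refine (sum_le_sum h2).trans ?_
    rw [sum_const, card_Mn, smul_eq_mul, ← pow_add]
    exact le_of_eq (congrArg _ (by omega))
  have h2 : (((Mn K k).filter fun y =>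
      ∃ g : K[X], g.Monic ∧ t ≤ g.natDegree ∧ g ^ 2 ∣ y).card : ℝ) ≤
      ∑ i ∈ Ico t (k / 2 + 1), (Fintype.card K : ℝ) ^ (k - i) := by exact_mod_cast h1
  refine (mul_le_mul_of_nonneg_right h2 (by positivity)).trans ?_
  rw [sum_mul, sum_Ico_eq_sum_range]
  have h3 : ∀ j ∈ range (k / 2 + 1 - t), (Fintype.card K : ℝ) ^ (k - (t + j)) *
      (Fintype.card K : ℝ) ^ t ≤ (1 / 2 : ℝ) ^ j * (Fintype.card K : ℝ) ^ k := by
    intro j hj
    have hj' := mem_range.1 hj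
    have e : (Fintype.card K : ℝ) ^ k =
        (Fintype.card K : ℝ) ^ j * ((Fintype.card K : ℝ) ^ (k - (t + j)) *
          (Fintype.card K : ℝ) ^ t) := by
      rw [← pow_add, ← pow_add]; congr 1; omega
    rw [e, ← mul_assoc, ← mul_pow]
    refine le_mul_of_one_le_left (by positivity) (one_le_pow₀ (by linarith))
  refine (sum_le_sum h3).trans ?_
  rw [← sum_mul]
  exact mul_le_mul_of_nonneg_right (sum_geometric_two_le _) (by positivity)

theorem ro_trivial {a Δ D x y : K[X]} {k k'' B₀ : ℕ} (hy : y ∈ Mn K k) (hk : k'' ≤ k + B₀)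
    {c : ℝ} (hc : |c| ≤ 1) :
    |c * mu (x ^ 2 + X * y ^ 2) * (((Mn K k'').filter fun u =>
      a * y ∣ (x ^ 2 + X * y ^ 2) * u + Δ * x + D * y).card : ℝ)| ≤
      (Fintype.card K : ℝ) ^ B₀ := by
  by_cases hs : Squarefree (x ^ 2 + X * y ^ 2)
  · have hxy := (squarefree_sq_add_iff x y).1 hs
    obtain ⟨hy1, hy2⟩ := mem_Mn.1 hy
    have h1 := card_le_of_Mn (G := y) hy1.ne_zero (n := k'')
      (S := (Mn K k'').filter fun u => a * y ∣ (x ^ 2 + X * y ^ 2) * u + Δ * x + D * y)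
      (filter_subset _ _) (fun u hu u' hu' => by
        have h2 := (Dvd.intro_left a rfl).trans
          (dvd_sub (mem_filter.1 hu).2 (mem_filter.1 hu').2)
        have e : (x ^ 2 + X * y ^ 2) * u + Δ * x + D * y -
            ((x ^ 2 + X * y ^ 2) * u' + Δ * x + D * y) =
            x ^ 2 * (u - u') + y * (X * y * (u - u')) := by ring
        rw [e] at h2
        exact (hxy.symm.pow_right (n := 2)).dvd_of_dvd_mul_left
          ((dvd_add_left (Dvd.intro _ rfl)).1 h2))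
    have h2 : Fintype.card K ^ (k'' - y.natDegree) ≤ Fintype.card K ^ B₀ :=
      Nat.pow_le_pow_right Fintype.card_pos (by omega)
    have h3 : (((Mn K k'').filter fun u =>
        a * y ∣ (x ^ 2 + X * y ^ 2) * u + Δ * x + D * y).card : ℝ) ≤
        (Fintype.card K : ℝ) ^ B₀ := by exact_mod_cast h1.trans h2
    rw [abs_mul, abs_mul, Nat.abs_cast]
    have h4 := abs_mu_le (x ^ 2 + X * y ^ 2)
    calc _ ≤ 1 * 1 * (Fintype.card K : ℝ) ^ B₀ := by gcongr
      _ = _ := by ring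
  · have : mu (x ^ 2 + X * y ^ 2) = 0 := by unfold mu; rw [if_neg hs]
    rw [this, mul_zero, zero_mul, abs_zero]
    positivity

theorem ro_half {Q : ℝ} (hQ : 2 ≤ Q) (n : ℕ) {s s' : ℝ} (h : s + n ≤ s') :
    2 ^ n * Q ^ s ≤ Q ^ s' := by
  have h0 : 0 < Q := by linarith
  calc 2 ^ n * Q ^ s ≤ Q ^ n * Q ^ s := by gcongr
    _ = Q ^ (s + n) := by rw [Real.rpow_add h0, Real.rpow_natCast, mul_comm]
    _ ≤ _ := Real.rpow_le_rpow_of_exponent_le (by linarith) h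

theorem range_one {a E : K[X]} (ha : a.Monic) (hE : E.Monic) (Δ D : K[X]) (B₀ : ℕ) :
    ∃ k₀ : ℕ, ∀ k ≥ k₀, ∀ (k'' : ℕ) (κ : K[X] → K[X] → ℝ), k ≤ 2 * k'' → k'' ≤ k + B₀ →
      (∀ x y, |κ x y| ≤ 1) → (∀ x y v, κ (x + E * v) y = κ x y) →
      |∑ y ∈ Mn K k, ∑ x ∈ Pl K (k + 1), κ x y * mu (x ^ 2 + X * y ^ 2) *
          (((Mn K k'').filter fun u =>
            a * y ∣ (x ^ 2 + X * y ^ 2) * u + Δ * x + D * y).card : ℝ)| ≤
        (Fintype.card K : ℝ) ^ (2 * k) * (Fintype.card K : ℝ) ^ (-(k : ℝ) / 400) := by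
  obtain ⟨k₁, hk₁⟩ := good_y (K := K)
  have hE' : (a * E * X ^ B₀).Monic := (ha.mul hE).mul (monic_X_pow _)
  have hB : B₀ ≤ (a * E * X ^ B₀).natDegree := by
    rw [(ha.mul hE).natDegree_mul (monic_X_pow _), natDegree_X_pow]; omega
  have hd1 : a ∣ a * E * X ^ B₀ := ⟨E * X ^ B₀, by ring⟩
  have hd2 : E ∣ a * E * X ^ B₀ := ⟨a * X ^ B₀, by ring⟩
  generalize a * E * X ^ B₀ = E' at hE' hB hd1 hd2
  refine ⟨k₁ + 1200 * (E'.natDegree + 4), fun k hk k'' κ h1 h2 hκ1 hκ2 => ?_⟩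
  have hq := ro_two_le (K := K)
  set Q : ℝ := (Fintype.card K : ℝ) with hQ
  have hQ0 : 0 < Q := by linarith
  set e := E'.natDegree with he
  set t := k / 300 with ht
  let bad : K[X] → Prop := fun y => ∃ g : K[X], g.Monic ∧ t ≤ g.natDegree ∧ g ^ 2 ∣ y
  let F : K[X] → ℝ := fun y => ∑ x ∈ Pl K (k + 1), κ x y * mu (x ^ 2 + X * y ^ 2) *
    (((Mn K k'').filter fun u => a * y ∣ (x ^ 2 + X * y ^ 2) * u + Δ * x + D * y).card : ℝ)
  have hbad : ∀ y ∈ (Mn K k).filter bad, |F y| ≤ Q ^ (k + 1) * Q ^ B₀ := by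
    intro y hy
    refine (abs_sum_le_sum_abs _ _).trans ((sum_le_sum fun x _ =>
      ro_trivial (mem_filter.1 hy).1 h2 (hκ1 x y)).trans ?_)
    rw [sum_const, card_Pl, nsmul_eq_mul]
    push_cast
    exact le_rfl
  have hgood : ∀ y ∈ (Mn K k).filter (fun y => ¬ bad y),
      |F y| ≤ Q ^ (3 * t + 2 * e + k + 1) * Q ^ (-(k : ℝ) / 60) := by
    intro y hy
    obtain ⟨hy1, hy2⟩ := mem_filter.1 hy
    obtain ⟨hy3, hy4⟩ := mem_Mn.1 hy1
    obtain ⟨g, y₁, p, g1, g2, g3, g4, rfl, g5, g6, g7⟩ := split_y hy3 hE'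
    have g8 : g.natDegree < t := by
      by_contra h
      exact hy2 ⟨g, g1, by omega, g4⟩
    have g9 : (E' * y₁).natDegree = e + y₁.natDegree := hE'.natDegree_mul g2
    have g10 : y₁.natDegree + p.natDegree = k := by rw [← g2.natDegree_mul g3, hy4]
    have g11 := hk₁ k (by omega) a Δ D y₁ p (E' * y₁) k'' (fun x => κ x (y₁ * p)) g2 g3
      (hE'.mul g2) g5 hy4 (mul_dvd_mul_right hd1 _) g6 (by omega) (by omega) (by omega)
      (fun x => hκ1 x _) (fun x v => by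
        obtain ⟨w, hw⟩ := hd2
        have e : x + E' * y₁ * v = x + E * (w * y₁ * v) := by rw [hw]; ring
        simp only [e, hκ2])
    refine g11.trans (mul_le_mul_of_nonneg_right
      (pow_le_pow_right₀ (by linarith) (by omega)) (by positivity))
  have hsplit : ∑ y ∈ Mn K k, F y = ∑ y ∈ (Mn K k).filter bad, F y +
      ∑ y ∈ (Mn K k).filter (fun y => ¬ bad y), F y := (sum_filter_add_sum_filter_not _ _ _).symm
  have hk0 : 1200 * (e + 4) ≤ k := le_trans (Nat.le_add_left _ _) hk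
  have hk' : (1200 : ℝ) * (e + 4) ≤ k := by exact_mod_cast hk0
  have ht1 : (300 : ℝ) * t ≤ k := by exact_mod_cast (show 300 * t ≤ k by omega)
  have ht2 : (k : ℝ) ≤ 300 * (t + 1) := by exact_mod_cast (show k ≤ 300 * (t + 1) by omega)
  have hB' : (B₀ : ℝ) ≤ e := by exact_mod_cast hB
  have he0 : (0 : ℝ) ≤ e := Nat.cast_nonneg _
  have eR : Q ^ (2 * k) * Q ^ (-(k : ℝ) / 400) = Q ^ (2 * (k : ℝ) + -(k : ℝ) / 400) := by
    rw [Real.rpow_add hQ0, ← Real.rpow_natCast]; push_cast; rfl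
  have b1 : 2 * |∑ y ∈ (Mn K k).filter bad, F y| ≤ Q ^ (2 * (k : ℝ) + -(k : ℝ) / 400) := by
    have c1 := (abs_sum_le_sum_abs _ _).trans (sum_le_sum hbad)
    rw [sum_const, nsmul_eq_mul] at c1
    have c2 : (((Mn K k).filter bad).card : ℝ) * Q ^ t ≤ 2 * Q ^ k := card_bad_y k t
    have c3 : (((Mn K k).filter bad).card : ℝ) ≤ 2 * Q ^ k / Q ^ t := by
      rw [le_div_iff₀ (by positivity)]; exact c2
    have c4 : 2 * (2 * Q ^ k / Q ^ t * (Q ^ (k + 1) * Q ^ B₀)) =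
        2 ^ 2 * Q ^ ((k : ℝ) - t + ((k + 1 : ℕ) + B₀ : ℝ)) := by
      rw [Real.rpow_add hQ0, Real.rpow_add hQ0, Real.rpow_sub hQ0, Real.rpow_natCast,
        Real.rpow_natCast, Real.rpow_natCast, Real.rpow_natCast]
      ring
    have c5 := ro_half hq 2 (s := (k : ℝ) - t + ((k + 1 : ℕ) + B₀ : ℝ))
      (s' := 2 * (k : ℝ) + -(k : ℝ) / 400) (by push_cast; linarith)
    have c6 := mul_le_mul_of_nonneg_right c3 (show 0 ≤ Q ^ (k + 1) * Q ^ B₀ by positivity)
    linarith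
  have b2 : 2 * |∑ y ∈ (Mn K k).filter (fun y => ¬ bad y), F y| ≤
      Q ^ (2 * (k : ℝ) + -(k : ℝ) / 400) := by
    have c1 := (abs_sum_le_sum_abs _ _).trans (sum_le_sum hgood)
    rw [sum_const, nsmul_eq_mul] at c1
    have c3 : (((Mn K k).filter fun y => ¬ bad y).card : ℝ) ≤ Q ^ k := by
      have := card_filter_le (Mn K k) fun y => ¬ bad y
      rw [card_Mn] at this
      rw [hQ]; exact_mod_cast this
    have c4 : 2 * (Q ^ k * (Q ^ (3 * t + 2 * e + k + 1) * Q ^ (-(k : ℝ) / 60))) =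
        2 ^ 1 * Q ^ ((k : ℝ) + ((3 * t + 2 * e + k + 1 : ℕ) + -(k : ℝ) / 60)) := by
      rw [Real.rpow_add hQ0, Real.rpow_add hQ0, Real.rpow_natCast, Real.rpow_natCast]
      ring
    have c5 := ro_half hq 1 (s := (k : ℝ) + ((3 * t + 2 * e + k + 1 : ℕ) + -(k : ℝ) / 60))
      (s' := 2 * (k : ℝ) + -(k : ℝ) / 400) (by push_cast; linarith)
    have c6 := mul_le_mul_of_nonneg_right c3
      (show 0 ≤ Q ^ (3 * t + 2 * e + k + 1) * Q ^ (-(k : ℝ) / 60) by positivity)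
    linarith
  change |∑ y ∈ Mn K k, F y| ≤ _
  rw [hsplit, eR]
  have := abs_add_le (∑ y ∈ (Mn K k).filter bad, F y)
    (∑ y ∈ (Mn K k).filter (fun y => ¬ bad y), F y)
  linarith

end Pool.Agent.P.MP_a1177c_nt.HL
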