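import Pool.Agent.P.MP_a1177c_nt.HL.Basic

namespace Pool.Agent.P.MP_a1177c_nt.HL

open Polynomial Finset
open scoped Classical

variable {K : Type*} [Field K] [Fintype K] [CharP K 2]

theorem two_eq_zero_poly : (2 : K[X]) = 0 := by
  have h : ((2 : ℕ) : K[X]) = 0 := CharP.cast_eq_zero K[X] 2
  simpa using h

theorem exists_sq_add (g : K[X]) : ∃ B C : K[X], g = B ^ 2 + X * C ^ 2 := by
  induction g using Polynomial.induction_on' with
  | add p q hp hq =>
    obtain ⟨B, C, rfl⟩ := hp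
    obtain ⟨B', C', rfl⟩ := hq
    refine ⟨B + B', C + C', ?_⟩
    linear_combination (-(B * B') - X * (C * C')) * (two_eq_zero_poly (K := K))
  | monomial n a =>
    obtain ⟨b, hb⟩ : ∃ b : K, b ^ 2 = a := by
      have : Fact (Nat.Prime 2) := ⟨Nat.prime_two⟩
      obtain ⟨b, hb⟩ := (frobeniusEquiv K 2).surjective a
      exact ⟨b, by simpa [frobenius_def] using hb⟩
    rcases Nat.even_or_odd' n with ⟨m, rfl | rfl⟩
    · refine ⟨monomial m b, 0, ?_⟩
      rw [monomial_pow, hb]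
      simp [mul_comm]
    · refine ⟨0, monomial m b, ?_⟩
      rw [monomial_pow, hb, X_mul_monomial]
      simp [mul_comm]

theorem derivative_sq_add (B C : K[X]) : derivative (B ^ 2 + X * C ^ 2) = C ^ 2 := by
  rw [sq, sq]
  simp only [derivative_add, derivative_mul, derivative_X]
  linear_combination (derivative B * B + X * (derivative C * C)) * (two_eq_zero_poly (K := K))

theorem derivative_derivative_eq_zero (g : K[X]) : derivative (derivative g) = 0 := by
  obtain ⟨B, C, rfl⟩ := exists_sq_add g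
  rw [derivative_sq_add, sq, derivative_mul]
  linear_combination (derivative C * C) * (two_eq_zero_poly (K := K))

private theorem sq_inj {B B' : K[X]} (h : B ^ 2 = B' ^ 2) : B = B' := by
  have h2 : (B - B') ^ 2 = 0 := by
    linear_combination h + (B' ^ 2 - B * B') * (two_eq_zero_poly (K := K))
  exact sub_eq_zero.mp (pow_eq_zero_iff (two_ne_zero) |>.mp h2)

theorem sq_add_inj {B C B' C' : K[X]} (h : B ^ 2 + X * C ^ 2 = B' ^ 2 + X * C' ^ 2) :
    B = B' ∧ C = C' := by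
  have h1 : C ^ 2 = C' ^ 2 := by
    rw [← derivative_sq_add B C, h, derivative_sq_add]
  have hC : C = C' := sq_inj h1
  subst hC
  exact ⟨sq_inj (add_right_cancel h), rfl⟩

omit [Fintype K] [CharP K 2] in
private theorem degree_lt_iff' {g : K[X]} {n : ℕ} :
    g.degree < n ↔ g = 0 ∨ g.natDegree < n := by
  by_cases hg : g = 0
  · subst hg
    simp
  · rw [← natDegree_lt_iff_degree_lt hg]
    simp [hg]

omit [Fintype K] [CharP K 2] in
private theorem natDegree_X_mul_sq {C : K[X]} (hC : C ≠ 0) :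
    (X * C ^ 2).natDegree = 2 * C.natDegree + 1 := by
  rw [natDegree_X_mul (pow_ne_zero 2 hC), natDegree_pow]

omit [Fintype K] [CharP K 2] in
/-- the degree of `B ^ 2 + X * C ^ 2` is the larger of the two degrees -/
private theorem degree_sq_add_lt_iff (B C : K[X]) (n : ℕ) :
    (B ^ 2 + X * C ^ 2).degree < (n : WithBot ℕ) ↔
      (B = 0 ∨ 2 * B.natDegree < n) ∧ (C = 0 ∨ 2 * C.natDegree + 1 < n) := by
  by_cases hB : B = 0
  · subst hB
    by_cases hC : C = 0
    · subst hC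
      simp
    · have h0 : X * C ^ 2 ≠ 0 := mul_ne_zero X_ne_zero (pow_ne_zero 2 hC)
      rw [zero_pow two_ne_zero, zero_add, degree_lt_iff', natDegree_X_mul_sq hC]
      simp [hC]
  · have hB2 : B ^ 2 ≠ 0 := pow_ne_zero 2 hB
    by_cases hC : C = 0
    · subst hC
      rw [zero_pow two_ne_zero, mul_zero, add_zero, degree_lt_iff', natDegree_pow]
      simp [hB]
    · have h0 : X * C ^ 2 ≠ 0 := mul_ne_zero X_ne_zero (pow_ne_zero 2 hC)
      have e1 : (B ^ 2).natDegree = 2 * B.natDegree := natDegree_pow B 2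
      have e2 := natDegree_X_mul_sq hC
      rcases lt_or_gt_of_ne (show (B ^ 2).natDegree ≠ (X * C ^ 2).natDegree by omega) with h | h
      · have hd : (B ^ 2).degree < (X * C ^ 2).degree := degree_lt_degree h
        rw [degree_add_eq_right_of_degree_lt hd, ← natDegree_lt_iff_degree_lt h0]
        simp only [hB, hC, false_or]
        omega
      · have hd : (X * C ^ 2).degree < (B ^ 2).degree := degree_lt_degree h
        rw [degree_add_eq_left_of_degree_lt hd, ← natDegree_lt_iff_degree_lt hB2]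
        simp only [hB, hC, false_or]
        omega

private theorem sq_add_mem_Pl_iff (k : ℕ) (B C : K[X]) :
    B ^ 2 + X * C ^ 2 ∈ Pl K (k + 1) ↔ B ∈ Pl K (k / 2 + 1) ∧ C ∈ Pl K ((k + 1) / 2) := by
  rw [mem_Pl, mem_Pl, mem_Pl, degree_sq_add_lt_iff, degree_lt_iff', degree_lt_iff']
  constructor
  · rintro ⟨h1, h2⟩
    exact ⟨h1.imp id (by omega), h2.imp id (by omega)⟩
  · rintro ⟨h1, h2⟩
    exact ⟨h1.imp id (by omega), h2.imp id (by omega)⟩

theorem sum_Pl_sq (k : ℕ) (F : K[X] → ℝ) :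
    ∑ x ∈ Pl K (k + 1), F x =
      ∑ B ∈ Pl K (k / 2 + 1), ∑ C ∈ Pl K ((k + 1) / 2), F (B ^ 2 + X * C ^ 2) := by
  rw [← sum_product']
  symm
  refine sum_bij (fun p _ => p.1 ^ 2 + X * p.2 ^ 2) ?_ ?_ ?_ ?_
  · intro p hp
    rw [mem_product] at hp
    exact (sq_add_mem_Pl_iff k p.1 p.2).mpr hp
  · intro p _ p' _ h
    exact Prod.ext (sq_add_inj h).1 (sq_add_inj h).2
  · intro x hx
    obtain ⟨B, C, rfl⟩ := exists_sq_add x
    exact ⟨(B, C), mem_product.mpr ((sq_add_mem_Pl_iff k B C).mp hx), rfl⟩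
  · intro p _
    rfl

theorem sq_add_mem_Mn {k : ℕ} {x y : K[X]} (hx : x ∈ Pl K (k + 1)) (hy : y ∈ Mn K k) :
    x ^ 2 + X * y ^ 2 ∈ Mn K (2 * k + 1) := by
  rw [mem_Mn] at hy ⊢
  rw [mem_Pl, degree_lt_iff'] at hx
  obtain ⟨hm, hk⟩ := hy
  have hm2 : (X * y ^ 2).Monic := monic_X.mul (hm.pow 2)
  have e2 := natDegree_X_mul_sq hm.ne_zero
  have hd : (x ^ 2).degree < (X * y ^ 2).degree := by
    rw [degree_eq_natDegree hm2.ne_zero, degree_lt_iff']
    rcases hx with hx | hx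
    · left
      rw [hx, zero_pow two_ne_zero]
    · right
      rw [natDegree_pow]
      omega
  refine ⟨hm2.add_of_right hd, ?_⟩
  rw [natDegree_add_eq_right_of_degree_lt hd, e2, hk]

private theorem of_sq_add_mem_Mn {k : ℕ} {x y : K[X]}
    (h : x ^ 2 + X * y ^ 2 ∈ Mn K (2 * k + 1)) : x ∈ Pl K (k + 1) ∧ y ∈ Mn K k := by
  rw [mem_Mn] at h
  obtain ⟨hm, hk⟩ := h
  have h1 : (x ^ 2 + X * y ^ 2).degree < ((2 * k + 2 : ℕ) : WithBot ℕ) := by
    rw [degree_lt_iff']
    right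
    omega
  have h2 : ¬ (x ^ 2 + X * y ^ 2).degree < ((2 * k + 1 : ℕ) : WithBot ℕ) := by
    rw [degree_lt_iff']
    rintro (h | h)
    · exact hm.ne_zero h
    · omega
  rw [degree_sq_add_lt_iff] at h1 h2
  have hx : x = 0 ∨ 2 * x.natDegree < 2 * k + 1 := h1.1.imp id (by omega)
  have hy0 : y ≠ 0 := fun hy => h2 ⟨hx, Or.inl hy⟩
  have hy1 : ¬ 2 * y.natDegree + 1 < 2 * k + 1 := fun hy => h2 ⟨hx, Or.inr hy⟩
  have hy2 : 2 * y.natDegree + 1 < 2 * k + 2 := h1.2.resolve_left hy0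
  have hyk : y.natDegree = k := by omega
  have e2 := natDegree_X_mul_sq hy0
  have h0 : X * y ^ 2 ≠ 0 := mul_ne_zero X_ne_zero (pow_ne_zero 2 hy0)
  have hd : (x ^ 2).degree < (X * y ^ 2).degree := by
    rw [degree_eq_natDegree h0, degree_lt_iff']
    rcases hx with hx | hx
    · left
      rw [hx, zero_pow two_ne_zero]
    · right
      rw [natDegree_pow]
      omega
  refine ⟨?_, ?_⟩
  · rw [mem_Pl, degree_lt_iff']
    exact hx.imp id (by omega)
  · rw [mem_Mn]
    refine ⟨?_, hyk⟩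
    have hl : (x ^ 2 + X * y ^ 2).leadingCoeff = y.leadingCoeff ^ 2 := by
      rw [leadingCoeff_add_of_degree_lt hd, leadingCoeff_mul, leadingCoeff_X, leadingCoeff_pow,
        one_mul]
    have h1 : y.leadingCoeff ^ 2 = 1 := by rw [← hl]; exact hm
    have h2K : (2 : K) = 0 := by
      have h : ((2 : ℕ) : K) = 0 := CharP.cast_eq_zero K 2
      simpa using h
    have h3 : (y.leadingCoeff - 1) ^ 2 = 0 := by
      linear_combination h1 + (1 - y.leadingCoeff) * h2K
    exact sub_eq_zero.mp (pow_eq_zero_iff (two_ne_zero) |>.mp h3)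

theorem sum_Mn_odd (k : ℕ) (F : K[X] → ℝ) :
    ∑ g ∈ Mn K (2 * k + 1), F g =
      ∑ y ∈ Mn K k, ∑ x ∈ Pl K (k + 1), F (x ^ 2 + X * y ^ 2) := by
  rw [← sum_product']
  symm
  refine sum_bij (fun p _ => p.2 ^ 2 + X * p.1 ^ 2) ?_ ?_ ?_ ?_
  · intro p hp
    rw [mem_product] at hp
    exact sq_add_mem_Mn hp.2 hp.1
  · intro p _ p' _ h
    exact Prod.ext (sq_add_inj h).2 (sq_add_inj h).1
  · intro g hg
    obtain ⟨B, C, rfl⟩ := exists_sq_add g
    exact ⟨(C, B), mem_product.mpr (of_sq_add_mem_Mn hg).symm, rfl⟩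
  · intro p _
    rfl

private theorem dvd_of_sq_dvd_sq' {δ Q : K[X]} (h : δ ^ 2 ∣ Q ^ 2) : δ ∣ Q :=
  (UniqueFactorizationMonoid.pow_dvd_pow_iff_dvd two_ne_zero).mp h

private theorem dvd_of_sq_dvd_sq_add' {δ P Q : K[X]} (h : δ ^ 2 ∣ P ^ 2 + X * Q ^ 2) :
    δ ∣ Q := by
  obtain ⟨w, hw⟩ := h
  have h1 := congrArg derivative hw
  rw [derivative_sq_add, sq δ, derivative_mul, derivative_mul] at h1
  refine dvd_of_sq_dvd_sq' ⟨derivative w, ?_⟩
  linear_combination h1 + (derivative δ * δ * w) * (two_eq_zero_poly (K := K))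

theorem squarefree_sq_add_iff (x y : K[X]) :
    Squarefree (x ^ 2 + X * y ^ 2) ↔ IsCoprime x y := by
  rw [← isRelPrime_iff_isCoprime]
  constructor
  · intro h d hx hy
    refine h d ?_
    rw [← sq]
    exact dvd_add (pow_dvd_pow_of_dvd hx 2) (Dvd.dvd.mul_left (pow_dvd_pow_of_dvd hy 2) X)
  · intro h d hd
    rw [← sq] at hd
    have hy : d ∣ y := dvd_of_sq_dvd_sq_add' hd
    have hx : d ^ 2 ∣ x ^ 2 :=
      (dvd_add_left (Dvd.dvd.mul_left (pow_dvd_pow_of_dvd hy 2) X)).mp hd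
    exact h (dvd_of_sq_dvd_sq' hx) hy

theorem dvd_of_sq_dvd_sq_add {δ P Q : K[X]} (h : δ ^ 2 ∣ P ^ 2 + X * Q ^ 2) : δ ∣ Q :=
  dvd_of_sq_dvd_sq_add' h

/-- few monic polynomials have a derivative of small degree -/
theorem card_small_derivative (j t : ℕ) :
    ((Mn K j).filter fun k => (derivative k).degree < (2 * t : ℕ)).card ≤
      Fintype.card K ^ (j / 2 + 1 + t) := by
  have hsub : ((Mn K j).filter fun k => (derivative k).degree < (2 * t : ℕ)) ⊆
      ((Pl K (j / 2 + 1)) ×ˢ (Pl K t)).image fun p : K[X] × K[X] => p.1 ^ 2 + X * p.2 ^ 2 := by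
    intro k hk
    rw [mem_filter] at hk
    obtain ⟨hk, hd⟩ := hk
    obtain ⟨B, C, rfl⟩ := exists_sq_add k
    rw [derivative_sq_add, degree_lt_iff', natDegree_pow] at hd
    have hP : B ^ 2 + X * C ^ 2 ∈ Pl K (j + 1) := by
      rw [mem_Pl, degree_lt_iff']
      right
      have := (mem_Mn.mp hk).2
      omega
    refine mem_image.mpr ⟨(B, C), mem_product.mpr ⟨((sq_add_mem_Pl_iff j B C).mp hP).1, ?_⟩, rfl⟩
    rw [mem_Pl, degree_lt_iff']
    rcases hd with hd | hd
    · exact Or.inl (pow_eq_zero_iff two_ne_zero |>.mp hd)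
    · right
      show C.natDegree < t
      omega
  calc _ ≤ _ := card_le_card hsub
    _ ≤ ((Pl K (j / 2 + 1)) ×ˢ (Pl K t)).card := card_image_le
    _ = _ := by rw [card_product, card_Pl, card_Pl, ← pow_add]

end Pool.Agent.P.MP_a1177c_nt.HL
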