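import Pool.Agent.P.MP_a1177c_nt.HL.Weyl

namespace Pool.Agent.P.MP_a1177c_nt.HL

open Polynomial Finset
open scoped Classical LaurentSeries

variable {K : Type*} [Field K] [Fintype K] [CharP K 2]

open WithZero

theorem weylpack_arith (P i N₀ Γ : ℕ) (E : ℤ) (hP : 2 * (N₀ + 1) ≤ P) (hi : 1 ≤ i)
    (hΓ : 64 * P * i ≤ Γ) (h3 : 3 * (Γ : ℤ) < E) (hE : E ≤ N₀ * (Γ : ℤ)) :
    ∃ J L : ℕ, 1 ≤ J ∧ Γ ≤ 64 * P * i * L ∧ 2 * (J + i * L) ≤ Γ ∧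
      E + Γ ≤ 2 * (((P : ℤ) + 1) * Γ - 2 * P * ((J + i * L : ℕ) : ℤ)) ∧
      2 * (((P : ℤ) + 1) * Γ - 2 * P * (J : ℤ)) - 2 * ((J : ℤ) - 1) ≤ E + Γ ∧
      E + Γ + 4 * ((J : ℤ) - 1) < 3 * (((P : ℤ) + 1) * Γ - 2 * P * ((J + i * L : ℕ) : ℤ)) := by
  have hP0 : 0 < P := by omega
  have hD : 0 < 32 * P * i := by positivity
  obtain ⟨L, hL1, hL2⟩ : ∃ L : ℕ, 32 * P * i * L ≤ Γ ∧ Γ < 32 * P * i * L + 32 * P * i :=
    ⟨Γ / (32 * P * i), Nat.mul_div_le _ _, by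
      have := Nat.lt_mul_div_succ Γ hD
      linarith [this, mul_add (32 * P * i) (Γ / (32 * P * i)) 1]⟩
  have hPz : (2 : ℤ) * (N₀ + 1) ≤ P := by exact_mod_cast hP
  have hP0z : (0 : ℤ) < P := by exact_mod_cast hP0
  have hΓz : (64 : ℤ) * P * i ≤ Γ := by exact_mod_cast hΓ
  have hiz : (1 : ℤ) ≤ i := by exact_mod_cast hi
  have hL1z : (32 : ℤ) * P * i * L ≤ Γ := by exact_mod_cast hL1
  have hΓ0 : (0 : ℤ) ≤ Γ := Int.natCast_nonneg _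
  have hN0 : (0 : ℤ) ≤ N₀ := Int.natCast_nonneg _
  have hPΓ : 2 * ((N₀ : ℤ) + 1) * Γ ≤ P * Γ := mul_le_mul_of_nonneg_right hPz hΓ0
  have hPΓ2 : 2 * (Γ : ℤ) ≤ P * Γ := mul_le_mul_of_nonneg_right (by linarith) hΓ0
  have hPi : (P : ℤ) ≤ P * i := le_mul_of_one_le_right hP0z.le hiz
  have hW : 0 ≤ 2 * ((P : ℤ) + 1) * Γ - (E + Γ) - 4 * P * i * L := by linarith
  obtain ⟨J, hJ1, hJ2⟩ : ∃ J : ℕ,
      4 * (P : ℤ) * J ≤ 2 * ((P : ℤ) + 1) * Γ - (E + Γ) - 4 * P * i * L ∧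
      2 * ((P : ℤ) + 1) * Γ - (E + Γ) - 4 * P * i * L < 4 * P * J + 4 * P := by
    obtain ⟨W, hWe⟩ := Int.eq_ofNat_of_zero_le hW
    rw [hWe]
    refine ⟨W / (4 * P), ?_, ?_⟩
    · exact_mod_cast Nat.mul_div_le W (4 * P)
    · have := Nat.lt_mul_div_succ W (show 0 < 4 * P by omega)
      rw [mul_add, mul_one] at this
      exact_mod_cast this
  have hn : 2 * ((J : ℤ) + i * L) ≤ Γ := by
    refine le_of_mul_le_mul_left ?_ hP0z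
    linarith
  have hJ4 : (Γ : ℤ) ≤ 4 * J := by
    have h1 : (P : ℤ) * Γ ≤ P * (4 * J) := by
      have h2 : 8 * (P : ℤ) ≤ Γ := by linarith
      linarith
    exact le_of_mul_le_mul_left h1 hP0z
  have hiL : (0 : ℤ) ≤ i * L := by positivity
  refine ⟨J, L, ?_, ?_, ?_, ?_, ?_, ?_⟩
  · have : (0 : ℤ) < J := by linarith
    exact_mod_cast this
  · have hL0 : 1 ≤ L := by
      rcases Nat.eq_zero_or_pos L with h | h
      · rw [h] at hL2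
        linarith
      · exact h
    have : 32 * P * i * 1 ≤ 32 * P * i * L := Nat.mul_le_mul_left _ hL0
    linarith
  · exact_mod_cast hn
  · push_cast
    linarith
  · linarith
  · push_cast
    linarith

theorem weyl_pack (N₀ : ℕ) : ∃ δ : ℝ, 0 < δ ∧ ∃ Γ₀ : ℕ, ∀ Γ ≥ Γ₀,
    ∀ (β : K⸨X⸩) (φ : K[X] → K⸨X⸩) (E : ℤ) (χ : K[X] → ℝ),
    val β = exp (E - 1) → (∀ v w, φ (v + w) = φ v + φ w) →
    (∀ v ∈ Pl K (Γ / 2), v ≠ 0 → val (φ v) = exp (-((Γ : ℤ) - 2 * v.natDegree))) →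
    Even (E - Γ) → 3 * (Γ : ℤ) < E → E ≤ N₀ * (Γ : ℤ) →
    (∀ v w, χ (v + w) = χ v * χ w) → (∀ v, |χ v| = 1) →
    |∑ v ∈ Pl K (Γ / 2), χ v * psi (res (β / (1 + φ v)))| ≤
      2 * (Fintype.card K : ℝ) ^ (-δ * Γ) * (Fintype.card K : ℝ) ^ (Γ / 2) := by
  obtain ⟨P, hPT⟩ : ∃ P : ℕ, 2 ^ (N₀ + 2) = P + 1 :=
    ⟨2 ^ (N₀ + 2) - 1, by have := Nat.one_le_two_pow (n := N₀ + 2); omega⟩
  have hP : 2 * (N₀ + 1) ≤ P := by
    have h1 : N₀ + 1 < 2 ^ (N₀ + 1) := Nat.lt_two_pow_self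
    have h2 : 2 ^ (N₀ + 2) = 2 * 2 ^ (N₀ + 1) := by ring
    omega
  have hP0 : (0 : ℝ) < P := by
    have : 0 < P := by omega
    exact_mod_cast this
  refine ⟨1 / (64 * P * ((N₀ + 2 : ℕ) : ℝ) * 2 ^ (N₀ + 2)), by positivity, 64 * P * (N₀ + 2), ?_⟩
  intro Γ hΓ β φ E χ hβ hφ hval hev h3 hE hχ hχ1
  obtain ⟨J, L, hJ, hL, hn, hb, hc, hd⟩ :=
    weylpack_arith P (N₀ + 2) N₀ Γ E hP (by omega) hΓ h3 hE
  have hT : (2 : ℤ) ^ (N₀ + 2) = P + 1 := by exact_mod_cast hPT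
  have hT' : (P : ℤ) + 1 - 1 = P := by ring
  have hle : J + (N₀ + 2) * L ≤ Γ / 2 := by omega
  have hq : (1 : ℝ) ≤ Fintype.card K := by exact_mod_cast Fintype.card_pos
  refine abs_sum_Pl_le_of_cosets hle _ _ fun v₀ hv₀ => ?_
  have hu : val (1 + φ v₀ - 1) < 1 := by
    rw [add_sub_cancel_left]
    by_cases h0 : v₀ = 0
    · have h00 : φ 0 = 0 := by
        have := hφ 0 0
        rw [add_zero] at this
        exact left_eq_add.1 this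
      rw [h0, h00, map_zero]
      exact zero_lt_one
    · rw [hval v₀ hv₀ h0, ← exp_zero, exp_lt_exp]
      have h1 := (natDegree_lt_iff_degree_lt h0).2 (mem_Pl.1 hv₀)
      omega
  have hw := weyl J L hJ (N₀ + 2) β (1 + φ v₀) φ E Γ hβ hu hφ
    (fun v hv => hval v (Pl_mono hle hv)) (by exact_mod_cast hn) hev
    (by rw [hT, hT']; exact hb) (by rw [hT, hT']; exact hc) (by rw [hT, hT']; exact hd)
    χ hχ hχ1 (by omega)
  have e : ∑ v ∈ Pl K (J + (N₀ + 2) * L), χ (v₀ + v) * psi (res (β / (1 + φ (v₀ + v))))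
      = χ v₀ * ∑ v ∈ Pl K (J + (N₀ + 2) * L), χ v * psi (res (β / (1 + φ v₀ + φ v))) := by
    rw [mul_sum]
    refine sum_congr rfl fun v _ => ?_
    rw [hχ, hφ, add_assoc, mul_assoc]
  rw [e, abs_mul, hχ1, one_mul]
  refine hw.trans (mul_le_mul_of_nonneg_right (mul_le_mul_of_nonneg_left ?_ zero_le_two)
    (by positivity))
  refine Real.rpow_le_rpow_of_exponent_le hq ?_
  have hLr : (Γ : ℝ) ≤ 64 * P * ((N₀ + 2 : ℕ) : ℝ) * L := by exact_mod_cast hL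
  have hpos : (0 : ℝ) < 64 * P * ((N₀ + 2 : ℕ) : ℝ) := by positivity
  rw [neg_div, neg_mul, neg_le_neg_iff, one_div, inv_mul_eq_div, ← div_div]
  refine div_le_div_of_nonneg_right ?_ (by positivity)
  rw [div_le_iff₀ hpos]
  linarith

end Pool.Agent.P.MP_a1177c_nt.HL
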