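import Pool.Agent.P.MP_a1177c_nt.HL.Phase
import Pool.Agent.P.MP_a1177c_nt.HL.WeylPack

namespace Pool.Agent.P.MP_a1177c_nt.HL

open Polynomial Finset
open scoped Classical LaurentSeries

variable {K : Type*} [Field K] [Fintype K] [CharP K 2]

open WithZero

private lemma tc_quot {a c D Δ d b : K[X]} (hD : a * c = D ^ 2 + X * Δ ^ 2) (hd : d.Monic)
    (hdv : d ∣ a * b ^ 2 + c) (k : K[X]) :
    (a * (b + d * k) ^ 2 + c) /ₘ d = (a * b ^ 2 + c) /ₘ d + a * d * k ^ 2 ∧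
    a * (d * ((a * (b + d * k) ^ 2 + c) /ₘ d)) = (a * (b + d * k) + D) ^ 2 + X * Δ ^ 2 := by
  obtain ⟨g, hg⟩ := hdv
  have h1 : a * (b + d * k) ^ 2 + c = d * (g + a * d * k ^ 2) := by
    linear_combination hg + a * b * d * k * two_eq_zero_poly (K := K)
  rw [hg, h1, mul_divByMonic_cancel_left _ hd, mul_divByMonic_cancel_left _ hd, ← h1]
  refine ⟨rfl, ?_⟩
  linear_combination hD - a * (b + d * k) * D * two_eq_zero_poly (K := K)

private lemma tc_sqfree {a c D Δ d b : K[X]} (hD : a * c = D ^ 2 + X * Δ ^ 2) (hd : d.Monic)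
    (hdv : d ∣ a * b ^ 2 + c) (k k₂ u : K[X]) (hk : k₂ = k + (u * Δ) ^ 2)
    (h : Squarefree ((a * (b + d * k) ^ 2 + c) /ₘ d)) :
    Squarefree ((a * (b + d * k₂) ^ 2 + c) /ₘ d) := by
  intro x hx
  apply h x
  obtain ⟨h1, h2⟩ := tc_quot hD hd hdv k₂
  have h3 : x ∣ Δ := by
    refine dvd_of_sq_dvd_sq_add (P := a * (b + d * k₂) + D) ?_
    rw [← h2, sq]
    exact (hx.mul_left _).mul_left _
  have h4 : (a * (b + d * k) ^ 2 + c) /ₘ d =
      (a * (b + d * k₂) ^ 2 + c) /ₘ d + Δ * Δ * (a * d * u ^ 4 * Δ ^ 2) := by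
    rw [h1, (tc_quot hD hd hdv k).1, hk]
    linear_combination
      (-(a * d * k * (u * Δ) ^ 2) - a * d * (u * Δ) ^ 4) * two_eq_zero_poly (K := K)
  rw [h4]
  exact dvd_add hx ((mul_dvd_mul h3 h3).mul_right _)

private lemma tc_lam {a c D Δ d b : K[X]} (hD : a * c = D ^ 2 + X * Δ ^ 2) (hΔ : Δ ≠ 0)
    (hd : d.Monic) (hdv : d ∣ a * b ^ 2 + c) (k r ξ Y : K[X]) (h1 : X * Δ = r * ξ)
    (h2 : a * (b + d * k) + D = r * Y) :
    lam ((a * (b + d * k) ^ 2 + c) /ₘ d) = -(lam a * lam d) * lam (ξ ^ 2 + X * Y ^ 2) := by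
  have h3 := (tc_quot hD hd hdv k).2
  set g := (a * (b + d * k) ^ 2 + c) /ₘ d
  have h4 : a * (d * g) ≠ 0 := by
    intro h
    have h5 := derivative_sq_add (a * (b + d * k) + D) Δ
    rw [← h3, h, derivative_zero] at h5
    exact pow_ne_zero 2 hΔ h5.symm
  have h5 : X * (a * (d * g)) = r * (r * (ξ ^ 2 + X * Y ^ 2)) := by
    rw [h3, h2]
    linear_combination (X * Δ + r * ξ) * h1
  have h6 : r * (r * (ξ ^ 2 + X * Y ^ 2)) ≠ 0 := h5 ▸ mul_ne_zero X_ne_zero h4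
  have h7 := right_ne_zero_of_mul h6
  have h8 := right_ne_zero_of_mul h4
  have h9 := congrArg lam h5
  rw [lam_mul X_ne_zero h4, lam_mul (left_ne_zero_of_mul h4) h8,
    lam_mul hd.ne_zero (right_ne_zero_of_mul h8), lam_mul (left_ne_zero_of_mul h6) h7,
    lam_mul (left_ne_zero_of_mul h7) (right_ne_zero_of_mul h7), lam_of_irreducible irreducible_X,
    ← mul_assoc (lam r), lam_mul_self, one_mul] at h9
  rw [← h9]
  linear_combination (-lam g * lam d * lam d) * lam_mul_self a - lam g * lam_mul_self d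

private lemma tc_deriv {a D d b k : K[X]} (ha : a.Monic) (hd : d.Monic)
    (hb : b.degree < d.natDegree) (hκ : D.natDegree < (derivative k).natDegree) :
    (derivative ((a * (b + d * k) + D) * (a * d))).natDegree =
      2 * a.natDegree + 2 * d.natDegree + (derivative k).natDegree := by
  have hk : derivative k ≠ 0 := fun h => by simp [h] at hκ
  have h1 : derivative ((a * (b + d * k) + D) * (a * d)) =
      (a * d) ^ 2 * derivative k + (a ^ 2 * derivative (b * d) + derivative (D * (a * d))) := by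
    simp only [derivative_mul, derivative_add]
    linear_combination (a * derivative a * (b + d * k) * d + a ^ 2 * d * derivative d * k) *
      two_eq_zero_poly (K := K)
  have had := ha.mul hd
  have h2 : (a * d).natDegree = a.natDegree + d.natDegree := ha.natDegree_mul hd
  have h3 : ((a * d) ^ 2 * derivative k).natDegree =
      2 * a.natDegree + 2 * d.natDegree + (derivative k).natDegree := by
    rw [natDegree_mul (pow_ne_zero 2 had.ne_zero) hk, natDegree_pow, h2]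
    ring
  have h4 : b.natDegree ≤ d.natDegree := natDegree_le_of_degree_le hb.le
  have h5 : (a ^ 2 * derivative (b * d)).natDegree ≤ 2 * a.natDegree + 2 * d.natDegree := by
    have e1 := natDegree_mul_le (p := a ^ 2) (q := derivative (b * d))
    have e2 := natDegree_derivative_le (b * d)
    have e3 := natDegree_mul_le (p := b) (q := d)
    rw [natDegree_pow] at e1
    omega
  have h6 := natDegree_derivative_le (D * (a * d))
  have h7 := natDegree_mul_le (p := D) (q := a * d)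
  have h8 := natDegree_add_le (a ^ 2 * derivative (b * d)) (derivative (D * (a * d)))
  rw [h1, natDegree_add_eq_left_of_natDegree_lt (by omega), h3]

private lemma tc_good {a c D Δ d b k : K[X]} (ha : a.Monic) (hD : a * c = D ^ 2 + X * Δ ^ 2)
    (hΔ : Δ ≠ 0) (hd : d.Monic) (hb : b.degree < d.natDegree) (hdv : d ∣ a * b ^ 2 + c)
    (hk : k.Monic) (t Γ : ℕ) (hj : k.natDegree = Γ + 2 * t + 2 + 2 * Δ.natDegree)
    (hκ : D.natDegree < (derivative k).natDegree) (B : ℝ) (hB : 0 ≤ B) (E : ℤ)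
    (hE : E = 2 * a.natDegree - 2 * Δ.natDegree + 2 + 2 * d.natDegree +
      3 * (derivative k).natDegree - k.natDegree)
    (H : ∀ (β : K⸨X⸩) (φ : K[X] → K⸨X⸩) (χ : K[X] → ℝ),
      val β = exp (E - 1) → (∀ v w, φ (v + w) = φ v + φ w) →
      (∀ v ∈ Pl K (Γ / 2), v ≠ 0 → val (φ v) = exp (-((Γ : ℤ) - 2 * v.natDegree))) →
      (∀ v w, χ (v + w) = χ v * χ w) → (∀ v, |χ v| = 1) →
      |∑ v ∈ Pl K (Γ / 2), χ v * psi (res (β / (1 + φ v)))| ≤ B) :
    |∑ v ∈ Pl K (Γ / 2),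
      mu ((a * (b + d * (k + (X ^ t * v * X * Δ) ^ 2)) ^ 2 + c) /ₘ d)| ≤ B := by
  by_cases hsq : Squarefree ((a * (b + d * k) ^ 2 + c) /ₘ d)
  swap
  · rw [sum_eq_zero, abs_zero]
    · exact hB
    intro v _
    refine if_neg fun h => hsq (tc_sqfree hD hd hdv _ k (X ^ t * v * X) ?_ h)
    linear_combination (-(X ^ t * v * X * Δ) ^ 2) * two_eq_zero_poly (K := K)
  have hk1 := natDegree_derivative_le k
  have hdk : (d * k).natDegree = d.natDegree + k.natDegree := hd.natDegree_mul hk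
  have hbdk : b.degree < (d * k).degree := by
    rw [degree_eq_natDegree (hd.mul hk).ne_zero, hdk]
    exact hb.trans_le (by exact_mod_cast Nat.le_add_right _ _)
  have hA : (b + d * k).Monic := (hd.mul hk).add_of_right hbdk
  have hA1 : (b + d * k).natDegree = d.natDegree + k.natDegree := by
    rw [natDegree_add_eq_right_of_degree_lt hbdk, hdk]
  have hW0 : (a * (b + d * k)).natDegree = a.natDegree + (d.natDegree + k.natDegree) := by
    rw [ha.natDegree_mul hA, hA1]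
  have hW1 : D.natDegree < (a * (b + d * k)).natDegree := by omega
  have hW : (a * (b + d * k) + D).Monic := (ha.mul hA).add_of_left (degree_lt_degree hW1)
  have hW2 := natDegree_add_eq_left_of_natDegree_lt hW1
  have hD1 := tc_deriv ha hd hb hκ
  obtain ⟨r, ξ, Y, hr, h1, h2, hc⟩ : ∃ r ξ Y : K[X], r.Monic ∧ X * Δ = r * ξ ∧
      a * (b + d * k) + D = r * Y ∧ IsCoprime ξ Y := by
    obtain ⟨ξ, Y, h1, h2, h3⟩ := extract_gcd (X * Δ) (a * (b + d * k) + D)
    refine ⟨_, ξ, Y, ?_, h1, h2, (gcd_isUnit_iff _ _).1 h3⟩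
    rw [← _root_.normalize_gcd]
    exact monic_normalize fun h => hW.ne_zero ((_root_.gcd_eq_zero_iff _ _).1 h).2
  have hY : Y.Monic := hr.of_mul_monic_left (h2 ▸ hW)
  have hξ : ξ ≠ 0 := right_ne_zero_of_mul (h1 ▸ mul_ne_zero X_ne_zero hΔ)
  have e1 : r.natDegree + ξ.natDegree = Δ.natDegree + 1 := by
    rw [← natDegree_mul hr.ne_zero hξ, ← h1, natDegree_X_mul hΔ]
  have e2 : r.natDegree + Y.natDegree = a.natDegree + (d.natDegree + k.natDegree) := by
    rw [← hr.natDegree_mul hY, ← h2, hW2, hW0]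
  set M := a * d * r * (X ^ t) ^ 2 with hM
  have hM1 : M.Monic := ((ha.mul hd).mul hr).mul ((monic_X_pow t).pow 2)
  have e3 : (ξ ^ 2 * M).natDegree + Γ = Y.natDegree := by
    rw [natDegree_mul (pow_ne_zero 2 hξ) hM1.ne_zero, hM,
      ((ha.mul hd).mul hr).natDegree_mul ((monic_X_pow t).pow 2), (ha.mul hd).natDegree_mul hr,
      ha.natDegree_mul hd, natDegree_pow, natDegree_pow, natDegree_X_pow]
    omega
  have hξM : ξ ^ 2 * M ≠ 0 := mul_ne_zero (pow_ne_zero 2 hξ) hM1.ne_zero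
  have e4 : ∀ v : K[X], v ≠ 0 →
      (ξ ^ 2 * M * v ^ 2).natDegree = (ξ ^ 2 * M).natDegree + 2 * v.natDegree := fun v hv => by
    rw [natDegree_mul hξM (pow_ne_zero 2 hv), natDegree_pow]
  obtain ⟨σ, χ, hσ, hχ1, hχ2, hph⟩ := phase hξ hM1.ne_zero hY hc (by
    have := natDegree_mul (pow_ne_zero 2 hξ) hM1.ne_zero
    rw [natDegree_pow] at this
    omega)
  have hsum : ∑ v ∈ Pl K (Γ / 2),
      mu ((a * (b + d * (k + (X ^ t * v * X * Δ) ^ 2)) ^ 2 + c) /ₘ d) =
      -(lam a * lam d) * σ * ∑ v ∈ Pl K (Γ / 2), χ v * psi (res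
        (io (X ^ 3 * derivative (Y * (ξ ^ 2 * M)) ^ 3) / io (ξ ^ 2 * (ξ ^ 2 * M) ^ 3 * Y) /
          (1 + io (ξ ^ 2 * M * v ^ 2) / io Y))) := by
    rw [mul_sum]
    refine sum_congr rfl fun v hv => ?_
    rw [mu, if_pos (tc_sqfree hD hd hdv k _ (X ^ t * v * X) rfl hsq),
      tc_lam hD hΔ hd hdv _ r ξ (Y + ξ ^ 2 * M * v ^ 2) h1, hph v, mul_assoc _ σ]
    · rcases eq_or_ne v 0 with rfl | hv0
      · simpa [bot_lt_iff_ne_bot] using hY.ne_zero
      · have := (natDegree_lt_iff_degree_lt hv0).2 (mem_Pl.1 hv)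
        refine degree_lt_degree ?_
        rw [e4 v hv0]
        omega
    · rw [hM]
      linear_combination h2 + a * d * (X ^ t * v) ^ 2 * (X * Δ + r * ξ) * h1
  rw [hsum, abs_mul, abs_mul, abs_neg, abs_mul, abs_lam, abs_lam, hσ]
  simp only [one_mul]
  refine H _ (fun v => io (ξ ^ 2 * M * v ^ 2) / io Y) χ ?_ (fun v w => ?_) (fun v _ hv => ?_)
    hχ1 hχ2
  · have h3 : derivative (Y * (ξ ^ 2 * M)) =
        (X ^ t * ξ) ^ 2 * derivative ((a * (b + d * k) + D) * (a * d)) := by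
      have h4 : Y * (ξ ^ 2 * M) = (X ^ t * ξ) ^ 2 * ((a * (b + d * k) + D) * (a * d)) := by
        rw [h2, hM]; ring
      rw [h4, derivative_mul, derivative_sq]
      have h5 : (C 2 : K[X]) = 0 := two_eq_zero_poly
      rw [h5]
      ring
    have h4 : derivative ((a * (b + d * k) + D) * (a * d)) ≠ 0 := fun h => by
      rw [h, natDegree_zero] at hD1
      omega
    have h5 : X ^ t * ξ ≠ 0 := mul_ne_zero (pow_ne_zero t X_ne_zero) hξ
    have h6 := mul_ne_zero (pow_ne_zero 2 h5) h4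
    have h7 := mul_ne_zero (pow_ne_zero 2 hξ) (pow_ne_zero 3 hξM)
    rw [h3, map_div₀, val_io (mul_ne_zero (pow_ne_zero 3 X_ne_zero) (pow_ne_zero 3 h6)),
      val_io (mul_ne_zero h7 hY.ne_zero), ← exp_sub,
      natDegree_mul (pow_ne_zero 3 X_ne_zero) (pow_ne_zero 3 h6), natDegree_pow, natDegree_pow,
      natDegree_mul (pow_ne_zero 2 h5) h4, hD1, natDegree_pow, natDegree_X_pow_mul t hξ,
      natDegree_X, natDegree_mul h7 hY.ne_zero,
      natDegree_mul (pow_ne_zero 2 hξ) (pow_ne_zero 3 hξM), natDegree_pow, natDegree_pow]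
    congr 1
    omega
  · rw [← add_div, ← map_add]
    congr 2
    linear_combination ξ ^ 2 * M * v * w * two_eq_zero_poly (K := K)
  · rw [map_div₀, val_io (mul_ne_zero hξM (pow_ne_zero 2 hv)), val_io hY.ne_zero, ← exp_sub,
      e4 v hv]
    congr 1
    omega

private lemma tc_num {m j n s : ℕ} (hm : 200000 * (1 + s) ≤ m) (hj : n + j = m)
    (hmj : m ≤ 5500 * j) (z : ℕ) (hz : z ≤ s) : ∃ Γ t T : ℕ, j = Γ + 2 * t + 2 + 2 * z ∧ s ≤ Γ ∧
      s < 2 * T ∧ m ≤ 6000 * Γ + 6000 ∧ 48000 * (j / 2 + 1 + T + 1) + m ≤ 48000 * j ∧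
      3 * Γ + 2 * s + j < 2 * n + 6 * T ∧ 2 * s + 2 + 2 * n + 2 * j ≤ 20000 * Γ := by
  have h : m / 6000 + 3 + 2 * s ≤ j := by omega
  obtain ⟨Γ, t, h1, h2, h3⟩ : ∃ Γ t : ℕ, m / 6000 ≤ Γ ∧ Γ ≤ m / 6000 + 1 ∧
      j = Γ + 2 * t + 2 + 2 * z := by
    clear hm hj hmj
    generalize m / 6000 = u at *
    exact ⟨u + (j + u) % 2, (j - (u + (j + u) % 2)) / 2 - 1 - z, by omega, by omega, by omega⟩
  obtain ⟨T, hT⟩ : ∃ T, T + m / 24000 = j / 2 := ⟨j / 2 - m / 24000, by omega⟩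
  refine ⟨Γ, t, T, h3, ?_, ?_, ?_, ?_, ?_, ?_⟩ <;> clear h3 h hz <;> omega

theorem two_core {a c D Δ : K[X]} (ha : a.Monic) (hac : IsCoprime a c)
    (hD : a * c = D ^ 2 + X * Δ ^ 2) (hΔ : Δ ≠ 0) :
    ∃ δ : ℝ, 0 < δ ∧ ∃ m₀ : ℕ, ∀ m ≥ m₀, ∀ (d b : K[X]) (j : ℕ), d.Monic →
      b ∈ Pl K d.natDegree → d ∣ a * b ^ 2 + c → d.natDegree + j = m → m ≤ 5500 * j →
      |∑ k ∈ Mn K j, mu ((a * (b + d * k) ^ 2 + c) /ₘ d)| ≤
        (Fintype.card K : ℝ) ^ j * (Fintype.card K : ℝ) ^ (-δ * m) := by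
  obtain ⟨δ, hδ, Γ₀, H⟩ := weyl_pack (K := K) 20000
  refine ⟨min (δ / 12000) (1 / 48000), lt_min (by positivity) (by positivity),
    200000 * (1 + (a.natDegree + D.natDegree + Δ.natDegree + Γ₀ + ⌈(2 + δ) / δ⌉₊)),
    fun m hm d b j hd hb hdv hj hmj => ?_⟩
  obtain ⟨Γ, t, T, ht, n1, n2, n3, n4, n5, n6⟩ := tc_num hm hj hmj Δ.natDegree (by omega)
  have c2 : 12000 * (⌈(2 + δ) / δ⌉₊ : ℝ) ≤ m := by exact_mod_cast (by omega)
  clear hm hmj
  set q : ℝ := (Fintype.card K : ℝ) with hq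
  have hq2 : (2 : ℝ) ≤ q := by
    rw [hq]
    exact_mod_cast Fintype.one_lt_card
  have hq0 : 0 < q := by linarith
  have hq1 : 1 ≤ q := by linarith
  set F : K[X] → ℝ := fun k => mu ((a * (b + d * k) ^ 2 + c) /ₘ d) with hF
  set G : K[X] → ℝ := fun k => ∑ v ∈ Pl K (Γ / 2), F (k + (X ^ t * v * X * Δ) ^ 2) with hG
  have h1 : q ^ (Γ / 2) * ∑ k ∈ Mn K j, F k = ∑ k ∈ Mn K j, G k := by
    rw [hG, sum_comm, sum_congr rfl fun v hv => sum_Mn_shift (w := (X ^ t * v * X * Δ) ^ 2) ?_ F,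
      sum_const, card_Pl, nsmul_eq_mul, Nat.cast_pow]
    rcases eq_or_ne v 0 with rfl | hv0
    · simp [mem_Pl]
    have e1 := (natDegree_lt_iff_degree_lt hv0).2 (mem_Pl.1 hv)
    have e2 := natDegree_mul_le (p := X ^ t * v * X) (q := Δ)
    have e3 := natDegree_mul_le (p := X ^ t * v) (q := X)
    rw [natDegree_X_pow_mul t hv0, natDegree_X] at e3
    refine mem_Pl.2 (degree_le_natDegree.trans_lt ?_)
    rw [natDegree_pow]
    exact_mod_cast (by omega)
  have h2 : ∀ k ∈ Mn K j, |G k| ≤ (if (derivative k).degree < (2 * T : ℕ) then q ^ (Γ / 2) else 0) +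
      2 * q ^ (-δ * Γ) * q ^ (Γ / 2) := by
    intro k hk
    obtain ⟨hk1, hk2⟩ := mem_Mn.1 hk
    split_ifs with h
    · refine (abs_sum_le_sum_abs _ _).trans ((sum_le_card_nsmul _ _ 1 fun v _ =>
        abs_mu_le _).trans ?_)
      rw [card_Pl, nsmul_eq_mul, Nat.cast_pow, mul_one]
      exact le_add_of_nonneg_right (by positivity)
    have h3 : 2 * T ≤ (derivative k).natDegree := le_natDegree_of_coe_le_degree (not_lt.1 h)
    have h4 := natDegree_derivative_le k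
    obtain ⟨s, hs⟩ : ∃ s, (derivative k).natDegree = 2 * s := by
      obtain ⟨B, C, rfl⟩ := exists_sq_add k
      exact ⟨_, by rw [derivative_sq_add, natDegree_pow]⟩
    rw [zero_add]
    refine tc_good ha hD hΔ hd (mem_Pl.1 hb) hdv hk1 t Γ (by omega) (by omega) _ (by positivity)
      _ rfl fun β φ χ a1 a2 a3 a4 a5 => H Γ (by omega) β φ _ χ a1 a2 a3 ?_ ?_ ?_ a4 a5
    · rw [Int.even_iff]; omega
    · omega
    · push_cast; omega
  have h3 : (((Mn K j).filter fun k => (derivative k).degree < (2 * T : ℕ)).card : ℝ) ≤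
      q ^ (j / 2 + 1 + T) := by
    rw [hq]
    exact_mod_cast card_small_derivative j T
  have h4 : q ^ (Γ / 2) * |∑ k ∈ Mn K j, F k| ≤
      q ^ (Γ / 2) * (q ^ (j / 2 + 1 + T) + q ^ j * (2 * q ^ (-δ * Γ))) := by
    rw [← abs_of_pos (pow_pos hq0 (Γ / 2)), ← abs_mul, h1, abs_of_pos (pow_pos hq0 (Γ / 2))]
    refine (abs_sum_le_sum_abs _ _).trans ((sum_le_sum h2).trans ?_)
    rw [sum_add_distrib, ← sum_filter, sum_const, sum_const, card_Mn, nsmul_eq_mul, nsmul_eq_mul,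
      Nat.cast_pow]
    linarith [mul_le_mul_of_nonneg_right h3 (pow_pos hq0 (Γ / 2)).le]
  set ε := min (δ / 12000) (1 / 48000) with hε
  have hm0 : (0 : ℝ) ≤ m := Nat.cast_nonneg m
  have b1 := mul_le_mul_of_nonneg_right (min_le_left (δ / 12000) (1 / 48000)) hm0
  have b2 := mul_le_mul_of_nonneg_right (min_le_right (δ / 12000) (1 / 48000)) hm0
  have h5 : q * q ^ (j / 2 + 1 + T) ≤ q ^ j * q ^ (-ε * m) := by
    rw [← pow_succ', ← Real.rpow_natCast, ← Real.rpow_natCast, ← Real.rpow_add hq0]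
    refine Real.rpow_le_rpow_of_exponent_le hq1 ?_
    have : 48000 * ((j / 2 + 1 + T + 1 : ℕ) : ℝ) + m ≤ 48000 * j := by exact_mod_cast n4
    linarith
  have h6 : q ^ 2 * q ^ (-δ * Γ) ≤ q ^ (-ε * m) := by
    rw [← Real.rpow_natCast, ← Real.rpow_add hq0]
    refine Real.rpow_le_rpow_of_exponent_le hq1 ?_
    have c1 : (m : ℝ) ≤ 6000 * Γ + 6000 := by exact_mod_cast n3
    have c3 := (div_le_iff₀ hδ).1 (Nat.le_ceil ((2 + δ) / δ))
    have c4 := mul_le_mul_of_nonneg_right c1 hδ.le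
    have c5 := mul_le_mul_of_nonneg_right c2 hδ.le
    push_cast
    linarith
  have h7 := le_of_mul_le_mul_left h4 (pow_pos hq0 _)
  have h8 : 4 * q ^ (-δ * Γ) ≤ q ^ (-ε * m) :=
    (mul_le_mul_of_nonneg_right (by nlinarith) (by positivity)).trans h6
  have h9 := mul_le_mul_of_nonneg_left h8 (pow_pos hq0 j).le
  have h10 := mul_le_mul_of_nonneg_right hq2 (pow_pos hq0 (j / 2 + 1 + T)).le
  linarith

end Pool.Agent.P.MP_a1177c_nt.HL
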