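import Pool.Agent.P.MP_a1177c_nt.HL.RangeOne
import Pool.Agent.P.MP_a1177c_nt.HL.Count

namespace Pool.Agent.P.MP_a1177c_nt.HL

open Polynomial Finset
open scoped Classical

variable {K : Type*} [Field K] [Fintype K] [CharP K 2]

theorem uone_num (q : ℝ) (hq : 2 ≤ q) (k m : ℕ) (h : 10000 * k ≤ 5001 * m) (hm : 20000 ≤ m) :
    2 * (q ^ (2 * k) * q ^ (-(k : ℝ) / 400)) ≤ q ^ m * q ^ (-(m : ℝ) / 1000) := by
  have hq0 : 0 < q := by linarith
  have h' : (10000 : ℝ) * k ≤ 5001 * m := by exact_mod_cast h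
  have hm' : (20000 : ℝ) ≤ m := by exact_mod_cast hm
  rw [← Real.rpow_natCast q (2 * k), ← Real.rpow_natCast q m, ← Real.rpow_add hq0,
    ← Real.rpow_add hq0]
  calc 2 * q ^ (((2 * k : ℕ) : ℝ) + -(k : ℝ) / 400)
      ≤ q ^ (1 : ℝ) * q ^ (((2 * k : ℕ) : ℝ) + -(k : ℝ) / 400) := by
        rw [Real.rpow_one]
        exact mul_le_mul_of_nonneg_right hq (by positivity)
    _ = q ^ (1 + (((2 * k : ℕ) : ℝ) + -(k : ℝ) / 400)) := (Real.rpow_add hq0 _ _).symm
    _ ≤ q ^ ((m : ℝ) + -(m : ℝ) / 1000) := by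
        refine Real.rpow_le_rpow_of_exponent_le (by linarith) ?_
        push_cast
        linarith

omit [CharP K 2] in
theorem uone_sum_X (n : ℕ) (F : K[X] → ℝ) :
    ∑ g ∈ Mn K n, F (X * g) = ∑ h ∈ Mn K (n + 1), if X ∣ h then F h else 0 := by
  rw [← Finset.sum_filter]
  refine Finset.sum_bij (fun g _ => X * g) ?_ ?_ ?_ ?_
  · intro g hg
    obtain ⟨h1, h2⟩ := mem_Mn.1 hg
    refine Finset.mem_filter.2 ⟨mem_Mn.2 ⟨monic_X.mul h1, ?_⟩, dvd_mul_right _ _⟩
    rw [monic_X.natDegree_mul h1, natDegree_X, h2, add_comm]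
  · intro g _ g' _ h
    exact mul_left_cancel₀ X_ne_zero h
  · intro h hh
    obtain ⟨hh1, g, rfl⟩ := Finset.mem_filter.1 hh
    obtain ⟨h1, h2⟩ := mem_Mn.1 hh1
    have hg : g.Monic := monic_X.of_mul_monic_left h1
    refine ⟨g, mem_Mn.2 ⟨hg, ?_⟩, rfl⟩
    rw [monic_X.natDegree_mul hg, natDegree_X] at h2
    omega
  · intro g _; rfl

omit [CharP K 2] in
theorem uone_natDegree_le {k : ℕ} {x : K[X]} (hx : x ∈ Pl K (k + 1)) : x.natDegree ≤ k := by
  by_cases h0 : x = 0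
  · simp [h0]
  · have := (natDegree_lt_iff_degree_lt h0).2 (mem_Pl.1 hx)
    omega

omit [Fintype K] [CharP K 2] in
theorem uone_mu_eq_zero {g : K[X]} (h : ¬ Squarefree g) : mu g = 0 := by
  rw [mu, if_neg h]

omit [Fintype K] [CharP K 2] in
theorem uone_coprime_shift (E x y v : K[X]) :
    IsCoprime ((x + E * v) ^ 2 + X * y ^ 2) E ↔ IsCoprime (x ^ 2 + X * y ^ 2) E := by
  rw [show (x + E * v) ^ 2 + X * y ^ 2 = (x ^ 2 + X * y ^ 2) + E * (2 * x * v + E * v ^ 2) by ring]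
  exact IsCoprime.add_mul_left_left_iff

omit [Fintype K] [CharP K 2] in
theorem uone_divX (t : K[X]) : divX (X * t) = t := by
  ext n
  rw [coeff_divX, coeff_X_mul]

/-- odd degree -/
theorem uone_odd {a c D Δ : K[X]} (ha : a.Monic) (hac : IsCoprime a c)
    (hD : a * c = D ^ 2 + X * Δ ^ 2) :
    ∃ k₀ : ℕ, ∀ k ≥ k₀, ∀ m : ℕ, D.natDegree < m → Δ.natDegree < m → m ≤ 2 * k + 1 →
      3 * k + 2 ≤ 2 * m →
      |∑ g ∈ Mn K (2 * k + 1), mu g * (((Mn K m).filter fun A => g ∣ a * A ^ 2 + c).card : ℝ)| ≤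
        (Fintype.card K : ℝ) ^ (2 * k) * (Fintype.card K : ℝ) ^ (-(k : ℝ) / 400) := by
  obtain ⟨k₀, hk₀⟩ := range_one ha ha Δ D a.natDegree
  refine ⟨k₀, fun k hk m h1 h2 h3 h4 => ?_⟩
  have key := hk₀ k hk (a.natDegree + m - k - 1)
    (fun x y => if IsCoprime (x ^ 2 + X * y ^ 2) a then 1 else 0) (by omega) (by omega)
    (fun x y => by split_ifs <;> simp) (fun x y v => by simp only [uone_coprime_shift])
  rw [sum_Mn_odd]
  refine le_trans (le_of_eq ?_) key
  congr 1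
  refine Finset.sum_congr rfl fun y hy => Finset.sum_congr rfl fun x hx => ?_
  by_cases hs : Squarefree (x ^ 2 + X * y ^ 2)
  · obtain ⟨hg1, hg2⟩ := mem_Mn.1 (sq_add_mem_Mn hx hy)
    obtain ⟨hy1, hy2⟩ := mem_Mn.1 hy
    have hx' := uone_natDegree_le hx
    have h := count_eq (e := 1) (A₁ := 0) (e₀ := 1) (m := m) (k'' := a.natDegree + m - k - 1)
      ha hac hD hg1 hs (mul_one _) ((squarefree_sq_add_iff x y).1 hs) hy1 (by omega) (by omega)
      (by omega)
    simp only [one_dvd, and_true, mul_one, zero_mul, add_zero] at h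
    rw [h]
    split_ifs <;> simp
  · rw [uone_mu_eq_zero hs]; simp

/-- even degree, multiples of `X` -/
theorem uone_evenA {a c D Δ : K[X]} (ha : a.Monic) (hac : IsCoprime a c)
    (hD : a * c = D ^ 2 + X * Δ ^ 2) :
    ∃ k₀ : ℕ, ∀ k ≥ k₀, ∀ m : ℕ, D.natDegree < m → Δ.natDegree < m → m ≤ 2 * k + 1 →
      3 * k + 2 ≤ 2 * m →
      |∑ g ∈ Mn K (2 * k + 1),
        mu (X * g) * (((Mn K m).filter fun A => X * g ∣ a * A ^ 2 + c).card : ℝ)| ≤
        (Fintype.card K : ℝ) ^ (2 * k) * (Fintype.card K : ℝ) ^ (-(k : ℝ) / 400) := by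
  by_cases hXa : X ∣ a
  · refine ⟨0, fun k _ m _ _ _ _ => ?_⟩
    rw [Finset.sum_eq_zero, abs_zero]
    · positivity
    · intro g _
      rw [Finset.filter_eq_empty_iff.2, Finset.card_empty, Nat.cast_zero, mul_zero]
      intro A _ hd
      have h1 : X ∣ a * A ^ 2 + c := (dvd_mul_right _ _).trans hd
      have h2 : X ∣ c := (dvd_add_right (hXa.mul_right _)).1 h1
      exact irreducible_X.not_isUnit (hac.isUnit_of_dvd' hXa h2)
  have ha0 : a.coeff 0 ≠ 0 := fun h => hXa (X_dvd_iff.2 h)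
  obtain ⟨a₁, ha₁⟩ : ∃ a₁ : K, a₁ ^ 2 = c.coeff 0 / a.coeff 0 :=
    (frobeniusEquiv K 2).surjective _
  have h2K : (2 : K) = 0 := CharTwo.two_eq_zero
  have hroot : ∀ A : K[X], X ∣ a * A ^ 2 + c ↔ X ∣ A - C a₁ := by
    intro A
    rw [X_dvd_iff, X_dvd_iff, coeff_add, mul_coeff_zero, coeff_sub, coeff_C_zero, sq,
      mul_coeff_zero]
    rw [eq_div_iff ha0] at ha₁
    constructor
    · intro h
      have h3 : a.coeff 0 * (A.coeff 0 - a₁) ^ 2 = 0 := by
        linear_combination h + ha₁ + (-(a.coeff 0 * A.coeff 0 * a₁)) * h2K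
      rcases mul_eq_zero.1 h3 with h4 | h4
      · exact absurd h4 ha0
      · exact pow_eq_zero_iff (two_ne_zero) |>.1 h4
    · intro h
      have h3 : A.coeff 0 = a₁ := sub_eq_zero.1 h
      rw [h3]
      linear_combination ha₁ + c.coeff 0 * h2K
  have haX : (a * X).Monic := ha.mul monic_X
  obtain ⟨k₀, hk₀⟩ := range_one haX haX Δ (D + C a₁ * a) a.natDegree
  refine ⟨k₀, fun k hk m h1 h2 h3 h4 => ?_⟩
  have key := hk₀ k hk (a.natDegree + m - k - 1)
    (fun x y => if IsCoprime (x ^ 2 + X * y ^ 2) (a * X) then -1 else 0) (by omega) (by omega)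
    (fun x y => by split_ifs <;> simp) (fun x y v => by simp only [uone_coprime_shift])
  rw [sum_Mn_odd]
  refine le_trans (le_of_eq ?_) key
  congr 1
  refine Finset.sum_congr rfl fun y hy => Finset.sum_congr rfl fun x hx => ?_
  rw [mu_irreducible_mul irreducible_X]
  by_cases hXg : X ∣ x ^ 2 + X * y ^ 2
  · rw [if_pos hXg, if_neg]
    · simp
    · intro h
      exact irreducible_X.not_isUnit (h.isUnit_of_dvd' hXg (dvd_mul_left _ _))
  have hcX : IsCoprime (X : K[X]) (x ^ 2 + X * y ^ 2) :=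
    (irreducible_X.coprime_iff_not_dvd).2 hXg
  rw [if_neg hXg]
  by_cases hs : Squarefree (x ^ 2 + X * y ^ 2)
  · obtain ⟨hg1, hg2⟩ := mem_Mn.1 (sq_add_mem_Mn hx hy)
    obtain ⟨hy1, hy2⟩ := mem_Mn.1 hy
    have hx' := uone_natDegree_le hx
    have h := count_eq (e := X) (A₁ := C a₁) (e₀ := 1) (m := m)
      (k'' := a.natDegree + m - k - 1)
      ha hac hD hg1 hs (mul_one _) ((squarefree_sq_add_iff x y).1 hs) hy1 (by omega) (by omega)
      (by omega)
    have hf : ((Mn K m).filter fun A => X * (x ^ 2 + X * y ^ 2) ∣ a * A ^ 2 + c) =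
        (Mn K m).filter fun A => x ^ 2 + X * y ^ 2 ∣ a * A ^ 2 + c ∧ X ∣ A - C a₁ := by
      refine Finset.filter_congr fun A _ => ?_
      rw [← hroot]
      exact ⟨fun h => ⟨(dvd_mul_left _ _).trans h, (dvd_mul_right _ _).trans h⟩,
        fun h => hcX.mul_dvd h.2 h.1⟩
    rw [hf, h]
    simp only [IsCoprime.mul_right_iff, hcX.symm, and_true]
    split_ifs <;> simp
  · rw [uone_mu_eq_zero hs]; simp

/-- even degree, polynomials prime to `X` -/
theorem uone_evenB {a c D Δ : K[X]} (ha : a.Monic) (hac : IsCoprime a c)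
    (hD : a * c = D ^ 2 + X * Δ ^ 2) :
    ∃ k₀ : ℕ, ∀ k ≥ k₀, ∀ m : ℕ, D.natDegree < m → Δ.natDegree < m → m ≤ 2 * k →
      3 * k ≤ 2 * m →
      |∑ g ∈ Mn K (2 * k),
        mu (X * g) * (((Mn K m).filter fun A => g ∣ a * A ^ 2 + c).card : ℝ)| ≤
        (Fintype.card K : ℝ) ^ (2 * k) * (Fintype.card K : ℝ) ^ (-(k : ℝ) / 400) := by
  have haX : (X * a).Monic := monic_X.mul ha
  obtain ⟨k₀, hk₀⟩ := range_one haX haX (X * Δ) (X * D) a.natDegree
  refine ⟨k₀, fun k hk m h1 h2 h3 h4 => ?_⟩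
  have key := hk₀ k hk (a.natDegree + m - k)
    (fun x y => if X ∣ x ^ 2 + X * y ^ 2 ∧ IsCoprime (divX (x ^ 2 + X * y ^ 2)) a then 1 else 0)
    (by omega) (by omega) (fun x y => by split_ifs <;> simp) (fun x y v => by
      have e : (x + X * a * v) ^ 2 + X * y ^ 2
          = (x ^ 2 + X * y ^ 2) + X * (a * (2 * x * v + X * a * v ^ 2)) := by ring
      simp only [e, divX_add, uone_divX, IsCoprime.add_mul_left_left_iff,
        dvd_add_left (dvd_mul_right _ _)])
  have e1 := uone_sum_X (K := K) (2 * k)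
    (fun h => mu h * (((Mn K m).filter fun A => divX h ∣ a * A ^ 2 + c).card : ℝ))
  simp only [uone_divX] at e1
  rw [e1, sum_Mn_odd]
  refine le_trans (le_of_eq ?_) key
  congr 1
  refine Finset.sum_congr rfl fun y hy => Finset.sum_congr rfl fun x hx => ?_
  by_cases hXg : X ∣ x ^ 2 + X * y ^ 2
  swap
  · rw [if_neg hXg, if_neg (fun h => hXg h.1)]; simp
  rw [if_pos hXg]
  by_cases hs : Squarefree (x ^ 2 + X * y ^ 2)
  · obtain ⟨hg1, hg2⟩ := mem_Mn.1 (sq_add_mem_Mn hx hy)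
    obtain ⟨hy1, hy2⟩ := mem_Mn.1 hy
    have hx' := uone_natDegree_le hx
    have hxy := (squarefree_sq_add_iff x y).1 hs
    obtain ⟨g, hg⟩ := hXg
    rw [hg] at hg1 hg2 hs
    have hgm : g.Monic := monic_X.of_mul_monic_left hg1
    rw [monic_X.natDegree_mul hgm, natDegree_X] at hg2
    have h := count_eq (e := 1) (A₁ := 0) (e₀ := X) (m := m) (k'' := a.natDegree + m - k)
      ha hac hD hgm (hs.squarefree_of_dvd (dvd_mul_left _ _)) (by rw [hg, mul_comm]) hxy hy1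
      (by omega) (by omega) (by omega)
    simp only [one_dvd, and_true, mul_one, zero_mul, add_zero] at h
    have hf : ((Mn K (a.natDegree + m - k)).filter fun u =>
          X * a * y ∣ X * g * u + X * Δ * x + X * D * y) =
        (Mn K (a.natDegree + m - k)).filter fun u => a * y ∣ g * u + Δ * x + D * y := by
      refine Finset.filter_congr fun u _ => ?_
      rw [show X * g * u + X * Δ * x + X * D * y = X * (g * u + Δ * x + D * y) by ring,
        mul_assoc, mul_dvd_mul_iff_left X_ne_zero]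
    rw [hg, uone_divX, h, hf]
    simp only [dvd_mul_right, true_and]
    split_ifs <;> simp
  · rw [uone_mu_eq_zero hs]; simp

theorem U_one {a c : K[X]} (ha : a.Monic) (hac : IsCoprime a c) :
    ∃ m₀ : ℕ, ∀ m ≥ m₀, ∀ N : ℕ, m < N → 5000 * N ≤ 5001 * m →
      |UU a c m N| ≤ (Fintype.card K : ℝ) ^ m * (Fintype.card K : ℝ) ^ (-(m : ℝ) / 1000) := by
  obtain ⟨D, Δ, hD⟩ := exists_sq_add (a * c)
  obtain ⟨k₁, hk₁⟩ := uone_odd ha hac hD
  obtain ⟨k₂, hk₂⟩ := uone_evenA ha hac hD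
  obtain ⟨k₃, hk₃⟩ := uone_evenB ha hac hD
  have hq : (2 : ℝ) ≤ Fintype.card K := by exact_mod_cast Fintype.one_lt_card
  refine ⟨20000 + D.natDegree + Δ.natDegree + 2 * (k₁ + k₂ + k₃), fun m hm N h1 h2 => ?_⟩
  rw [UU]
  obtain ⟨k, rfl | rfl⟩ := Nat.even_or_odd' N
  · obtain ⟨j, rfl⟩ : ∃ j, k = j + 1 := ⟨k - 1, by omega⟩
    have hA := hk₂ j (by omega) m (by omega) (by omega) (by omega) (by omega)
    have hB := hk₃ (j + 1) (by omega) m (by omega) (by omega) (by omega) (by omega)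
    have nA := uone_num _ hq j m (by omega) (by omega)
    have nB := uone_num _ hq (j + 1) m (by omega) (by omega)
    have e1 := uone_sum_X (K := K) (2 * j + 1)
      (fun g => mu g * (((Mn K m).filter fun A => g ∣ a * A ^ 2 + c).card : ℝ))
    rw [e1, show 2 * j + 1 + 1 = 2 * (j + 1) by ring] at hA
    have e2 : ∑ g ∈ Mn K (2 * (j + 1)),
        mu g * (((Mn K m).filter fun A => g ∣ a * A ^ 2 + c).card : ℝ) =
        (∑ g ∈ Mn K (2 * (j + 1)), if X ∣ g then
          mu g * (((Mn K m).filter fun A => g ∣ a * A ^ 2 + c).card : ℝ) else 0) -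
        ∑ g ∈ Mn K (2 * (j + 1)),
          mu (X * g) * (((Mn K m).filter fun A => g ∣ a * A ^ 2 + c).card : ℝ) := by
      rw [← Finset.sum_sub_distrib]
      refine Finset.sum_congr rfl fun g _ => ?_
      rw [mu_irreducible_mul irreducible_X]
      split_ifs <;> ring
    rw [e2]
    refine (abs_sub _ _).trans ?_
    linarith
  · have hA := hk₁ k (by omega) m (by omega) (by omega) (by omega) (by omega)
    have nA := uone_num _ hq k m (by omega) (by omega)
    have : (0 : ℝ) ≤ (Fintype.card K : ℝ) ^ (2 * k) * (Fintype.card K : ℝ) ^ (-(k : ℝ) / 400) := by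
      positivity
    linarith

end Pool.Agent.P.MP_a1177c_nt.HL
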