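import Pool.Agent.P.MP_a1177c_nt.HL.Basic
import Pool.Agent.P.MP_a1177c_nt.HL.Psi
import Pool.Agent.P.MP_a1177c_nt.HL.Res

namespace Pool.Agent.P.MP_a1177c_nt.HL

open Polynomial Finset
open scoped Classical LaurentSeries

variable {K : Type*} [Field K] [Fintype K] [CharP K 2]

open WithZero

omit [Fintype K] [CharP K 2] in
theorem weyl_val_unit {u φ : K⸨X⸩} (hu : val (u - 1) < 1) (hφ : val φ < 1) :
    val (u + φ) = 1 := by
  have h : u + φ = 1 + ((u - 1) + φ) := by ring
  rw [h]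
  exact Valuation.map_one_add_of_lt _ (Valuation.map_add_lt _ hu hφ)

omit [Fintype K] [CharP K 2] in
theorem weyl_ne_zero {u : K⸨X⸩} (hu : val u = 1) : u ≠ 0 := by
  rintro rfl
  simp at hu

omit [Fintype K] [CharP K 2] in
theorem weyl_phi_zero {φ : K[X] → K⸨X⸩} (h : ∀ v w, φ (v + w) = φ v + φ w) : φ 0 = 0 := by
  have := h 0 0
  rw [add_zero] at this
  exact left_eq_add.1 this

omit [CharP K 2] in
theorem weyl_natDegree_lt {n : ℕ} {v : K[X]} (hv : v ∈ Pl K n) (h0 : v ≠ 0) :
    v.natDegree < n :=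
  (natDegree_lt_iff_degree_lt h0).2 (mem_Pl.1 hv)

omit [CharP K 2] in
theorem weyl_phi_lt {φ : K[X] → K⸨X⸩} (h : ∀ v w, φ (v + w) = φ v + φ w) {n : ℕ} {Γ : ℤ}
    (hv : ∀ v ∈ Pl K n, v ≠ 0 → val (φ v) = exp (-(Γ - 2 * v.natDegree)))
    (h1 : 2 * (n : ℤ) ≤ Γ) {v : K[X]} (hm : v ∈ Pl K n) : val (φ v) < 1 := by
  by_cases h0 : v = 0
  · rw [h0, weyl_phi_zero h, map_zero]
    exact zero_lt_one
  · have := weyl_natDegree_lt hm h0
    rw [hv v hm h0, ← exp_zero, exp_lt_exp]
    omega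

theorem weyl_base (J : ℕ) (β u : K⸨X⸩) (φ : K[X] → K⸨X⸩) (E Γ : ℤ)
    (hβ : val β = exp (E - 1)) (hu : val (u - 1) < 1) (hφ : ∀ v w, φ (v + w) = φ v + φ w)
    (hv : ∀ v ∈ Pl K J, v ≠ 0 → val (φ v) = exp (-(Γ - 2 * v.natDegree)))
    (h1 : 2 * (J : ℤ) ≤ Γ) (h2 : Even (E - Γ)) (h3 : E ≤ Γ) (h4 : Γ - E ≤ 2 * ((J : ℤ) - 1))
    (h5 : E + 4 * ((J : ℤ) - 1) < 2 * Γ) :
    ∑ v ∈ Pl K J, psi (res (β / (u + φ v))) = 0 := by
  have hu1 : val u = 1 := by
    simpa using weyl_val_unit (φ := 0) hu (by simp)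
  have hu0 := weyl_ne_zero hu1
  have hterm : ∀ v ∈ Pl K J, psi (res (β / (u + φ v))) =
      psi (res (β / u)) * psi (res (β * φ v / u ^ 2)) := by
    intro v hm
    have hw := weyl_val_unit hu (weyl_phi_lt hφ hv h1 hm)
    have hw0 := weyl_ne_zero hw
    have e1 : β / (u + φ v) =
        β / u + β * φ v / u ^ 2 + β * φ v ^ 2 / (u ^ 2 * (u + φ v)) := by
      field_simp
      linear_combination (-(β * (u * φ v + φ v ^ 2))) * (two_eq_zero_laurent (K := K))
    have e2 : res (β * φ v ^ 2 / (u ^ 2 * (u + φ v))) = 0 := by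
      apply res_eq_zero
      by_cases h0 : v = 0
      · rw [h0, weyl_phi_zero hφ]
        simp
      · have := weyl_natDegree_lt hm h0
        rw [map_div₀, map_mul, map_mul, map_pow, map_pow, hu1, hw, hβ, hv v hm h0, one_pow,
          mul_one, div_one, sq, ← exp_add, ← exp_add, exp_le_exp]
        omega
    rw [e1, res_add, res_add, e2, add_zero, psi_add]
  rw [sum_congr rfl hterm, ← mul_sum]
  obtain ⟨r, hr⟩ := h2
  obtain ⟨e, he⟩ : ∃ e : ℕ, (e : ℤ) = -r := ⟨(-r).toNat, by omega⟩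
  have hmem : ∀ a : K, C a * X ^ e ∈ Pl K J := fun a =>
    mem_Pl.2 ((degree_C_mul_X_pow_le e a).trans_lt (by exact_mod_cast (by omega : e < J)))
  let T : K →+ K := AddMonoidHom.mk' (fun a => res (β * φ (C a * X ^ e) / u ^ 2)) (by
    intro a b
    rw [C_add, add_mul, hφ, mul_add, add_div, res_add])
  have hinj : Function.Injective T := by
    rw [injective_iff_map_eq_zero]
    intro a ha
    by_contra h0
    refine res_ne_zero (φ := β * φ (C a * X ^ e) / u ^ 2) ?_
      (by simpa only [T, AddMonoidHom.mk'_apply] using ha)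
    have hne : C a * X ^ e ≠ (0 : K[X]) := mul_ne_zero (C_ne_zero.2 h0) (pow_ne_zero _ X_ne_zero)
    rw [map_div₀, map_mul, map_pow, hu1, hβ, hv _ (hmem a) hne, one_pow, div_one, ← exp_add,
      natDegree_C_mul_X_pow e a h0]
    congr 1
    omega
  obtain ⟨c, hc⟩ := exists_psi_eq_neg (K := K)
  obtain ⟨a, ha⟩ := Finite.surjective_of_injective hinj c
  rw [sum_Pl_eq_zero (fun v => psi (res (β * φ v / u ^ 2))) ?_ (hmem a) ?_, mul_zero]
  · intro v _ w _
    rw [hφ, mul_add, add_div, res_add, psi_add]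
  · rw [← hc, ← ha]
    rfl

theorem weyl_pair {β u : K⸨X⸩} {x y : K⸨X⸩} (h1 : u + x ≠ 0) (h2 : u + (x + y) ≠ 0) :
    psi (res (β / (u + x))) * psi (res (β / (u + (x + y)))) =
      psi (res (β * y / (u ^ 2 + u * y + x * (x + y)))) := by
  have e1 : u ^ 2 + u * y + x * (x + y) = (u + x) * (u + (x + y)) := by
    linear_combination (-(u * x)) * (two_eq_zero_laurent (K := K))
  rw [← psi_add, ← res_add, e1]
  congr 2
  field_simp
  linear_combination (β * (u + x)) * (two_eq_zero_laurent (K := K))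

/-- Weyl differencing, `i` steps. -/
theorem weyl (J L : ℕ) (hJ : 1 ≤ J) (i : ℕ) : ∀ (β u : K⸨X⸩) (φ : K[X] → K⸨X⸩) (E Γ : ℤ),
    val β = exp (E - 1) → val (u - 1) < 1 → (∀ v w, φ (v + w) = φ v + φ w) →
    (∀ v ∈ Pl K (J + i * L), v ≠ 0 → val (φ v) = exp (-(Γ - 2 * v.natDegree))) →
    2 * ((J + i * L : ℕ) : ℤ) ≤ Γ → Even (E - Γ) →
    E + Γ ≤ 2 * (2 ^ i * Γ - 2 * (2 ^ i - 1) * ((J + i * L : ℕ) : ℤ)) →
    2 * (2 ^ i * Γ - 2 * (2 ^ i - 1) * (J : ℤ)) - 2 * ((J : ℤ) - 1) ≤ E + Γ →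
    E + Γ + 4 * ((J : ℤ) - 1) < 3 * (2 ^ i * Γ - 2 * (2 ^ i - 1) * ((J + i * L : ℕ) : ℤ)) →
    ∀ χ : K[X] → ℝ, (∀ v w, χ (v + w) = χ v * χ w) → (∀ v, |χ v| = 1) →
    (i = 0 → ∀ v, χ v = 1) →
    |∑ v ∈ Pl K (J + i * L), χ v * psi (res (β / (u + φ v)))| ≤
      2 * (Fintype.card K : ℝ) ^ (-(L : ℝ) / 2 ^ i) * (Fintype.card K : ℝ) ^ (J + i * L) := by
  induction i with
  | zero =>
    intro β u φ E Γ hβ hu hφ hv h1 h2 h3 h4 h5 χ _ _ hχ
    simp only [zero_mul, add_zero, pow_zero, sub_self, mul_zero, one_mul, sub_zero] at *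
    simp only [hχ trivial, one_mul]
    rw [weyl_base J β u φ E Γ hβ hu hφ hv h1 h2 (by omega) (by omega) (by omega), abs_zero]
    positivity
  | succ i ih =>
    intro β u φ E Γ hβ hu hφ hv h1 h2 h3 h4 h5 χ hχ hχ1 _
    set n := J + (i + 1) * L with hn
    set n' := J + i * L with hn'
    have hnn : n = n' + L := by rw [hn, hn']; ring
    set q : ℝ := (Fintype.card K : ℝ) with hq
    have hq1 : 1 ≤ q := by
      rw [hq]
      exact_mod_cast Fintype.card_pos
    have hq0 : 0 < q := by linarith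
    set b : ℝ := q ^ (-(L : ℝ) / 2 ^ i) with hb
    have hb0 : 0 < b := by positivity
    set g : K[X] → ℝ := fun v => χ v * psi (res (β / (u + φ v))) with hg
    have hlt : ∀ v ∈ Pl K n, val (φ v) < 1 := fun v hm => weyl_phi_lt hφ hv h1 hm
    have hne : ∀ v ∈ Pl K n, u + φ v ≠ 0 := fun v hm => weyl_ne_zero (weyl_val_unit hu (hlt v hm))
    have hu1 : val u = 1 := by
      simpa using weyl_val_unit (φ := 0) hu (by simp)
    have hgabs : ∀ v, |g v| = 1 := fun v => by
      simp only [hg]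
      rw [abs_mul, hχ1, abs_psi, mul_one]
    have hsq : (∑ v ∈ Pl K n, g v) ^ 2 = ∑ w ∈ Pl K n, ∑ v ∈ Pl K n, g v * g (v + w) := by
      rw [sum_comm, sq, sum_mul]
      refine sum_congr rfl fun v hm => ?_
      rw [← mul_sum, ← sum_Pl_shift hm g]
      simp only [add_comm]
    have htriv : ∀ w, |∑ v ∈ Pl K n, g v * g (v + w)| ≤ q ^ n := by
      intro w
      refine (abs_sum_le_sum_abs _ _).trans (le_of_eq ?_)
      simp only [abs_mul, hgabs, mul_one, sum_const, card_Pl, nsmul_eq_mul]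
      push_cast
      rfl
    have hsub : Pl K n' ⊆ Pl K n := Pl_mono (by omega)
    have hmain : ∀ w ∈ Pl K n, w ∉ Pl K n' →
        |∑ v ∈ Pl K n, g v * g (v + w)| ≤ 2 * b * q ^ n := by
      intro w hw hw'
      have hw0 : w ≠ 0 := by
        rintro rfl
        exact hw' (mem_Pl.2 (by simp))
      have he1 : w.natDegree < n := weyl_natDegree_lt hw hw0
      have he2 : n' ≤ w.natDegree := by
        by_contra hc
        exact hw' (mem_Pl.2 ((natDegree_lt_iff_degree_lt hw0).1 (by omega)))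
      set ψ : K[X] → K⸨X⸩ := fun v => φ v * (φ v + φ w) with hψ
      have hψadd : ∀ v v', ψ (v + v') = ψ v + ψ v' := by
        intro v v'
        simp only [hψ]
        rw [hφ]
        linear_combination (φ v * φ v') * (two_eq_zero_laurent (K := K))
      have hpair : ∀ v ∈ Pl K n, g v * g (v + w) =
          χ w * psi (res (β * φ w / (u ^ 2 + u * φ w + ψ v))) := by
        intro v hm
        have a1 := hne v hm
        have a2 := hne _ (add_mem_Pl hm hw)
        rw [hφ] at a2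
        have a3 : χ v * χ v = 1 := by
          have := hχ1 v
          rw [← sq, ← sq_abs, this, one_pow]
        simp only [hg, hψ]
        rw [← weyl_pair a1 a2, hχ, hφ]
        linear_combination
          (χ w * psi (res (β / (u + φ v))) * psi (res (β / (u + (φ v + φ w))))) * a3
      rw [sum_congr rfl hpair, ← mul_sum, abs_mul, hχ1, one_mul]
      refine abs_sum_Pl_le_of_cosets (J₁ := n') (by omega) _ _ fun v₀ hv₀ => ?_
      have hP : (1 : ℤ) ≤ 2 ^ i := one_le_pow₀ (by norm_num)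
      have he1' : (w.natDegree : ℤ) < n := by exact_mod_cast he1
      have he2' : (n' : ℤ) ≤ w.natDegree := by exact_mod_cast he2
      have hJn : (J : ℤ) ≤ n' := by exact_mod_cast Nat.le_add_right _ _
      have k1 : 2 ^ (i + 1) * Γ - 2 * (2 ^ (i + 1) - 1) * (n : ℤ) ≤
          2 ^ i * (2 * Γ - 2 * w.natDegree) - 2 * (2 ^ i - 1) * (n' : ℤ) := by
        rw [pow_succ]
        nlinarith
      have k2 : 2 ^ i * (2 * Γ - 2 * w.natDegree) - 2 * (2 ^ i - 1) * (J : ℤ) ≤
          2 ^ (i + 1) * Γ - 2 * (2 ^ (i + 1) - 1) * (J : ℤ) := by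
        rw [pow_succ]
        nlinarith
      have key := ih (β * φ w) (u ^ 2 + u * φ w + ψ v₀) ψ (E - Γ + 2 * w.natDegree)
        (2 * Γ - 2 * w.natDegree) ?_ ?_ hψadd ?_ (by omega) ?_ (by linarith) (by linarith)
        (by linarith) (fun _ => 1) (by simp) (by simp) (by simp)
      · simp only [one_mul] at key
        simp only [hψadd, ← add_assoc]
        exact key
      · rw [map_mul, hβ, hv w hw hw0, ← exp_add]
        congr 1
        ring
      · have e1 : u ^ 2 + u * φ w + ψ v₀ - 1 =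
            (u - 1) * (u - 1) + u * φ w + φ v₀ * φ (v₀ + w) := by
          simp only [hψ]
          rw [hφ]
          linear_combination (u - 1) * (two_eq_zero_laurent (K := K))
        rw [e1]
        refine Valuation.map_add_lt _ (Valuation.map_add_lt _ ?_ ?_) ?_
        · rw [map_mul]
          exact mul_lt_one_of_nonneg_of_lt_one_left zero_le hu hu.le
        · rw [map_mul, hu1, one_mul]
          exact hlt w hw
        · rw [map_mul]
          exact mul_lt_one_of_nonneg_of_lt_one_left zero_le (hlt _ hv₀)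
            (hlt _ (add_mem_Pl hv₀ hw)).le
      · intro v hm h0
        have d1 := weyl_natDegree_lt hm h0
        have d2 : (v + w).natDegree = w.natDegree :=
          natDegree_add_eq_right_of_natDegree_lt (by omega)
        have d3 : v + w ≠ 0 := by
          intro hc
          rw [hc, natDegree_zero] at d2
          omega
        simp only [hψ]
        rw [← hφ, map_mul, hv v (hsub hm) h0, hv _ (add_mem_Pl (hsub hm) hw) d3, d2, ← exp_add]
        congr 1
        ring
      · obtain ⟨r, hr⟩ := h2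
        exact ⟨r - Γ + 2 * w.natDegree, by omega⟩
    have hL : q ^ n' ≤ b * q ^ n := by
      have e1 : q ^ (-(L : ℝ)) ≤ b := by
        refine Real.rpow_le_rpow_of_exponent_le hq1 ?_
        have : (1 : ℝ) ≤ 2 ^ i := one_le_pow₀ (by norm_num)
        rw [le_div_iff₀ (by positivity)]
        nlinarith [Nat.cast_nonneg (α := ℝ) L]
      calc q ^ n' = q ^ (-(L : ℝ)) * q ^ n := by
            rw [hnn, pow_add q n' L, Real.rpow_neg hq0.le, Real.rpow_natCast]
            field_simp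
        _ ≤ b * q ^ n := by gcongr
    have hbound : (∑ v ∈ Pl K n, g v) ^ 2 ≤ 3 * b * (q ^ n) ^ 2 := by
      rw [hsq, ← sum_sdiff hsub]
      have s1 : ∑ w ∈ Pl K n \ Pl K n', ∑ v ∈ Pl K n, g v * g (v + w) ≤
          q ^ n * (2 * b * q ^ n) := by
        refine (sum_le_card_nsmul _ _ (2 * b * q ^ n) fun w hw => ?_).trans ?_
        · rw [mem_sdiff] at hw
          exact (le_abs_self _).trans (hmain w hw.1 hw.2)
        · rw [nsmul_eq_mul]
          gcongr
          have := card_le_card (sdiff_subset (s := Pl K n) (t := Pl K n'))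
          rw [card_Pl] at this
          rw [hq]
          exact_mod_cast this
      have s2 : ∑ w ∈ Pl K n', ∑ v ∈ Pl K n, g v * g (v + w) ≤ q ^ n' * q ^ n := by
        refine (sum_le_card_nsmul _ _ (q ^ n) fun w _ =>
          (le_abs_self _).trans (htriv w)).trans (le_of_eq ?_)
        rw [nsmul_eq_mul, card_Pl]
        push_cast
        rfl
      have s3 : q ^ n' * q ^ n ≤ b * q ^ n * q ^ n := by gcongr
      nlinarith
    have hb2 : (q ^ (-(L : ℝ) / 2 ^ (i + 1))) ^ 2 = b := by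
      rw [← Real.rpow_natCast, ← Real.rpow_mul hq0.le, hb]
      congr 1
      push_cast
      rw [pow_succ]
      field_simp
    refine abs_le_of_sq_le_sq' ?_ (by positivity) |> abs_le.2
    rw [mul_pow, mul_pow, hb2]
    have : 0 ≤ b * (q ^ n) ^ 2 := by positivity
    nlinarith

end Pool.Agent.P.MP_a1177c_nt.HL
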